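import Pool.Agent.Helper55.DH.Model
import Mathlib.Analysis.SpecialFunctions.Log.Base

/-!
# Decision trees with knowledge

`K : Finset (τ → SignType)` is the set of the still possible worlds. `refine ω p K` is what remains of it after the run of `p` in the world `ω`.
-/

open Classical

namespace Pool.Agent.Helper55.DH

variable {τ α β : Type}

namespace DTree

/-- All questions of the tree are in `S`. -/
def All (S : Set τ) : DTree τ α → Prop
  | .done _ => True
  | .ask t f => t ∈ S ∧ ∀ s, (f s).All S

/-- The worlds of `K` which give the same answers as `ω` to the questions asked by `p` in the world `ω`. -/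
noncomputable def refine (ω : τ → SignType) : DTree τ α → Finset (τ → SignType) → Finset (τ → SignType)
  | .done _, K => K
  | .ask t f, K => (f (ω t)).refine ω (K.filter fun w => w t = ω t)

/-- Run `p`, then continue with a tree which may depend on the result and on the remaining worlds. -/
noncomputable def bindK : DTree τ α → Finset (τ → SignType) → (α → Finset (τ → SignType) → DTree τ β) → DTree τ β
  | .done a, K, F => F a K
  | .ask t f, K, F => .ask t fun s => (f s).bindK (K.filter fun w => w t = s) F

/-- Postprocessing of the result. -/
def map (h : α → β) : DTree τ α → DTree τ β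
  | .done a => .done (h a)
  | .ask t f => .ask t fun s => (f s).map h

theorem eval_bindK (ω : τ → SignType) (p : DTree τ α) (K : Finset (τ → SignType))
    (F : α → Finset (τ → SignType) → DTree τ β) :
    (p.bindK K F).eval ω = (F (p.eval ω) (p.refine ω K)).eval ω := by
  induction p generalizing K with
  | done a => rfl
  | ask t f ih => simpa [bindK, eval, refine] using ih (ω t) _

theorem cost_bindK (ω : τ → SignType) (p : DTree τ α) (K : Finset (τ → SignType))
    (F : α → Finset (τ → SignType) → DTree τ β) :
    (p.bindK K F).cost ω = p.cost ω + (F (p.eval ω) (p.refine ω K)).cost ω := by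
  induction p generalizing K with
  | done a => simp [bindK, cost, eval, refine]
  | ask t f ih => simp only [bindK, cost, eval, refine, ih]; ring

theorem refine_bindK (ω : τ → SignType) (p : DTree τ α) (K : Finset (τ → SignType))
    (F : α → Finset (τ → SignType) → DTree τ β) :
    (p.bindK K F).refine ω K = (F (p.eval ω) (p.refine ω K)).refine ω (p.refine ω K) := by
  induction p generalizing K with
  | done a => rfl
  | ask t f ih => simpa [bindK, eval, refine] using ih (ω t) _

theorem all_bindK {S : Set τ} {p : DTree τ α} (hp : p.All S) (K : Finset (τ → SignType))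
    {F : α → Finset (τ → SignType) → DTree τ β} (hF : ∀ a K', (F a K').All S) : (p.bindK K F).All S := by
  induction p generalizing K with
  | done a => exact hF _ _
  | ask t f ih => exact ⟨hp.1, fun s => ih s (hp.2 s) _⟩

theorem All.mono {S T : Set τ} (h : S ⊆ T) {p : DTree τ α} (hp : p.All S) : p.All T := by
  induction p with
  | done a => trivial
  | ask t f ih => exact ⟨h hp.1, fun s => ih s (hp.2 s)⟩

@[simp] theorem eval_map (ω : τ → SignType) (h : α → β) (p : DTree τ α) : (p.map h).eval ω = h (p.eval ω) := by
  induction p with
  | done a => rfl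
  | ask t f ih => simpa [map, eval] using ih (ω t)

@[simp] theorem cost_map (ω : τ → SignType) (h : α → β) (p : DTree τ α) : (p.map h).cost ω = p.cost ω := by
  induction p with
  | done a => rfl
  | ask t f ih => simp [map, cost, ih]

@[simp] theorem refine_map (ω : τ → SignType) (h : α → β) (p : DTree τ α) (K : Finset (τ → SignType)) :
    (p.map h).refine ω K = p.refine ω K := by
  induction p generalizing K with
  | done a => rfl
  | ask t f ih => simpa [map, refine] using ih (ω t) _

theorem all_map {S : Set τ} {p : DTree τ α} (hp : p.All S) (h : α → β) : (p.map h).All S := by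
  induction p with
  | done a => trivial
  | ask t f ih => exact ⟨hp.1, fun s => ih s (hp.2 s)⟩

theorem refine_subset (ω : τ → SignType) (p : DTree τ α) (K : Finset (τ → SignType)) : p.refine ω K ⊆ K := by
  induction p generalizing K with
  | done a => exact subset_rfl
  | ask t f ih => exact (ih (ω t) _).trans (Finset.filter_subset _ _)

theorem mem_refine_self {ω : τ → SignType} (p : DTree τ α) {K : Finset (τ → SignType)} (h : ω ∈ K) :
    ω ∈ p.refine ω K := by
  induction p generalizing K with
  | done a => exact h
  | ask t f ih => exact ih (ω t) (by simp [h])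

/-- The remaining worlds give the same run. -/
theorem eval_of_mem_refine {ω w : τ → SignType} (p : DTree τ α) {K : Finset (τ → SignType)} (h : w ∈ p.refine ω K) :
    p.eval w = p.eval ω := by
  induction p generalizing K with
  | done a => rfl
  | ask t f ih =>
    have h1 : w t = ω t := by
      have := refine_subset ω (f (ω t)) _ h
      simpa using (Finset.mem_filter.mp this).2
    simp only [eval, h1]
    exact ih (ω t) h

theorem cost_of_mem_refine {ω w : τ → SignType} (p : DTree τ α) {K : Finset (τ → SignType)} (h : w ∈ p.refine ω K) :
    p.cost w = p.cost ω := by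
  induction p generalizing K with
  | done a => rfl
  | ask t f ih =>
    have h1 : w t = ω t := by
      have := refine_subset ω (f (ω t)) _ h
      simpa using (Finset.mem_filter.mp this).2
    simp only [cost, h1]
    rw [ih (ω t) h]

theorem refine_of_mem_refine {ω w : τ → SignType} (p : DTree τ α) {K : Finset (τ → SignType)} (h : w ∈ p.refine ω K) :
    p.refine w K = p.refine ω K := by
  induction p generalizing K with
  | done a => rfl
  | ask t f ih =>
    have h1 : w t = ω t := by
      have := refine_subset ω (f (ω t)) _ h
      simpa using (Finset.mem_filter.mp this).2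
    simp only [refine, h1]
    exact ih (ω t) h

/-- If two worlds agree on the questions of the tree, the runs are the same. -/
theorem eval_congr {S : Set τ} {p : DTree τ α} (hp : p.All S) {o o' : τ → SignType} (h : ∀ t ∈ S, o t = o' t) :
    p.eval o = p.eval o' := by
  induction p with
  | done a => rfl
  | ask t f ih =>
    simp only [eval, h t hp.1]
    exact ih _ (hp.2 _)

theorem cost_congr {S : Set τ} {p : DTree τ α} (hp : p.All S) {o o' : τ → SignType} (h : ∀ t ∈ S, o t = o' t) :
    p.cost o = p.cost o' := by
  induction p with
  | done a => rfl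
  | ask t f ih =>
    simp only [cost, h t hp.1]
    rw [ih _ (hp.2 _)]

theorem refine_congr {S : Set τ} {p : DTree τ α} (hp : p.All S) {o o' : τ → SignType} (h : ∀ t ∈ S, o t = o' t)
    (K : Finset (τ → SignType)) : p.refine o K = p.refine o' K := by
  induction p generalizing K with
  | done a => rfl
  | ask t f ih =>
    simp only [refine, h t hp.1]
    exact ih _ (hp.2 _) _

/-- The potential inequality: in all worlds of `K` the number of questions is at most `b` plus `a` times the number of bits of
information gained. -/
def Eff (a b : ℝ) (K : Finset (τ → SignType)) (p : DTree τ α) : Prop :=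
  ∀ ω ∈ K, (p.cost ω : ℝ) + a * Real.logb 2 (p.refine ω K).card ≤ b + a * Real.logb 2 K.card

theorem eff_done (a b : ℝ) (hb : 0 ≤ b) (K : Finset (τ → SignType)) (x : α) : Eff a b K (.done x : DTree τ α) := by
  intro ω _
  simp [cost, refine, hb]

theorem Eff.mono {a b b' : ℝ} (h : b ≤ b') {K : Finset (τ → SignType)} {p : DTree τ α} (hp : Eff a b K p) :
    Eff a b' K p := fun ω hω => (hp ω hω).trans (by linarith)

theorem eff_bindK {a b b' : ℝ} {K : Finset (τ → SignType)} {p : DTree τ α} (hp : Eff a b K p)
    {F : α → Finset (τ → SignType) → DTree τ β}
    (hF : ∀ ω ∈ K, Eff a b' (p.refine ω K) (F (p.eval ω) (p.refine ω K))) : Eff a (b + b') K (p.bindK K F) := by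
  intro ω hω
  have h1 := hp ω hω
  have h2 := hF ω hω ω (mem_refine_self p hω)
  rw [cost_bindK, refine_bindK]
  push_cast
  linarith

theorem eff_map {a b : ℝ} {K : Finset (τ → SignType)} {p : DTree τ α} (hp : Eff a b K p) (h : α → β) :
    Eff a b K (p.map h) := by
  intro ω hω
  simpa using hp ω hω

/-- A tree with at most `n` questions. -/
theorem eff_of_cost_le {a : ℝ} (ha : 0 ≤ a) {n : ℕ} {K : Finset (τ → SignType)} {p : DTree τ α}
    (hp : ∀ ω ∈ K, p.cost ω ≤ n) : Eff a n K p := by
  intro ω hω
  have h1 : (p.cost ω : ℝ) ≤ n := by exact_mod_cast hp ω hω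
  have h0 : 0 < (p.refine ω K).card := Finset.card_pos.mpr ⟨ω, mem_refine_self p hω⟩
  have h2 : Real.logb 2 (p.refine ω K).card ≤ Real.logb 2 K.card := by
    apply Real.logb_le_logb_of_le (by norm_num) (by exact_mod_cast h0)
    exact_mod_cast Finset.card_le_card (refine_subset ω p K)
  nlinarith [mul_le_mul_of_nonneg_left h2 ha]

/-- Translation of the questions. -/
def lift {σ : Type} (g : τ → σ) : DTree τ α → DTree σ α
  | .done a => .done a
  | .ask t f => .ask (g t) fun s => (f s).lift g

theorem eval_lift {σ : Type} (g : τ → σ) (o : σ → SignType) (p : DTree τ α) :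
    (p.lift g).eval o = p.eval (fun t => o (g t)) := by
  induction p with
  | done a => rfl
  | ask t f ih => simpa [lift, eval] using ih _

theorem cost_lift {σ : Type} (g : τ → σ) (o : σ → SignType) (p : DTree τ α) :
    (p.lift g).cost o = p.cost (fun t => o (g t)) := by
  induction p with
  | done a => rfl
  | ask t f ih => simp [lift, cost, ih]

/-- Translation of the answers. -/
def twist (g : τ → SignType → SignType) : DTree τ α → DTree τ α
  | .done a => .done a
  | .ask t f => .ask t fun s => (f (g t s)).twist g

theorem eval_twist (g : τ → SignType → SignType) (o : τ → SignType) (p : DTree τ α) :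
    (p.twist g).eval o = p.eval (fun t => g t (o t)) := by
  induction p with
  | done a => rfl
  | ask t f ih => simpa [twist, eval] using ih _

theorem cost_twist (g : τ → SignType → SignType) (o : τ → SignType) (p : DTree τ α) :
    (p.twist g).cost o = p.cost (fun t => g t (o t)) := by
  induction p with
  | done a => rfl
  | ask t f ih => simp [twist, cost, ih]

theorem all_twist {S : Set τ} (g : τ → SignType → SignType) {p : DTree τ α} (hp : p.All S) : (p.twist g).All S := by
  induction p with
  | done a => trivial
  | ask t f ih => exact ⟨hp.1, fun s => ih _ (hp.2 _)⟩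

/-- Knowledge after a twisted tree: `g t` is injective for all `t`. -/
theorem refine_twist (g : τ → SignType → SignType) (hg : ∀ t, Function.Injective (g t)) (ω : τ → SignType)
    (p : DTree τ α) (K : Finset (τ → SignType)) (w : τ → SignType) :
    w ∈ (p.twist g).refine ω K ↔
      w ∈ K ∧ (fun t => g t (w t)) ∈ p.refine (fun t => g t (ω t)) (K.image fun w t => g t (w t)) := by
  induction p generalizing K with
  | done a =>
    simp only [twist, refine, Finset.mem_image]
    constructor
    · intro h
      exact ⟨h, w, h, rfl⟩
    · exact fun h => h.1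
  | ask t f ih =>
    simp only [twist, refine]
    rw [ih]
    have e : ((K.filter fun w => w t = ω t).image fun w t => g t (w t)) =
        (K.image fun w t => g t (w t)).filter fun w => w t = g t (ω t) := by
      ext v
      simp only [Finset.mem_image, Finset.mem_filter]
      constructor
      · rintro ⟨w, ⟨hw, hw'⟩, rfl⟩
        exact ⟨⟨w, hw, rfl⟩, by simp [hw']⟩
      · rintro ⟨⟨w, hw, rfl⟩, h⟩
        exact ⟨w, ⟨hw, hg t h⟩, rfl⟩
    rw [e]
    constructor
    · rintro ⟨h1, h2⟩
      exact ⟨(Finset.mem_filter.mp h1).1, h2⟩
    · rintro ⟨h1, h2⟩
      refine ⟨Finset.mem_filter.mpr ⟨h1, ?_⟩, h2⟩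
      have := refine_subset _ _ _ h2
      exact hg t (Finset.mem_filter.mp this).2

end DTree

end Pool.Agent.Helper55.DH
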