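import Pool.Agent.Helper55.DH.EStep

/-!
# DH-E6: the final theorem
-/

open Classical

namespace Pool.Agent.Helper55.DH

theorem sgn_mem_Om {N : ℕ} (c : Fin N → ℝ × ℝ) : sgn c ∈ Om N := by
  simp only [Om, Finset.mem_filter, Finset.mem_univ, true_and]
  exact ⟨c, rfl⟩

theorem mem_Om {N : ℕ} {ω : Tst N → SignType} (h : ω ∈ Om N) : ∃ c, sgn c = ω := by
  simpa only [Om, Finset.mem_filter, Finset.mem_univ, true_and] using h

theorem inv_init (ops : ℕ → Op) : Inv ops 0 St.init := by
  refine ⟨rfl, le_rfl, ⟨subset_rfl, ?_, trivial, ?_, ?_⟩, ?_, ?_, ?_, Or.inl ⟨rfl, rfl, rfl⟩⟩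
  · intro i _
    exact absurd i.isLt (Nat.not_lt_zero _)
  · intro ω _
    exact List.Pairwise.nil
  · intro b hb
    exact absurd hb List.not_mem_nil
  · intro c _
    exact sgn_mem_Om (N := 0) c
  · intro i hi
    exact absurd i.isLt (Nat.not_lt_zero _)
  · show _ = (∅ : Set (ℝ × ℝ))
    rw [Set.image_eq_empty, Set.eq_empty_iff_forall_notMem]
    intro i _
    exact absurd i.isLt (Nat.not_lt_zero _)

theorem pot_nonneg {ops : ℕ → Op} {τ : ℕ} {s : St} (hI : Inv ops τ s) : 0 ≤ s.pot := by
  unfold St.pot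
  have h1 : 0 ≤ Real.logb 2 (s.K.card : ℝ) := logb_card_nonneg _ ⟨_, hI.mem⟩
  have h2 : (s.n0 : ℝ) ≤ s.used := by
    rcases hI.len with ⟨_, h0, hu⟩ | ⟨_, h0, _⟩
    · rw [h0, hu]
    · exact_mod_cast h0
  have h3 := one_le_logb s.n0
  have h4 : 0 ≤ (s.used : ℝ) - s.n0 := by linarith
  positivity

theorem pot_init : St.init.pot = 0 := by
  have h : (Om 0).card = 1 := by
    rw [Finset.card_eq_one]
    refine ⟨sgn (fun i => i.elim0), ?_⟩
    ext ω
    rw [Finset.mem_singleton]
    constructor
    · intro h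
      obtain ⟨c, rfl⟩ := mem_Om h
      congr 1
      funext i
      exact i.elim0
    · rintro rfl
      exact sgn_mem_Om _
  simp [St.pot, St.init, h]

theorem length_eq_ncard {ops : ℕ → Op} {τ : ℕ} {s : St} (hI : Inv ops τ s) :
    s.t.toList.length = (current ops τ).ncard := by
  have hs := hI.good.2.2.2.1 _ hI.mem
  have hinj : s.t.toList.Pairwise fun i j => pt ops (s.g i) ≠ pt ops (s.g j) := by
    refine hs.imp ?_
    intro i j hij h
    rw [(lx_sgn _ i j).mpr h] at hij
    exact absurd hij (by decide)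
  have hmap : (s.t.toList.map fun i => pt ops (s.g i)).Nodup := by
    rw [List.Nodup, List.pairwise_map]
    exact hinj
  rw [← hI.cur]
  have hset : (fun i => pt ops (s.g i)) '' {i | i ∈ s.t.toList} =
      ((s.t.toList.map fun i => pt ops (s.g i)).toFinset : Set (ℝ × ℝ)) := by
    ext z
    simp
  rw [hset, Set.ncard_coe_finset, List.toFinset_card_of_nodup hmap, List.length_map]

theorem step_kind {k : Kind} (h : k ≠ .stab) : ∃ ins, k = kindOf ins := by
  cases k with
  | insert => exact ⟨true, rfl⟩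
  | delete => exact ⟨false, rfl⟩
  | stab => exact absurd rfl h

theorem step_kindOf (s : St) (ins : Bool) : s.step (kindOf ins) = s.upd ins := by
  cases ins <;> rfl

theorem inv_mem (ops : ℕ → Op) (t : ℕ) : Inv ops t (theDS.mem ops t) := by
  induction t with
  | zero => exact inv_init ops
  | succ t ih =>
    show Inv ops (t + 1) (((theDS.mem ops t : St).step (ops t).kind).eval (gs ops t)).1
    by_cases hk : (ops t).kind = .stab
    · rw [hk]
      exact (query_spec ih hk).1
    · obtain ⟨ins, hins⟩ := step_kind hk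
      rw [hins, step_kindOf]
      exact (stupd_spec ih hins).1

theorem cost_le (ops : ℕ → Op) (t : ℕ) :
    (theDS.cost ops t : ℝ) + (theDS.mem ops (t + 1) : St).pot ≤
      (theDS.mem ops t : St).pot + 22000 * (Nat.log 2 ((current ops t).ncard + 2) : ℝ) := by
  have hI := inv_mem ops t
  rw [← length_eq_ncard hI]
  show ((((theDS.mem ops t : St).step (ops t).kind).cost (gs ops t) : ℕ) : ℝ) +
    (((theDS.mem ops t : St).step (ops t).kind).eval (gs ops t)).1.pot ≤ _
  by_cases hk : (ops t).kind = .stab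
  · rw [hk]
    obtain ⟨-, h2, h3⟩ := query_spec hI hk
    have h4 : (((theDS.mem ops t : St).query.cost (gs ops t) : ℕ) : ℝ) ≤
        36 * (Nat.log 2 ((theDS.mem ops t : St).t.toList.length + 2) : ℝ) := by exact_mod_cast h3
    have h5 := one_le_natlog (theDS.mem ops t : St).t.toList.length
    show (((theDS.mem ops t : St).query.cost (gs ops t) : ℕ) : ℝ) +
      ((theDS.mem ops t : St).query.eval (gs ops t)).1.pot ≤ _
    rw [h2]
    linarith
  · obtain ⟨ins, hins⟩ := step_kind hk
    rw [hins, step_kindOf]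
    exact (stupd_spec hI hins).2

theorem main : ∃ D : Structure,
    (∀ (ops : ℕ → Op) (t : ℕ) (a b c : ℝ), ops t = .stab a b c → (a, b) ≠ (0, 0) →
      IsAnswer (current ops t) a b c (D.answer ops t)) ∧
    ∃ C : ℕ, (∀ (ops : ℕ → Op) (t : ℕ), (ops t).kind = .stab → D.cost ops t ≤ C * Nat.log 2 ((current ops t).ncard + 2)) ∧
      ∀ (ops : ℕ → Op) (T : ℕ),
        ∑ t ∈ Finset.range T, D.cost ops t ≤ C * ∑ t ∈ Finset.range T, Nat.log 2 ((current ops t).ncard + 2) := by
  refine ⟨theDS, ?_, 22000, ?_, ?_⟩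
  · intro ops t a b c ht hab
    have hI := inv_mem ops t
    have h := query_answer hI ht hab
    have hk : (ops t).kind = .stab := by rw [ht]; rfl
    unfold Structure.answer
    rw [hk]
    exact h
  · intro ops t hk
    have hI := inv_mem ops t
    obtain ⟨-, -, h3⟩ := query_spec hI hk
    rw [← length_eq_ncard hI]
    unfold Structure.cost
    rw [hk]
    refine le_trans h3 ?_
    exact Nat.mul_le_mul_right _ (by norm_num)
  · intro ops T
    have key : ∀ T, ((∑ t ∈ Finset.range T, theDS.cost ops t : ℕ) : ℝ) + (theDS.mem ops T : St).pot ≤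
        22000 * ((∑ t ∈ Finset.range T, Nat.log 2 ((current ops t).ncard + 2) : ℕ) : ℝ) := by
      intro T
      induction T with
      | zero =>
        have : (theDS.mem ops 0 : St).pot = 0 := pot_init
        simp [this]
      | succ T ih =>
        rw [Finset.sum_range_succ, Finset.sum_range_succ]
        have := cost_le ops T
        push_cast at ih this ⊢
        linarith
    have h1 := key T
    have h2 := pot_nonneg (inv_mem ops T)
    have h3 : ((∑ t ∈ Finset.range T, theDS.cost ops t : ℕ) : ℝ) ≤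
        ((22000 * ∑ t ∈ Finset.range T, Nat.log 2 ((current ops t).ncard + 2) : ℕ) : ℝ) := by
      push_cast at h1 ⊢
      linarith
    exact_mod_cast h3

end Pool.Agent.Helper55.DH
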