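import Pool.Agent.Helper55.DH.QDefs
import Mathlib.Algebra.MvPolynomial.Eval

/-!
# DH-E1: the polynomials of the data structure
-/

open Classical MvPolynomial

namespace Pool.Agent.Helper55.DH

/-- The nine polynomials. -/
noncomputable def polys : List (MvPolynomial (Fin 5 × Fin 3) ℤ) :=
  [X (1, 0) - X (0, 0),
   X (1, 1) - X (0, 1),
   (X (1, 0) - X (0, 0)) * (X (3, 1) - X (2, 1)) - (X (1, 1) - X (0, 1)) * (X (3, 0) - X (2, 0)),
   ((X (0, 0) - X (4, 0)) * (X (1, 1) - X (4, 1)) - (X (0, 1) - X (4, 1)) * (X (1, 0) - X (4, 0))) * (X (3, 0) - X (2, 0))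
     - ((X (2, 0) - X (4, 0)) * (X (3, 1) - X (4, 1)) - (X (2, 1) - X (4, 1)) * (X (3, 0) - X (4, 0))) * (X (1, 0) - X (0, 0)),
   ((X (0, 0) - X (4, 0)) * (X (1, 1) - X (4, 1)) - (X (0, 1) - X (4, 1)) * (X (1, 0) - X (4, 0))) * (X (3, 1) - X (2, 1))
     - ((X (2, 0) - X (4, 0)) * (X (3, 1) - X (4, 1)) - (X (2, 1) - X (4, 1)) * (X (3, 0) - X (4, 0))) * (X (1, 1) - X (0, 1)),
   X (4, 0),
   X (4, 1),
   X (4, 0) * X (0, 0) + X (4, 1) * X (0, 1) - X (4, 2),
   X (4, 0) * (X (1, 0) - X (0, 0)) + X (4, 1) * (X (1, 1) - X (0, 1))]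

theorem polys_length : polys.length = 9 := rfl

/-- The global questions. -/
abbrev GQ : Type := Fin polys.length × (Fin 5 → ℕ)

/-- The true answers during operation number `t`. -/
noncomputable def gs (ops : ℕ → Op) (t : ℕ) : GQ → SignType :=
  fun q => SignType.sign (MvPolynomial.aeval
    (fun v : Fin 5 × Fin 3 => if q.2 v.1 ≤ t then (ops (q.2 v.1)).arg v.2 else 0) (polys.get q.1))

/-- Translation of the tests on the slots of an epoch; `g i` = number of the operation whose argument is in slot `i`. -/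
def trT {N : ℕ} (g : Fin N → ℕ) (q : Tst N) : GQ := (⟨q.1.val, by rw [polys_length]; omega⟩, fun i => g (q.2 i))

/-- Translation of the questions of a query (operation number `t`). -/
def trQ {N : ℕ} (g : Fin N → ℕ) (t : ℕ) (q : QT (Fin N)) : GQ :=
  (⟨5 + q.1.val, by rw [polys_length]; omega⟩, fun i => if i = 4 then t else if i = 1 then g q.2.2 else g q.2.1)

theorem gs_trT (ops : ℕ → Op) (t : ℕ) {N : ℕ} (g : Fin N → ℕ) (c : Fin N → ℝ × ℝ) (q : Tst N)
    (h : ∀ k, g (q.2 k) ≤ t ∧ c (q.2 k) = pt ops (g (q.2 k))) : gs ops t (trT g q) = sgn c q := by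
  obtain ⟨k, ix⟩ := q
  simp only [gs, sgn]
  congr 1
  have h' : ∀ i, g (ix i) ≤ t := fun i => (h i).1
  have h'' : ∀ i, c (ix i) = pt ops (g (ix i)) := fun i => (h i).2
  fin_cases k <;> simp [trT, polys, val, h', h'', pt, cross]

theorem gs_trQ (ops : ℕ → Op) (t : ℕ) {N : ℕ} (g : Fin N → ℕ) (a b c : ℝ) (ht : ops t = .stab a b c) (q : QT (Fin N))
    (h1 : g q.2.1 ≤ t) (h2 : g q.2.2 ≤ t) : gs ops t (trQ g t q) = qs (fun i => pt ops (g i)) a b c q := by
  obtain ⟨k, i, j⟩ := q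
  simp only at h1 h2
  fin_cases k <;> simp [gs, qs, trQ, polys, h1, h2, pt, ht, Op.arg]

end Pool.Agent.Helper55.DH
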