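import Pool.Agent.Helper55.DH.EState

/-!
# DH-E3: queries
-/

open Classical

namespace Pool.Agent.Helper55.DH

theorem toList_mem_blocks {α : Type} (t : Tre α) (h : t.toList ≠ []) : t.toList ∈ t.blocks := by
  cases t with
  | nil => simp [Tre.toList] at h
  | leaf a => simp [Tre.toList, Tre.blocks]
  | node l r => simp [Tre.toList, Tre.blocks]

theorem Inv.mem {ops : ℕ → Op} {τ : ℕ} {s : St} (h : Inv ops τ s) : sgn (fun i => pt ops (s.g i)) ∈ s.K :=
  h.world _ fun _ _ => rfl

theorem current_stab {ops : ℕ → Op} {τ : ℕ} (hk : (ops τ).kind = .stab) : current ops (τ + 1) = current ops τ := by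
  rw [current]
  cases h : ops τ with
  | insert x y => rw [h] at hk; cases hk
  | delete x y => rw [h] at hk; cases hk
  | stab a b c => rfl

theorem query_spec {ops : ℕ → Op} {τ : ℕ} {s : St} (hI : Inv ops τ s) (hk : (ops τ).kind = .stab) :
    Inv ops (τ + 1) (s.query.eval (gs ops τ)).1 ∧ (s.query.eval (gs ops τ)).1.pot = s.pot ∧
      s.query.cost (gs ops τ) ≤ 36 * Nat.log 2 (s.t.toList.length + 2) := by
  have e : (s.query.eval (gs ops τ)).1 = ⟨s.now + 1, s.n0, s.N, s.used, s.g, s.K, s.t⟩ := by
    unfold St.query
    split_ifs with h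
    · simp [DTree.eval_map]
    · rfl
  refine ⟨?_, ?_, ?_⟩
  · rw [e]
    exact ⟨by simp [hI.now], hI.used, hI.good, hI.world, fun i hi => (hI.lt i hi).trans (Nat.lt_succ_self _),
      by rw [current_stab hk]; exact hI.cur, hI.len⟩
  · rw [e]; rfl
  · unfold St.query
    split_ifs with h
    · simp only [DTree.cost_map, DTree.cost_lift]
      refine ((stab_program _ _).choose_spec.2.1 _).trans ?_
      have h1 : (U h.1.choose s.t.toList).length + (U (neg h.1.choose) s.t.toList.reverse).length ≤
          2 * (s.t.toList.length + 2) := by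
        have a1 : (U h.1.choose s.t.toList).length ≤ s.t.toList.length := List.length_filter_le _ _
        have a2 : (U (neg h.1.choose) s.t.toList.reverse).length ≤ s.t.toList.reverse.length :=
          List.length_filter_le _ _
        rw [List.length_reverse] at a2
        omega
      have h2 : Nat.log 2 ((U h.1.choose s.t.toList).length + (U (neg h.1.choose) s.t.toList.reverse).length) ≤
          Nat.log 2 (s.t.toList.length + 2) + 1 := by
        refine (Nat.log_mono_right h1).trans ?_
        rw [Nat.mul_comm, Nat.log_mul_base (by norm_num) (by omega)]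
      have h3 : 0 < Nat.log 2 (s.t.toList.length + 2) := Nat.log_pos (by norm_num) (by omega)
      omega
    · exact Nat.zero_le _

theorem query_answer {ops : ℕ → Op} {τ : ℕ} {s : St} (hI : Inv ops τ s) {a b c : ℝ} (ht : ops τ = .stab a b c)
    (hab : (a, b) ≠ (0, 0)) :
    IsAnswer (current ops τ) a b c ((s.query.eval (gs ops τ)).2.map fun e => (pt ops e.1, pt ops e.2)) := by
  rw [← hI.cur]
  unfold St.query
  split_ifs with h
  · set c0 : Fin s.N → ℝ × ℝ := fun i => pt ops (s.g i) with hc0
    obtain ⟨ε, hε, hR, hV⟩ := rep_shear c0 {(b, -a)}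
    have hω := h.1.choose_spec
    have hkn := hI.good.2.2.2.2 _ (toList_mem_blocks s.t h.2) _ hω _ hI.mem
    have hup : U h.1.choose s.t.toList = UR (fun i => shear ε (c0 i)) s.t.toList := by
      rw [← hkn.1, U_eq_UR hR]
    have hlo : U (neg h.1.choose) s.t.toList.reverse = UR (fun i => - shear ε (c0 i)) s.t.toList.reverse := by
      rw [← hkn.2, U_eq_UR (rep_neg hR)]
    have hs : SrtR (fun i => shear ε (c0 i)) s.t.toList :=
      (srt_iff hR _).mp (hI.good.2.2.2.1 _ hI.mem)
    obtain ⟨hA, -, hC⟩ := (stab_program (U h.1.choose s.t.toList) (U (neg h.1.choose) s.t.toList.reverse)).choose_spec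
    have key := hC c0 s.t.toList ε a b c hab h.2 hs hup hlo (by simpa [sub_eq_add_neg] using hV (b, -a) (by simp))
    have hev : (stab_program (U h.1.choose s.t.toList) (U (neg h.1.choose) s.t.toList.reverse)).choose.eval
        (fun q => gs ops τ (trQ s.g s.now q)) =
        (stab_program (U h.1.choose s.t.toList) (U (neg h.1.choose) s.t.toList.reverse)).choose.eval (qs c0 a b c) := by
      apply DTree.eval_congr hA
      rintro q ⟨hq1, hq2⟩
      have hmem : ∀ i, i ∈ U h.1.choose s.t.toList ++ U (neg h.1.choose) s.t.toList.reverse → s.g i ≤ τ := by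
        intro i hi
        apply le_of_lt
        apply hI.lt
        apply hI.good.2.1
        rcases List.mem_append.mp hi with h' | h'
        · exact List.mem_of_mem_filter h'
        · exact List.mem_reverse.mp (List.mem_of_mem_filter h')
      rw [hI.now]
      exact gs_trQ ops τ s.g a b c ht q (hmem _ hq1) (hmem _ hq2)
    simp only [DTree.eval_map, DTree.eval_lift, hev, List.map_map]
    exact key
  · have hK : s.K.Nonempty := ⟨_, hI.mem⟩
    have hl : s.t.toList = [] := by
      by_contra h'
      exact h ⟨hK, h'⟩
    simp [hl, DTree.eval, IsAnswer]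

end Pool.Agent.Helper55.DH
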