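import Pool.Agent.Helper55.DH.QDefs

/-!
# DH-Q8a: the shear and the correct answers

`isAnswer_shear`: the shear `T = shear ε` is a linear homeomorphism of `ℝ × ℝ` (`LinearEquiv`, with inverse `shear (-ε)`), it maps segments to segments, convex hulls to convex hulls
(`LinearMap.image_convexHull`), frontiers to frontiers (`Homeomorph.image_frontier`), and the line `a x + b y = c` to the line `a x + (b - ε a) y = c`; a functional `(u, v)` for `T '' S`
becomes `(u, v + ε u)` for `S` (`u (x + ε y) + v y = u x + (v + ε u) y`).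
`isAnswer_neg`: `line (-a) (-b) (-c) = line a b c`.
-/

namespace Pool.Agent.Helper55.DH

/-- The shear as a linear equivalence. -/
def shearL (ε : ℝ) : (ℝ × ℝ) ≃ₗ[ℝ] (ℝ × ℝ) where
  toFun z := (z.1 + ε * z.2, z.2)
  invFun z := (z.1 - ε * z.2, z.2)
  map_add' x y := by ext <;> simp; ring
  map_smul' r x := by ext <;> simp; ring
  left_inv x := by ext <;> simp
  right_inv x := by ext <;> simp

/-- The shear as a homeomorphism. -/
noncomputable def shearH (ε : ℝ) : (ℝ × ℝ) ≃ₜ (ℝ × ℝ) where
  toEquiv := (shearL ε).toEquiv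
  continuous_toFun := by
    change Continuous (fun z : ℝ × ℝ => (z.1 + ε * z.2, z.2))
    fun_prop
  continuous_invFun := by
    change Continuous (fun z : ℝ × ℝ => (z.1 - ε * z.2, z.2))
    fun_prop

theorem shear_eq (ε : ℝ) (z : ℝ × ℝ) : shear ε z = shearL ε z := rfl

theorem shear_inj (ε : ℝ) : Function.Injective (shear ε) := (shearL ε).injective

theorem shear_hull (ε : ℝ) (S : Set (ℝ × ℝ)) : convexHull ℝ (shear ε '' S) = shear ε '' convexHull ℝ S :=
  ((shearL ε).toLinearMap.image_convexHull S).symm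

theorem shear_seg (ε : ℝ) (p q : ℝ × ℝ) : segment ℝ (shear ε p) (shear ε q) = shear ε '' segment ℝ p q := by
  have := image_segment ℝ (shearL ε).toLinearMap.toAffineMap p q
  exact this.symm

theorem shear_frontier (ε : ℝ) (S : Set (ℝ × ℝ)) : frontier (shear ε '' S) = shear ε '' frontier S :=
  ((shearH ε).image_frontier S).symm

theorem shear_line (ε : ℝ) {a b c : ℝ} {z : ℝ × ℝ} : shear ε z ∈ line a (b - ε * a) c ↔ z ∈ line a b c := by
  simp only [line, Set.mem_setOf_eq, shear]
  constructor <;> intro h <;> linarith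

theorem shear_edge (ε : ℝ) {S : Set (ℝ × ℝ)} {p q : ℝ × ℝ} (h : IsEdge (shear ε '' S) (shear ε p) (shear ε q)) : IsEdge S p q := by
  obtain ⟨h1, h2, h3, u, v, huv, h4⟩ := h
  have hp : p ∈ S := (shear_inj ε).mem_set_image.1 h1
  have hq : q ∈ S := (shear_inj ε).mem_set_image.1 h2
  refine ⟨hp, hq, ?_, u, v + ε * u, ?_, ?_⟩
  · intro hpq
    have := h3 (by rw [hpq])
    apply (shear_inj ε).image_injective
    rw [this, Set.image_singleton]
  · intro h
    apply huv
    rw [Prod.mk.injEq] at h ⊢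
    obtain ⟨ha, hb⟩ := h
    subst ha
    exact ⟨rfl, by simpa using hb⟩
  · ext z
    rw [shear_seg, shear_hull] at h4
    have key : z ∈ segment ℝ p q ↔ shear ε z ∈ shear ε '' segment ℝ p q := (shear_inj ε).mem_set_image.symm
    rw [key, h4]
    simp only [Set.mem_setOf_eq, (shear_inj ε).mem_set_image, Set.forall_mem_image]
    refine and_congr_right fun _ => forall₂_congr fun w _ => ?_
    simp only [shear]
    constructor <;> intro h <;> linarith

theorem isAnswer_shear (ε : ℝ) {S : Set (ℝ × ℝ)} {a b c : ℝ} {E : List ((ℝ × ℝ) × (ℝ × ℝ))}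
    (h : IsAnswer (shear ε '' S) a (b - ε * a) c (E.map fun e => (shear ε e.1, shear ε e.2))) : IsAnswer S a b c E := by
  obtain ⟨h1, h2, h3⟩ := h
  refine ⟨by simpa using h1, ?_, ?_⟩
  · intro e he
    obtain ⟨h4, h5⟩ := h2 (shear ε e.1, shear ε e.2) (List.mem_map_of_mem he)
    refine ⟨shear_edge ε h4, ?_⟩
    simp only at h5
    rw [shear_seg] at h5
    obtain ⟨_, ⟨z, hz, rfl⟩, hl⟩ := h5
    exact ⟨z, hz, (shear_line ε).1 hl⟩
  · rintro z ⟨hz, hl⟩
    obtain ⟨e, he, hze⟩ := h3 (shear ε z) ⟨by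
      rw [shear_hull, shear_frontier]
      exact Set.mem_image_of_mem _ hz, (shear_line ε).2 hl⟩
    rw [List.mem_map] at he
    obtain ⟨e', he', rfl⟩ := he
    refine ⟨e', he', ?_⟩
    simp only at hze
    rw [shear_seg] at hze
    exact (shear_inj ε).mem_set_image.1 hze

theorem isAnswer_neg {S : Set (ℝ × ℝ)} {a b c : ℝ} {E : List ((ℝ × ℝ) × (ℝ × ℝ))} (h : IsAnswer S (-a) (-b) (-c) E) :
    IsAnswer S a b c E := by
  have : line (-a) (-b) (-c) = line a b c := by
    ext z
    simp only [line, Set.mem_setOf_eq]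
    constructor <;> intro h <;> linarith
  unfold IsAnswer at *
  rwa [this] at h

end Pool.Agent.Helper55.DH
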