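import Pool.Agent.Helper55.DH.QProg
import Pool.Agent.Helper55.DH.QShear

/-!
# DH-Q8: the decision tree of a query in general

`stab_program`: ask `(1, i0, i0)` (sign of `b`, `i0` a member of `up`), if it is 0 ask `(0, i0, i0)` and take the negative: this is `β = lexs (b, -a)`. If `β = 1`: the tree of `stab_pos`; if
`β = -1`: this tree with all answers negated (`DTree.twist (fun _ s => -s)`): correct for `(-a, -b, -c)`; if `β = 0`: `done []` (then `a = b = 0`). With `P i = shear ε (p i)`: the form
`a x + (b - ε a) y` at `P i` is `a x + b y` at `p i`, so the answers to the questions 2, 3 are those of `qs P a (b - ε a) c`; `hε` says that the sign of `b - ε a` is `β`. Conclude with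
`isAnswer_shear`. If `up = []`: `done []`.
-/

namespace Pool.Agent.Helper55.DH

private theorem qf_sign (a b c ε : ℝ) {ι : Type} (p : ι → ℝ × ℝ) (q : QT ι)
    (hq : q.1 = 2 ∨ q.1 = 3) :
    qs p a b c q = qs (fun i => shear ε (p i)) a (b - ε * a) c q := by
  obtain ⟨t, i, j⟩ := q
  rcases hq with h | h
  · simp only at h
    subst h
    simp only [qs, shear]
    congr 1
    ring
  · simp only at h
    subst h
    simp only [qs, shear]
    congr 1
    ring

private theorem qf_neg (a b c : ℝ) {ι : Type} (p : ι → ℝ × ℝ) (q : QT ι)
    (hq : q.1 = 2 ∨ q.1 = 3) :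
    -(qs p a b c q) = qs p (-a) (-b) (-c) q := by
  obtain ⟨t, i, j⟩ := q
  rcases hq with h | h
  · simp only at h
    subst h
    simp only [qs]
    rw [← Left.sign_neg]
    congr 1
    ring
  · simp only at h
    subst h
    simp only [qs]
    rw [← Left.sign_neg]
    congr 1
    ring

private theorem qf_image {ι : Type} (ε : ℝ) (p : ι → ℝ × ℝ) (l : List ι) :
    (fun i => shear ε (p i)) '' {i | i ∈ l} = shear ε '' (p '' {i | i ∈ l}) := by
  rw [Set.image_image]

private theorem qf_map {ι : Type} (ε : ℝ) (p : ι → ℝ × ℝ) (E : List (ι × ι)) :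
    E.map (fun e => (shear ε (p e.1), shear ε (p e.2))) =
      (E.map fun e => (p e.1, p e.2)).map fun e => (shear ε e.1, shear ε e.2) := by
  rw [List.map_map]
  rfl

theorem stab_program {ι : Type} (up lo : List ι) :
    ∃ prog : DTree (QT ι) (List (ι × ι)), prog.All {q | q.2.1 ∈ up ++ lo ∧ q.2.2 ∈ up ++ lo} ∧
      (∀ o, prog.cost o ≤ 12 * (Nat.log 2 (up.length + lo.length) + 1)) ∧
      ∀ (p : ι → ℝ × ℝ) (l : List ι) (ε a b c : ℝ), (a, b) ≠ (0, 0) → l ≠ [] →
        SrtR (fun i => shear ε (p i)) l → up = UR (fun i => shear ε (p i)) l →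
        lo = UR (fun i => - shear ε (p i)) l.reverse →
        SignType.sign (b - ε * a) = lexs (b, -a) →
        IsAnswer (p '' {i | i ∈ l}) a b c ((prog.eval (qs p a b c)).map fun e => (p e.1, p e.2)) := by
  obtain ⟨T, hT1, hT2, hT3⟩ := stab_pos up lo
  cases hup0 : up with
  | nil =>
    refine ⟨.done [], trivial, fun o => Nat.zero_le _, ?_⟩
    intro p l ε a b c hab hl hs hup hlo hε
    exact absurd hup.symm (UR_ne_nil hs hl)
  | cons i0 up' =>
    rw [← hup0]
    have hi0 : i0 ∈ up ++ lo := by rw [hup0]; simp
    let Tn : DTree (QT ι) (List (ι × ι)) := T.twist fun _ s => -s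
    have hTn : Tn.All {q | q.2.1 ∈ up ++ lo ∧ q.2.2 ∈ up ++ lo} := DTree.all_twist _ hT1
    have hTnc : ∀ o, Tn.cost o ≤ 10 * (Nat.log 2 (up.length + lo.length) + 1) := fun o => by
      rw [DTree.cost_twist]
      exact hT2 _
    refine ⟨.ask (1, i0, i0) fun s => if s = 1 then T else if s = -1 then Tn else
      .ask (0, i0, i0) fun s' => if s' = -1 then T else if s' = 1 then Tn else .done [], ?_, ?_, ?_⟩
    · refine ⟨⟨hi0, hi0⟩, fun s => ?_⟩
      beta_reduce
      split_ifs
      · exact hT1
      · exact hTn
      · refine ⟨⟨hi0, hi0⟩, fun s' => ?_⟩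
        beta_reduce
        split_ifs
        · exact hT1
        · exact hTn
        · trivial
    · intro o
      simp only [DTree.cost]
      have h1 := hT2 o
      have h2 := hTnc o
      split_ifs
      · omega
      · omega
      · simp only [DTree.cost]
        split_ifs
        · omega
        · omega
        · simp only [DTree.cost]
          omega
    · intro p l ε a b c hab hl hs hup hlo hε
      have hpos : 0 < b - ε * a → IsAnswer (p '' {i | i ∈ l}) a b c
          ((T.eval (qs p a b c)).map fun e => (p e.1, p e.2)) := by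
        intro hb
        have h1 := hT3 (fun i => shear ε (p i)) l a (b - ε * a) c (qs p a b c) hs hl hup hlo hb
          fun q hq => qf_sign a b c ε p q hq
        rw [qf_image, qf_map] at h1
        exact isAnswer_shear ε h1
      have hneg : b - ε * a < 0 → IsAnswer (p '' {i | i ∈ l}) a b c
          ((Tn.eval (qs p a b c)).map fun e => (p e.1, p e.2)) := by
        intro hb
        have hb' : 0 < -b - ε * -a := by linarith
        have h1 := hT3 (fun i => shear ε (p i)) l (-a) (-b - ε * -a) (-c)
          (fun q => -(qs p a b c q)) hs hl hup hlo hb'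
          fun q hq => (qf_neg a b c p q hq).trans (qf_sign (-a) (-b) (-c) ε p q hq)
        rw [qf_image, qf_map] at h1
        have h2 := isAnswer_neg (isAnswer_shear ε h1)
        change IsAnswer _ _ _ _ ((DTree.eval _ (T.twist fun _ s => -s)).map _)
        rw [DTree.eval_twist]
        exact h2
      have hb1 : ∀ i, qs p a b c (1, i, i) = SignType.sign b := fun i => rfl
      have hb0 : ∀ i, qs p a b c (0, i, i) = SignType.sign a := fun i => rfl
      simp only [DTree.eval, hb1]
      rcases lt_trichotomy b 0 with hb | hb | hb
      · have h1 : SignType.sign b = -1 := sign_eq_neg_one_iff.2 hb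
        have h2 : SignType.sign (b - ε * a) = -1 := by
          rw [hε, lexs, if_pos (by simpa using hb.ne)]
          exact h1
        rw [h1, if_neg (by decide), if_pos rfl]
        exact hneg (sign_eq_neg_one_iff.1 h2)
      · subst hb
        rw [sign_zero, if_neg (by decide), if_neg (by decide)]
        simp only [DTree.eval, hb0]
        have h3 : SignType.sign (0 - ε * a) = SignType.sign (-a) := by
          rw [hε, lexs, if_neg (by simp)]
        rcases lt_trichotomy a 0 with ha | ha | ha
        · rw [sign_eq_neg_one_iff.2 ha, if_pos rfl]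
          apply hpos
          rw [sign_eq_one_iff.2 (by linarith : 0 < -a)] at h3
          exact sign_eq_one_iff.1 h3
        · subst ha
          exact absurd rfl hab
        · rw [sign_eq_one_iff.2 ha, if_neg (by decide), if_pos rfl]
          apply hneg
          rw [sign_eq_neg_one_iff.2 (by linarith : -a < 0)] at h3
          exact sign_eq_neg_one_iff.1 h3
      · have h1 : SignType.sign b = 1 := sign_eq_one_iff.2 hb
        have h2 : SignType.sign (b - ε * a) = 1 := by
          rw [hε, lexs, if_pos (by simpa using hb.ne')]
          exact h1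
        rw [h1, if_pos rfl]
        exact hpos (sign_eq_one_iff.1 h2)

end Pool.Agent.Helper55.DH
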