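import Pool.Agent.Helper55.DH.UpdDefs

/-!
# DH-S7: the rebuild at the beginning of an epoch

`rebuild`: `l = frst N n` = the indices `< n`; `sort_check l (Om N)`, then (if the remaining worlds `K1` are all sorted for `l`; otherwise return anything) `learn_tree t K1` for a
 balanced tree `t` with `t.toList = l` (`exists_good`), `unk ≤ blocks.length ≤ 2 n` (`blocks_length`): total `2 n + 36 * 2 n ≤ 100 (n + 1)`. Last step of the program:
 `(learn_tree …).bindK K1 (fun _ K2 => done (K2, t))`; `refine_bindK` gives `(p.eval ω).1 = p.refine ω (Om N)`.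
-/

open Classical

namespace Pool.Agent.Helper55.DH

private theorem frst_lt {N n : ℕ} {i : Fin N} (hi : i ∈ frst N n) : i.val < n := by
  simpa using (List.mem_filter.1 hi).2

private theorem frst_length (N n : ℕ) : (frst N n).length ≤ n := by
  have h1 : ((frst N n).map Fin.val).Nodup := by
    refine List.Nodup.map Fin.val_injective ?_
    exact (List.nodup_finRange N).filter _
  have h2 : ((frst N n).map Fin.val).toFinset ⊆ Finset.range n := by
    intro x hx
    rw [List.mem_toFinset, List.mem_map] at hx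
    obtain ⟨i, hi, rfl⟩ := hx
    exact Finset.mem_range.2 (frst_lt hi)
  have h3 := Finset.card_le_card h2
  rw [List.toFinset_card_of_nodup h1, List.length_map, Finset.card_range] at h3
  exact h3

/-- The second part of the program. -/
private noncomputable def second {N : ℕ} (t : Tre (Fin N)) (ht : t.Good) (K1 : Finset (Tst N → SignType)) :
    DTree (Tst N) (Finset (Tst N → SignType) × Tre (Fin N)) :=
  if h : K1 ⊆ Om N ∧ ∀ w ∈ K1, Srt w t.toList then
    (Classical.choose (learn_tree t ht K1 h.1 h.2)).bindK K1 fun _ K2 => .done (K2, t)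
  else .done (K1, t)

private theorem second_all {N n : ℕ} (t : Tre (Fin N)) (ht : t.Good) (K1 : Finset (Tst N → SignType)) (hn : ∀ i ∈ t.toList, i.val < n) :
    (second t ht K1).All {q | ∀ k, (q.2 k).val < n} := by
  unfold second
  split_ifs with h
  · have h1 := (Classical.choose_spec (learn_tree t ht K1 h.1 h.2)).1
    refine DTree.all_bindK (DTree.All.mono ?_ h1) _ fun _ _ => trivial
    intro q hq k
    exact hn _ (hq k)
  · trivial

theorem rebuild {N n : ℕ} (hn : n ≤ N) :
    ∃ p : DTree (Tst N) (Finset (Tst N → SignType) × Tre (Fin N)), p.All {q | ∀ k, (q.2 k).val < n} ∧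
      ∀ ω ∈ Om N, Srt ω (frst N n) → (p.eval ω).1 = p.refine ω (Om N) ∧ GoodK n (p.eval ω).1 (p.eval ω).2 ∧
        (p.eval ω).2.toList = frst N n ∧
        (p.cost ω : ℝ) + 12 * Real.logb 2 (p.refine ω (Om N)).card ≤ 100 * (n + 1 : ℝ) + 12 * Real.logb 2 (Om N).card := by
  obtain ⟨t, ht, htl⟩ := Tre.exists_good (frst N n)
  obtain ⟨p0, hp0, hc0, hs0⟩ := sort_check (frst N n) (Om N) subset_rfl
  have htn : ∀ i ∈ t.toList, i.val < n := fun i hi => frst_lt (htl ▸ hi)
  refine ⟨p0.bindK (Om N) fun _ K1 => second t ht K1, ?_, ?_⟩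
  · refine DTree.all_bindK (DTree.All.mono ?_ hp0) _ fun _ K' => second_all t ht K' htn
    intro q hq k
    exact frst_lt (hq k)
  · intro ω hω hsrt
    have hK1 : p0.refine ω (Om N) ⊆ Om N := DTree.refine_subset ω p0 (Om N)
    have hω1 : ω ∈ p0.refine ω (Om N) := DTree.mem_refine_self p0 hω
    have hS1 : ∀ w ∈ p0.refine ω (Om N), Srt w t.toList := by
      intro w hw
      rw [htl]
      exact hs0 ω hω hsrt w hw
    have h : p0.refine ω (Om N) ⊆ Om N ∧ ∀ w ∈ p0.refine ω (Om N), Srt w t.toList := ⟨hK1, hS1⟩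
    obtain ⟨hq1, hq2, hq3⟩ := Classical.choose_spec (learn_tree t ht (p0.refine ω (Om N)) h.1 h.2)
    have hsec : second t ht (p0.refine ω (Om N)) =
        (Classical.choose (learn_tree t ht (p0.refine ω (Om N)) h.1 h.2)).bindK (p0.refine ω (Om N)) fun _ K2 => .done (K2, t) := by
      unfold second
      rw [dif_pos h]
    generalize Classical.choose (learn_tree t ht (p0.refine ω (Om N)) h.1 h.2) = q at hq1 hq2 hq3 hsec
    have he : (p0.bindK (Om N) fun _ K1 => second t ht K1).eval ω = (q.refine ω (p0.refine ω (Om N)), t) := by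
      rw [DTree.eval_bindK, hsec, DTree.eval_bindK]
      rfl
    have hr : (p0.bindK (Om N) fun _ K1 => second t ht K1).refine ω (Om N) = q.refine ω (p0.refine ω (Om N)) := by
      rw [DTree.refine_bindK, hsec, DTree.refine_bindK]
      rfl
    have hc : (p0.bindK (Om N) fun _ K1 => second t ht K1).cost ω = p0.cost ω + q.cost ω := by
      rw [DTree.cost_bindK, hsec, DTree.cost_bindK]
      rfl
    have hsub : q.refine ω (p0.refine ω (Om N)) ⊆ p0.refine ω (Om N) := DTree.refine_subset ω q _
    rw [he, hr, hc]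
    refine ⟨rfl, ⟨hsub.trans hK1, htn, ht, fun w hw => hS1 w (hsub hw), fun b hb => hq3 ω hω1 b hb⟩, htl, ?_⟩
    have h1 := hq2 ω hω1
    have h2 : (unk (p0.refine ω (Om N)) t : ℝ) ≤ 2 * n := by
      have h3 : unk (p0.refine ω (Om N)) t ≤ t.blocks.length := List.length_filter_le _ _
      have h4 := Tre.blocks_length ht
      have h5 : t.toList.length ≤ n := by
        rw [htl]
        exact frst_length N n
      have h6 : unk (p0.refine ω (Om N)) t ≤ 2 * n := by omega
      exact_mod_cast h6
    have h3 : (p0.cost ω : ℝ) ≤ 2 * n := by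
      have h4 := hc0 ω
      have h5 := frst_length N n
      have h6 : p0.cost ω ≤ 2 * n := by omega
      exact_mod_cast h6
    have h4 : Real.logb 2 (p0.refine ω (Om N)).card ≤ Real.logb 2 (Om N).card := by
      have h0 : 0 < (p0.refine ω (Om N)).card := Finset.card_pos.mpr ⟨ω, hω1⟩
      apply Real.logb_le_logb_of_le (by norm_num) (by exact_mod_cast h0)
      exact_mod_cast Finset.card_le_card hK1
    have h5 : (0 : ℝ) ≤ n := Nat.cast_nonneg n
    push_cast
    nlinarith

end Pool.Agent.Helper55.DH
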