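import Pool.Agent.Helper55.DH.UpdDefs

/-!
# DH-S6: one update inside an epoch

`update`: `l = t.toList`, `x = ⟨n, hn⟩` (the new slot). Run `locate l x K` (result `(k, e)`), with `bindK`; `K1` = the remaining worlds (all give the same result).
Case insertion, `e = true`: the tree stays; result `(K1, t)`. Case insertion, `e = false`: `t' = insert_good t k x`, all worlds of `K1` are sorted for `t'.toList`
(`locate`, `eval_of_mem_refine`), run `learn_tree t' K1`, result `(K2, t')`. Case deletion, `e = true`: `t' = erase_good t k` (a sublist is sorted), `learn_tree t' K1`. Case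
deletion, `e = false`: the tree stays. Cost: `unk K1 t' ≤ t'.newBlocks t.blocks ≤ 3 * t.height + 2 ≤ 6 * Nat.log 2 l.length + 5` (a block of `t` is known), so the total is at most
`2 * Nat.log 2 (l.length + 1) + 2 + 36 * (6 * Nat.log 2 l.length + 5) ≤ 400 * Nat.log 2 (l.length + 2)`. The potential inequality: `eff_of_cost_le` for `locate`, `Eff` of
`learn_tree`, `eff_bindK`. (In the program the trees depend only on the result of `locate`, not on the world.) `refine_map`, `refine_bindK` for the statement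
`(p.eval ω).1 = p.refine ω K`: the last step is `(learn_tree …).bindK K1 (fun _ K2 => done (K2, t'))`.
`Upd`: insertion: `lx_ne_zero`; permutation `take ++ x :: drop ~ x :: l` (`List.perm_middle`, `List.take_append_drop`). Deletion: `i = l[k]`, `l ~ l[k] :: (take k ++ drop (k+1))`.
`p.All`: the indices occurring are `x` (number `n`) and members of `l` or of `t'.toList ⊆ x :: l`, all of number `≤ n`.
-/

open Classical

namespace Pool.Agent.Helper55.DH

/-- Learn all blocks of the tree `t'` and return the remaining worlds and the tree. -/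
private theorem upd_step {N : ℕ} (K1 : Finset (Tst N → SignType)) (t' : Tre (Fin N)) (ht : t'.Good) (hK : K1 ⊆ Om N)
    (hs : ∀ ω ∈ K1, Srt ω t'.toList) :
    ∃ p : DTree (Tst N) (Finset (Tst N → SignType) × Tre (Fin N)), p.All {q | ∀ k, q.2 k ∈ t'.toList} ∧
      DTree.Eff 12 (36 * (unk K1 t' : ℝ)) K1 p ∧
      ∀ ω ∈ K1, p.eval ω = (p.refine ω K1, t') ∧ ∀ b ∈ t'.blocks, Known (p.refine ω K1) b := by
  obtain ⟨p, hA, hE, hB⟩ := learn_tree t' ht K1 hK hs
  refine ⟨p.bindK K1 (fun _ K2 => .done (K2, t')), ?_, ?_, ?_⟩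
  · exact DTree.all_bindK hA K1 fun _ _ => trivial
  · have h := DTree.eff_bindK (b' := 0) hE (F := fun _ K2 => .done (K2, t')) (fun ω _ => DTree.eff_done 12 0 le_rfl _ _)
    exact h.mono (by simp)
  · intro ω hω
    rw [DTree.eval_bindK, DTree.refine_bindK]
    exact ⟨rfl, hB ω hω⟩

private theorem upd_unk {N : ℕ} {K K1 : Finset (Tst N → SignType)} (h1 : K1 ⊆ K) {t t' : Tre (Fin N)}
    (hb : ∀ b ∈ t.blocks, Known K b) : unk K1 t' ≤ t'.newBlocks t.blocks := by
  unfold unk Tre.newBlocks
  apply List.Sublist.length_le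
  apply List.monotone_filter_right
  intro b hb'
  simp only [decide_eq_true_eq] at hb' ⊢
  exact fun h => hb' (known_mono h1 (hb b h))

theorem update {N n : ℕ} (hn : n < N) (K : Finset (Tst N → SignType)) (t : Tre (Fin N)) (hg : GoodK n K t)
    (ins : Bool) :
    ∃ p : DTree (Tst N) (Finset (Tst N → SignType) × Tre (Fin N)), p.All {q | ∀ k, (q.2 k).val ≤ n} ∧
      ∀ ω ∈ K, (p.eval ω).1 = p.refine ω K ∧ GoodK (n + 1) (p.eval ω).1 (p.eval ω).2 ∧
        (p.cost ω : ℝ) + 12 * Real.logb 2 (p.refine ω K).card ≤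
          400 * (Nat.log 2 (t.toList.length + 2) : ℝ) + 12 * Real.logb 2 K.card ∧
        Upd ω ⟨n, hn⟩ ins t.toList (p.eval ω).2.toList := by
  obtain ⟨hK, hlt, hgd, hsrt, hkn⟩ := hg
  set l : List (Fin N) := t.toList with hl
  set x : Fin N := ⟨n, hn⟩ with hx
  obtain ⟨p0, hA0, hC0, hP0⟩ := locate l x K hK hsrt
  have hheight : t.height ≤ 2 * Nat.log 2 l.length + 1 := Tre.height_le hgd
  have key : ∀ (r : ℕ × Bool) (K1 : Finset (Tst N → SignType)),
      ∃ q : DTree (Tst N) (Finset (Tst N → SignType) × Tre (Fin N)), q.All {q | ∀ k, (q.2 k).val ≤ n} ∧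
        ((∃ ω ∈ K, K1 = p0.refine ω K ∧ r = p0.eval ω) →
          DTree.Eff 12 (36 * ((6 * Nat.log 2 l.length + 5 : ℕ) : ℝ)) K1 q ∧
          ∀ ω ∈ K1, (q.eval ω).1 = q.refine ω K1 ∧ GoodK (n + 1) (q.eval ω).1 (q.eval ω).2 ∧
            Upd ω x ins l (q.eval ω).2.toList) := by
    intro r K1
    by_cases hv : ∃ ω ∈ K, K1 = p0.refine ω K ∧ r = p0.eval ω
    swap
    · exact ⟨.done (K1, t), trivial, fun h => absurd h hv⟩
    obtain ⟨ω0, hω0, hK1, hr⟩ := hv
    have hsub : K1 ⊆ K := by
      rw [hK1]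
      exact DTree.refine_subset ω0 p0 K
    have hall : ∀ w ∈ K1, p0.eval w = r := fun w hw => by
      rw [hr]
      rw [hK1] at hw
      exact DTree.eval_of_mem_refine p0 hw
    have hP1 : ∀ w ∈ K1, r.1 ≤ l.length ∧
        (r.2 = true → ∃ h : r.1 < l.length, lx w l[r.1] x = 0) ∧
        (r.2 = false → Srt w (l.take r.1 ++ x :: l.drop r.1)) := fun w hw => by
      have h := hP0 w (hsub hw)
      have e := hall w hw
      rw [e] at h
      exact h
    have hω1 : ω0 ∈ K1 := by
      rw [hK1]
      exact DTree.mem_refine_self p0 hω0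
    have hgood1 : GoodK (n + 1) K1 t := ⟨hsub.trans hK, fun i hi => (hlt i hi).trans (Nat.lt_succ_self n), hgd,
      fun w hw => hsrt w (hsub hw), fun b hb => known_mono hsub (hkn b hb)⟩
    have hstay : (∀ w ∈ K1, Upd w x ins l l) → ∃ q : DTree (Tst N) (Finset (Tst N → SignType) × Tre (Fin N)),
        q.All {q | ∀ k, (q.2 k).val ≤ n} ∧
        ((∃ ω ∈ K, K1 = p0.refine ω K ∧ r = p0.eval ω) →
          DTree.Eff 12 (36 * ((6 * Nat.log 2 l.length + 5 : ℕ) : ℝ)) K1 q ∧
          ∀ ω ∈ K1, (q.eval ω).1 = q.refine ω K1 ∧ GoodK (n + 1) (q.eval ω).1 (q.eval ω).2 ∧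
            Upd ω x ins l (q.eval ω).2.toList) := by
      intro hU
      refine ⟨.done (K1, t), trivial, fun _ => ⟨DTree.eff_done _ _ (by positivity) _ _, fun w hw => ?_⟩⟩
      exact ⟨rfl, hgood1, hU w hw⟩
    have hmove : ∀ t' : Tre (Fin N), t'.Good → (∀ i ∈ t'.toList, i.val < n + 1) → (∀ w ∈ K1, Srt w t'.toList) →
        t'.newBlocks t.blocks ≤ 3 * t.height + 2 → (∀ w ∈ K1, Upd w x ins l t'.toList) →
        ∃ q : DTree (Tst N) (Finset (Tst N → SignType) × Tre (Fin N)),
        q.All {q | ∀ k, (q.2 k).val ≤ n} ∧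
        ((∃ ω ∈ K, K1 = p0.refine ω K ∧ r = p0.eval ω) →
          DTree.Eff 12 (36 * ((6 * Nat.log 2 l.length + 5 : ℕ) : ℝ)) K1 q ∧
          ∀ ω ∈ K1, (q.eval ω).1 = q.refine ω K1 ∧ GoodK (n + 1) (q.eval ω).1 (q.eval ω).2 ∧
            Upd ω x ins l (q.eval ω).2.toList) := by
      intro t' h1 h2 h3 h4 h5
      obtain ⟨q, hqA, hqE, hqB⟩ := upd_step K1 t' h1 (hsub.trans hK) h3
      refine ⟨q, hqA.mono ?_, fun _ => ⟨hqE.mono ?_, fun w hw => ?_⟩⟩
      · intro z hz k
        exact Nat.le_of_lt_succ (h2 _ (hz k))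
      · have h6 : unk K1 t' ≤ 6 * Nat.log 2 l.length + 5 := by
          have h7 := upd_unk hsub (t' := t') hkn
          omega
        have h8 : (unk K1 t' : ℝ) ≤ ((6 * Nat.log 2 l.length + 5 : ℕ) : ℝ) := by exact_mod_cast h6
        linarith
      · obtain ⟨e, hb⟩ := hqB w hw
        rw [e]
        have hs2 : q.refine w K1 ⊆ K1 := DTree.refine_subset w q K1
        exact ⟨rfl, ⟨hs2.trans (hsub.trans hK), h2, h1, fun v hv => h3 v (hs2 hv), hb⟩, h5 w hw⟩
    obtain ⟨hle, hT, hF⟩ := hP1 ω0 hω1
    cases ins with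
    | true =>
      cases hr2 : r.2 with
      | true =>
        refine hstay fun w hw => ?_
        obtain ⟨hk, h0⟩ := (hP1 w hw).2.1 hr2
        unfold Upd
        rw [if_pos rfl]
        exact Or.inl ⟨⟨l[r.1], List.getElem_mem hk, h0⟩, rfl⟩
      | false =>
        obtain ⟨t', g1, -, g3, -, -, g6⟩ := Tre.insert_good t hgd r.1 hle x
        have g3' : t'.toList = l.take r.1 ++ x :: l.drop r.1 := g3
        refine hmove t' g1 ?_ ?_ g6 ?_
        · intro i hi
          rw [g3', List.mem_append, List.mem_cons] at hi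
          rcases hi with hi | hi | hi
          · exact (hlt i (List.mem_of_mem_take hi)).trans (Nat.lt_succ_self n)
          · rw [hi]
            exact Nat.lt_succ_self n
          · exact (hlt i (List.mem_of_mem_drop hi)).trans (Nat.lt_succ_self n)
        · intro w hw
          rw [g3']
          exact (hP1 w hw).2.2 hr2
        · intro w hw
          unfold Upd
          rw [if_pos rfl]
          refine Or.inr ⟨lx_ne_zero (hK (hsub hw)) ((hP1 w hw).2.2 hr2), ?_⟩
          rw [g3']
          refine List.perm_middle.trans ?_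
          rw [List.take_append_drop]
    | false =>
      cases hr2 : r.2 with
      | true =>
        obtain ⟨hk, -⟩ := hT hr2
        obtain ⟨t', g1, g3, g6⟩ := Tre.erase_good t hgd r.1 hk
        have g3' : t'.toList = l.take r.1 ++ l.drop (r.1 + 1) := g3
        have hperm : l.Perm (l[r.1] :: t'.toList) := by
          rw [g3']
          have e : l = l.take r.1 ++ l[r.1] :: l.drop (r.1 + 1) := by
            rw [← List.drop_eq_getElem_cons hk, List.take_append_drop]
          exact (List.Perm.of_eq e).trans List.perm_middle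
        have hsubl : t'.toList.Sublist l := by
          rw [g3']
          have e : l = l.take r.1 ++ l[r.1] :: l.drop (r.1 + 1) := by
            rw [← List.drop_eq_getElem_cons hk, List.take_append_drop]
          calc (l.take r.1 ++ l.drop (r.1 + 1)).Sublist (l.take r.1 ++ l[r.1] :: l.drop (r.1 + 1)) :=
                List.Sublist.append_left (List.sublist_cons_self _ _) _
            _ = l := e.symm
        refine hmove t' g1 ?_ ?_ g6 ?_
        · intro i hi
          exact (hlt i (hsubl.subset hi)).trans (Nat.lt_succ_self n)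
        · intro w hw
          exact List.Pairwise.sublist hsubl (hsrt w (hsub hw))
        · intro w hw
          obtain ⟨hk', h0⟩ := (hP1 w hw).2.1 hr2
          unfold Upd
          rw [if_neg (by simp)]
          exact Or.inl ⟨l[r.1], List.getElem_mem hk, h0, hperm⟩
      | false =>
        refine hstay fun w hw => ?_
        unfold Upd
        rw [if_neg (by simp)]
        exact Or.inr ⟨lx_ne_zero (hK (hsub hw)) ((hP1 w hw).2.2 hr2), rfl⟩
  choose F hFA hF using key
  refine ⟨p0.bindK K F, ?_, ?_⟩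
  · refine DTree.all_bindK (hA0.mono ?_) K hFA
    intro z hz k
    rcases hz k with h | h
    · rw [h]
    · exact (hlt _ h).le
  · have hEff : DTree.Eff 12 (((2 * Nat.log 2 (l.length + 1) + 2 : ℕ) : ℝ) +
        36 * ((6 * Nat.log 2 l.length + 5 : ℕ) : ℝ)) K (p0.bindK K F) := by
      refine DTree.eff_bindK (DTree.eff_of_cost_le (by norm_num) fun ω _ => hC0 ω) ?_
      intro ω hω
      exact (hF _ _ ⟨ω, hω, rfl, rfl⟩).1
    have hnum : (((2 * Nat.log 2 (l.length + 1) + 2 : ℕ) : ℝ) +
        36 * ((6 * Nat.log 2 l.length + 5 : ℕ) : ℝ)) ≤ 400 * (Nat.log 2 (l.length + 2) : ℝ) := by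
      have h1 : Nat.log 2 (l.length + 1) ≤ Nat.log 2 (l.length + 2) := Nat.log_mono_right (by omega)
      have h2 : Nat.log 2 l.length ≤ Nat.log 2 (l.length + 2) := Nat.log_mono_right (by omega)
      have h3 : 1 ≤ Nat.log 2 (l.length + 2) := Nat.le_log_of_pow_le (by norm_num) (by omega)
      have h4 : (2 * Nat.log 2 (l.length + 1) + 2) + 36 * (6 * Nat.log 2 l.length + 5) ≤
          400 * Nat.log 2 (l.length + 2) := by omega
      exact_mod_cast h4
    intro ω hω
    have hm := DTree.mem_refine_self p0 hω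
    obtain ⟨-, h2⟩ := hF (p0.eval ω) (p0.refine ω K) ⟨ω, hω, rfl, rfl⟩
    obtain ⟨h3, h4, h5⟩ := h2 ω hm
    rw [DTree.eval_bindK]
    refine ⟨?_, h4, ?_, h5⟩
    · rw [DTree.refine_bindK]
      exact h3
    · exact (hEff ω hω).trans (by linarith)

end Pool.Agent.Helper55.DH
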