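import Pool.Agent.Helper55.DH.WOm

/-!
# DH-W9: the logarithm of the number of worlds

For `N = n + (n / 2 + 1)`: `1 ≤ N ≤ 2 (n + 1)`, so by `card_Om`: `logb 2 #(Om N) ≤ 2 N logb 2 (30 N^5 + 2)` and `30 N^5 + 2 ≤ 32 N^5 ≤ 2^5 (2 (n + 2))^5 = 2^10 (n + 2)^5`, so
`logb 2 (30 N^5 + 2) ≤ 10 + 5 logb 2 (n + 2) ≤ 15 logb 2 (n + 2)` (`logb 2 (n + 2) ≥ 1`); `2 N ≤ 4 (n + 1)`. Total `60 (n + 1) logb 2 (n + 2)`. (`Om_nonempty`: the logarithm of a positive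
number.)
-/

open Classical

namespace Pool.Agent.Helper55.DH

theorem logb_Om (n : ℕ) : Real.logb 2 (Om (n + (n / 2 + 1))).card ≤ 60 * (n + 1 : ℝ) * Real.logb 2 (n + 2 : ℝ) := by
  obtain ⟨N, hN⟩ : ∃ N, N = n + (n / 2 + 1) := ⟨_, rfl⟩
  rw [← hN]
  have hN1 : 1 ≤ N := by omega
  have hN2 : N ≤ 2 * (n + 1) := by omega
  have hcard := card_Om N
  have hpos : 0 < (Om N).card := Finset.card_pos.2 (Om_nonempty N)
  have h1 : 30 * N ^ 5 + 2 ≤ 1024 * (n + 2) ^ 5 := by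
    have h2 : 1 ≤ N ^ 5 := Nat.one_le_pow _ _ hN1
    have h3 : N ^ 5 ≤ (2 * (n + 2)) ^ 5 := Nat.pow_le_pow_left (by omega) 5
    have h4 : (2 * (n + 2)) ^ 5 = 32 * (n + 2) ^ 5 := by ring
    omega
  have h5 : (Om N).card ≤ (1024 * (n + 2) ^ 5) ^ (2 * N) :=
    hcard.trans (Nat.pow_le_pow_left h1 _)
  have h6 : ((Om N).card : ℝ) ≤ ((1024 : ℝ) * (n + 2 : ℝ) ^ 5) ^ (2 * N) := by
    exact_mod_cast h5
  have h7 : Real.logb 2 (Om N).card ≤ Real.logb 2 (((1024 : ℝ) * (n + 2 : ℝ) ^ 5) ^ (2 * N)) :=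
    Real.logb_le_logb_of_le (by norm_num) (by exact_mod_cast hpos) h6
  have hL : 1 ≤ Real.logb 2 (n + 2 : ℝ) := by
    rw [Real.le_logb_iff_rpow_le (by norm_num) (by positivity), Real.rpow_one]
    have : (0 : ℝ) ≤ n := Nat.cast_nonneg n
    linarith
  have h8 : Real.logb 2 (((1024 : ℝ) * (n + 2 : ℝ) ^ 5) ^ (2 * N)) =
      2 * N * (10 + 5 * Real.logb 2 (n + 2 : ℝ)) := by
    rw [Real.logb_pow, Real.logb_mul (by norm_num) (by positivity), Real.logb_pow]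
    have h9 : Real.logb 2 (1024 : ℝ) = 10 := by
      rw [show (1024 : ℝ) = 2 ^ (10 : ℕ) by norm_num, Real.logb_pow,
        Real.logb_self_eq_one (by norm_num)]
      norm_num
    rw [h9]
    push_cast
    ring
  rw [h8] at h7
  have hN3 : (N : ℝ) ≤ 2 * (n + 1) := by exact_mod_cast hN2
  have hN0 : (0 : ℝ) ≤ N := Nat.cast_nonneg N
  have hn0 : (0 : ℝ) ≤ n := Nat.cast_nonneg n
  have h10 : 2 * (N : ℝ) * (10 + 5 * Real.logb 2 (n + 2 : ℝ)) ≤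
      2 * (2 * (n + 1)) * (15 * Real.logb 2 (n + 2 : ℝ)) := by
    apply mul_le_mul
    · linarith
    · linarith
    · linarith
    · linarith
  refine h7.trans (h10.trans (le_of_eq ?_))
  ring

end Pool.Agent.Helper55.DH
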