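import Pool.Agent.Helper55.DH.EPolys
import Pool.Agent.Helper55.DH.Update
import Pool.Agent.Helper55.DH.Rebuild
import Pool.Agent.Helper55.DH.QFinal
import Pool.Agent.Helper55.DH.WLog

/-!
# DH-E2: the data structure
-/

open Classical

namespace Pool.Agent.Helper55.DH

/-- The memory: clock, number of points at the beginning of the epoch, number of slots of the epoch, number of used slots, the operations whose
arguments are in the slots, the possible worlds, the tree. -/
structure St : Type where
  now : ℕ
  n0 : ℕ
  N : ℕ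
  used : ℕ
  g : Fin N → ℕ
  K : Finset (Tst N → SignType)
  t : Tre (Fin N)

noncomputable def St.init : St := ⟨0, 0, 0, 0, fun _ => 0, Om 0, .nil⟩

/-- A query. -/
noncomputable def St.query (s : St) : DTree GQ (St × List (ℕ × ℕ)) :=
  let s' : St := ⟨s.now + 1, s.n0, s.N, s.used, s.g, s.K, s.t⟩
  if h : s.K.Nonempty ∧ s.t.toList ≠ [] then
    (((stab_program (U h.1.choose s.t.toList) (U (neg h.1.choose) s.t.toList.reverse)).choose.lift (trQ s.g s.now)).map
      fun E => (s', E.map fun e => (s.g e.1, s.g e.2)))
  else .done (s', [])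

/-- An update inside an epoch. -/
noncomputable def upd (now n0 N n : ℕ) (g : Fin N → ℕ) (K : Finset (Tst N → SignType)) (t : Tre (Fin N)) (ins : Bool) :
    DTree GQ (St × List (ℕ × ℕ)) :=
  if h : ∃ _ : n < N, GoodK n K t then
    (((update h.choose K t h.choose_spec ins).choose.lift (trT (Function.update g ⟨n, h.choose⟩ now))).map
      fun r => (⟨now + 1, n0, N, n + 1, Function.update g ⟨n, h.choose⟩ now, r.1, r.2⟩, []))
  else .done (St.init, [])

/-- The slots of a new epoch. -/
noncomputable def newG (s : St) (i : Fin (s.t.toList.length + (s.t.toList.length / 2 + 1))) : ℕ :=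
  if h : i.val < s.t.toList.length then s.g (s.t.toList[i.val]) else 0

/-- An update (with a rebuild if all slots are used). -/
noncomputable def St.upd (s : St) (ins : Bool) : DTree GQ (St × List (ℕ × ℕ)) :=
  if s.used < s.N then DH.upd s.now s.n0 s.N s.used s.g s.K s.t ins
  else
    (((rebuild (N := s.t.toList.length + (s.t.toList.length / 2 + 1)) (n := s.t.toList.length) (by omega)).choose.lift
      (trT (newG s)))).bindK ∅ fun r _ =>
        DH.upd s.now s.t.toList.length (s.t.toList.length + (s.t.toList.length / 2 + 1)) s.t.toList.length (newG s)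
          r.1 r.2 ins

noncomputable def St.step (s : St) : Kind → DTree GQ (St × List (ℕ × ℕ))
  | .insert => s.upd true
  | .delete => s.upd false
  | .stab => s.query

/-- The data structure. -/
noncomputable def theDS : Structure := ⟨polys, St, St.init, St.step⟩

/-- The invariant before operation number `τ`. -/
structure Inv (ops : ℕ → Op) (τ : ℕ) (s : St) : Prop where
  now : s.now = τ
  used : s.used ≤ s.N
  good : GoodK s.used s.K s.t
  world : ∀ c : Fin s.N → ℝ × ℝ, (∀ i, i.val < s.used → c i = pt ops (s.g i)) → sgn c ∈ s.K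
  lt : ∀ i, i.val < s.used → s.g i < τ
  cur : (fun i => pt ops (s.g i)) '' {i | i ∈ s.t.toList} = current ops τ
  len : (s.N = 0 ∧ s.n0 = 0 ∧ s.used = 0) ∨
    (s.N = s.n0 + (s.n0 / 2 + 1) ∧ s.n0 ≤ s.used ∧ s.t.toList.length ≤ s.used ∧ 2 * s.n0 ≤ s.t.toList.length + s.used)

/-- The potential. -/
noncomputable def St.pot (s : St) : ℝ :=
  12 * Real.logb 2 s.K.card + 5000 * ((s.used : ℝ) - s.n0) * Real.logb 2 (s.n0 + 2)

end Pool.Agent.Helper55.DH
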