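import Pool.Agent.Helper55.DH.EUpd

/-!
# DH-E5: an update in general, the potential
-/

open Classical

namespace Pool.Agent.Helper55.DH

theorem lx_sgn_eq {N : ℕ} (c : Fin N → ℝ × ℝ) (i j : Fin N) : lx (sgn c) i j = lexs (c j - c i) := by
  simp only [lx, sgn, lexs, val]
  by_cases h : (c j - c i).1 = 0
  · have h' : (c j).1 - (c i).1 = 0 := h
    simp [h']
  · have h' : (c j).1 - (c i).1 ≠ 0 := h
    simp [sign_eq_zero_iff, h']

theorem logb_le_natlog (k : ℕ) : Real.logb 2 (k + 2 : ℝ) ≤ (Nat.log 2 (k + 2) : ℝ) + 1 := by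
  have h : k + 2 < 2 ^ (Nat.log 2 (k + 2) + 1) := Nat.lt_pow_succ_log_self (by norm_num) _
  have h' : (k + 2 : ℝ) ≤ (2 : ℝ) ^ (Nat.log 2 (k + 2) + 1) := by exact_mod_cast h.le
  calc Real.logb 2 (k + 2 : ℝ) ≤ Real.logb 2 ((2 : ℝ) ^ (Nat.log 2 (k + 2) + 1)) :=
        Real.logb_le_logb_of_le (by norm_num) (by positivity) h'
    _ = _ := by rw [← Real.rpow_natCast, Real.logb_rpow (by norm_num) (by norm_num)]; push_cast; ring

theorem one_le_natlog (k : ℕ) : (1 : ℝ) ≤ (Nat.log 2 (k + 2) : ℝ) := by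
  have h : 0 < Nat.log 2 (k + 2) := Nat.log_pos (by norm_num) (by omega)
  exact_mod_cast h

theorem one_le_logb (k : ℕ) : (1 : ℝ) ≤ Real.logb 2 (k + 2 : ℝ) := by
  have : Real.logb 2 (2 : ℝ) ≤ Real.logb 2 (k + 2 : ℝ) :=
    Real.logb_le_logb_of_le (by norm_num) (by norm_num) (by have : (0 : ℝ) ≤ k := Nat.cast_nonneg k; linarith)
  rwa [Real.logb_self_eq_one (by norm_num)] at this

theorem logb_double {x y : ℝ} (hx : 0 < x) (hy : 0 < y) (h : x ≤ 2 * y) : Real.logb 2 x ≤ 1 + Real.logb 2 y := by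
  calc Real.logb 2 x ≤ Real.logb 2 (2 * y) := Real.logb_le_logb_of_le (by norm_num) hx h
    _ = _ := by rw [Real.logb_mul (by norm_num) hy.ne', Real.logb_self_eq_one (by norm_num)]

theorem logb_card_nonneg {X : Type} (K : Finset X) (h : K.Nonempty) : 0 ≤ Real.logb 2 (K.card : ℝ) := by
  apply Real.logb_nonneg (by norm_num)
  exact_mod_cast Finset.card_pos.mpr h

theorem mem_frst {N n : ℕ} {i : Fin N} : i ∈ frst N n ↔ i.val < n := by
  simp [frst]

theorem stupd_spec {ops : ℕ → Op} {τ : ℕ} {s : St} (hI : Inv ops τ s) {ins : Bool} (hk : (ops τ).kind = kindOf ins) :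
    Inv ops (τ + 1) ((s.upd ins).eval (gs ops τ)).1 ∧
      ((s.upd ins).cost (gs ops τ) : ℝ) + ((s.upd ins).eval (gs ops τ)).1.pot ≤
        s.pot + 22000 * (Nat.log 2 (s.t.toList.length + 2) : ℝ) := by
  have hP : InvP ops τ s.used s.g s.K s.t := ⟨hI.good, hI.world, hI.lt, hI.cur⟩
  by_cases hlt : s.used < s.N
  · have e : s.upd ins = upd τ s.n0 s.N s.used s.g s.K s.t ins := by
      unfold St.upd
      rw [if_pos hlt, hI.now]
    obtain ⟨g', K', t', h1, h2, h3, h4, h5⟩ := upd_spec (n0 := s.n0) hlt hP hk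
    rw [e, h1]
    have hlen : s.N = s.n0 + (s.n0 / 2 + 1) ∧ s.n0 ≤ s.used ∧ s.t.toList.length ≤ s.used ∧
        2 * s.n0 ≤ s.t.toList.length + s.used := by
      rcases hI.len with h | h
      · omega
      · exact h
    refine ⟨⟨rfl, Nat.succ_le_of_lt hlt, h2.good, h2.world, h2.lt, h2.cur, Or.inr ?_⟩, ?_⟩
    · show s.N = s.n0 + (s.n0 / 2 + 1) ∧ s.n0 ≤ s.used + 1 ∧ t'.toList.length ≤ s.used + 1 ∧
        2 * s.n0 ≤ t'.toList.length + (s.used + 1)
      omega
    · show _ + (12 * Real.logb 2 K'.card + 5000 * (((s.used + 1 : ℕ) : ℝ) - s.n0) * Real.logb 2 (s.n0 + 2)) ≤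
        (12 * Real.logb 2 s.K.card + 5000 * ((s.used : ℝ) - s.n0) * Real.logb 2 (s.n0 + 2)) + _
      have a1 : Real.logb 2 (s.n0 + 2 : ℝ) ≤ 1 + Real.logb 2 (s.t.toList.length + 2 : ℝ) := by
        apply logb_double (by positivity) (by positivity)
        have : s.n0 + 2 ≤ 2 * (s.t.toList.length + 2) := by omega
        exact_mod_cast this
      have a2 := logb_le_natlog s.t.toList.length
      have a3 := one_le_natlog s.t.toList.length
      push_cast
      nlinarith
  · have hused : s.used = s.N := le_antisymm hI.used (not_lt.mp hlt)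
    set n := s.t.toList.length with hn
    have hnN : n < n + (n / 2 + 1) := by omega
    obtain ⟨hA, hR⟩ := (rebuild (N := n + (n / 2 + 1)) (n := n) (by omega)).choose_spec
    set p := (rebuild (N := n + (n / 2 + 1)) (n := n) (by omega)).choose with hp
    have hgi : ∀ i : Fin (n + (n / 2 + 1)), ∀ h : i.val < n, newG s i = s.g (s.t.toList[i.val]) := fun i h => by
      unfold newG
      rw [dif_pos h]
    have hglt : ∀ i : Fin (n + (n / 2 + 1)), i.val < n → newG s i < τ := fun i h => by
      rw [hgi i h]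
      exact hI.lt _ (hI.good.2.1 _ (List.getElem_mem _))
    have hev : ∀ c : Fin (n + (n / 2 + 1)) → ℝ × ℝ, (∀ i, i.val < n → c i = pt ops (newG s i)) →
        ∀ q ∈ {q : Tst (n + (n / 2 + 1)) | ∀ k, (q.2 k).val < n}, gs ops τ (trT (newG s) q) = sgn c q := fun c hc q hq =>
      gs_trT ops τ (newG s) c q fun k => ⟨(hglt _ (hq k)).le, hc _ (hq k)⟩
    set c1 : Fin (n + (n / 2 + 1)) → ℝ × ℝ := fun i => pt ops (newG s i) with hc1
    have hc1' : ∀ i, i.val < n → c1 i = pt ops (newG s i) := fun _ _ => rfl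
    have hOm : ∀ c : Fin (n + (n / 2 + 1)) → ℝ × ℝ, sgn c ∈ Om (n + (n / 2 + 1)) := fun c => by
      simp only [Om, Finset.mem_filter, Finset.mem_univ, true_and]
      exact ⟨c, rfl⟩
    have hsrt : Srt (sgn c1) (frst (n + (n / 2 + 1)) n) := by
      have hs := hI.good.2.2.2.1 _ hI.mem
      unfold Srt frst
      rw [List.pairwise_filter]
      have hfr : (List.finRange (n + (n / 2 + 1))).Pairwise (· < ·) := List.pairwise_lt_finRange _
      refine hfr.imp ?_
      intro i j hij hi hj
      have hi' : i.val < n := of_decide_eq_true hi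
      have hj' : j.val < n := of_decide_eq_true hj
      rw [lx_sgn_eq]
      simp only [hc1, hgi i hi', hgi j hj']
      have := (List.pairwise_iff_getElem.mp hs) i.val j.val hi' hj' hij
      rw [lx_sgn_eq] at this
      exact this
    obtain ⟨r1, r2, r3, r4⟩ := hR (sgn c1) (hOm c1) hsrt
    have e1 : p.eval (fun q => gs ops τ (trT (newG s) q)) = p.eval (sgn c1) := DTree.eval_congr hA (hev c1 hc1')
    have e2 : p.cost (fun q => gs ops τ (trT (newG s) q)) = p.cost (sgn c1) := DTree.cost_congr hA (hev c1 hc1')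
    have hP1 : InvP ops τ n (newG s) (p.eval (sgn c1)).1 (p.eval (sgn c1)).2 := by
      refine ⟨r2, ?_, hglt, ?_⟩
      · intro c hc
        have h1 : p.refine (sgn c) (Om (n + (n / 2 + 1))) = p.refine (sgn c1) (Om (n + (n / 2 + 1))) := by
          apply DTree.refine_congr hA
          intro q hq
          rw [← hev c hc q hq, hev c1 hc1' q hq]
        rw [r1, ← h1]
        exact DTree.mem_refine_self p (hOm c)
      · rw [r3, ← hI.cur]
        ext z
        constructor
        · rintro ⟨i, hi, rfl⟩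
          have hi' : i.val < n := mem_frst.mp hi
          exact ⟨s.t.toList[i.val], List.getElem_mem _, by simp only [hgi i hi']⟩
        · rintro ⟨j, hj, rfl⟩
          obtain ⟨k, hk', rfl⟩ := List.getElem_of_mem (show j ∈ s.t.toList from hj)
          refine ⟨⟨k, by omega⟩, mem_frst.mpr hk', ?_⟩
          show pt ops (newG s ⟨k, _⟩) = _
          rw [hgi ⟨k, by omega⟩ hk']
    obtain ⟨g', K', t', h1, h2, h3, h4, h5⟩ := upd_spec (n0 := n) hnN hP1 hk
    have hun : s.upd ins = (p.lift (trT (newG s))).bindK ∅ fun r _ =>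
        DH.upd τ n (n + (n / 2 + 1)) n (newG s) r.1 r.2 ins := by
      unfold St.upd
      rw [if_neg hlt, hI.now]
    have e3 : (s.upd ins).eval (gs ops τ) = (⟨τ + 1, n, n + (n / 2 + 1), n + 1, g', K', t'⟩, []) := by
      rw [hun, DTree.eval_bindK, DTree.eval_lift, e1, h1]
    have e4 : (s.upd ins).cost (gs ops τ) = p.cost (sgn c1) +
        (DH.upd τ n (n + (n / 2 + 1)) n (newG s) (p.eval (sgn c1)).1 (p.eval (sgn c1)).2 ins).cost (gs ops τ) := by
      rw [hun, DTree.cost_bindK, DTree.cost_lift, DTree.eval_lift, e1, e2]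
    have hlf : (p.eval (sgn c1)).2.toList.length = n := by
      rw [r3]
      have : (frst (n + (n / 2 + 1)) n) = (List.finRange (n + (n / 2 + 1))).filter fun i => decide (i.val < n) := rfl
      have hset : (frst (n + (n / 2 + 1)) n).toFinset = (Finset.univ.filter fun i : Fin (n + (n / 2 + 1)) => i.val < n) := by
        ext i; simp [mem_frst]
      have hnd : (frst (n + (n / 2 + 1)) n).Nodup := by
        rw [this]
        exact (List.nodup_finRange _).filter _
      rw [← List.toFinset_card_of_nodup hnd, hset]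
      have := Fin.card_filter_val_lt (n := n + (n / 2 + 1)) (m := n)
      rw [this]
      omega
    rw [hlf] at h3 h4 h5
    rw [e3, e4]
    refine ⟨⟨rfl, Nat.succ_le_of_lt hnN, h2.good, h2.world, h2.lt, h2.cur, Or.inr ?_⟩, ?_⟩
    · show n + (n / 2 + 1) = n + (n / 2 + 1) ∧ n ≤ n + 1 ∧ t'.toList.length ≤ n + 1 ∧
        2 * n ≤ t'.toList.length + (n + 1)
      omega
    · show _ + (12 * Real.logb 2 K'.card + 5000 * (((n + 1 : ℕ) : ℝ) - n) * Real.logb 2 (n + 2)) ≤
        (12 * Real.logb 2 s.K.card + 5000 * ((s.used : ℝ) - s.n0) * Real.logb 2 (s.n0 + 2)) + _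
      have b1 := logb_Om n
      have b2 := logb_le_natlog n
      have b3 := one_le_natlog n
      have b4 := one_le_logb n
      have b5 : 0 ≤ Real.logb 2 (s.K.card : ℝ) := logb_card_nonneg _ ⟨_, hI.mem⟩
      rw [← r1] at r4
      have b6 : 100 * (n + 1 : ℝ) ≤ 100 * (n + 1 : ℝ) * Real.logb 2 (n + 2 : ℝ) := by
        have : (0 : ℝ) ≤ 100 * (n + 1 : ℝ) := by positivity
        nlinarith
      -- the main estimate
      have main : 820 * (n + 1 : ℝ) * Real.logb 2 (n + 2 : ℝ) ≤
          5000 * ((s.used : ℝ) - s.n0) * Real.logb 2 (s.n0 + 2) + 820 * Real.logb 2 (n + 2 : ℝ) := by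
        rcases hI.len with ⟨hN, h0, hu⟩ | ⟨hN, h0, hl, hl'⟩
        · have hn0 : n = 0 := by
            rw [hn, List.length_eq_zero_iff, List.eq_nil_iff_forall_not_mem]
            intro i _
            exact absurd i.isLt (by omega)
          rw [h0, hu, hn0]
          simp
        · set m := s.n0 / 2 + 1 with hm
          have c1 : (s.used : ℝ) - s.n0 = m := by
            have : s.used = s.n0 + m := by omega
            rw [this]; push_cast; ring
          have c2 : (n + 1 : ℝ) ≤ 3 * m := by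
            have : n + 1 ≤ 3 * m := by omega
            exact_mod_cast this
          have c3 : Real.logb 2 (n + 2 : ℝ) ≤ 1 + Real.logb 2 (s.n0 + 2 : ℝ) := by
            apply logb_double (by positivity) (by positivity)
            have : n + 2 ≤ 2 * (s.n0 + 2) := by omega
            exact_mod_cast this
          have c4 := one_le_logb s.n0
          rw [c1]
          have c5 : (0 : ℝ) ≤ m := Nat.cast_nonneg m
          have c6 : 820 * (n + 1 : ℝ) * Real.logb 2 (n + 2 : ℝ) ≤ 820 * (3 * m) * (2 * Real.logb 2 (s.n0 + 2 : ℝ)) := by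
            apply mul_le_mul _ (by linarith) (by linarith) (by positivity)
            linarith
          have c7 : (0 : ℝ) ≤ m * Real.logb 2 (s.n0 + 2 : ℝ) := by positivity
          nlinarith
      have b7 : 5000 * (((n + 1 : ℕ) : ℝ) - n) * Real.logb 2 (n + 2 : ℝ) = 5000 * Real.logb 2 (n + 2 : ℝ) := by
        push_cast; ring
      rw [b7]
      push_cast
      linarith

end Pool.Agent.Helper55.DH
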