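import Pool.Agent.Helper55.DH.EQuery

/-!
# DH-E4: an update inside an epoch
-/

open Classical

namespace Pool.Agent.Helper55.DH

/-- The invariant for the parts of the memory (without the clock and the length condition). -/
structure InvP (ops : ℕ → Op) (τ : ℕ) {N : ℕ} (n : ℕ) (g : Fin N → ℕ) (K : Finset (Tst N → SignType)) (t : Tre (Fin N)) :
    Prop where
  good : GoodK n K t
  world : ∀ c : Fin N → ℝ × ℝ, (∀ i, i.val < n → c i = pt ops (g i)) → sgn c ∈ K
  lt : ∀ i, i.val < n → g i < τ
  cur : (fun i => pt ops (g i)) '' {i | i ∈ t.toList} = current ops τ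

theorem lexs_eq_zero {v : ℝ × ℝ} : lexs v = 0 ↔ v = 0 := by
  unfold lexs
  constructor
  · intro h
    split_ifs at h with h1
    · exact absurd (sign_eq_zero_iff.mp h) h1
    · push Not at h1
      exact Prod.ext h1 (sign_eq_zero_iff.mp h)
  · rintro rfl
    simp

theorem lx_sgn {N : ℕ} (c : Fin N → ℝ × ℝ) (i j : Fin N) : lx (sgn c) i j = 0 ↔ c i = c j := by
  have e : lx (sgn c) i j = lexs (c j - c i) := by
    simp only [lx, sgn, lexs, val]
    by_cases h : (c j - c i).1 = 0
    · have h' : (c j).1 - (c i).1 = 0 := h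
      simp [h']
    · have h' : (c j).1 - (c i).1 ≠ 0 := h
      simp [sign_eq_zero_iff, h']
  rw [e, lexs_eq_zero, sub_eq_zero]
  exact eq_comm

/-- The kind of an update. -/
def kindOf (ins : Bool) : Kind := if ins = true then .insert else .delete

theorem current_update {ops : ℕ → Op} {τ : ℕ} {ins : Bool} (hk : (ops τ).kind = kindOf ins) :
    current ops (τ + 1) = if ins = true then insert (pt ops τ) (current ops τ) else current ops τ \ {pt ops τ} := by
  rw [current]
  cases ins <;> cases h : ops τ <;> rw [h] at hk <;> simp [kindOf, Op.kind] at hk ⊢ <;> simp [pt, h, Op.arg]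

theorem upd_spec {ops : ℕ → Op} {τ : ℕ} {n0 N n : ℕ} {g : Fin N → ℕ} {K : Finset (Tst N → SignType)} {t : Tre (Fin N)}
    (hn : n < N) (hI : InvP ops τ n g K t) {ins : Bool} (hk : (ops τ).kind = kindOf ins) :
    ∃ (g' : Fin N → ℕ) (K' : Finset (Tst N → SignType)) (t' : Tre (Fin N)),
      (upd τ n0 N n g K t ins).eval (gs ops τ) = (⟨τ + 1, n0, N, n + 1, g', K', t'⟩, []) ∧
      InvP ops (τ + 1) (n + 1) g' K' t' ∧
      ((upd τ n0 N n g K t ins).cost (gs ops τ) : ℝ) + 12 * Real.logb 2 K'.card ≤
        400 * (Nat.log 2 (t.toList.length + 2) : ℝ) + 12 * Real.logb 2 K.card ∧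
      t'.toList.length ≤ t.toList.length + 1 ∧ t.toList.length ≤ t'.toList.length + 1 := by
  have h : ∃ _ : n < N, GoodK n K t := ⟨hn, hI.good⟩
  set x : Fin N := ⟨n, hn⟩ with hx
  set g' : Fin N → ℕ := Function.update g x τ with hg'
  obtain ⟨hA, hP⟩ := (update hn K t hI.good ins).choose_spec
  set p := (update hn K t hI.good ins).choose with hp
  -- the new slot
  have g'x : g' x = τ := by simp [hg']
  have g'lt : ∀ i : Fin N, i.val < n → g' i = g i := fun i hi => by
    have : i ≠ x := fun h' => by rw [h'] at hi; exact lt_irrefl _ hi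
    simp [hg', this]
  have hval : ∀ i : Fin N, i.val ≤ n → i.val < n ∨ i = x := fun i hi => by
    rcases lt_or_eq_of_le hi with h' | h'
    · exact Or.inl h'
    · exact Or.inr (Fin.ext h')
  have g'le : ∀ i : Fin N, i.val ≤ n → g' i ≤ τ := fun i hi => by
    rcases hval i hi with h' | h'
    · rw [g'lt i h']
      exact (hI.lt i h').le
    · rw [h', g'x]
  -- the worlds
  have hev : ∀ c : Fin N → ℝ × ℝ, (∀ i, i.val < n + 1 → c i = pt ops (g' i)) →
      ∀ q ∈ {q : Tst N | ∀ k, (q.2 k).val ≤ n}, gs ops τ (trT g' q) = sgn c q := fun c hc q hq =>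
    gs_trT ops τ g' c q fun k => ⟨g'le _ (hq k), hc _ (Nat.lt_succ_of_le (hq k))⟩
  have hmem : ∀ c : Fin N → ℝ × ℝ, (∀ i, i.val < n + 1 → c i = pt ops (g' i)) → sgn c ∈ K := fun c hc =>
    hI.world c fun i hi => by rw [hc i (hi.trans (Nat.lt_succ_self _)), g'lt i hi]
  set c1 : Fin N → ℝ × ℝ := fun i => pt ops (g' i) with hc1
  have hc1' : ∀ i, i.val < n + 1 → c1 i = pt ops (g' i) := fun _ _ => rfl
  have e1 : p.eval (fun q => gs ops τ (trT g' q)) = p.eval (sgn c1) := DTree.eval_congr hA (hev c1 hc1')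
  have e2 : p.cost (fun q => gs ops τ (trT g' q)) = p.cost (sgn c1) := DTree.cost_congr hA (hev c1 hc1')
  obtain ⟨f1, f2, f3, f4⟩ := hP (sgn c1) (hmem c1 hc1')
  have hun : upd τ n0 N n g K t ins = ((p.lift (trT g')).map
      fun r => (⟨τ + 1, n0, N, n + 1, g', r.1, r.2⟩, [])) := by
    unfold upd
    rw [dif_pos h]
  refine ⟨g', (p.eval (sgn c1)).1, (p.eval (sgn c1)).2, ?_, ⟨f2, ?_, ?_, ?_⟩, ?_, ?_⟩
  · rw [hun, DTree.eval_map, DTree.eval_lift, e1]
  · intro c hc
    have h1 : p.eval (sgn c) = p.eval (sgn c1) := by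
      apply DTree.eval_congr hA
      intro q hq
      rw [← hev c hc q hq, hev c1 hc1' q hq]
    rw [← h1, (hP (sgn c) (hmem c hc)).1]
    exact DTree.mem_refine_self p (hmem c hc)
  · intro i hi
    exact Nat.lt_succ_of_le (g'le i (Nat.le_of_lt_succ hi))
  · -- the current set
    have im : ∀ l : List (Fin N), (∀ i ∈ l, i.val < n) →
        (fun i => pt ops (g' i)) '' {i | i ∈ l} = (fun i => pt ops (g i)) '' {i | i ∈ l} := by
      intro l hl
      apply Set.image_congr
      intro i hi
      simp only [g'lt i (hl i hi)]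
    have hxn : x ∉ t.toList := fun h' => lt_irrefl _ (hI.good.2.1 x h')
    have cx : c1 x = pt ops τ := by simp only [hc1, g'x]
    have base : (fun i => pt ops (g' i)) '' {i | i ∈ t.toList} = current ops τ := by
      rw [im _ hI.good.2.1, hI.cur]
    have hs := f2.2.2.2.1 (sgn c1) (by rw [f1]; exact DTree.mem_refine_self p (hmem c1 hc1'))
    rw [current_update hk]
    unfold Upd at f4
    split_ifs at f4 ⊢ with hi
    · rcases f4 with ⟨⟨i, hil, hi0⟩, hl⟩ | ⟨hne, hl⟩
      · rw [hl, base, Set.insert_eq_of_mem]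
        rw [← base, ← cx, ← (lx_sgn c1 i x).mp hi0]
        exact ⟨i, hil, rfl⟩
      · have : {i | i ∈ (p.eval (sgn c1)).2.toList} = insert x {i | i ∈ t.toList} := by
          ext i
          simp [hl.mem_iff, hx]
        rw [this, Set.image_insert_eq, base]
        simp only [g'x]
    · rcases f4 with ⟨i, hil, hi0, hl⟩ | ⟨hne, hl⟩
      · have hset : {j | j ∈ t.toList} = insert i {j | j ∈ (p.eval (sgn c1)).2.toList} := by
          ext j
          simp [hl.mem_iff]
        rw [← base, hset, Set.image_insert_eq]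
        have ci : pt ops (g' i) = pt ops τ := by rw [← cx]; exact (lx_sgn c1 i x).mp hi0
        simp only [ci]
        rw [Set.insert_sdiff_of_mem _ (Set.mem_singleton _), Set.sdiff_singleton_eq_self]
        rintro ⟨j, hj, hj'⟩
        -- `i` and `j` are different members of the sorted list `t.toList`
        have hj0 : lx (sgn c1) j i = 0 := (lx_sgn c1 j i).mpr (by
          show pt ops (g' j) = pt ops (g' i)
          rw [ci]; exact hj')
        have hj1 : lx (sgn c1) i j = 0 := (lx_sgn c1 i j).mpr ((lx_sgn c1 j i).mp hj0).symm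
        have hst := hI.good.2.2.2.1 (sgn c1) (hmem c1 hc1')
        have hnd : (i :: (p.eval (sgn c1)).2.toList).Pairwise fun a b => lx (sgn c1) a b ≠ 0 := by
          have h1 : t.toList.Pairwise fun a b => lx (sgn c1) a b ≠ 0 ∧ lx (sgn c1) b a ≠ 0 := by
            refine List.Pairwise.imp ?_ hst
            intro a b hab
            have : lx (sgn c1) a b ≠ 0 := by rw [hab]; decide
            refine ⟨this, fun h' => this ?_⟩
            exact (lx_sgn c1 a b).mpr ((lx_sgn c1 b a).mp h').symm
          have h2 := hl.pairwise h1 (fun h => h.symm)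
          exact h2.imp fun h => h.1
        exact (List.pairwise_cons.mp hnd).1 j hj hj1
      · rw [hl, base, Set.sdiff_singleton_eq_self]
        intro h'
        rw [← base] at h'
        obtain ⟨i, hil, hi'⟩ := h'
        refine hne i hil ((lx_sgn c1 i x).mpr ?_)
        rw [cx]
        exact hi'
  · rw [hun, DTree.cost_map, DTree.cost_lift, e2, f1]
    exact f3
  · unfold Upd at f4
    split_ifs at f4 with hi
    · rcases f4 with ⟨-, hl⟩ | ⟨-, hl⟩
      · rw [hl]; omega
      · rw [hl.length_eq, List.length_cons]; omega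
    · rcases f4 with ⟨i, -, -, hl⟩ | ⟨-, hl⟩
      · rw [hl.length_eq, List.length_cons]; omega
      · rw [hl]; omega

end Pool.Agent.Helper55.DH
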