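import Pool.Agent.Helper55.DH.Tests

/-!
# DH-G1: basic facts on the upper hull list

`UR P l` is a filter of the sorted list `l`. Proofs: `List.filter_sublist`, `List.Pairwise.sublist`; the first element `z` of a sorted list
has no `a ∈ l` with `(P a).1 < (P z).1`, so it satisfies the filter condition (same for the last element). For `UR_head`: write `l = z :: l'`,
`List.filter_cons_of_pos`. For `UR_getLast`: write `l = l' ++ [z]`, `List.filter_append`.
For `UR_cross`: three elements `u v w` of `UR P l` with increasing `x`: the condition for `v` with `a = u`, `b = w` gives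
`cross (P v - P u) (P w - P u) < 0`, which is the same as `cross (P v - P u) (P w - P v) < 0`.
-/

namespace Pool.Agent.Helper55.DH

variable {ι : Type} {P : ι → ℝ × ℝ} {l : List ι}

theorem mem_UR {z : ι} : z ∈ UR P l ↔ z ∈ l ∧ ∀ a ∈ l, ∀ b ∈ l, (P a).1 < (P z).1 → (P z).1 < (P b).1 →
    cross (P z - P a) (P b - P a) < 0 := by
  unfold UR
  rw [List.mem_filter, decide_eq_true_iff]

theorem UR_sublist : (UR P l).Sublist l := List.filter_sublist

theorem UR_srt (hs : SrtR P l) : SrtR P (UR P l) := List.Pairwise.sublist UR_sublist hs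

theorem UR_head (hs : SrtR P l) : (UR P l).head? = l.head? := by
  cases l with
  | nil => rfl
  | cons z l' =>
    unfold UR
    rw [List.filter_cons_of_pos]
    · rfl
    · rw [decide_eq_true_iff]
      intro a ha b _ h1 _
      exfalso
      rcases List.mem_cons.1 ha with h | h
      · rw [h] at h1
        exact lt_irrefl _ h1
      · exact lt_asymm h1 ((List.pairwise_cons.1 hs).1 a h)

theorem UR_getLast (hs : SrtR P l) : (UR P l).getLast? = l.getLast? := by
  rcases List.eq_nil_or_concat l with h | ⟨l', z, h⟩
  · subst h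
    rfl
  · rw [List.concat_eq_append] at h
    subst h
    have hz : ∀ a ∈ l', (P a).1 < (P z).1 := by
      intro a ha
      exact (List.pairwise_append.1 hs).2.2 a ha z (List.mem_singleton.2 rfl)
    unfold UR
    rw [List.filter_append, List.filter_cons_of_pos, List.filter_nil, List.getLast?_concat,
      List.getLast?_concat]
    rw [decide_eq_true_iff]
    intro a _ b hb _ h2
    exfalso
    rcases List.mem_append.1 hb with h | h
    · exact lt_asymm h2 (hz b h)
    · rw [List.mem_singleton.1 h] at h2
      exact lt_irrefl _ h2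

theorem UR_ne_nil (hs : SrtR P l) (h : l ≠ []) : UR P l ≠ [] := by
  intro h1
  have h2 := UR_head hs
  rw [h1, List.head?_nil] at h2
  exact h (List.head?_eq_none_iff.1 h2.symm)

/-- Increasing indices give increasing `x`-coordinates. -/
theorem srt_lt (hs : SrtR P l) {i j : ℕ} (hij : i < j) (hj : j < l.length) : (P l[i]).1 < (P l[j]).1 :=
  List.pairwise_iff_getElem.1 hs i j (hij.trans hj) hj hij

/-- An element of a sorted list is determined by its `x`-coordinate. -/
theorem srt_inj (hs : SrtR P l) {u v : ι} (hu : u ∈ l) (hv : v ∈ l) (h : (P u).1 = (P v).1) : u = v := by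
  obtain ⟨i, hi, rfl⟩ := List.mem_iff_getElem.1 hu
  obtain ⟨j, hj, rfl⟩ := List.mem_iff_getElem.1 hv
  rcases lt_trichotomy i j with hij | hij | hij
  · exact absurd h (srt_lt hs hij hj).ne
  · subst hij
    rfl
  · exact absurd h (srt_lt hs hij hi).ne'

theorem UR_cross (hs : SrtR P l) {i j k : ℕ} (hij : i < j) (hjk : j < k) (hk : k < (UR P l).length) :
    cross (P (UR P l)[j] - P (UR P l)[i]) (P (UR P l)[k] - P (UR P l)[j]) < 0 := by
  have hs' := UR_srt hs
  have hj : j < (UR P l).length := hjk.trans hk
  have hi : i < (UR P l).length := hij.trans hj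
  have hu : (UR P l)[i] ∈ l := UR_sublist.subset (List.getElem_mem hi)
  have hw : (UR P l)[k] ∈ l := UR_sublist.subset (List.getElem_mem hk)
  have h1 := (mem_UR.1 (List.getElem_mem hj)).2 _ hu _ hw (srt_lt hs' hij hj) (srt_lt hs' hjk hk)
  have h2 : cross (P (UR P l)[j] - P (UR P l)[i]) (P (UR P l)[k] - P (UR P l)[j]) =
      cross (P (UR P l)[j] - P (UR P l)[i]) (P (UR P l)[k] - P (UR P l)[i]) := by
    unfold cross
    simp only [Prod.fst_sub, Prod.snd_sub]
    ring
  rw [h2]
  exact h1

end Pool.Agent.Helper55.DH
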