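import Pool.Agent.Helper55.DH.GFacts

/-!
# DH-G4b: the block facts

The proof is in the header of `GFacts` (second half). `bridge_left`, `bridge_right` and their proofs give `i ≤ k ↔ σ ≤ s` and `t + 1 ≤ j ↔ s ≤ ρ`: e.g.
`left_iff` says that `b` is strictly below the line `e` iff `k + 1 ≤ i`; with (S), (E) this is `s < σ`.
-/

namespace Pool.Agent.Helper55.DH

variable {ι : Type} {P : ι → ℝ × ℝ} {l1 l2 : List ι}

private theorem gbl_line {u v : ℝ × ℝ} {c : ℝ} (h : v.2 = u.2 + c * (v.1 - u.1)) (z : ℝ × ℝ) :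
    cross (v - u) (z - u) = (v.1 - u.1) * (z.2 - (u.2 + c * (z.1 - u.1))) := by
  simp only [cross, Prod.fst_sub, Prod.snd_sub]
  rw [h]
  ring

private theorem gbl_le {u v : ℝ × ℝ} {c : ℝ} (h : v.2 = u.2 + c * (v.1 - u.1)) (huv : u.1 < v.1) (z : ℝ × ℝ) :
    cross (v - u) (z - u) ≤ 0 ↔ z.2 ≤ u.2 + c * (z.1 - u.1) := by
  rw [gbl_line h]
  constructor
  · intro h1
    by_contra hc
    have := mul_pos (sub_pos.2 huv) (sub_pos.2 (not_le.1 hc))
    linarith
  · intro h1
    exact mul_nonpos_of_nonneg_of_nonpos (sub_pos.2 huv).le (by linarith)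

private theorem gbl_lt {u v : ℝ × ℝ} {c : ℝ} (h : v.2 = u.2 + c * (v.1 - u.1)) (huv : u.1 < v.1) (z : ℝ × ℝ) :
    cross (v - u) (z - u) < 0 ↔ z.2 < u.2 + c * (z.1 - u.1) := by
  rw [gbl_line h]
  constructor
  · intro h1
    by_contra hc
    have := mul_nonneg (sub_pos.2 huv).le (sub_nonneg.2 (not_lt.1 hc))
    linarith
  · intro h1
    exact mul_neg_of_pos_of_neg (sub_pos.2 huv) (by linarith)

private theorem gbl_slope {u v : ℝ × ℝ} (huv : u.1 < v.1) : ∃ c : ℝ, v.2 = u.2 + c * (v.1 - u.1) := by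
  refine ⟨(v.2 - u.2) / (v.1 - u.1), ?_⟩
  have : v.1 - u.1 ≠ 0 := (sub_pos.2 huv).ne'
  rw [div_mul_cancel₀ _ this]
  ring

private theorem gbl_mul_lt {x y z : ℝ} (hz : 0 < z) (h : x * z < y * z) : x < y := lt_of_mul_lt_mul_right h hz.le

private theorem gbl_sigma {u v p q : ℝ × ℝ} {c r : ℝ} (h1 : v.2 = u.2 + c * (v.1 - u.1))
    (h2 : q.2 = p.2 + r * (q.1 - p.1)) :
    cross (v - u) (q - p) = ((v.1 - u.1) * (q.1 - p.1)) * (r - c) := by
  simp only [cross, Prod.fst_sub, Prod.snd_sub]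
  rw [h1, h2]
  ring

private theorem gbl_H {u v p q m : ℝ × ℝ} {c r : ℝ} (h1 : v.2 = u.2 + c * (v.1 - u.1))
    (h2 : q.2 = p.2 + r * (q.1 - p.1)) :
    cross (u - m) (v - m) * (q.1 - p.1) - cross (p - m) (q - m) * (v.1 - u.1) =
      ((v.1 - u.1) * (q.1 - p.1)) * ((p.2 + r * (m.1 - p.1)) - (u.2 + c * (m.1 - u.1))) := by
  simp only [cross, Prod.fst_sub, Prod.snd_sub]
  rw [h1, h2]
  ring

theorem bridge_block (hs : SrtR P (l1 ++ l2)) {i j : ℕ} (hi : i < (UR P l1).length) (hj : j < (UR P l2).length)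
    (hU : UR P (l1 ++ l2) = (UR P l1).take (i + 1) ++ (UR P l2).drop j) {k t : ℕ} (hk : k + 1 < (UR P l1).length)
    (ht : t + 1 < (UR P l2).length) (σ H : ℝ)
    (hσ : σ = cross (P (UR P l1)[k + 1] - P (UR P l1)[k]) (P (UR P l2)[t + 1] - P (UR P l2)[t]))
    (hH : H = cross (P (UR P l1)[k] - P (UR P l2)[0]) (P (UR P l1)[k + 1] - P (UR P l2)[0]) *
        ((P (UR P l2)[t + 1]).1 - (P (UR P l2)[t]).1) -
      cross (P (UR P l2)[t] - P (UR P l2)[0]) (P (UR P l2)[t + 1] - P (UR P l2)[0]) *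
        ((P (UR P l1)[k + 1]).1 - (P (UR P l1)[k]).1)) :
    (0 ≤ σ → 0 ≤ H → i ≤ k) ∧ (0 ≤ σ → H < 0 → t + 1 ≤ j) ∧ (σ < 0 → 0 ≤ H → j ≤ t) ∧ (σ < 0 → H < 0 → k + 1 ≤ i) := by
  obtain ⟨hs1, hs2, hlt⟩ := List.pairwise_append.1 hs
  have hs1 : SrtR P l1 := hs1
  have hs2 : SrtR P l2 := hs2
  have mem : ∀ {l : List ι} {n : ℕ} (hn : n < (UR P l).length), (UR P l)[n] ∈ l := fun hn =>
    (mem_UR.1 (List.getElem_mem hn)).1
  have hk' : k < (UR P l1).length := by omega
  have ht' : t < (UR P l2).length := by omega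
  have h0' : 0 < (UR P l2).length := by omega
  have huv := srt_lt (UR_srt hs1) (Nat.lt_succ_self k) hk
  have hpq := srt_lt (UR_srt hs2) (Nat.lt_succ_self t) ht
  have hab : (P (UR P l1)[i]).1 < (P (UR P l2)[j]).1 := hlt _ (mem hi) _ (mem hj)
  have hum : (P (UR P l1)[k]).1 < (P (UR P l2)[0]).1 := hlt _ (mem hk') _ (mem h0')
  have ham : (P (UR P l1)[i]).1 < (P (UR P l2)[0]).1 := hlt _ (mem hi) _ (mem h0')
  have h0le : ∀ {n : ℕ} (hn : n < (UR P l2).length), (P (UR P l2)[0]).1 ≤ (P (UR P l2)[n]).1 := by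
    intro n hn
    rcases Nat.eq_zero_or_pos n with h | h
    · subst h
      exact le_rfl
    · exact (srt_lt (UR_srt hs2) h hn).le
  have hmp := h0le ht'
  have hmb := h0le hj
  have hE := (UR_edge hs1 hk (mem hi)).1
  have hF := (UR_edge hs2 ht (mem hj)).1
  have hlen : (UR P (l1 ++ l2)).length = (i + 1) + ((UR P l2).length - j) := by
    rw [hU, List.length_append, List.length_take, List.length_drop]
    omega
  have hk1 : i + 1 < (UR P (l1 ++ l2)).length := by omega
  have e1 : (UR P (l1 ++ l2))[i] = (UR P l1)[i] := by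
    rw [List.getElem_of_eq hU, List.getElem_append_left (by rw [List.length_take]; omega), List.getElem_take]
  have e2 : (UR P (l1 ++ l2))[i + 1] = (UR P l2)[j] := by
    rw [List.getElem_of_eq hU, List.getElem_append_right (by rw [List.length_take]; omega), List.getElem_drop]
    congr 1
    rw [List.length_take]
    omega
  have supp : ∀ {z : ι}, z ∈ l1 ++ l2 → cross (P (UR P l2)[j] - P (UR P l1)[i]) (P z - P (UR P l1)[i]) ≤ 0 ∧
      (cross (P (UR P l2)[j] - P (UR P l1)[i]) (P z - P (UR P l1)[i]) = 0 →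
        (P (UR P l1)[i]).1 ≤ (P z).1 ∧ (P z).1 ≤ (P (UR P l2)[j]).1) := by
    intro z hz
    have h := UR_edge hs hk1 hz
    rw [e1, e2] at h
    exact h
  have hSu := supp (List.mem_append_left l2 (mem hk'))
  have hSp := supp (List.mem_append_right l1 (mem ht'))
  have hSq := supp (List.mem_append_right l1 (mem ht))
  have hL := bridge_left hs hi hj hU hk
  have hR := bridge_right hs hi hj hU ht
  have hki : k + 1 ≤ i → (P (UR P l1)[k]).1 < (P (UR P l1)[i]).1 := fun h =>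
    srt_lt (UR_srt hs1) (show k < i by omega) hi
  have hjt : j ≤ t → (P (UR P l2)[j]).1 < (P (UR P l2)[t + 1]).1 := fun h =>
    srt_lt (UR_srt hs2) (show j < t + 1 by omega) ht
  generalize P (UR P l1)[k] = u at *
  generalize P (UR P l1)[k + 1] = v at *
  generalize P (UR P l1)[i] = a at *
  generalize P (UR P l2)[j] = b at *
  generalize P (UR P l2)[t] = p at *
  generalize P (UR P l2)[t + 1] = q at *
  generalize P (UR P l2)[0] = m at *
  obtain ⟨c, hc⟩ := gbl_slope huv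
  obtain ⟨r, hr⟩ := gbl_slope hpq
  obtain ⟨w, hw⟩ := gbl_slope hab
  have hXY : 0 < (v.1 - u.1) * (q.1 - p.1) := mul_pos (by linarith) (by linarith)
  rw [gbl_sigma hc hr] at hσ
  rw [gbl_H hc hr] at hH
  -- the cross products in terms of heights
  rw [gbl_lt hc huv] at hL
  rw [gbl_lt hr hpq] at hR
  rw [gbl_le hc huv] at hE
  rw [gbl_le hr hpq] at hF
  have hSu1 := (gbl_le hw hab u).1 hSu.1
  have hSp1 := (gbl_le hw hab p).1 hSp.1
  have hSu2 : k + 1 ≤ i → u.2 < a.2 + w * (u.1 - a.1) := by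
    intro h
    refine (gbl_lt hw hab u).1 (lt_of_le_of_ne hSu.1 fun h0 => ?_)
    have h1 := (hSu.2 h0).1
    have h2 := hki h
    linarith
  have hSq2 : j ≤ t → q.2 < a.2 + w * (q.1 - a.1) := by
    intro h
    refine (gbl_lt hw hab q).1 (lt_of_le_of_ne hSq.1 fun h0 => ?_)
    have h1 := (hSq.2 h0).2
    have h2 := hjt h
    linarith
  -- the four statements on slopes
  have s1 : k + 1 ≤ i → w < c := by
    intro h
    have h1 := hSu2 h
    have h2 := hki h
    refine gbl_mul_lt (sub_pos.2 h2) ?_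
    linarith
  have s2 : i ≤ k → c ≤ w := by
    intro h
    have h1 : ¬ b.2 < u.2 + c * (b.1 - u.1) := fun h2 => by
      have := hL.1 h2
      omega
    by_contra h2
    have h3 := mul_lt_mul_of_pos_right (not_le.1 h2) (sub_pos.2 hab)
    linarith
  have s3 : j ≤ t → r < w := by
    intro h
    have h1 := hSq2 h
    have h2 := hjt h
    refine gbl_mul_lt (sub_pos.2 h2) ?_
    linarith
  have s4 : t + 1 ≤ j → w ≤ r := by
    intro h
    have h1 : ¬ a.2 < p.2 + r * (a.1 - p.1) := fun h2 => by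
      have := hR.1 h2
      omega
    by_contra h2
    have h3 := mul_lt_mul_of_pos_right (not_le.1 h2) (sub_pos.2 hab)
    linarith
  -- the four statements on heights
  have L1 : w < c → a.2 + w * (m.1 - a.1) < u.2 + c * (m.1 - u.1) := by
    intro h
    have := mul_lt_mul_of_pos_right h (sub_pos.2 ham)
    linarith
  have L2 : w ≤ r → p.2 + r * (m.1 - p.1) ≤ a.2 + w * (m.1 - a.1) := by
    intro h
    have := mul_le_mul_of_nonneg_right h (sub_nonneg.2 hmp)
    linarith
  have L3 : c ≤ w → u.2 + c * (m.1 - u.1) ≤ a.2 + w * (m.1 - a.1) := by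
    intro h
    have := mul_le_mul_of_nonneg_right h (sub_pos.2 hum).le
    linarith
  have L4 : r ≤ w → a.2 + w * (m.1 - a.1) ≤ p.2 + r * (m.1 - p.1) := by
    intro h
    have := mul_le_mul_of_nonneg_right h (sub_nonneg.2 hmb)
    linarith
  have σ1 : 0 ≤ σ → c ≤ r := by
    intro h
    by_contra h1
    have := mul_neg_of_pos_of_neg hXY (sub_neg.2 (not_le.1 h1))
    linarith
  have σ2 : σ < 0 → r < c := by
    intro h
    by_contra h1
    have := mul_nonneg hXY.le (sub_nonneg.2 (not_lt.1 h1))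
    linarith
  have H1 : 0 ≤ H → u.2 + c * (m.1 - u.1) ≤ p.2 + r * (m.1 - p.1) := by
    intro h
    by_contra h1
    have := mul_neg_of_pos_of_neg hXY (sub_neg.2 (not_le.1 h1))
    linarith
  have H2 : H < 0 → p.2 + r * (m.1 - p.1) < u.2 + c * (m.1 - u.1) := by
    intro h
    by_contra h1
    have := mul_nonneg hXY.le (sub_nonneg.2 (not_lt.1 h1))
    linarith
  refine ⟨fun h1 h2 => ?_, fun h1 h2 => ?_, fun h1 h2 => ?_, fun h1 h2 => ?_⟩
  · by_contra hn
    have h3 := s1 (by omega)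
    have h4 := L1 h3
    have h5 := L2 (h3.le.trans (σ1 h1))
    have h6 := H1 h2
    linarith
  · by_contra hn
    have h3 := s3 (by omega)
    have h4 := L4 h3.le
    have h5 := L3 ((σ1 h1).trans h3.le)
    have h6 := H2 h2
    linarith
  · by_contra hn
    have h3 := s4 (by omega)
    have h4 := L2 h3
    have h5 := L1 (lt_of_le_of_lt h3 (σ2 h1))
    have h6 := H1 h2
    linarith
  · by_contra hn
    have h3 := s2 (by omega)
    have h4 := L3 h3
    have h5 := L4 ((σ2 h1).le.trans h3)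
    have h6 := H2 h2
    linarith

end Pool.Agent.Helper55.DH
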