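import Pool.Agent.Helper55.DH.GBasic

/-!
# DH-G3: the upper hull of a union

`l1 ++ l2` is sorted, both nonempty, `A = UR P l1`, `B = UR P l2`, `V = UR P (l1 ++ l2)`. `UR P (l1 ++ l2) = V1 ++ V2` with `V1` = the filter of `l1`,
`V2` = the filter of `l2` (by the condition for `l1 ++ l2`; `List.filter_append`). `V1 ≠ []`, it contains the first element of `l1`; `V2 ≠ []`
(last element). Let `a` be the last element of `V1`, `b` the first of `V2`.
(1) `V1 ⊆ A`: fewer conditions. So `V1` is a sublist of `A` (filter of the filter), `a = A[i]`.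
(2) `z ∈ A`, `z.x < a.x` implies `z ∈ V1`: let `p, q ∈ l1 ++ l2`, `p.x < z.x < q.x`. If `q ∈ l1` then `p ∈ l1` (its `x`-coordinate is smaller) and the condition holds
 because `z ∈ A`. Let `q ∈ l2`; then `p ∈ l1`, and `a.x < q.x`. The condition of `z ∈ A` with `p, a`: `cross (z - p) (a - p) < 0`; the condition of
 `a ∈ V` with `p, q`: `cross (a - p) (q - p) < 0`. With `z' = z - p, a' = a - p, q' = q - p` (all first coordinates positive): `cross z' q' < 0`, because
 `a'.1 * cross z' q' = q'.1 * cross z' a' + z'.1 * cross a' q'` (identity, `ring`).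
(3) hence `V1 = A.take (i + 1)`: both are sorted sublists of `A` with the same elements (those `z ∈ A` with `z.x ≤ a.x`). E.g.: `V1 = A.filter (fun z => (P z).1 ≤ (P a).1)`,
 and for a sorted list this filter is `take (i + 1)`; or `List.Pairwise`/`List.eq_of_perm_of_sorted`-type lemma.
(4) symmetrically `V2 = B.drop j`, `b = B[j]`: for `z ∈ B`, `z.x > b.x`, `p ∈ l1`, `q ∈ l2` (`p.x < z.x < q.x`): conditions of `z ∈ B` with `b, q` and of `b ∈ V` with
 `p, q`; `(q - b).1`-weighted identity.
-/

namespace Pool.Agent.Helper55.DH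

variable {ι : Type} {P : ι → ℝ × ℝ} {l1 l2 : List ι}

private theorem filter_take {α : Type} (p : α → Bool) : ∀ l : List α,
    l.Pairwise (fun a b => p b = true → p a = true) → l.filter p = l.take (l.filter p).length
  | [], _ => by simp
  | a :: l, h => by
    rw [List.pairwise_cons] at h
    by_cases ha : p a = true
    · rw [List.filter_cons_of_pos ha, List.length_cons, List.take_succ_cons, ← filter_take p l h.2]
    · have h0 : l.filter p = [] := by
        rw [List.filter_eq_nil_iff]
        intro b hb hpb
        exact ha (h.1 b hb hpb)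
      rw [List.filter_cons_of_neg ha, h0]
      simp

private theorem filter_drop {α : Type} (p : α → Bool) : ∀ l : List α,
    l.Pairwise (fun a b => p a = true → p b = true) → l.filter p = l.drop (l.length - (l.filter p).length)
  | [], _ => by simp
  | a :: l, h => by
    rw [List.pairwise_cons] at h
    by_cases ha : p a = true
    · have h0 : (a :: l).filter p = a :: l := by
        rw [List.filter_eq_self]
        intro b hb
        rcases List.mem_cons.mp hb with rfl | hb
        · exact ha
        · exact h.1 b hb ha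
      rw [h0]
      simp
    · have h1 : (l.filter p).length ≤ l.length := List.length_filter_le _ _
      have h2 : (a :: l).length - (l.filter p).length = (l.length - (l.filter p).length) + 1 := by
        rw [List.length_cons]
        omega
      rw [List.filter_cons_of_neg ha, h2, List.drop_succ_cons, ← filter_drop p l h.2]

private theorem UR_filter (p : ι → Bool) (l : List ι) (h : ∀ z ∈ l, p z = true → z ∈ UR P l) :
    l.filter p = (UR P l).filter p := by
  unfold UR
  rw [List.filter_filter]
  apply List.filter_congr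
  intro z hz
  by_cases hp : p z = true
  · have h1 := (List.mem_filter.mp (h z hz hp)).2
    rw [hp, h1]
    rfl
  · rw [Bool.not_eq_true] at hp
    rw [hp]
    rfl

private theorem left_lt {p z a q : ℝ × ℝ} (h1 : p.1 < z.1) (h2 : z.1 < a.1) (h3 : a.1 < q.1)
    (h4 : cross (z - p) (a - p) < 0) (h5 : cross (a - p) (q - p) < 0) : cross (z - p) (q - p) < 0 := by
  have e : (a.1 - p.1) * cross (z - p) (q - p) =
      (q.1 - p.1) * cross (z - p) (a - p) + (z.1 - p.1) * cross (a - p) (q - p) := by
    simp only [cross, Prod.fst_sub, Prod.snd_sub]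
    ring
  have h6 : (q.1 - p.1) * cross (z - p) (a - p) < 0 := mul_neg_of_pos_of_neg (by linarith) h4
  have h7 : (z.1 - p.1) * cross (a - p) (q - p) < 0 := mul_neg_of_pos_of_neg (by linarith) h5
  have h8 : (a.1 - p.1) * cross (z - p) (q - p) < 0 := by
    rw [e]
    linarith
  by_contra h9
  rw [not_lt] at h9
  have h10 := mul_nonneg (by linarith : (0 : ℝ) ≤ a.1 - p.1) h9
  linarith

private theorem right_lt {p b z q : ℝ × ℝ} (h1 : p.1 < b.1) (h2 : b.1 < z.1) (h3 : z.1 < q.1)
    (h4 : cross (z - b) (q - b) < 0) (h5 : cross (b - p) (q - p) < 0) : cross (z - p) (q - p) < 0 := by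
  have e : (q.1 - b.1) * cross (z - p) (q - p) =
      (q.1 - z.1) * cross (b - p) (q - p) + (q.1 - p.1) * cross (z - b) (q - b) := by
    simp only [cross, Prod.fst_sub, Prod.snd_sub]
    ring
  have h6 : (q.1 - z.1) * cross (b - p) (q - p) < 0 := mul_neg_of_pos_of_neg (by linarith) h5
  have h7 : (q.1 - p.1) * cross (z - b) (q - b) < 0 := mul_neg_of_pos_of_neg (by linarith) h4
  have h8 : (q.1 - b.1) * cross (z - p) (q - p) < 0 := by
    rw [e]
    linarith
  by_contra h9
  rw [not_lt] at h9
  have h10 := mul_nonneg (by linarith : (0 : ℝ) ≤ q.1 - b.1) h9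
  linarith

theorem UR_bridge (hs : SrtR P (l1 ++ l2)) (h1 : l1 ≠ []) (h2 : l2 ≠ []) :
    ∃ i j, i < (UR P l1).length ∧ j < (UR P l2).length ∧
      UR P (l1 ++ l2) = (UR P l1).take (i + 1) ++ (UR P l2).drop j := by
  have hs' := List.pairwise_append.mp hs
  have hs1 : SrtR P l1 := hs'.1
  have hs2 : SrtR P l2 := hs'.2.1
  have hlt : ∀ a ∈ l1, ∀ b ∈ l2, (P a).1 < (P b).1 := hs'.2.2
  obtain ⟨f, hf⟩ : ∃ f : ι → Bool, f = fun z => decide (∀ a ∈ l1 ++ l2, ∀ b ∈ l1 ++ l2, (P a).1 < (P z).1 →
    (P z).1 < (P b).1 → cross (P z - P a) (P b - P a) < 0) := ⟨_, rfl⟩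
  have hfz : ∀ z, f z = true ↔ ∀ a ∈ l1 ++ l2, ∀ b ∈ l1 ++ l2, (P a).1 < (P z).1 →
      (P z).1 < (P b).1 → cross (P z - P a) (P b - P a) < 0 := by
    intro z
    rw [hf]
    exact decide_eq_true_iff
  have hV : UR P (l1 ++ l2) = l1.filter f ++ l2.filter f := by
    rw [hf, ← List.filter_append]
    rfl
  have hA : l1.filter f = (UR P l1).filter f := by
    apply UR_filter
    intro z hz hfz'
    rw [hfz] at hfz'
    rw [mem_UR]
    exact ⟨hz, fun a ha b hb => hfz' a (List.mem_append_left _ ha) b (List.mem_append_left _ hb)⟩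
  have hB : l2.filter f = (UR P l2).filter f := by
    apply UR_filter
    intro z hz hfz'
    rw [hfz] at hfz'
    rw [mem_UR]
    exact ⟨hz, fun a ha b hb => hfz' a (List.mem_append_right _ ha) b (List.mem_append_right _ hb)⟩
  have hpA : (UR P l1).Pairwise (fun a b => f b = true → f a = true) := by
    refine List.Pairwise.imp_of_mem ?_ (UR_srt hs1)
    intro z a hz ha hza hfa
    have hz' := mem_UR.mp hz
    have ha' := mem_UR.mp ha
    rw [hfz] at hfa ⊢
    intro p hp q hq hpz hzq
    have hp1 : p ∈ l1 := by
      rcases List.mem_append.mp hp with h | h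
      · exact h
      · exact absurd hpz (not_lt.mpr (hlt z hz'.1 p h).le)
    rcases List.mem_append.mp hq with h | h
    · exact hz'.2 p hp1 q h hpz hzq
    · have haq := hlt a ha'.1 q h
      exact left_lt hpz hza haq (hz'.2 p hp1 a ha'.1 hpz hza) (hfa p hp q hq (hpz.trans hza) haq)
  have hpB : (UR P l2).Pairwise (fun a b => f a = true → f b = true) := by
    refine List.Pairwise.imp_of_mem ?_ (UR_srt hs2)
    intro b z hb hz hbz hfb
    have hz' := mem_UR.mp hz
    have hb' := mem_UR.mp hb
    rw [hfz] at hfb ⊢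
    intro p hp q hq hpz hzq
    have hq2 : q ∈ l2 := by
      rcases List.mem_append.mp hq with h | h
      · exact absurd hzq (not_lt.mpr (hlt q h z hz'.1).le)
      · exact h
    rcases List.mem_append.mp hp with h | h
    · have hpb := hlt p h b hb'.1
      exact right_lt hpb hbz hzq (hz'.2 b hb'.1 q hq2 hbz hzq) (hfb p hp q hq hpb (hbz.trans hzq))
    · exact hz'.2 p h q hq2 hpz hzq
  have hn1 : l1.filter f ≠ [] := by
    have h3 : (UR P (l1 ++ l2)).head? = some (l1.head h1) := by
      rw [UR_head hs, List.head?_append_of_ne_nil _ h1, List.head?_eq_some_head h1]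
    have h4 := (mem_UR.mp (List.mem_of_head? h3)).2
    exact List.ne_nil_of_mem (List.mem_filter.mpr ⟨List.head_mem h1, (hfz _).mpr h4⟩)
  have hn2 : l2.filter f ≠ [] := by
    have h3 : (UR P (l1 ++ l2)).getLast? = some (l2.getLast h2) := by
      rw [UR_getLast hs, List.getLast?_append_of_ne_nil _ h2, List.getLast?_eq_some_getLast h2]
    have h4 := (mem_UR.mp (List.mem_of_getLast? h3)).2
    exact List.ne_nil_of_mem (List.mem_filter.mpr ⟨List.getLast_mem h2, (hfz _).mpr h4⟩)
  have ha : 0 < ((UR P l1).filter f).length := by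
    rw [← hA]
    exact List.length_pos_iff.mpr hn1
  have hb : 0 < ((UR P l2).filter f).length := by
    rw [← hB]
    exact List.length_pos_iff.mpr hn2
  have ha' : ((UR P l1).filter f).length ≤ (UR P l1).length := List.length_filter_le _ _
  have hb' : ((UR P l2).filter f).length ≤ (UR P l2).length := List.length_filter_le _ _
  refine ⟨((UR P l1).filter f).length - 1, (UR P l2).length - ((UR P l2).filter f).length, by omega, by omega, ?_⟩
  rw [Nat.sub_add_cancel ha, ← filter_take f _ hpA, ← filter_drop f _ hpB, hV, hA, hB]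

end Pool.Agent.Helper55.DH
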