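import Pool.Agent.Helper55.DH.GBasic

/-!
# DH-G2: the lines through the edges of the upper hull are supporting lines

Let `u = A[k]`, `v = A[k+1]`, `A = UR P l`, `z ∈ l`, `h(z) = cross (P v - P u) (P z - P u)` (an affine function of `P z`, zero at `u`, `v`).
* `z.x < u.x`: the condition for `u ∈ UR` with `a = z`, `b = v` is `cross (P u - P z) (P v - P z) < 0`, and this number is `h(z)`.
* `z.x > v.x`: the condition for `v ∈ UR` with `a = u`, `b = z`: `cross (P v - P u) (P z - P u) < 0`, this is `h(z)`.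
* `z = u` or `z = v` (same `x`-coordinate, `srt_inj`): `h = 0`.
* `u.x < z.x < v.x`: suppose `h(z) > 0` for some such `z ∈ l`. Take among the `z ∈ l` with `u.x < z.x < v.x` one with maximal `h`, and of these
  the one with smallest `x` (e.g. `Finset.exists_max_image` / `List` induction on the finite set; or choose it maximal for the
  lexicographic order of `(h z, -(P z).1)`). Then `z ∈ UR P l`: let `a, b ∈ l`, `a.x < z.x < b.x`. Then `h(a) < h(z)` (`a.x < u.x`: `h(a) < 0 < h(z)`;
  `a = u`: `0 < h z`; else by the choice of `z`, with strict inequality by the choice of the smallest `x`) and `h(b) ≤ h(z)` (same cases).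
  With `X = (P v - P u).1 > 0`: `X * cross (P z - P a) (P b - P a) = (h(b) - h(a)) * (z.x - a.x) - (h(z) - h(a)) * (b.x - a.x)`
  (identity, `ring`), and this is `< 0`, because `h(b) - h(a) ≤ h(z) - h(a)`, `0 < z.x - a.x < b.x - a.x` and `h(z) - h(a) > 0`.
  But `UR P l` is sorted and contains no element strictly between its members number `k` and `k+1`: contradiction.
  (Check the sign of the identity with `linear_combination`; `cross (P z - P a) (P b - P a) < 0` means that `z` is above the segment `a b`.)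
-/

namespace Pool.Agent.Helper55.DH

variable {ι : Type} {P : ι → ℝ × ℝ} {l : List ι}

private theorem h86_key (u v z a b : ℝ × ℝ) (hX : 0 < v.1 - u.1) (haz : a.1 < z.1) (hzb : z.1 < b.1)
    (ha : cross (v - u) (a - u) < cross (v - u) (z - u)) (hb : cross (v - u) (b - u) ≤ cross (v - u) (z - u)) :
    cross (z - a) (b - a) < 0 := by
  have h1 : (v.1 - u.1) * cross (z - a) (b - a) =
      (cross (v - u) (b - u) - cross (v - u) (a - u)) * (z.1 - a.1) -
        (cross (v - u) (z - u) - cross (v - u) (a - u)) * (b.1 - a.1) := by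
    simp only [cross, Prod.fst_sub, Prod.snd_sub]
    ring
  generalize cross (v - u) (a - u) = p at *
  generalize cross (v - u) (b - u) = q at *
  generalize cross (v - u) (z - u) = r at *
  generalize cross (z - a) (b - a) = s at *
  have h2 : (q - p) * (z.1 - a.1) ≤ (r - p) * (z.1 - a.1) :=
    mul_le_mul_of_nonneg_right (by linarith) (by linarith)
  have h3 : (r - p) * (z.1 - a.1) < (r - p) * (b.1 - a.1) :=
    mul_lt_mul_of_pos_left (by linarith) (by linarith)
  by_contra hc
  have h4 := mul_nonneg hX.le (not_lt.1 hc)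
  linarith

private theorem h86_cyc (u v z : ℝ × ℝ) : cross (v - u) (z - u) = cross (u - z) (v - z) := by
  simp only [cross, Prod.fst_sub, Prod.snd_sub]
  ring

private theorem h86_left (u v : ℝ × ℝ) : cross (v - u) (u - u) = 0 := by
  simp only [cross, Prod.fst_sub, Prod.snd_sub]
  ring

private theorem h86_right (u v : ℝ × ℝ) : cross (v - u) (v - u) = 0 := by
  simp only [cross, Prod.fst_sub, Prod.snd_sub]
  ring

/-- The values of `h` outside of the open strip. -/
private theorem h86_out (hs : SrtR P l) {u v : ι} (hu : u ∈ UR P l) (hv : v ∈ UR P l) (huv : (P u).1 < (P v).1)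
    {z : ι} (hz : z ∈ l) (h : (P z).1 ≤ (P u).1 ∨ (P v).1 ≤ (P z).1) :
    cross (P v - P u) (P z - P u) ≤ 0 ∧
      (cross (P v - P u) (P z - P u) = 0 → (P u).1 ≤ (P z).1 ∧ (P z).1 ≤ (P v).1) := by
  obtain ⟨hul, hu1⟩ := mem_UR.1 hu
  obtain ⟨hvl, hv1⟩ := mem_UR.1 hv
  rcases h with h | h
  · rcases h.lt_or_eq with h | h
    · have h1 := hu1 z hz v hvl h huv
      rw [h86_cyc]
      exact ⟨h1.le, fun h0 => absurd h0 h1.ne⟩
    · have h1 := srt_inj hs hz hul h
      subst h1
      rw [h86_left]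
      exact ⟨le_rfl, fun _ => ⟨le_rfl, huv.le⟩⟩
  · rcases h.lt_or_eq with h | h
    · have h1 := hv1 u hul z hz huv h
      exact ⟨h1.le, fun h0 => absurd h0 h1.ne⟩
    · have h1 := srt_inj hs hvl hz h
      subst h1
      rw [h86_right]
      exact ⟨le_rfl, fun _ => ⟨huv.le, le_rfl⟩⟩

private theorem h86_mid (hs : SrtR P l) {u v : ι} (hu : u ∈ UR P l) (hv : v ∈ UR P l) (huv : (P u).1 < (P v).1)
    (hno : ∀ z ∈ UR P l, ¬ ((P u).1 < (P z).1 ∧ (P z).1 < (P v).1))
    {z : ι} (hz : z ∈ l) (h1 : (P u).1 < (P z).1) (h2 : (P z).1 < (P v).1) :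
    cross (P v - P u) (P z - P u) ≤ 0 := by
  by_contra hc
  rw [not_le] at hc
  let S : Set ι := {w | w ∈ l ∧ (P u).1 < (P w).1 ∧ (P w).1 < (P v).1}
  have hS : S.Finite := (List.finite_toSet l).subset fun w hw => hw.1
  obtain ⟨w, hw, hmax⟩ := Set.exists_max_image S (fun w => toLex (cross (P v - P u) (P w - P u), -(P w).1)) hS
    ⟨z, hz, h1, h2⟩
  have hmax1 : ∀ b ∈ S, cross (P v - P u) (P b - P u) < cross (P v - P u) (P w - P u) ∨
      (cross (P v - P u) (P b - P u) = cross (P v - P u) (P w - P u) ∧ (P w).1 ≤ (P b).1) := by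
    intro b hb
    have h3 := hmax b hb
    rw [Prod.Lex.toLex_le_toLex] at h3
    rcases h3 with h3 | ⟨h3, h4⟩
    · exact Or.inl h3
    · exact Or.inr ⟨h3, by simpa using h4⟩
  have hpos : 0 < cross (P v - P u) (P w - P u) := by
    rcases hmax1 z ⟨hz, h1, h2⟩ with h3 | ⟨h3, -⟩
    · exact hc.trans h3
    · exact h3 ▸ hc
  refine hno w (mem_UR.2 ⟨hw.1, ?_⟩) hw.2
  intro a ha b hb haw hwb
  refine h86_key (P u) (P v) (P w) (P a) (P b) (by linarith) haw hwb ?_ ?_
  · rcases le_or_gt (P a).1 (P u).1 with h3 | h3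
    · exact (h86_out hs hu hv huv ha (Or.inl h3)).1.trans_lt hpos
    · rcases hmax1 a ⟨ha, h3, haw.trans hw.2.2⟩ with h4 | ⟨-, h4⟩
      · exact h4
      · exact absurd haw (not_lt.2 h4)
  · rcases le_or_gt (P v).1 (P b).1 with h3 | h3
    · exact (h86_out hs hu hv huv hb (Or.inr h3)).1.trans hpos.le
    · rcases hmax1 b ⟨hb, hw.2.1.trans hwb, h3⟩ with h4 | ⟨h4, -⟩
      · exact h4.le
      · exact h4.le

theorem UR_edge (hs : SrtR P l) {k : ℕ} (hk : k + 1 < (UR P l).length) {z : ι} (hz : z ∈ l) :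
    cross (P (UR P l)[k + 1] - P (UR P l)[k]) (P z - P (UR P l)[k]) ≤ 0 ∧
      (cross (P (UR P l)[k + 1] - P (UR P l)[k]) (P z - P (UR P l)[k]) = 0 →
        (P (UR P l)[k]).1 ≤ (P z).1 ∧ (P z).1 ≤ (P (UR P l)[k + 1]).1) := by
  have hsA := UR_srt hs
  have huv : (P (UR P l)[k]).1 < (P (UR P l)[k + 1]).1 := srt_lt hsA (Nat.lt_succ_self k) hk
  have hu : (UR P l)[k] ∈ UR P l := List.getElem_mem (by omega)
  have hv : (UR P l)[k + 1] ∈ UR P l := List.getElem_mem hk
  have hno : ∀ z ∈ UR P l, ¬ ((P (UR P l)[k]).1 < (P z).1 ∧ (P z).1 < (P (UR P l)[k + 1]).1) := by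
    rintro w hw ⟨h1, h2⟩
    obtain ⟨m, hm, rfl⟩ := List.mem_iff_getElem.1 hw
    rcases Nat.lt_or_ge k m with h | h
    · rcases Nat.lt_or_ge (k + 1) m with h' | h'
      · have := srt_lt hsA h' hm
        linarith
      · have h3 : m = k + 1 := by omega
        subst h3
        exact lt_irrefl _ h2
    · rcases Nat.lt_or_ge m k with h' | h'
      · have := srt_lt hsA h' (show k < (UR P l).length by omega)
        linarith
      · have h3 : m = k := by omega
        subst h3
        exact lt_irrefl _ h1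
  by_cases h : (P z).1 ≤ (P (UR P l)[k]).1 ∨ (P (UR P l)[k + 1]).1 ≤ (P z).1
  · exact h86_out hs hu hv huv hz h
  · rw [not_or, not_le, not_le] at h
    exact ⟨h86_mid hs hu hv huv hno hz h.1 h.2, fun _ => ⟨h.1.le, h.2.le⟩⟩

end Pool.Agent.Helper55.DH
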