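import Pool.Agent.Helper55.DH.GEdge

/-!
# DH-G4: the facts on the bridge used by the search

Everything is real and for sorted lists. `A = UR P l1`, `B = UR P l2`, `UR P (l1 ++ l2) = A.take (i+1) ++ B.drop j`, `a = A[i]`, `b = B[j]` are the consecutive
members number `i`, `i+1` of `UR P (l1 ++ l2)`. By `UR_edge` (for `l1 ++ l2`, `l1`, `l2`):
(S) `cross (b - a) (z - a) ≤ 0` for all `z ∈ l1 ++ l2`, and `< 0` if `z.x < a.x` or `z.x > b.x`;
(E) `cross (A[k+1] - A[k]) (z - A[k]) ≤ 0` for `z ∈ l1`; (F) `cross (B[t+1] - B[t]) (z - B[t]) ≤ 0` for `z ∈ l2`.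
Write `s = slope of ab`, `σ = slope of e = (A[k], A[k+1])`, `ρ = slope of f = (B[t], B[t+1])`.

`left_iff`: `cross (A[k+1] - A[k]) (b - A[k]) < 0 ↔ k + 1 ≤ i`. If `k + 1 ≤ i`: `a ∈ l1` is on or below the line `e` (E) and `s < σ`: `A[i-1]` is strictly below the
 line `ab` and to the left of `a` (S), so `slope (A[i-1], A[i]) > s`, and the slopes of the chain `A` decrease (`UR_cross`), `σ ≥ slope (A[i-1], A[i])`. So `b` is
 strictly below the line `e`. If `i ≤ k`: `A[k]` and `A[k+1]` are on or below the line `ab` (S) and `σ ≤ s` (`slope (A[i], A[i+1]) ≤ s` by (S), slopes decrease),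
 so the line `e` at `b.x ≥ A[k+1].x` is at most `b.y`.
 (Direct: (S) for `A[k+1]` and `σ ≤ s` give it.)
`right_iff`: `cross (B[t+1] - B[t]) (a - B[t]) < 0 ↔ j ≤ t` (mirror image: `j ≤ t`: `s > slope (B[j], B[j+1]) ≥ ρ`, `b` is on or below the line `f`, so `a` is
 strictly below it; `t < j`: `ρ ≥ slope (B[j-1], B[j]) ≥ s`, `B[t]` on or below the line `ab`, so `a` is on or above the line `f`).

The four block facts. Let `m = B[0]`, `x = m.x`; all points of `l1` have smaller, all of `l2` have at least this first coordinate. `he`, `hf`, `h` = heights of the lines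
 `e`, `f`, `ab` at `x`. `he ≤ hf` iff `0 ≤ H` where `H = cross (A[k] - m) (A[k+1] - m) * (B[t+1] - B[t]).1 - cross (B[t] - m) (B[t+1] - m) * (A[k+1] - A[k]).1`
 (because `he - m.y = - cross (A[k] - m) (A[k+1] - m) / (A[k+1] - A[k]).1`). By `left_iff`, `right_iff` and their proofs: `i ≤ k ↔ σ ≤ s`, `t + 1 ≤ j ↔ s ≤ ρ`.
 (L1) `s < σ → h < he` (a is on or below the line `e`, and `x > a.x`); (L2) `s ≤ ρ → hf ≤ h` (`B[t]` is on or below the line `ab`, `B[t].x ≥ x`);
 (L3) `σ ≤ s → he ≤ h` (`A[k]` is on or below the line `ab`); (L4) `ρ ≤ s → h ≤ hf` (`b` is on or below the line `f`).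
 1. `σ ≤ ρ`, `he ≤ hf`: `σ ≤ s` (else `s < σ ≤ ρ`, `hf ≤ h < he`).   2. `σ ≤ ρ`, `hf < he`: `s ≤ ρ` (else `σ ≤ ρ < s`, `he ≤ h ≤ hf`).
 3. `ρ < σ`, `he ≤ hf`: `ρ < s` (else `s ≤ ρ < σ`, `hf ≤ h < he`).    4. `ρ < σ`, `hf < he`: `s < σ` (else `ρ < σ ≤ s`, `he ≤ h ≤ hf`).
 In terms of cross products: `σ ≤ ρ` iff `0 ≤ cross (A[k+1] - A[k]) (B[t+1] - B[t])`.
 (It is convenient to prove everything with real quotients for the slopes; first coordinates of the differences are positive.)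
-/

namespace Pool.Agent.Helper55.DH

variable {ι : Type} {P : ι → ℝ × ℝ} {l1 l2 : List ι}

private theorem supp (hs : SrtR P (l1 ++ l2)) {i j : ℕ} (hi : i < (UR P l1).length) (hj : j < (UR P l2).length)
    (hU : UR P (l1 ++ l2) = (UR P l1).take (i + 1) ++ (UR P l2).drop j) {z : ι} (hz : z ∈ l1 ++ l2) :
    cross (P (UR P l2)[j] - P (UR P l1)[i]) (P z - P (UR P l1)[i]) ≤ 0 ∧
      (cross (P (UR P l2)[j] - P (UR P l1)[i]) (P z - P (UR P l1)[i]) = 0 →
        (P (UR P l1)[i]).1 ≤ (P z).1 ∧ (P z).1 ≤ (P (UR P l2)[j]).1) := by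
  have hlen : (UR P (l1 ++ l2)).length = (i + 1) + ((UR P l2).length - j) := by
    rw [hU, List.length_append, List.length_take, List.length_drop]
    omega
  have hk : i + 1 < (UR P (l1 ++ l2)).length := by omega
  have e1 : (UR P (l1 ++ l2))[i] = (UR P l1)[i] := by
    rw [List.getElem_of_eq hU, List.getElem_append_left (by rw [List.length_take]; omega), List.getElem_take]
  have e2 : (UR P (l1 ++ l2))[i + 1] = (UR P l2)[j] := by
    rw [List.getElem_of_eq hU, List.getElem_append_right (by rw [List.length_take]; omega), List.getElem_drop]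
    congr 1
    rw [List.length_take]
    omega
  have h := UR_edge hs hk hz
  rw [e1, e2] at h
  exact h

private theorem parts (hs : SrtR P (l1 ++ l2)) : SrtR P l1 ∧ SrtR P l2 ∧ ∀ a ∈ l1, ∀ b ∈ l2, (P a).1 < (P b).1 :=
  List.pairwise_append.1 hs

private theorem mem_of_idx {l : List ι} {k : ℕ} (hk : k < (UR P l).length) : (UR P l)[k] ∈ l :=
  (mem_UR.1 (List.getElem_mem hk)).1

theorem bridge_left (hs : SrtR P (l1 ++ l2)) {i j : ℕ} (hi : i < (UR P l1).length) (hj : j < (UR P l2).length)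
    (hU : UR P (l1 ++ l2) = (UR P l1).take (i + 1) ++ (UR P l2).drop j) {k : ℕ} (hk : k + 1 < (UR P l1).length) :
    cross (P (UR P l1)[k + 1] - P (UR P l1)[k]) (P (UR P l2)[j] - P (UR P l1)[k]) < 0 ↔ k + 1 ≤ i := by
  obtain ⟨hs1, hs2, hlt⟩ := parts hs
  have hk' : k < (UR P l1).length := by omega
  have huv := srt_lt (UR_srt hs1) (Nat.lt_succ_self k) hk
  have hub : (P (UR P l1)[k]).1 < (P (UR P l2)[j]).1 := hlt _ (mem_of_idx hk') _ (mem_of_idx hj)
  have hvb : (P (UR P l1)[k + 1]).1 < (P (UR P l2)[j]).1 := hlt _ (mem_of_idx hk) _ (mem_of_idx hj)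
  have hab : (P (UR P l1)[i]).1 < (P (UR P l2)[j]).1 := hlt _ (mem_of_idx hi) _ (mem_of_idx hj)
  have hE := (UR_edge hs1 hk (mem_of_idx hi)).1
  have hSu := supp hs hi hj hU (List.mem_append_left l2 (mem_of_idx hk'))
  have hSv := supp hs hi hj hU (List.mem_append_left l2 (mem_of_idx hk))
  constructor
  · intro h
    by_contra hc
    have hav := srt_lt (UR_srt hs1) (show i < k + 1 by omega) hk
    have hSv := hSv.1
    generalize P (UR P l1)[k] = u at *
    generalize P (UR P l1)[k + 1] = v at *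
    generalize P (UR P l1)[i] = a at *
    generalize P (UR P l2)[j] = b at *
    simp only [cross, Prod.fst_sub, Prod.snd_sub] at *
    have hX : 0 < v.1 - u.1 := by linarith
    have h1 : 0 < v.1 - a.1 := by linarith
    have h2 : 0 < b.1 - v.1 := by linarith
    have key : (v.1 - u.1) * ((b.1 - a.1) * (v.2 - a.2) - (b.2 - a.2) * (v.1 - a.1)) =
        -((v.1 - u.1) * (b.2 - u.2) - (v.2 - u.2) * (b.1 - u.1)) * (v.1 - a.1) -
          ((v.1 - u.1) * (a.2 - u.2) - (v.2 - u.2) * (a.1 - u.1)) * (b.1 - v.1) := by ring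
    have h3 : 0 < -((v.1 - u.1) * (b.2 - u.2) - (v.2 - u.2) * (b.1 - u.1)) * (v.1 - a.1) :=
      mul_pos (by linarith) h1
    have h4 : ((v.1 - u.1) * (a.2 - u.2) - (v.2 - u.2) * (a.1 - u.1)) * (b.1 - v.1) ≤ 0 :=
      mul_nonpos_of_nonpos_of_nonneg hE h2.le
    have h5 : (v.1 - u.1) * ((b.1 - a.1) * (v.2 - a.2) - (b.2 - a.2) * (v.1 - a.1)) ≤ 0 :=
      mul_nonpos_of_nonneg_of_nonpos hX.le hSv
    linarith
  · intro h
    have hua := srt_lt (UR_srt hs1) (show k < i by omega) hi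
    have hS : cross (P (UR P l2)[j] - P (UR P l1)[i]) (P (UR P l1)[k] - P (UR P l1)[i]) < 0 := by
      refine lt_of_le_of_ne hSu.1 fun h0 => ?_
      have := (hSu.2 h0).1
      linarith
    clear hSu hSv
    generalize P (UR P l1)[k] = u at *
    generalize P (UR P l1)[k + 1] = v at *
    generalize P (UR P l1)[i] = a at *
    generalize P (UR P l2)[j] = b at *
    simp only [cross, Prod.fst_sub, Prod.snd_sub] at *
    have hX : 0 < v.1 - u.1 := by linarith
    have hY : 0 < a.1 - u.1 := by linarith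
    have hZ : 0 < b.1 - a.1 := by linarith
    have key : (a.1 - u.1) * ((v.1 - u.1) * (b.2 - a.2) - (v.2 - u.2) * (b.1 - a.1)) =
        (v.1 - u.1) * ((b.1 - a.1) * (u.2 - a.2) - (b.2 - a.2) * (u.1 - a.1)) +
          (b.1 - a.1) * ((v.1 - u.1) * (a.2 - u.2) - (v.2 - u.2) * (a.1 - u.1)) := by ring
    have h1 : (v.1 - u.1) * ((b.1 - a.1) * (u.2 - a.2) - (b.2 - a.2) * (u.1 - a.1)) < 0 :=
      mul_neg_of_pos_of_neg hX hS
    have h2 : (b.1 - a.1) * ((v.1 - u.1) * (a.2 - u.2) - (v.2 - u.2) * (a.1 - u.1)) ≤ 0 :=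
      mul_nonpos_of_nonneg_of_nonpos hZ.le hE
    have h3 : (a.1 - u.1) * ((v.1 - u.1) * (b.2 - a.2) - (v.2 - u.2) * (b.1 - a.1)) < 0 := by linarith
    have h4 : (v.1 - u.1) * (b.2 - a.2) - (v.2 - u.2) * (b.1 - a.1) < 0 := by
      by_contra hc
      have := mul_nonneg hY.le (not_lt.1 hc)
      linarith
    linarith

theorem bridge_right (hs : SrtR P (l1 ++ l2)) {i j : ℕ} (hi : i < (UR P l1).length) (hj : j < (UR P l2).length)
    (hU : UR P (l1 ++ l2) = (UR P l1).take (i + 1) ++ (UR P l2).drop j) {t : ℕ} (ht : t + 1 < (UR P l2).length) :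
    cross (P (UR P l2)[t + 1] - P (UR P l2)[t]) (P (UR P l1)[i] - P (UR P l2)[t]) < 0 ↔ j ≤ t := by
  obtain ⟨hs1, hs2, hlt⟩ := parts hs
  have ht' : t < (UR P l2).length := by omega
  have huv := srt_lt (UR_srt hs2) (Nat.lt_succ_self t) ht
  have hau : (P (UR P l1)[i]).1 < (P (UR P l2)[t]).1 := hlt _ (mem_of_idx hi) _ (mem_of_idx ht')
  have hav : (P (UR P l1)[i]).1 < (P (UR P l2)[t + 1]).1 := hlt _ (mem_of_idx hi) _ (mem_of_idx ht)
  have hab : (P (UR P l1)[i]).1 < (P (UR P l2)[j]).1 := hlt _ (mem_of_idx hi) _ (mem_of_idx hj)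
  have hF := (UR_edge hs2 ht (mem_of_idx hj)).1
  have hSu := supp hs hi hj hU (List.mem_append_right l1 (mem_of_idx ht'))
  have hSv := supp hs hi hj hU (List.mem_append_right l1 (mem_of_idx ht))
  constructor
  · intro h
    by_contra hc
    have hub := srt_lt (UR_srt hs2) (show t < j by omega) hj
    have hSu := hSu.1
    generalize P (UR P l2)[t] = u at *
    generalize P (UR P l2)[t + 1] = v at *
    generalize P (UR P l1)[i] = a at *
    generalize P (UR P l2)[j] = b at *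
    simp only [cross, Prod.fst_sub, Prod.snd_sub] at *
    have hX : 0 < v.1 - u.1 := by linarith
    have h1 : 0 < u.1 - a.1 := by linarith
    have h2 : 0 < b.1 - u.1 := by linarith
    have key : (v.1 - u.1) * ((b.1 - a.1) * (u.2 - a.2) - (b.2 - a.2) * (u.1 - a.1)) =
        -((v.1 - u.1) * (b.2 - u.2) - (v.2 - u.2) * (b.1 - u.1)) * (u.1 - a.1) -
          ((v.1 - u.1) * (a.2 - u.2) - (v.2 - u.2) * (a.1 - u.1)) * (b.1 - u.1) := by ring
    have h3 : ((v.1 - u.1) * (b.2 - u.2) - (v.2 - u.2) * (b.1 - u.1)) * (u.1 - a.1) ≤ 0 :=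
      mul_nonpos_of_nonpos_of_nonneg hF h1.le
    have h4 : ((v.1 - u.1) * (a.2 - u.2) - (v.2 - u.2) * (a.1 - u.1)) * (b.1 - u.1) < 0 :=
      mul_neg_of_neg_of_pos h h2
    have h5 : (v.1 - u.1) * ((b.1 - a.1) * (u.2 - a.2) - (b.2 - a.2) * (u.1 - a.1)) ≤ 0 :=
      mul_nonpos_of_nonneg_of_nonpos hX.le hSu
    linarith
  · intro h
    have hbv := srt_lt (UR_srt hs2) (show j < t + 1 by omega) ht
    have hS : cross (P (UR P l2)[j] - P (UR P l1)[i]) (P (UR P l2)[t + 1] - P (UR P l1)[i]) < 0 := by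
      refine lt_of_le_of_ne hSv.1 fun h0 => ?_
      have := (hSv.2 h0).2
      linarith
    clear hSu hSv
    generalize P (UR P l2)[t] = u at *
    generalize P (UR P l2)[t + 1] = v at *
    generalize P (UR P l1)[i] = a at *
    generalize P (UR P l2)[j] = b at *
    simp only [cross, Prod.fst_sub, Prod.snd_sub] at *
    by_contra hc
    have hc := not_lt.1 hc
    have hX : 0 < v.1 - u.1 := by linarith
    have h1 : 0 < v.1 - b.1 := by linarith
    have h2 : 0 < v.1 - a.1 := by linarith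
    have key : (v.1 - u.1) * ((b.1 - a.1) * (v.2 - a.2) - (b.2 - a.2) * (v.1 - a.1)) =
        ((v.1 - u.1) * (a.2 - u.2) - (v.2 - u.2) * (a.1 - u.1)) * (v.1 - b.1) -
          ((v.1 - u.1) * (b.2 - u.2) - (v.2 - u.2) * (b.1 - u.1)) * (v.1 - a.1) := by ring
    have h3 : 0 ≤ ((v.1 - u.1) * (a.2 - u.2) - (v.2 - u.2) * (a.1 - u.1)) * (v.1 - b.1) :=
      mul_nonneg hc h1.le
    have h4 : ((v.1 - u.1) * (b.2 - u.2) - (v.2 - u.2) * (b.1 - u.1)) * (v.1 - a.1) ≤ 0 :=
      mul_nonpos_of_nonpos_of_nonneg hF h2.le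
    have h5 : (v.1 - u.1) * ((b.1 - a.1) * (v.2 - a.2) - (b.2 - a.2) * (v.1 - a.1)) < 0 :=
      mul_neg_of_pos_of_neg hX hS
    linarith

end Pool.Agent.Helper55.DH
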