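import Pool.Agent.Helper55.DH.Tests

/-!
# DH-G5: every configuration is represented by sheared points; negation

`sign_shear`: for `v.1 ≠ 0` and `0 < ε` with `ε * |v.2| < |v.1|` the sign of `v.1 + ε * v.2` is that of `v.1`; for `v.1 = 0` it is the sign of `v.2` for all `ε > 0`.
So for a finite set `V` of vectors there is one `ε > 0` (e.g. by `Finset.induction_on`, taking minima; state it as: `∃ ε₀ > 0, ∀ ε, 0 < ε → ε ≤ ε₀ → …`).
`rep_shear`: apply it to the finite set of all `c j - c i` and all vectors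
`cross (c i - c m) (c j - c m) • (c l - c k) - cross (c k - c m) (c l - c m) • (c j - c i)` (their coordinates are the values of the tests 3 and 4) and `V`.
`cross (shear ε u) (shear ε v) = cross u v` and `shear ε u - shear ε v = shear ε (u - v)` (`simp [shear, cross]; ring`). `lx (sgn c) i j = lexs (c j - c i)`,
`hg (sgn c) … = lexs (…)`, `lexs v = 0 → v = 0`.
`rep_neg`: the tests 0, 1, 3, 4 change their sign, test 2 does not.
-/

open Classical

namespace Pool.Agent.Helper55.DH

private theorem sign_shear_one (v : ℝ × ℝ) :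
    ∃ ε₀ : ℝ, 0 < ε₀ ∧ ∀ ε : ℝ, 0 < ε → ε ≤ ε₀ → SignType.sign (v.1 + ε * v.2) = lexs v := by
  by_cases h : v.1 = 0
  · refine ⟨1, one_pos, fun ε h0 _ => ?_⟩
    have h1 : lexs v = SignType.sign v.2 := by simp [lexs, h]
    rw [h1, h, zero_add, sign_mul, sign_pos h0, one_mul]
  · have hv : 0 < |v.1| := abs_pos.2 h
    have hd : 0 < |v.2| + 1 := by positivity
    refine ⟨|v.1| / (2 * (|v.2| + 1)), by positivity, fun ε h0 h1 => ?_⟩
    have h2 : lexs v = SignType.sign v.1 := by simp [lexs, h]
    rw [h2]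
    have h3 : ε * (2 * (|v.2| + 1)) ≤ |v.1| := by
      rw [le_div_iff₀ (by positivity)] at h1
      exact h1
    have h4 : |ε * v.2| < |v.1| := by
      rw [abs_mul, abs_of_pos h0]
      nlinarith [abs_nonneg v.2]
    rcases lt_or_gt_of_ne h with h5 | h5
    · rw [sign_neg h5, sign_neg]
      rw [abs_of_neg h5] at h4
      have := (abs_lt.1 h4).2
      linarith
    · rw [sign_pos h5, sign_pos]
      rw [abs_of_pos h5] at h4
      have := (abs_lt.1 h4).1
      linarith

private theorem sign_shear_fin (V : Finset (ℝ × ℝ)) :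
    ∃ ε₀ : ℝ, 0 < ε₀ ∧ ∀ ε : ℝ, 0 < ε → ε ≤ ε₀ →
      ∀ v ∈ V, SignType.sign (v.1 + ε * v.2) = lexs v := by
  induction V using Finset.induction_on with
  | empty => exact ⟨1, one_pos, fun ε _ _ v hv => absurd hv (Finset.notMem_empty v)⟩
  | insert a V _ ih =>
    obtain ⟨ε₁, h1, h2⟩ := ih
    obtain ⟨ε₂, h3, h4⟩ := sign_shear_one a
    refine ⟨min ε₁ ε₂, lt_min h1 h3, fun ε h0 hle v hv => ?_⟩
    rcases Finset.mem_insert.1 hv with rfl | hv
    · exact h4 ε h0 (hle.trans (min_le_right _ _))
    · exact h2 ε h0 (hle.trans (min_le_left _ _)) v hv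

private theorem lexs_eq_zero {v : ℝ × ℝ} (h : lexs v = 0) : v = 0 := by
  unfold lexs at h
  split_ifs at h with h1
  · exact absurd (sign_eq_zero_iff.1 h) h1
  · have h2 := sign_eq_zero_iff.1 h
    push Not at h1
    exact Prod.ext h1 h2

private theorem if_sign (a b : ℝ) :
    (if SignType.sign a ≠ 0 then SignType.sign a else SignType.sign b) = lexs (a, b) := by
  unfold lexs
  by_cases h : a = 0
  · simp [h]
  · have h1 : SignType.sign a ≠ 0 := sign_ne_zero.2 h
    simp [h]

private theorem lx_sgn {N : ℕ} (c : Fin N → ℝ × ℝ) (i j : Fin N) :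
    lx (sgn c) i j = lexs (c j - c i) := by
  have h := if_sign ((c j).1 - (c i).1) ((c j).2 - (c i).2)
  have h1 : c j - c i = ((c j).1 - (c i).1, (c j).2 - (c i).2) := rfl
  rw [h1, ← h]
  rfl

private theorem hg_sgn {N : ℕ} (c : Fin N → ℝ × ℝ) (i j k l m : Fin N) :
    hg (sgn c) i j k l m = lexs
      (cross (c i - c m) (c j - c m) • (c l - c k) -
        cross (c k - c m) (c l - c m) • (c j - c i)) := by
  have h := if_sign
    (cross (c i - c m) (c j - c m) * ((c l).1 - (c k).1) -
      cross (c k - c m) (c l - c m) * ((c j).1 - (c i).1))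
    (cross (c i - c m) (c j - c m) * ((c l).2 - (c k).2) -
      cross (c k - c m) (c l - c m) * ((c j).2 - (c i).2))
  have h1 : cross (c i - c m) (c j - c m) • (c l - c k) -
      cross (c k - c m) (c l - c m) • (c j - c i) =
      (cross (c i - c m) (c j - c m) * ((c l).1 - (c k).1) -
        cross (c k - c m) (c l - c m) * ((c j).1 - (c i).1),
       cross (c i - c m) (c j - c m) * ((c l).2 - (c k).2) -
        cross (c k - c m) (c l - c m) * ((c j).2 - (c i).2)) := rfl
  rw [h1, ← h]
  rfl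

private theorem cr_sgn {N : ℕ} (c : Fin N → ℝ × ℝ) (i j k l : Fin N) :
    cr (sgn c) i j k l = SignType.sign (cross (c j - c i) (c l - c k)) := rfl

private theorem shear_sub (ε : ℝ) (u v : ℝ × ℝ) : shear ε u - shear ε v = shear ε (u - v) := by
  refine Prod.ext ?_ ?_
  · simp [shear]
    ring
  · simp [shear]

private theorem cross_shear (ε : ℝ) (u v : ℝ × ℝ) :
    cross (shear ε u) (shear ε v) = cross u v := by
  simp [shear, cross]
  ring

theorem rep_shear {N : ℕ} (c : Fin N → ℝ × ℝ) (V : Finset (ℝ × ℝ)) :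
    ∃ ε : ℝ, 0 < ε ∧ Rep (sgn c) (fun i => shear ε (c i)) ∧ ∀ v ∈ V, SignType.sign (v.1 + ε * v.2) = lexs v := by
  obtain ⟨ε, hε, hall⟩ := sign_shear_fin
    (V ∪ (Finset.univ.image fun q : Fin N × Fin N => c q.2 - c q.1) ∪
      (Finset.univ.image fun q : Fin N × Fin N × Fin N × Fin N × Fin N =>
        cross (c q.1 - c q.2.2.2.2) (c q.2.1 - c q.2.2.2.2) • (c q.2.2.2.1 - c q.2.2.1) -
        cross (c q.2.2.1 - c q.2.2.2.2) (c q.2.2.2.1 - c q.2.2.2.2) • (c q.2.1 - c q.1)))
  have h1 := hall ε hε le_rfl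
  have hlx : ∀ i j, SignType.sign ((c j - c i).1 + ε * (c j - c i).2) = lexs (c j - c i) := by
    intro i j
    apply h1
    refine Finset.mem_union_left _ (Finset.mem_union_right _ ?_)
    exact Finset.mem_image.2 ⟨(i, j), Finset.mem_univ _, rfl⟩
  refine ⟨ε, hε, ⟨?_, ?_, ?_, ?_⟩, ?_⟩
  · intro i j
    rw [lx_sgn, ← hlx]
    congr 1
    simp [shear]
    ring
  · intro i j h
    rw [lx_sgn] at h
    have h2 := lexs_eq_zero h
    have h3 : c j = c i := sub_eq_zero.1 h2
    simp only [h3]
  · intro i j k l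
    rw [cr_sgn, shear_sub, shear_sub, cross_shear]
  · intro i j k l m
    have h2 := h1 (cross (c i - c m) (c j - c m) • (c l - c k) -
        cross (c k - c m) (c l - c m) • (c j - c i)) (by
      refine Finset.mem_union_right _ ?_
      exact Finset.mem_image.2 ⟨(i, j, k, l, m), Finset.mem_univ _, rfl⟩)
    rw [hg_sgn, ← h2]
    simp only [shear_sub, cross_shear]
    congr 1
    simp [shear]
    ring
  · intro v hv
    exact h1 v (Finset.mem_union_left _ (Finset.mem_union_left _ hv))

theorem exists_rep {N : ℕ} {ω : Tst N → SignType} (h : ω ∈ Om N) : ∃ P, Rep ω P := by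
  obtain ⟨c, rfl⟩ := (Finset.mem_filter.1 h).2
  obtain ⟨ε, -, h1, -⟩ := rep_shear c ∅
  exact ⟨_, h1⟩

private theorem neg_two {N : ℕ} (ω : Tst N → SignType) (f : Fin 5 → Fin N) :
    neg ω (2, f) = ω (2, f) := by simp [neg]

private theorem neg_of_ne {N : ℕ} (ω : Tst N → SignType) {k : Fin 5} (hk : k ≠ 2)
    (f : Fin 5 → Fin N) : neg ω (k, f) = - ω (k, f) := by simp [neg, hk]

private theorem sgn_neg_ne (s : SignType) : -s ≠ 0 ↔ s ≠ 0 := by
  cases s <;> decide

private theorem lx_neg {N : ℕ} (ω : Tst N → SignType) (i j : Fin N) :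
    lx (neg ω) i j = - lx ω i j := by
  unfold lx
  rw [neg_of_ne ω (by decide), neg_of_ne ω (by decide)]
  by_cases h : ω (0, ![i, j, j, j, j]) = 0
  · rw [if_neg (by rw [sgn_neg_ne]; exact fun h' => h' h), if_neg (fun h' => h' h)]
  · rw [if_pos (by rw [sgn_neg_ne]; exact h), if_pos h]

private theorem hg_neg {N : ℕ} (ω : Tst N → SignType) (i j k l m : Fin N) :
    hg (neg ω) i j k l m = - hg ω i j k l m := by
  unfold hg
  rw [neg_of_ne ω (by decide), neg_of_ne ω (by decide)]
  by_cases h : ω (3, ![i, j, k, l, m]) = 0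
  · rw [if_neg (by rw [sgn_neg_ne]; exact fun h' => h' h), if_neg (fun h' => h' h)]
  · rw [if_pos (by rw [sgn_neg_ne]; exact h), if_pos h]

private theorem sign_negate (a : ℝ) : SignType.sign (-a) = - SignType.sign a :=
  Left.sign_neg a

private theorem cross_neg_neg (u v : ℝ × ℝ) : cross (-u) (-v) = cross u v := by
  simp [cross]

theorem rep_neg {N : ℕ} {ω : Tst N → SignType} {P : Fin N → ℝ × ℝ} (h : Rep ω P) : Rep (neg ω) (fun i => - P i) := by
  refine ⟨?_, ?_, ?_, ?_⟩
  · intro i j
    rw [lx_neg, h.lx, ← sign_negate]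
    congr 1
    simp
    ring
  · intro i j h0
    rw [lx_neg] at h0
    have h1 : DH.lx ω i j = 0 := by
      by_contra h2
      exact (sgn_neg_ne _).2 h2 h0
    simp only [h.eq i j h1]
  · intro i j k l
    have h1 : cr (neg ω) i j k l = cr ω i j k l := neg_two ω _
    rw [h1, h.cr]
    congr 1
    have h2 : -P j - -P i = -(P j - P i) := by abel
    have h3 : -P l - -P k = -(P l - P k) := by abel
    rw [h2, h3, cross_neg_neg]
  · intro i j k l m
    rw [hg_neg, h.hg, ← sign_negate]
    congr 1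
    have h2 : ∀ a b, -P a - -P b = -(P a - P b) := by intro a b; abel
    simp only [h2, cross_neg_neg, Prod.fst_neg]
    ring

theorem neg_sgn {N : ℕ} (c : Fin N → ℝ × ℝ) : neg (sgn c) = sgn (fun i => - c i) := by
  have h2 : ∀ a b : ℝ × ℝ, -a - -b = -(a - b) := by intro a b; abel
  funext ⟨k, f⟩
  fin_cases k
  · show neg (sgn c) (0, f) = _
    rw [neg_of_ne _ (by decide)]
    show - SignType.sign _ = SignType.sign _
    rw [← sign_negate]
    congr 1
    simp [val]
    ring
  · show neg (sgn c) (1, f) = _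
    rw [neg_of_ne _ (by decide)]
    show - SignType.sign _ = SignType.sign _
    rw [← sign_negate]
    congr 1
    simp [val]
    ring
  · show neg (sgn c) (2, f) = _
    rw [neg_two]
    show SignType.sign _ = SignType.sign _
    congr 1
    show cross _ _ = cross _ _
    rw [h2, h2, cross_neg_neg]
  · show neg (sgn c) (3, f) = _
    rw [neg_of_ne _ (by decide)]
    show - SignType.sign _ = SignType.sign _
    rw [← sign_negate]
    congr 1
    show -(cross _ _ * _ - cross _ _ * _) = cross _ _ * _ - cross _ _ * _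
    rw [h2, h2, h2, h2, cross_neg_neg, cross_neg_neg]
    simp only [Prod.fst_neg]
    ring
  · show neg (sgn c) (4, f) = _
    rw [neg_of_ne _ (by decide)]
    show - SignType.sign _ = SignType.sign _
    rw [← sign_negate]
    congr 1
    show -(cross _ _ * _ - cross _ _ * _) = cross _ _ * _ - cross _ _ * _
    rw [h2, h2, h2, h2, cross_neg_neg, cross_neg_neg]
    simp only [Prod.snd_neg]
    ring

theorem neg_mem_Om {N : ℕ} {ω : Tst N → SignType} (h : ω ∈ Om N) : neg ω ∈ Om N := by
  obtain ⟨c, rfl⟩ := (Finset.mem_filter.1 h).2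
  exact Finset.mem_filter.2 ⟨Finset.mem_univ _, _, (neg_sgn c).symm⟩

theorem neg_neg_pattern {N : ℕ} (ω : Tst N → SignType) : neg (neg ω) = ω := by
  funext ⟨k, f⟩
  by_cases hk : k = 2
  · rw [hk, neg_two, neg_two]
  · rw [neg_of_ne _ hk, neg_of_ne _ hk, neg_neg]

end Pool.Agent.Helper55.DH
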