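import Pool.Agent.Helper55.DH.GRep
import Pool.Agent.Helper55.DH.GBridge
import Pool.Agent.Helper55.DH.GBlock

/-!
# DH-G6: the bridge in terms of sign patterns

With `Rep ω P`: `lx ω i j = 1 ↔ (P i).1 < (P j).1`, `cr ω i j k l = -1 ↔ cross … < 0`, `hg ω … = -1 ↔ … < 0` (`sign_eq_one_iff`, `sign_eq_neg_one_iff`).
`U_eq_UR`: `List.filter_congr`, `decide_eq_decide`. `srt_iff`: `List.Pairwise.imp`/`iff`.
`srt_reverse`: in `Rep`: `lx (neg ω) j i = sign (-(P i).1 + (P j).1)`; `List.pairwise_reverse`.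
`bridge_sign`: rewrite `U ω _ = UR P _` in `UR_bridge` and use `bridge_left`, `bridge_right`, `bridge_block` (`x ≠ -1` for a sign of a real number `r`: `0 ≤ r`).
-/

open Classical

namespace Pool.Agent.Helper55.DH

variable {N : ℕ} {ω : Tst N → SignType} {P : Fin N → ℝ × ℝ}

theorem lx_eq_one_iff (h : Rep ω P) (i j : Fin N) : lx ω i j = 1 ↔ (P i).1 < (P j).1 := by
  rw [h.lx, sign_eq_one_iff, sub_pos]

theorem srt_iff (h : Rep ω P) (l : List (Fin N)) : Srt ω l ↔ SrtR P l := by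
  unfold Srt SrtR
  simp only [lx_eq_one_iff h]

theorem U_eq_UR (h : Rep ω P) (l : List (Fin N)) : U ω l = UR P l := by
  unfold U UR
  refine List.filter_congr fun z _ => ?_
  refine decide_eq_decide.2 ?_
  simp only [lx_eq_one_iff h, h.cr, sign_eq_neg_one_iff]

theorem srt_reverse (hω : ω ∈ Om N) (l : List (Fin N)) : Srt (neg ω) l.reverse ↔ Srt ω l := by
  obtain ⟨P, h⟩ := exists_rep hω
  rw [srt_iff h, srt_iff (rep_neg h)]
  unfold SrtR
  rw [List.pairwise_reverse]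
  simp

theorem bridge_sign (hω : ω ∈ Om N) {l1 l2 A B : List (Fin N)} (hs : Srt ω (l1 ++ l2)) (h1 : l1 ≠ []) (h2 : l2 ≠ [])
    (hA : U ω l1 = A) (hB : U ω l2 = B) :
    ∃ i j, ∃ hi : i < A.length, ∃ hj : j < B.length, U ω (l1 ++ l2) = A.take (i + 1) ++ B.drop j ∧
      (∀ k t, ∀ hk : k + 1 < A.length, ∀ ht : t + 1 < B.length,
        let c := cr ω A[k] A[k + 1] B[t] B[t + 1]
        let h := hg ω A[k] A[k + 1] B[t] B[t + 1] B[0]
        (c ≠ -1 → h ≠ -1 → i ≤ k) ∧ (c ≠ -1 → h = -1 → t + 1 ≤ j) ∧ (c = -1 → h ≠ -1 → j ≤ t) ∧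
          (c = -1 → h = -1 → k + 1 ≤ i)) ∧
      (∀ k, ∀ hk : k + 1 < A.length, cr ω A[k] A[k + 1] A[k] B[j] = -1 ↔ k + 1 ≤ i) ∧
      (∀ t, ∀ ht : t + 1 < B.length, cr ω B[t] B[t + 1] B[t] A[i] = -1 ↔ j ≤ t) := by
  obtain ⟨P, h⟩ := exists_rep hω
  have hs' : SrtR P (l1 ++ l2) := (srt_iff h _).1 hs
  obtain ⟨i, j, hi, hj, hU⟩ := UR_bridge hs' h1 h2
  have eA : A = UR P l1 := hA.symm.trans (U_eq_UR h l1)
  have eB : B = UR P l2 := hB.symm.trans (U_eq_UR h l2)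
  subst eA eB
  have hn : ∀ r : ℝ, SignType.sign r ≠ -1 → 0 ≤ r := fun r hr => by
    by_contra hc
    exact hr (sign_eq_neg_one_iff.2 (not_le.1 hc))
  refine ⟨i, j, hi, hj, (U_eq_UR h _).trans hU, ?_, ?_, ?_⟩
  · intro k t hk ht
    have hb := bridge_block hs' hi hj hU hk ht _ _ rfl rfl
    simp only [h.cr, h.hg]
    refine ⟨fun a b => hb.1 (hn _ a) (hn _ b), fun a b => hb.2.1 (hn _ a) (sign_eq_neg_one_iff.1 b),
      fun a b => hb.2.2.1 (sign_eq_neg_one_iff.1 a) (hn _ b),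
      fun a b => hb.2.2.2 (sign_eq_neg_one_iff.1 a) (sign_eq_neg_one_iff.1 b)⟩
  · intro k hk
    rw [h.cr, sign_eq_neg_one_iff]
    exact bridge_left hs' hi hj hU hk
  · intro t ht
    rw [h.cr, sign_eq_neg_one_iff]
    exact bridge_right hs' hi hj hU ht

end Pool.Agent.Helper55.DH
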