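import Pool.Agent.Helper55.DH.LearnUp

/-!
# DH-S3: learning the upper and the lower hull of a node

First `learn_up` for `K`, `l1`, `l2` (program `p1`), then, with `bindK`, for the remaining set `K'` the same for the negated worlds: `learn_up` applied to `K'.image neg ⊆ Om N`
(`neg_mem_Om`), `l2.reverse`, `l1.reverse` (`(l1 ++ l2).reverse = l2.reverse ++ l1.reverse`, `srt_reverse`), twisted with
`g t s = if t.1 = 2 then s else -s` (`neg ω t = g t (ω t)`, `g t` injective): `DTree.twist`, `eval_twist`, `cost_twist`, `all_twist`, `refine_twist`. The number of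
remaining worlds is the same (`refine_twist` says that the remaining sets correspond to each other under the injection `neg`; `Finset.card_image_of_injective`,
`neg_neg_pattern`). `Eff 12 18` for both parts gives `Eff 12 36` (`eff_bindK`). If `K` already knows `l1 ++ l2`, both parts cost 0 (`K'` knows it too).
`known_mono`: trivial.
-/

open Classical

namespace Pool.Agent.Helper55.DH

theorem known_mono {N : ℕ} {K K' : Finset (Tst N → SignType)} (h : K' ⊆ K) {b : List (Fin N)} (hb : Known K b) :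
    Known K' b := fun ω hω w hw => hb ω (h hω) w (h hw)

private def lnG {N : ℕ} (t : Tst N) (s : SignType) : SignType := if t.1 = 2 then s else -s

private theorem lnG_inj {N : ℕ} (t : Tst N) : Function.Injective (lnG t) := by
  intro a b h
  unfold lnG at h
  split_ifs at h
  · exact h
  · exact neg_injective h

private theorem ln_neg_eq {N : ℕ} (w : Tst N → SignType) : neg w = fun t => lnG t (w t) := rfl

private theorem ln_neg_inj {N : ℕ} : Function.Injective (neg : (Tst N → SignType) → (Tst N → SignType)) :=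
  Function.LeftInverse.injective neg_neg_pattern

private theorem ln_mem {N : ℕ} (p : DTree (Tst N) Unit) (K : Finset (Tst N → SignType)) (ω w : Tst N → SignType) :
    w ∈ (p.twist lnG).refine ω K ↔ w ∈ K ∧ neg w ∈ p.refine (neg ω) (K.image neg) := by
  have h := DTree.refine_twist lnG lnG_inj ω p K w
  have e : (K.image neg : Finset (Tst N → SignType)) = @Finset.image (Tst N → SignType) (Tst N → SignType)
      (fun a b => propDecidable (a = b)) (fun w t => lnG t (w t)) K := by
    have e0 : (fun a b => Fintype.decidablePiFintype a b : DecidableEq (Tst N → SignType)) =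
        (fun a b => propDecidable (a = b)) := Subsingleton.elim _ _
    rw [← e0]
    rfl
  rw [e]
  exact h

private theorem ln_image {N : ℕ} (p : DTree (Tst N) Unit) (K : Finset (Tst N → SignType)) (ω : Tst N → SignType) :
    ((p.twist lnG).refine ω K).image neg = p.refine (neg ω) (K.image neg) := by
  ext v
  simp only [Finset.mem_image]
  constructor
  · rintro ⟨w, hw, rfl⟩
    exact ((ln_mem p K ω w).1 hw).2
  · intro hv
    have h1 := DTree.refine_subset _ _ _ hv
    obtain ⟨w, hw, rfl⟩ := Finset.mem_image.1 h1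
    exact ⟨w, (ln_mem p K ω w).2 ⟨hw, hv⟩, rfl⟩

private theorem ln_lower {N : ℕ} (K : Finset (Tst N → SignType)) (hK : K ⊆ Om N) (l1 l2 : List (Fin N)) (h1 : l1 ≠ [])
    (h2 : l2 ≠ []) (hs : ∀ ω ∈ K, Srt ω (l1 ++ l2)) (hc1 : Known K l1) (hc2 : Known K l2) :
    ∃ p : DTree (Tst N) Unit, p.All {q | ∀ k, q.2 k ∈ l1 ++ l2} ∧ DTree.Eff 12 18 K p ∧
      (∀ ω ∈ K, ∀ w ∈ p.refine ω K, U (neg w) (l1 ++ l2).reverse = U (neg ω) (l1 ++ l2).reverse) ∧
      ((∀ ω ∈ K, ∀ w ∈ K, U (neg w) (l1 ++ l2).reverse = U (neg ω) (l1 ++ l2).reverse) →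
        ∀ ω ∈ K, p.cost ω = 0) := by
  obtain ⟨p, hA, hE, hU, hZ⟩ := learn_up (K.image neg)
    (by
      intro v hv
      obtain ⟨w, hw, rfl⟩ := Finset.mem_image.1 hv
      exact neg_mem_Om (hK hw))
    l2.reverse l1.reverse (by simpa using h2) (by simpa using h1)
    (by
      intro v hv
      obtain ⟨w, hw, rfl⟩ := Finset.mem_image.1 hv
      rw [← List.reverse_append]
      exact (srt_reverse (hK hw) _).2 (hs w hw))
    (by
      intro v hv v' hv'
      obtain ⟨w, hw, rfl⟩ := Finset.mem_image.1 hv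
      obtain ⟨w', hw', rfl⟩ := Finset.mem_image.1 hv'
      exact ⟨(hc2 w hw w' hw').2, (hc1 w hw w' hw').2⟩)
  refine ⟨p.twist lnG, ?_, ?_, ?_, ?_⟩
  · refine DTree.all_twist lnG (hA.mono ?_)
    intro q hq k
    have h3 := hq k
    simp only [List.mem_append, List.mem_reverse] at h3 ⊢
    exact h3.symm
  · intro ω hω
    have h3 := hE (neg ω) (Finset.mem_image_of_mem neg hω)
    rw [← ln_image, Finset.card_image_of_injective _ ln_neg_inj,
      Finset.card_image_of_injective _ ln_neg_inj] at h3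
    rw [DTree.cost_twist]
    exact h3
  · intro ω hω w hw
    rw [List.reverse_append]
    exact hU (neg ω) (Finset.mem_image_of_mem neg hω) (neg w) ((ln_mem p K ω w).1 hw).2
  · intro h ω hω
    rw [DTree.cost_twist]
    refine hZ ?_ (neg ω) (Finset.mem_image_of_mem neg hω)
    intro v hv v' hv'
    obtain ⟨w, hw, rfl⟩ := Finset.mem_image.1 hv
    obtain ⟨w', hw', rfl⟩ := Finset.mem_image.1 hv'
    rw [← List.reverse_append]
    exact h w hw w' hw'

theorem learn_node {N : ℕ} (K : Finset (Tst N → SignType)) (hK : K ⊆ Om N) (l1 l2 : List (Fin N)) (h1 : l1 ≠ [])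
    (h2 : l2 ≠ []) (hs : ∀ ω ∈ K, Srt ω (l1 ++ l2)) (hc1 : Known K l1) (hc2 : Known K l2) :
    ∃ p : DTree (Tst N) Unit, p.All {q | ∀ k, q.2 k ∈ l1 ++ l2} ∧ DTree.Eff 12 36 K p ∧
      (∀ ω ∈ K, Known (p.refine ω K) (l1 ++ l2)) ∧ (Known K (l1 ++ l2) → ∀ ω ∈ K, p.cost ω = 0) := by
  obtain ⟨p1, hA, hE, hU, hZ⟩ := learn_up K hK l1 l2 h1 h2 hs
    (fun ω hω w hw => ⟨(hc1 ω hω w hw).1, (hc2 ω hω w hw).1⟩)
  have hlow : ∀ K' : Finset (Tst N → SignType), K' ⊆ K →
      ∃ p : DTree (Tst N) Unit, p.All {q | ∀ k, q.2 k ∈ l1 ++ l2} ∧ DTree.Eff 12 18 K' p ∧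
      (∀ ω ∈ K', ∀ w ∈ p.refine ω K', U (neg w) (l1 ++ l2).reverse = U (neg ω) (l1 ++ l2).reverse) ∧
      ((∀ ω ∈ K', ∀ w ∈ K', U (neg w) (l1 ++ l2).reverse = U (neg ω) (l1 ++ l2).reverse) →
        ∀ ω ∈ K', p.cost ω = 0) := fun K' hK' =>
    ln_lower K' (hK'.trans hK) l1 l2 h1 h2 (fun ω hω => hs ω (hK' hω)) (known_mono hK' hc1)
      (known_mono hK' hc2)
  choose q hqA hqE hqU hqZ using hlow
  let F : Unit → Finset (Tst N → SignType) → DTree (Tst N) Unit :=
    fun _ K' => if h : K' ⊆ K then q K' h else .done ()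
  have hF : ∀ (a : Unit) (K' : Finset (Tst N → SignType)) (h : K' ⊆ K), F a K' = q K' h := by
    intro a K' h
    simp only [F, dif_pos h]
  have hsub : ∀ ω, p1.refine ω K ⊆ K := fun ω => DTree.refine_subset ω p1 K
  refine ⟨p1.bindK K F, ?_, ?_, ?_, ?_⟩
  · refine DTree.all_bindK hA K ?_
    intro a K'
    by_cases h : K' ⊆ K
    · rw [hF a K' h]
      exact hqA K' h
    · simp only [F, dif_neg h]
      trivial
  · have h3 : DTree.Eff 12 (18 + 18) K (p1.bindK K F) := by
      refine DTree.eff_bindK hE ?_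
      intro ω _
      rw [hF () _ (hsub ω)]
      exact hqE _ (hsub ω)
    exact h3.mono (by norm_num)
  · intro ω hω
    rw [DTree.refine_bindK, hF () _ (hsub ω)]
    have hω1 : ω ∈ p1.refine ω K := DTree.mem_refine_self p1 hω
    have hs2 := DTree.refine_subset ω (q _ (hsub ω)) (p1.refine ω K)
    intro w hw w' hw'
    refine ⟨?_, ?_⟩
    · rw [hU ω hω w' (hs2 hw'), hU ω hω w (hs2 hw)]
    · rw [hqU _ (hsub ω) ω hω1 w' hw', hqU _ (hsub ω) ω hω1 w hw]
  · intro h ω hω
    rw [DTree.cost_bindK, hF () _ (hsub ω)]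
    have e1 : p1.cost ω = 0 := hZ (fun ω hω w hw => (h ω hω w hw).1) ω hω
    have e2 : (q _ (hsub ω)).cost ω = 0 :=
      hqZ _ (hsub ω) (fun ω' hω' w hw => (h ω' (hsub ω hω') w (hsub ω hw)).2) ω
        (DTree.mem_refine_self p1 hω)
    rw [e1, e2]

end Pool.Agent.Helper55.DH
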