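import Pool.Agent.Helper55.DH.Tree

/-!
# DH-V1: heights, blocks, existence of balanced trees

`two_pow_le`: strong induction on the height, `2 ^ (h / 2) ≤ number of leaves` (for `t ≠ nil`): for `node l r` of height `h ≥ 2`, both children have height `≥ h - 2`, so
each has at least `2 ^ ((h - 2) / 2)` leaves. `height_le` from `Nat.pow_le_iff_le_log` or `Nat.le_log_of_pow_le`.
`blocks_length`: for `t ≠ nil`: `blocks.length + 1 = 2 * leaves`.
`exists_good`: induction on the length `n` with the stronger claim: for every `l` with `2^h ≤ l.length`, `l.length ≤ 2^(h+1)`… ; simplest: for every list `l ≠ []` there is a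
good `t` with `toList = l` and `t.height = Nat.clog 2 l.length` (split into halves of lengths `n/2`, `n - n/2`, their `clog`s differ by at most one);
or use `TreeInsert.insert_good` repeatedly (induction on `l` with `k = 0`).
-/

open Classical

namespace Pool.Agent.Helper55.DH

namespace Tre

variable {α : Type}

theorem toList_ne_nil {t : Tre α} (h : t.Good) (h0 : t ≠ nil) : t.toList ≠ [] := by
  induction t with
  | nil => exact absurd rfl h0
  | leaf a => simp [toList]
  | node l r ihl ihr =>
    obtain ⟨hl, hr, gl, gr, -, -⟩ := h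
    have := ihl gl hl
    simp [toList, this]

private theorem pow_aux (a b : ℕ) (h1 : a ≤ b + 1) (h2 : b ≤ a + 1) :
    2 ^ ((max a b + 1) / 2) ≤ 2 ^ (a / 2) + 2 ^ (b / 2) := by
  have key : ∀ a b : ℕ, a ≤ b → b ≤ a + 1 → 2 ^ ((b + 1) / 2) ≤ 2 ^ (a / 2) + 2 ^ (b / 2) := by
    intro a b hab hba
    rcases Nat.eq_zero_or_pos b with hb | hb
    · subst hb
      simp
    · have e1 : (b + 1) / 2 = (b - 1) / 2 + 1 := by omega
      have e2 : (b - 1) / 2 ≤ a / 2 := by omega
      have e3 : (b - 1) / 2 ≤ b / 2 := by omega
      have f2 : 2 ^ ((b - 1) / 2) ≤ 2 ^ (a / 2) := Nat.pow_le_pow_right (by norm_num) e2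
      have f3 : 2 ^ ((b - 1) / 2) ≤ 2 ^ (b / 2) := Nat.pow_le_pow_right (by norm_num) e3
      rw [e1, pow_succ]
      omega
  rcases le_total a b with hab | hab
  · rw [max_eq_right hab]
    exact key a b hab h2
  · rw [max_eq_left hab, add_comm (2 ^ (a / 2))]
    exact key b a hab h1

theorem two_pow_le {t : Tre α} (h : t.Good) (h0 : t ≠ nil) : 2 ^ (t.height / 2) ≤ t.toList.length := by
  induction t with
  | nil => exact absurd rfl h0
  | leaf a => simp [toList, height]
  | node l r ihl ihr =>
    obtain ⟨hl, hr, gl, gr, h1, h2⟩ := h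
    have e1 := ihl gl hl
    have e2 := ihr gr hr
    have e3 := pow_aux l.height r.height h1 h2
    simp only [toList, height, List.length_append]
    omega

theorem height_le {t : Tre α} (h : t.Good) : t.height ≤ 2 * Nat.log 2 t.toList.length + 1 := by
  by_cases h0 : t = nil
  · subst h0
    simp [height]
  · have h1 := two_pow_le h h0
    have h2 : t.height / 2 ≤ Nat.log 2 t.toList.length := Nat.le_log_of_pow_le (by norm_num) h1
    omega

private theorem blocks_length_aux {t : Tre α} (h : t.Good) (h0 : t ≠ nil) :
    t.blocks.length + 1 = 2 * t.toList.length := by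
  induction t with
  | nil => exact absurd rfl h0
  | leaf a => simp [toList, blocks]
  | node l r ihl ihr =>
    obtain ⟨hl, hr, gl, gr, h1, h2⟩ := h
    have e1 := ihl gl hl
    have e2 := ihr gr hr
    simp only [toList, blocks, List.length_append, List.length_cons]
    omega

theorem blocks_length {t : Tre α} (h : t.Good) : t.blocks.length ≤ 2 * t.toList.length := by
  by_cases h0 : t = nil
  · subst h0
    simp [blocks]
  · have := blocks_length_aux h h0
    omega

private theorem exists_good_aux (n : ℕ) : ∀ l : List α, l.length = n → n ≠ 0 →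
    ∃ t : Tre α, t.Good ∧ t.toList = l ∧ t ≠ nil ∧ t.height = Nat.clog 2 n := by
  induction n using Nat.strong_induction_on with
  | _ n ih =>
    intro l hl hn
    rcases Nat.lt_or_ge n 2 with h2 | h2
    · have h1 : n = 1 := by omega
      subst h1
      obtain ⟨a, rfl⟩ := List.length_eq_one_iff.mp hl
      exact ⟨leaf a, trivial, rfl, by simp, by simp [height]⟩
    · have hlt1 : n / 2 < n := by omega
      have hlt2 : (n + 1) / 2 < n := by omega
      obtain ⟨t1, g1, l1, n1, c1⟩ := ih (n / 2) hlt1 (l.take (n / 2))
        (by rw [List.length_take, hl]; omega) (by omega)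
      obtain ⟨t2, g2, l2, n2, c2⟩ := ih ((n + 1) / 2) hlt2 (l.drop (n / 2))
        (by rw [List.length_drop, hl]; omega) (by omega)
      have m1 : Nat.clog 2 (n / 2) ≤ Nat.clog 2 ((n + 1) / 2) := Nat.clog_mono_right 2 (by omega)
      have m2 : Nat.clog 2 ((n + 1) / 2) ≤ Nat.clog 2 (n / 2) + 1 := by
        have e1 : Nat.clog 2 (2 * (n / 2)) = Nat.clog 2 (n / 2) + 1 := by
          rw [Nat.clog_of_two_le (by norm_num) (by omega)]
          congr 2
          omega
        rw [← e1]
        exact Nat.clog_mono_right 2 (by omega)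
      have m3 : Nat.clog 2 n = Nat.clog 2 ((n + 1) / 2) + 1 := by
        rw [Nat.clog_of_two_le (by norm_num) h2]
        congr 2
      refine ⟨node t1 t2, ⟨n1, n2, g1, g2, by omega, by omega⟩, ?_, by simp, ?_⟩
      · simp only [toList, l1, l2]
        exact List.take_append_drop _ _
      · simp only [height, c1, c2, m3]
        omega

theorem exists_good (l : List α) : ∃ t : Tre α, t.Good ∧ t.toList = l := by
  by_cases h0 : l = []
  · subst h0
    exact ⟨nil, trivial, rfl⟩
  · obtain ⟨t, g, e, -, -⟩ := exists_good_aux l.length l rfl (by simpa using h0)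
    exact ⟨t, g, e⟩

end Tre

end Pool.Agent.Helper55.DH
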