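import Pool.Agent.Helper55.DH.LearnNode
import Pool.Agent.Helper55.DH.TreeHeight

/-!
# DH-S4: learning all blocks of a tree

Induction on `t`. `nil`: nothing to learn. `leaf a`: `U ω [a] = [a]` for every `ω` that has a representation (the filter condition is vacuous because `lx ω a a = 0 ≠ 1`;
use `U_eq_UR`, or directly: `lx ω a a = 1` is false in `Om N`), so `Known K [a]`, `done ()`. `node l r`: program of `l` on `K` (the worlds of `K` are sorted for `l.toList`, a sublist), then
(`bindK`) program of `r` on the remaining `K1`, then `learn_node` for the remaining `K2` with `l1 = l.toList`, `l2 = r.toList` (`toList_ne_nil`; `Known K2 l.toList`: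
`t.toList ∈ t.blocks` for `t ≠ nil`, and knowledge persists: `known_mono`, `refine_subset`). In the third step: if `Known K (l.toList ++ r.toList)` then the cost is
0 (and `Eff 12 0`), otherwise `Eff 12 36`. `unk K1 r ≤ unk K r` because what is known for `K` is known for `K1 ⊆ K`.
`unk K (node l r) = (1 if the root block is unknown) + unk K l + unk K r`.
-/

open Classical

namespace Pool.Agent.Helper55.DH

/-- The number of blocks which are not known. -/
noncomputable def unk {N : ℕ} (K : Finset (Tst N → SignType)) (t : Tre (Fin N)) : ℕ :=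
  (t.blocks.filter fun b => decide (¬ Known K b)).length

private theorem lt_lx {N : ℕ} {ω : Tst N → SignType} (h : ω ∈ Om N) (a : Fin N) : lx ω a a = 0 := by
  obtain ⟨c, rfl⟩ := (Finset.mem_filter.1 h).2
  have h0 : sgn c (0, ![a, a, a, a, a]) = 0 := by simp [sgn, val]
  have h1 : sgn c (1, ![a, a, a, a, a]) = 0 := by simp [sgn, val]
  unfold lx
  rw [h0, if_neg (by simp), h1]

private theorem lt_U {N : ℕ} {ω : Tst N → SignType} (h : ω ∈ Om N) (a : Fin N) : U ω [a] = [a] := by
  have h0 := lt_lx h a
  unfold U
  rw [List.filter_eq_self]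
  intro z hz
  rw [List.mem_singleton] at hz
  subst hz
  rw [decide_eq_true_iff]
  intro b hb c _ h1
  rw [List.mem_singleton] at hb
  subst hb
  rw [h0] at h1
  exact absurd h1 (by decide)

private theorem lt_mem {α : Type} {t : Tre α} (h0 : t ≠ Tre.nil) : t.toList ∈ t.blocks := by
  cases t with
  | nil => exact absurd rfl h0
  | leaf a => simp [Tre.toList, Tre.blocks]
  | node l r => simp [Tre.toList, Tre.blocks]

private theorem lt_unk_mono {N : ℕ} {K K' : Finset (Tst N → SignType)} (h : K' ⊆ K) (t : Tre (Fin N)) :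
    unk K' t ≤ unk K t := by
  unfold unk
  refine List.Sublist.length_le ?_
  refine List.monotone_filter_right _ ?_
  intro b hb
  rw [decide_eq_true_iff] at hb ⊢
  exact fun h2 => hb (known_mono h h2)

private theorem lt_unk_node {N : ℕ} (K : Finset (Tst N → SignType)) (l r : Tre (Fin N)) :
    unk K (Tre.node l r) = (if Known K (l.toList ++ r.toList) then 0 else 1) + unk K l + unk K r := by
  unfold unk
  rw [Tre.blocks, List.filter_cons]
  by_cases h : Known K (l.toList ++ r.toList)
  · rw [if_neg (by simpa using h), if_pos h, List.filter_append, List.length_append]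
    omega
  · rw [if_pos (by simpa using h), if_neg h, List.length_cons, List.filter_append, List.length_append]
    omega

theorem learn_tree {N : ℕ} (t : Tre (Fin N)) (ht : t.Good) (K : Finset (Tst N → SignType)) (hK : K ⊆ Om N)
    (hs : ∀ ω ∈ K, Srt ω t.toList) :
    ∃ p : DTree (Tst N) Unit, p.All {q | ∀ k, q.2 k ∈ t.toList} ∧ DTree.Eff 12 (36 * (unk K t : ℝ)) K p ∧
      ∀ ω ∈ K, ∀ b ∈ t.blocks, Known (p.refine ω K) b := by
  induction t generalizing K with
  | nil =>
    refine ⟨.done (), trivial, DTree.eff_done _ _ (by positivity) K (), ?_⟩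
    intro ω _ b hb
    simp [Tre.blocks] at hb
  | leaf a =>
    refine ⟨.done (), trivial, DTree.eff_done _ _ (by positivity) K (), ?_⟩
    intro ω _ b hb
    simp only [Tre.blocks, List.mem_singleton] at hb
    subst hb
    intro v hv w hw
    have hv' : v ∈ Om N := hK hv
    have hw' : w ∈ Om N := hK hw
    rw [List.reverse_singleton, lt_U hv', lt_U hw', lt_U (neg_mem_Om hv'), lt_U (neg_mem_Om hw')]
    exact ⟨rfl, rfl⟩
  | node l r ihl ihr =>
    obtain ⟨hl0, hr0, hgl, hgr, -, -⟩ := ht
    have hsl : ∀ ω ∈ K, Srt ω l.toList := fun ω hω => (List.pairwise_append.1 (hs ω hω)).1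
    have hsr : ∀ ω ∈ K, Srt ω r.toList := fun ω hω => (List.pairwise_append.1 (hs ω hω)).2.1
    obtain ⟨p, hpA, hpE, hpK⟩ := ihl hgl K hK hsl
    have hr : ∀ K' : Finset (Tst N → SignType), K' ⊆ K →
        ∃ p : DTree (Tst N) Unit, p.All {q | ∀ k, q.2 k ∈ r.toList} ∧
          DTree.Eff 12 (36 * (unk K' r : ℝ)) K' p ∧
          ∀ ω ∈ K', ∀ b ∈ r.blocks, Known (p.refine ω K') b := fun K' h =>
      ihr hgr K' (h.trans hK) (fun ω hω => hsr ω (h hω))
    choose q hqA hqE hqK using hr
    have hn : ∀ K' : Finset (Tst N → SignType), K' ⊆ K ∧ Known K' l.toList ∧ Known K' r.toList →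
        ∃ p : DTree (Tst N) Unit, p.All {q | ∀ k, q.2 k ∈ l.toList ++ r.toList} ∧ DTree.Eff 12 36 K' p ∧
          (∀ ω ∈ K', Known (p.refine ω K') (l.toList ++ r.toList)) ∧
          (Known K' (l.toList ++ r.toList) → ∀ ω ∈ K', p.cost ω = 0) := fun K' h =>
      learn_node K' (h.1.trans hK) l.toList r.toList (Tre.toList_ne_nil hgl hl0)
        (Tre.toList_ne_nil hgr hr0) (fun ω hω => hs ω (h.1 hω)) h.2.1 h.2.2
    choose s hsA hsE hsK hsZ using hn
    let G : Unit → Finset (Tst N → SignType) → DTree (Tst N) Unit := fun _ K' =>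
      if h : K' ⊆ K ∧ Known K' l.toList ∧ Known K' r.toList then s K' h else .done ()
    have hG : ∀ (a : Unit) (K' : Finset (Tst N → SignType))
        (h : K' ⊆ K ∧ Known K' l.toList ∧ Known K' r.toList), G a K' = s K' h := by
      intro a K' h
      simp only [G, dif_pos h]
    let F : Unit → Finset (Tst N → SignType) → DTree (Tst N) Unit := fun _ K' =>
      if h : K' ⊆ K then (q K' h).bindK K' G else .done ()
    have hF : ∀ (a : Unit) (K' : Finset (Tst N → SignType)) (h : K' ⊆ K),
        F a K' = (q K' h).bindK K' G := by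
      intro a K' h
      simp only [F, dif_pos h]
    have hGA : ∀ (a : Unit) (K' : Finset (Tst N → SignType)),
        (G a K').All {q | ∀ k, q.2 k ∈ l.toList ++ r.toList} := by
      intro a K'
      by_cases h : K' ⊆ K ∧ Known K' l.toList ∧ Known K' r.toList
      · rw [hG a K' h]
        exact hsA K' h
      · simp only [G, dif_neg h]
        trivial
    have hFA : ∀ (a : Unit) (K' : Finset (Tst N → SignType)),
        (F a K').All {q | ∀ k, q.2 k ∈ l.toList ++ r.toList} := by
      intro a K'
      by_cases h : K' ⊆ K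
      · rw [hF a K' h]
        refine DTree.all_bindK (DTree.All.mono ?_ (hqA K' h)) K' hGA
        intro x hx k
        exact List.mem_append_right _ (hx k)
      · simp only [F, dif_neg h]
        trivial
    have h1 : ∀ ω, p.refine ω K ⊆ K := fun ω => DTree.refine_subset ω p K
    have h2 : ∀ ω, (q _ (h1 ω)).refine ω (p.refine ω K) ⊆ p.refine ω K := fun ω =>
      DTree.refine_subset ω _ _
    have h3 : ∀ ω ∈ K, (q _ (h1 ω)).refine ω (p.refine ω K) ⊆ K ∧
        Known ((q _ (h1 ω)).refine ω (p.refine ω K)) l.toList ∧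
        Known ((q _ (h1 ω)).refine ω (p.refine ω K)) r.toList := fun ω hω =>
      ⟨(h2 ω).trans (h1 ω), known_mono (h2 ω) (hpK ω hω _ (lt_mem hl0)),
        hqK _ (h1 ω) ω (DTree.mem_refine_self p hω) _ (lt_mem hr0)⟩
    refine ⟨p.bindK K F, ?_, ?_, ?_⟩
    · refine DTree.all_bindK (DTree.All.mono ?_ hpA) K hFA
      intro x hx k
      exact List.mem_append_left _ (hx k)
    · have h4 : DTree.Eff 12 (36 * (unk K l : ℝ) + (36 * (unk K r : ℝ) +
          36 * ((if Known K (l.toList ++ r.toList) then 0 else 1 : ℕ) : ℝ))) K (p.bindK K F) := by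
        refine DTree.eff_bindK hpE ?_
        intro ω hω
        rw [hF () _ (h1 ω)]
        refine DTree.eff_bindK ((hqE _ (h1 ω)).mono ?_) ?_
        · have : (unk (p.refine ω K) r : ℝ) ≤ unk K r := by exact_mod_cast lt_unk_mono (h1 ω) r
          linarith
        · intro v hv
          have hvK : v ∈ K := h1 ω hv
          have e1 : p.refine v K = p.refine ω K := DTree.refine_of_mem_refine p hv
          have hg : (q _ (h1 ω)).refine v (p.refine ω K) ⊆ K ∧
              Known ((q _ (h1 ω)).refine v (p.refine ω K)) l.toList ∧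
              Known ((q _ (h1 ω)).refine v (p.refine ω K)) r.toList := by
            have := h3 v hvK
            simp only [e1] at this
            exact this
          rw [hG () _ hg]
          by_cases hk : Known K (l.toList ++ r.toList)
          · rw [if_pos hk]
            have h5 := DTree.eff_of_cost_le (a := 12) (by norm_num) (n := 0)
              (K := (q _ (h1 ω)).refine v (p.refine ω K)) (p := s _ hg) (fun w hw =>
                (hsZ _ hg (known_mono hg.1 hk) w hw).le)
            exact h5.mono (by simp)
          · rw [if_neg hk]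
            exact (hsE _ hg).mono (by simp)
      refine h4.mono ?_
      rw [lt_unk_node]
      push_cast
      linarith
    · intro ω hω b hb
      rw [DTree.refine_bindK, hF () _ (h1 ω), DTree.refine_bindK, hG () _ (h3 ω hω)]
      have h5 := DTree.refine_subset ω (s _ (h3 ω hω)) ((q _ (h1 ω)).refine ω (p.refine ω K))
      have hω1 : ω ∈ p.refine ω K := DTree.mem_refine_self p hω
      have hω2 : ω ∈ (q _ (h1 ω)).refine ω (p.refine ω K) := DTree.mem_refine_self _ hω1
      rw [Tre.blocks, List.mem_cons, List.mem_append] at hb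
      rcases hb with hb | hb | hb
      · subst hb
        exact hsK _ (h3 ω hω) ω hω2
      · exact known_mono (h5.trans (h2 ω)) (hpK ω hω b hb)
      · exact known_mono h5 (hqK _ (h1 ω) ω hω1 b hb)

end Pool.Agent.Helper55.DH
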