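import Pool.Agent.Helper55.DH.Search
import Pool.Agent.Helper55.DH.GSign

/-!
# DH-S2: learning the upper hull of a node

If `U · (l1 ++ l2)` is constant on `K`: `done ()`. Otherwise `K` is nonempty; `A`, `B` = the common values of `U ω l1`, `U ω l2`; for `ω ∈ K` choose (`Classical.choose`, `bridge_sign`)
`I ω`, `J ω` (outside `K`: 0). Apply `search` with `p = A.length`, `q = B.length`, `S = {q | ∀ k, q.2 k ∈ l1 ++ l2}` (`A ⊆ l1`, `B ⊆ l2`) and
 `blk k t`: ask `c = (2, ![A[k], A[k+1], B[t], B[t+1], B[t+1]])` (this is `cr`), then the height comparison `hg ω A[k] A[k+1] B[t] B[t+1] B[0]` (ask test 3; if the answer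
 is 0 ask test 4); results: `c ≠ -1, h ≠ -1 ↦ 0`, `c ≠ -1, h = -1 ↦ 3`, `c = -1, h ≠ -1 ↦ 2`, `c = -1, h = -1 ↦ 1`;
 `oneI i t`: ask `(2, ![B[t], B[t+1], B[t], A[i], A[i]])`, result `true` iff the answer is `-1`;
 `oneJ j k`: ask `(2, ![A[k], A[k+1], A[k], B[j], B[j]])`, result `true` iff the answer is `-1`.
(Indices out of range: `if h : … then … else .done _`.) After the search `U w (l1 ++ l2) = A.take (I w + 1) ++ B.drop (J w)` is constant.
-/

open Classical

namespace Pool.Agent.Helper55.DH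

private def lupDec (c h : SignType) : Fin 4 := if c = -1 then (if h = -1 then 1 else 2) else (if h = -1 then 3 else 0)

private theorem mem_of_U {N : ℕ} {ω : Tst N → SignType} {l A : List (Fin N)} (h : U ω l = A) {k : ℕ} (hk : k < A.length) :
    A[k] ∈ l := by
  subst h
  exact List.mem_of_mem_filter (List.getElem_mem hk)

theorem learn_up {N : ℕ} (K : Finset (Tst N → SignType)) (hK : K ⊆ Om N) (l1 l2 : List (Fin N)) (h1 : l1 ≠ [])
    (h2 : l2 ≠ []) (hs : ∀ ω ∈ K, Srt ω (l1 ++ l2)) (hc : ∀ ω ∈ K, ∀ w ∈ K, U w l1 = U ω l1 ∧ U w l2 = U ω l2) :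
    ∃ p : DTree (Tst N) Unit, p.All {q | ∀ k, q.2 k ∈ l1 ++ l2} ∧ DTree.Eff 12 18 K p ∧
      (∀ ω ∈ K, ∀ w ∈ p.refine ω K, U w (l1 ++ l2) = U ω (l1 ++ l2)) ∧
      ((∀ ω ∈ K, ∀ w ∈ K, U w (l1 ++ l2) = U ω (l1 ++ l2)) → ∀ ω ∈ K, p.cost ω = 0) := by
  by_cases hconst : ∀ ω ∈ K, ∀ w ∈ K, U w (l1 ++ l2) = U ω (l1 ++ l2)
  · refine ⟨.done (), trivial, DTree.eff_done _ _ (by norm_num) _ _, ?_, fun _ _ _ => rfl⟩
    intro ω hω w hw
    exact hconst ω hω w hw
  have hne : ∃ ω0, ω0 ∈ K := by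
    by_contra hcon
    exact hconst fun ω hω => absurd ⟨ω, hω⟩ hcon
  obtain ⟨ω0, hω0⟩ := hne
  obtain ⟨A, hA0⟩ : ∃ A, U ω0 l1 = A := ⟨_, rfl⟩
  obtain ⟨B, hB0⟩ : ∃ B, U ω0 l2 = B := ⟨_, rfl⟩
  have hA : ∀ ω ∈ K, U ω l1 = A := fun ω hω => ((hc ω0 hω0 ω hω).1).trans hA0
  have hB : ∀ ω ∈ K, U ω l2 = B := fun ω hω => ((hc ω0 hω0 ω hω).2).trans hB0
  have hbr : ∀ ω, ∃ i j, ω ∈ K → ∃ hi : i < A.length, ∃ hj : j < B.length,
      U ω (l1 ++ l2) = A.take (i + 1) ++ B.drop j ∧
      (∀ k t, ∀ hk : k + 1 < A.length, ∀ ht : t + 1 < B.length,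
        let c := cr ω A[k] A[k + 1] B[t] B[t + 1]
        let h := hg ω A[k] A[k + 1] B[t] B[t + 1] B[0]
        (c ≠ -1 → h ≠ -1 → i ≤ k) ∧ (c ≠ -1 → h = -1 → t + 1 ≤ j) ∧ (c = -1 → h ≠ -1 → j ≤ t) ∧
          (c = -1 → h = -1 → k + 1 ≤ i)) ∧
      (∀ k, ∀ hk : k + 1 < A.length, cr ω A[k] A[k + 1] A[k] B[j] = -1 ↔ k + 1 ≤ i) ∧
      (∀ t, ∀ ht : t + 1 < B.length, cr ω B[t] B[t + 1] B[t] A[i] = -1 ↔ j ≤ t) := by
    intro ω
    by_cases hω : ω ∈ K
    · obtain ⟨i, j, hb⟩ := bridge_sign (hK hω) (hs ω hω) h1 h2 (hA ω hω) (hB ω hω)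
      exact ⟨i, j, fun _ => hb⟩
    · exact ⟨0, 0, fun h => absurd h hω⟩
  choose I J hIJ using hbr
  obtain ⟨S, hS⟩ : ∃ S : Set (Tst N), S = {q | ∀ k, q.2 k ∈ l1 ++ l2} := ⟨_, rfl⟩
  have mA : ∀ k (hk : k < A.length), A[k] ∈ l1 ++ l2 := fun k hk => List.mem_append_left _ (mem_of_U hA0 hk)
  have mB : ∀ k (hk : k < B.length), B[k] ∈ l1 ++ l2 := fun k hk => List.mem_append_right _ (mem_of_U hB0 hk)
  have mS : ∀ (x : Fin 5) (a b c d e : Fin N), a ∈ l1 ++ l2 → b ∈ l1 ++ l2 → c ∈ l1 ++ l2 → d ∈ l1 ++ l2 →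
      e ∈ l1 ++ l2 → ((x, ![a, b, c, d, e]) : Tst N) ∈ S := by
    intro x a b c d e ha hb hc hd he
    rw [hS]
    intro k
    fin_cases k
    · exact ha
    · exact hb
    · exact hc
    · exact hd
    · exact he
  let blk : ℕ → ℕ → DTree (Tst N) (Fin 4) := fun k t =>
    if h : k + 1 < A.length ∧ t + 1 < B.length then
      .ask (2, ![A[k]'(by omega), A[k + 1]'(by omega), B[t]'(by omega), B[t + 1]'(by omega), B[t + 1]'(by omega)]) fun c =>
        .ask (3, ![A[k]'(by omega), A[k + 1]'(by omega), B[t]'(by omega), B[t + 1]'(by omega), B[0]'(by omega)]) fun s =>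
          if s ≠ 0 then .done (lupDec c s) else
            .ask (4, ![A[k]'(by omega), A[k + 1]'(by omega), B[t]'(by omega), B[t + 1]'(by omega), B[0]'(by omega)])
              fun s' => .done (lupDec c s')
    else .done 0
  let oneI : ℕ → ℕ → DTree (Tst N) Bool := fun i t =>
    if h : i < A.length ∧ t + 1 < B.length then
      .ask (2, ![B[t]'(by omega), B[t + 1]'(by omega), B[t]'(by omega), A[i]'(by omega), A[i]'(by omega)]) fun c =>
        .done (decide (c = -1))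
    else .done false
  let oneJ : ℕ → ℕ → DTree (Tst N) Bool := fun j k =>
    if h : j < B.length ∧ k + 1 < A.length then
      .ask (2, ![A[k]'(by omega), A[k + 1]'(by omega), A[k]'(by omega), B[j]'(by omega), B[j]'(by omega)]) fun c =>
        .done (decide (c = -1))
    else .done false
  have H1 : ∀ k t, k + 1 < A.length → t + 1 < B.length → (blk k t).All S ∧ ∀ ω ∈ K, (blk k t).cost ω ≤ 3 ∧
      ((blk k t).eval ω = 0 → I ω ≤ k) ∧ ((blk k t).eval ω = 1 → k + 1 ≤ I ω) ∧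
      ((blk k t).eval ω = 2 → J ω ≤ t) ∧ ((blk k t).eval ω = 3 → t + 1 ≤ J ω) := by
    intro k t hk ht
    have hblk : blk k t = .ask (2, ![A[k], A[k + 1], B[t], B[t + 1], B[t + 1]]) fun c =>
        .ask (3, ![A[k], A[k + 1], B[t], B[t + 1], B[0]]) fun s =>
          if s ≠ 0 then .done (lupDec c s) else
            .ask (4, ![A[k], A[k + 1], B[t], B[t + 1], B[0]]) fun s' => .done (lupDec c s') := dif_pos ⟨hk, ht⟩
    rw [hblk]
    refine ⟨⟨mS _ _ _ _ _ _ (mA _ _) (mA _ _) (mB _ _) (mB _ _) (mB _ _), fun c =>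
      ⟨mS _ _ _ _ _ _ (mA _ _) (mA _ _) (mB _ _) (mB _ _) (mB _ _), fun s => ?_⟩⟩, ?_⟩
    · beta_reduce
      by_cases hs0 : s ≠ 0
      · rw [if_pos hs0]
        trivial
      · rw [if_neg hs0]
        exact ⟨mS _ _ _ _ _ _ (mA _ _) (mA _ _) (mB _ _) (mB _ _) (mB _ _), fun _ => trivial⟩
    · intro ω hω
      obtain ⟨_, _, _, hb, _⟩ := hIJ ω hω
      have hb := hb k t hk ht
      obtain ⟨b1, b2, b3, b4⟩ := hb
      have hcost : (DTree.ask (2, ![A[k], A[k + 1], B[t], B[t + 1], B[t + 1]]) fun c =>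
        .ask (3, ![A[k], A[k + 1], B[t], B[t + 1], B[0]]) fun s =>
          if s ≠ 0 then .done (lupDec c s) else
            .ask (4, ![A[k], A[k + 1], B[t], B[t + 1], B[0]]) fun s' => .done (lupDec c s') : DTree (Tst N) (Fin 4)).cost ω
              ≤ 3 := by
        simp only [DTree.cost]
        split_ifs
        · simp only [DTree.cost]; omega
        · simp only [DTree.cost]; omega
      have heval : (DTree.ask (2, ![A[k], A[k + 1], B[t], B[t + 1], B[t + 1]]) fun c =>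
        .ask (3, ![A[k], A[k + 1], B[t], B[t + 1], B[0]]) fun s =>
          if s ≠ 0 then .done (lupDec c s) else
            .ask (4, ![A[k], A[k + 1], B[t], B[t + 1], B[0]]) fun s' => .done (lupDec c s') : DTree (Tst N) (Fin 4)).eval ω
              = lupDec (cr ω A[k] A[k + 1] B[t] B[t + 1]) (hg ω A[k] A[k + 1] B[t] B[t + 1] B[0]) := by
        simp only [DTree.eval, cr, hg]
        split_ifs
        · rfl
        · rfl
      rw [heval]
      refine ⟨hcost, ?_, ?_, ?_, ?_⟩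
      · intro he
        unfold lupDec at he
        split_ifs at he with a b b
        · exact absurd he (by decide)
        · exact absurd he (by decide)
        · exact absurd he (by decide)
        · exact b1 a b
      · intro he
        unfold lupDec at he
        split_ifs at he with a b b
        · exact b4 a b
        · exact absurd he (by decide)
        · exact absurd he (by decide)
        · exact absurd he (by decide)
      · intro he
        unfold lupDec at he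
        split_ifs at he with a b b
        · exact absurd he (by decide)
        · exact b3 a b
        · exact absurd he (by decide)
        · exact absurd he (by decide)
      · intro he
        unfold lupDec at he
        split_ifs at he with a b b
        · exact absurd he (by decide)
        · exact absurd he (by decide)
        · exact b2 a b
        · exact absurd he (by decide)
  have H2 : ∀ i t, i < A.length → t + 1 < B.length → (oneI i t).All S ∧ ∀ ω ∈ K, (oneI i t).cost ω ≤ 1 ∧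
      (I ω = i → ((oneI i t).eval ω = true ↔ J ω ≤ t)) := by
    intro i t hi ht
    have hone : oneI i t = .ask (2, ![B[t], B[t + 1], B[t], A[i], A[i]]) fun c => .done (decide (c = -1)) :=
      dif_pos ⟨hi, ht⟩
    rw [hone]
    refine ⟨⟨mS _ _ _ _ _ _ (mB _ _) (mB _ _) (mB _ _) (mA _ _) (mA _ _), fun _ => trivial⟩, ?_⟩
    intro ω hω
    refine ⟨le_of_eq rfl, ?_⟩
    intro hi'
    obtain ⟨_, _, _, _, _, hb⟩ := hIJ ω hω
    subst hi'
    have hb := hb t ht
    rw [← hb]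
    simp only [DTree.eval, decide_eq_true_iff, cr]
  have H3 : ∀ j k, j < B.length → k + 1 < A.length → (oneJ j k).All S ∧ ∀ ω ∈ K, (oneJ j k).cost ω ≤ 1 ∧
      (J ω = j → ((oneJ j k).eval ω = true ↔ k + 1 ≤ I ω)) := by
    intro j k hj hk
    have hone : oneJ j k = .ask (2, ![A[k], A[k + 1], A[k], B[j], B[j]]) fun c => .done (decide (c = -1)) :=
      dif_pos ⟨hj, hk⟩
    rw [hone]
    refine ⟨⟨mS _ _ _ _ _ _ (mA _ _) (mA _ _) (mA _ _) (mB _ _) (mB _ _), fun _ => trivial⟩, ?_⟩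
    intro ω hω
    refine ⟨le_of_eq rfl, ?_⟩
    intro hj'
    obtain ⟨_, _, _, _, hb, _⟩ := hIJ ω hω
    subst hj'
    have hb := hb k hk
    rw [← hb]
    simp only [DTree.eval, decide_eq_true_iff, cr]
  obtain ⟨prog, p1, p2, p3⟩ := search S I J A.length B.length blk oneI oneJ K
    (fun ω hω => (hIJ ω hω).choose) (fun ω hω => (hIJ ω hω).choose_spec.choose) H1 H2 H3
  refine ⟨prog, hS ▸ p1, p2, ?_, fun h => absurd h hconst⟩
  intro ω hω w hw
  obtain ⟨e1, e2⟩ := p3 ω hω w hw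
  have hwK := DTree.refine_subset _ _ _ hw
  obtain ⟨_, _, u1, _⟩ := hIJ ω hω
  obtain ⟨_, _, u2, _⟩ := hIJ w hwK
  rw [u1, u2, e1, e2]

end Pool.Agent.Helper55.DH
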