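import Pool.Agent.Helper55.DH.GSign

/-!
# DH-S5: locating a new point in a sorted list; checking that a list is sorted

`locate`: binary search. For `lo ≤ hi ≤ l.length` with `hi - lo = d` the auxiliary program (induction on `d`, strong): knows that all members of number `< lo` are before `x`
and all of number `≥ hi` are after `x` (in the worlds considered). `d = 0`: result `(lo, false)`. Otherwise `mid = (lo + hi) / 2`; ask `lx l[mid] x` (test 0 with
`![l[mid], x, x, x, x]`; if the answer is 0 test 1): result `0`: `(mid, true)`; `1` (l[mid] before x): continue with `(mid + 1, hi)`; `-1`: continue with `(lo, mid)`. Cost at most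
`2 * (Nat.log 2 d + 1)` for `d ≥ 1` (`d/2` or `d - d/2 - 1`, both at most `d / 2`). Correctness: with a representation `Rep ω P` (`exists_rep`): `lx ω i j` is the sign of
`(P j).1 - (P i).1`; transitivity. The final list is sorted: `List.pairwise_append`, all members of `take` are before, all of `drop` after `x`.
the same in every remaining world (they give the same answers: e.g. let the program return the list of all answers and use `eval_of_mem_refine`, then `map`), and consecutive
`lx_ne_zero`: from `Rep`.
-/

open Classical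

namespace Pool.Agent.Helper55.DH

variable {N : ℕ}

private noncomputable def locCont (lo hi m : ℕ) (rec : ℕ → ℕ → DTree (Tst N) (ℕ × Bool))
    (s : SignType) : DTree (Tst N) (ℕ × Bool) :=
  if s = 0 then .done (m, true) else if s = 1 then rec (m + 1) hi else rec lo m

private noncomputable def locAux (l : List (Fin N)) (x : Fin N) :
    ℕ → ℕ → ℕ → DTree (Tst N) (ℕ × Bool)
  | 0, lo, _ => .done (lo, false)
  | n + 1, lo, hi =>
    if h : (lo + hi) / 2 < l.length ∧ lo < hi then
      .ask (0, ![l[(lo + hi) / 2]'h.1, x, x, x, x]) fun s =>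
        if s ≠ 0 then locCont lo hi ((lo + hi) / 2) (locAux l x n) s
        else .ask (1, ![l[(lo + hi) / 2]'h.1, x, x, x, x]) fun s' =>
          locCont lo hi ((lo + hi) / 2) (locAux l x n) s'
    else .done (lo, false)

private theorem locAux_all (l : List (Fin N)) (x : Fin N) (n : ℕ) : ∀ lo hi,
    (locAux l x n lo hi).All {q | ∀ k, q.2 k = x ∨ q.2 k ∈ l} := by
  induction n with
  | zero => intro lo hi; trivial
  | succ n ih =>
    intro lo hi
    unfold locAux
    split_ifs with h
    · have hq : ∀ k : Fin 5, (![l[(lo + hi) / 2]'h.1, x, x, x, x] : Fin 5 → Fin N) k = x ∨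
          (![l[(lo + hi) / 2]'h.1, x, x, x, x] : Fin 5 → Fin N) k ∈ l := by
        intro k
        fin_cases k
        · exact Or.inr (List.getElem_mem h.1)
        all_goals exact Or.inl rfl
      have hc : ∀ s, (locCont lo hi ((lo + hi) / 2) (locAux l x n) s).All
          {q | ∀ k, q.2 k = x ∨ q.2 k ∈ l} := by
        intro s
        unfold locCont
        split_ifs
        · trivial
        · exact ih _ _
        · exact ih _ _
      refine ⟨hq, fun s => ?_⟩
      beta_reduce
      split_ifs
      · exact hc s
      · exact ⟨hq, fun s' => hc s'⟩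
    · trivial

private theorem locAux_cost (l : List (Fin N)) (x : Fin N) (ω : Tst N → SignType) (n : ℕ) :
    ∀ lo hi, (locAux l x n lo hi).cost ω ≤ 2 * n := by
  induction n with
  | zero => intro lo hi; exact Nat.zero_le _
  | succ n ih =>
    intro lo hi
    unfold locAux
    have hc : ∀ s, (locCont lo hi ((lo + hi) / 2) (locAux l x n) s).cost ω ≤ 2 * n := by
      intro s
      unfold locCont
      split_ifs
      · exact Nat.zero_le _
      · exact ih _ _
      · exact ih _ _
    split_ifs with h
    · unfold DTree.cost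
      beta_reduce
      split_ifs
      · have := hc (ω (0, ![l[(lo + hi) / 2]'h.1, x, x, x, x]))
        omega
      · have := hc (ω (1, ![l[(lo + hi) / 2]'h.1, x, x, x, x]))
        show (locCont lo hi ((lo + hi) / 2) (locAux l x n)
          (ω (1, ![l[(lo + hi) / 2]'h.1, x, x, x, x]))).cost ω + 1 + 1 ≤ 2 * (n + 1)
        omega
    · exact Nat.zero_le _

private theorem locAux_eval_ask (l : List (Fin N)) (x : Fin N) (ω : Tst N → SignType)
    (n lo hi : ℕ) (h : (lo + hi) / 2 < l.length ∧ lo < hi) :
    (locAux l x (n + 1) lo hi).eval ω =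
      (locCont lo hi ((lo + hi) / 2) (locAux l x n) (lx ω (l[(lo + hi) / 2]'h.1) x)).eval ω := by
  unfold locAux
  rw [dif_pos h]
  unfold lx
  simp only [DTree.eval]
  split_ifs
  all_goals rfl

private theorem locAux_spec (l : List (Fin N)) (x : Fin N) {ω : Tst N → SignType}
    {P : Fin N → ℝ × ℝ} (hR : Rep ω P) (hs : SrtR P l) (n : ℕ) :
    ∀ lo hi, lo ≤ hi → hi ≤ l.length → hi - lo < 2 ^ n →
      (∀ i (h : i < l.length), i < lo → (P l[i]).1 < (P x).1) →
      (∀ i (h : i < l.length), hi ≤ i → (P x).1 < (P l[i]).1) →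
      ((locAux l x n lo hi).eval ω).1 ≤ l.length ∧
        (((locAux l x n lo hi).eval ω).2 = true →
          ∃ h : ((locAux l x n lo hi).eval ω).1 < l.length,
            lx ω l[((locAux l x n lo hi).eval ω).1] x = 0) ∧
        (((locAux l x n lo hi).eval ω).2 = false →
          (∀ i (h : i < l.length), i < ((locAux l x n lo hi).eval ω).1 → (P l[i]).1 < (P x).1) ∧
          (∀ i (h : i < l.length), ((locAux l x n lo hi).eval ω).1 ≤ i →
            (P x).1 < (P l[i]).1)) := by
  have hmono : ∀ i j (hi : i < l.length) (hj : j < l.length), i ≤ j → (P l[i]).1 ≤ (P l[j]).1 := by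
    intro i j hi hj hij
    rcases Nat.eq_or_lt_of_le hij with rfl | h
    · exact le_rfl
    · exact (List.pairwise_iff_getElem.1 hs i j hi hj h).le
  induction n with
  | zero =>
    intro lo hi h1 h2 h3 h4 h5
    have h6 : hi = lo := by
      simp only [pow_zero] at h3
      omega
    subst h6
    refine ⟨h2, fun h => ?_, fun _ => ⟨h4, h5⟩⟩
    exact absurd h Bool.false_ne_true
  | succ n ih =>
    intro lo hi h1 h2 h3 h4 h5
    by_cases hlt : lo < hi
    · have hm : (lo + hi) / 2 < l.length ∧ lo < hi := ⟨by omega, hlt⟩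
      rw [locAux_eval_ask l x ω n lo hi hm]
      set m := (lo + hi) / 2 with hmdef
      unfold locCont
      have hlx := hR.lx (l[m]'hm.1) x
      rw [pow_succ] at h3
      split_ifs with hc1 hc2
      · refine ⟨hm.1.le, fun _ => ⟨hm.1, hc1⟩, fun h => ?_⟩
        exact absurd h.symm Bool.false_ne_true
      · rw [hc2] at hlx
        have h6 : (P l[m]).1 < (P x).1 := sub_pos.1 (sign_eq_one_iff.1 hlx.symm)
        refine ih (m + 1) hi (by omega) h2 (by omega) ?_ h5
        intro i hi' him
        exact (hmono i m hi' hm.1 (by omega)).trans_lt h6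
      · have h7 : SignType.sign ((P x).1 - (P l[m]).1) = -1 := by
          rw [← hlx]
          rcases SignType.trichotomy (lx ω (l[m]'hm.1) x) with h | h | h
          · exact h
          · exact absurd h hc1
          · exact absurd h hc2
        have h6 : (P x).1 < (P l[m]).1 := sub_neg.1 (sign_eq_neg_one_iff.1 h7)
        refine ih lo m (by omega) (by omega) (by omega) h4 ?_
        intro i hi' him
        exact h6.trans_le (hmono m i hm.1 hi' him)
    · have h6 : hi = lo := by omega
      subst h6
      have h7 : (locAux l x (n + 1) hi hi) = .done (hi, false) := by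
        unfold locAux
        rw [dif_neg (fun h => hlt h.2)]
      rw [h7]
      refine ⟨h2, fun h => ?_, fun _ => ⟨h4, h5⟩⟩
      exact absurd h Bool.false_ne_true

theorem locate (l : List (Fin N)) (x : Fin N) (K : Finset (Tst N → SignType)) (hK : K ⊆ Om N)
    (hs : ∀ ω ∈ K, Srt ω l) :
    ∃ p : DTree (Tst N) (ℕ × Bool), p.All {q | ∀ k, q.2 k = x ∨ q.2 k ∈ l} ∧
      (∀ ω, p.cost ω ≤ 2 * Nat.log 2 (l.length + 1) + 2) ∧
      ∀ ω ∈ K, (p.eval ω).1 ≤ l.length ∧
        ((p.eval ω).2 = true → ∃ h : (p.eval ω).1 < l.length, lx ω l[(p.eval ω).1] x = 0) ∧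
        ((p.eval ω).2 = false → Srt ω (l.take (p.eval ω).1 ++ x :: l.drop (p.eval ω).1)) := by
  refine ⟨locAux l x (Nat.log 2 l.length + 1) 0 l.length, locAux_all l x _ _ _, ?_, ?_⟩
  · intro ω
    have h1 := locAux_cost l x ω (Nat.log 2 l.length + 1) 0 l.length
    have h2 : Nat.log 2 l.length ≤ Nat.log 2 (l.length + 1) := Nat.log_mono_right (Nat.le_succ _)
    omega
  · intro ω hω
    obtain ⟨P, hR⟩ := exists_rep (hK hω)
    have hsR : SrtR P l := (srt_iff hR l).1 (hs ω hω)
    obtain ⟨h1, h2, h3⟩ := locAux_spec l x hR hsR (Nat.log 2 l.length + 1) 0 l.length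
      (Nat.zero_le _) le_rfl (Nat.lt_pow_succ_log_self (by norm_num) _)
      (fun i _ h => absurd h (Nat.not_lt_zero i))
      (fun i h h' => absurd h (Nat.not_lt.2 h'))
    refine ⟨h1, h2, fun hb => ?_⟩
    obtain ⟨h4, h5⟩ := h3 hb
    rw [srt_iff hR]
    have htake : ∀ a ∈ l.take ((locAux l x (Nat.log 2 l.length + 1) 0 l.length).eval ω).1,
        (P a).1 < (P x).1 := by
      intro a ha
      obtain ⟨j, hj, rfl⟩ := List.mem_take_iff_getElem.1 ha
      exact h4 j _ (lt_of_lt_of_le hj (min_le_left _ _))
    have hdrop : ∀ a ∈ l.drop ((locAux l x (Nat.log 2 l.length + 1) 0 l.length).eval ω).1,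
        (P x).1 < (P a).1 := by
      intro a ha
      obtain ⟨j, hj, rfl⟩ := List.mem_drop_iff_getElem.1 ha
      exact h5 _ _ (Nat.le_add_right _ _)
    refine List.pairwise_append.2 ⟨List.Pairwise.sublist (List.take_sublist _ _) hsR,
      List.pairwise_cons.2 ⟨hdrop, List.Pairwise.sublist (List.drop_sublist _ _) hsR⟩, ?_⟩
    intro a ha b hb
    rcases List.mem_cons.1 hb with rfl | hb
    · exact htake a ha
    · exact (htake a ha).trans (hdrop b hb)

end Pool.Agent.Helper55.DH
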