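import Mathlib.Algebra.MvPolynomial.Eval
import Mathlib.Analysis.Convex.Hull
import Mathlib.Data.Sign.Basic
import Mathlib.Topology.Algebra.Order.Field
import Mathlib.Topology.Instances.Real.Lemmas
import Mathlib.Data.Set.Card
import Mathlib.Data.Nat.Log
import Mathlib.Data.Fin.VecNotation

/-!
# Dynamic planar convex hulls, counting sign tests: definitions

Project DH (MP_549b7c_lc).
-/

namespace Pool.Agent.Helper55.DH

/-- Decision trees: in a leaf the result is known, in an inner node a question of type `τ`, whose answer is a sign, is asked. -/
inductive DTree (τ α : Type) : Type
  | done (a : α) : DTree τ α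
  | ask (t : τ) (next : SignType → DTree τ α) : DTree τ α

/-- The result of a decision tree, if the answers to the questions are given by `o`. -/
def DTree.eval {τ α : Type} (o : τ → SignType) : DTree τ α → α
  | .done a => a
  | .ask t next => (next (o t)).eval o

/-- The number of questions asked by a decision tree, if the answers are given by `o`. -/
def DTree.cost {τ α : Type} (o : τ → SignType) : DTree τ α → ℕ
  | .done _ => 0
  | .ask t next => (next (o t)).cost o + 1

/-- The operations: insertion of a point, deletion of a point, and the line-stabbing query for the line `a x + b y = c`. -/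
inductive Op
  | insert (x y : ℝ)
  | delete (x y : ℝ)
  | stab (a b c : ℝ)

/-- The kind of an operation. -/
inductive Kind
  | insert
  | delete
  | stab

/-- The kind of an operation. -/
def Op.kind : Op → Kind
  | .insert _ _ => .insert
  | .delete _ _ => .delete
  | .stab _ _ _ => .stab

/-- The real numbers which are the argument of an operation (a point gets third coordinate `0`). -/
def Op.arg : Op → Fin 3 → ℝ
  | .insert x y => ![x, y, 0]
  | .delete x y => ![x, y, 0]
  | .stab a b c => ![a, b, c]

/-- A data structure in the sign test model. `tests` is its finite list of integer polynomials in 15 variables. It has a memory (an element of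
`Mem`, which contains no real numbers) and for each content of the memory and each kind of operation a decision tree, whose questions are:
which sign has the value of the polynomial number `q.1` of the list at the arguments of the operations number `q.2 0, …, q.2 4`? The
result is the new content of the memory and a list of pairs of numbers of operations (the answer, if the operation is a query). -/
structure Structure where
  tests : List (MvPolynomial (Fin 5 × Fin 3) ℤ)
  Mem : Type
  start : Mem
  step : Mem → Kind → DTree (Fin tests.length × (Fin 5 → ℕ)) (Mem × List (ℕ × ℕ))

/-- The true answer to a question which is asked during operation number `t` of the sequence `ops`: the sign of the polynomial at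
the arguments of the operations; operations which have not yet been made count as `0`. -/
noncomputable def Structure.sign (D : Structure) (ops : ℕ → Op) (t : ℕ) : Fin D.tests.length × (Fin 5 → ℕ) → SignType :=
  fun q => SignType.sign (MvPolynomial.aeval
    (fun v : Fin 5 × Fin 3 => if q.2 v.1 ≤ t then (ops (q.2 v.1)).arg v.2 else 0) (D.tests.get q.1))

/-- The content of the memory before operation number `t`. -/
noncomputable def Structure.mem (D : Structure) (ops : ℕ → Op) : ℕ → D.Mem
  | 0 => D.start
  | t + 1 => ((D.step (D.mem ops t) (ops t).kind).eval (D.sign ops t)).1

/-- The number of sign tests made by operation number `t`. -/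
noncomputable def Structure.cost (D : Structure) (ops : ℕ → Op) (t : ℕ) : ℕ :=
  (D.step (D.mem ops t) (ops t).kind).cost (D.sign ops t)

/-- The point which is the argument of operation number `i` (insertion or deletion). -/
noncomputable def pt (ops : ℕ → Op) (i : ℕ) : ℝ × ℝ := ((ops i).arg 0, (ops i).arg 1)

/-- The answer given by operation number `t`, as a list of pairs of points. -/
noncomputable def Structure.answer (D : Structure) (ops : ℕ → Op) (t : ℕ) : List ((ℝ × ℝ) × (ℝ × ℝ)) :=
  ((D.step (D.mem ops t) (ops t).kind).eval (D.sign ops t)).2.map fun e => (pt ops e.1, pt ops e.2)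

/-- The set of points which are present before operation number `t`. -/
def current (ops : ℕ → Op) : ℕ → Set (ℝ × ℝ)
  | 0 => ∅
  | t + 1 => match ops t with
    | .insert x y => insert (x, y) (current ops t)
    | .delete x y => current ops t \ {(x, y)}
    | .stab _ _ _ => current ops t

/-- The line `a x + b y = c`. -/
def line (a b c : ℝ) : Set (ℝ × ℝ) := {z | a * z.1 + b * z.2 = c}

/-- `p q` is an edge of the convex hull of `S`: `p` and `q` are in `S`, the segment from `p` to `q` is the set of points of the convex
hull of `S` at which some nonzero linear functional is maximal, and `p ≠ q` unless `S` is a single point. -/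
def IsEdge (S : Set (ℝ × ℝ)) (p q : ℝ × ℝ) : Prop :=
  p ∈ S ∧ q ∈ S ∧ (p = q → S = {p}) ∧ ∃ u v : ℝ, (u, v) ≠ (0, 0) ∧
    segment ℝ p q = {z | z ∈ convexHull ℝ S ∧ ∀ w ∈ convexHull ℝ S, u * w.1 + v * w.2 ≤ u * z.1 + v * z.2}

/-- `E` is a correct answer to the line-stabbing query for the line `a x + b y = c`: `E` consists of at most two edges of the
convex hull of `S`, each of them meets the line, and each point of the line on the boundary of the convex hull is in one of them (so
`E` is empty iff the line does not meet the convex hull). -/
def IsAnswer (S : Set (ℝ × ℝ)) (a b c : ℝ) (E : List ((ℝ × ℝ) × (ℝ × ℝ))) : Prop :=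
  E.length ≤ 2 ∧
  (∀ e ∈ E, IsEdge S e.1 e.2 ∧ (segment ℝ e.1 e.2 ∩ line a b c).Nonempty) ∧
  ∀ z ∈ frontier (convexHull ℝ S) ∩ line a b c, ∃ e ∈ E, z ∈ segment ℝ e.1 e.2

end Pool.Agent.Helper55.DH
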