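import Pool.Agent.Helper55.DH.QChain

/-!
# DH-Q5: the two boundary paths between the maximum and the minimum of the form

`up` ends where `lo` begins (`UR_getLast`, `UR_head`, `List.head?_reverse`), `lo` ends where `up` begins. `rightPath up lo k1 k2 = up[k1], …, up[last] = lo[0], lo[1], …, lo[k2]`,
`leftPath = lo[k2], …, lo[last] = up[0], up[1], …, up[k1]`. So `(rightPath)[i] = up[k1 + i]` for `k1 + i < up.length` and `= lo[i - (up.length - 1 - k1)]` afterwards (and at the common point both).
Along the upper part the form decreases (`≤` at the first step, `<` later by `peak_mono`), along the lower part it decreases strictly, because `Peak (fun i => - P i) a b lo k2`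
says that `lf (-P lo[i]) < lf (-P lo[i+1])` for `i < k2`. `right_consec`: consecutive members of the path are consecutive in `up` or in `lo`. `left_…` is the same with the roles of
`(P, l, up, k1)` and `(fun i => - P i, l.reverse, lo, k2)` exchanged: `leftPath up lo k1 k2 = rightPath lo up k2 k1` (by definition), `- - P = P`, `l.reverse.reverse = l`.
`consec_cases`: a pair `up[k], up[k+1]` with `k ≥ k1` is in the right path, with `k < k1` in the left path; `lo[k], lo[k+1]` with `k < k2` right, `k ≥ k2` left.
-/

namespace Pool.Agent.Helper55.DH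

variable {ι : Type} {P : ι → ℝ × ℝ} {l : List ι}

private theorem rp_length (A B : List ι) {k1 k2 : ℕ} (hk1 : k1 < A.length) (hk2 : k2 < B.length) :
    (rightPath A B k1 k2).length = A.length - k1 + k2 := by
  unfold rightPath
  rw [List.length_append, List.length_drop, List.length_tail, List.length_take]
  omega

private theorem rp_get1 (A B : List ι) {k1 k2 : ℕ} {i : ℕ} (hi : i < A.length - k1) :
    (rightPath A B k1 k2)[i]? = A[k1 + i]? := by
  unfold rightPath
  rw [List.getElem?_append_left (by rw [List.length_drop]; exact hi), List.getElem?_drop]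

private theorem rp_get2 (A B : List ι) {k1 k2 : ℕ} (hk1 : k1 < A.length) (hAB : A.getLast? = B.head?) {j : ℕ}
    (hj : j ≤ k2) : (rightPath A B k1 k2)[A.length - k1 - 1 + j]? = B[j]? := by
  rcases Nat.eq_zero_or_pos j with h0 | h0
  · subst h0
    rw [rp_get1 A B (by omega), List.getElem?_eq_getElem (by omega : k1 + (A.length - k1 - 1 + 0) < A.length)]
    rw [List.getLast?_eq_getElem?, List.head?_eq_getElem?] at hAB
    rw [← hAB, List.getElem?_eq_getElem (by omega)]
    congr 2
    omega
  · unfold rightPath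
    rw [List.getElem?_append_right (by rw [List.length_drop]; omega), List.length_drop, List.getElem?_tail,
      List.getElem?_take, if_pos (by omega)]
    congr 1
    omega

private theorem rp_cases (A B : List ι) {k1 k2 : ℕ} (hk1 : k1 < A.length) (hk2 : k2 < B.length)
    (hAB : A.getLast? = B.head?) (i : ℕ) (h : i + 1 < (rightPath A B k1 k2).length) :
    (∃ h' : k1 + i + 1 < A.length, (rightPath A B k1 k2)[i] = A[k1 + i] ∧
      (rightPath A B k1 k2)[i + 1] = A[k1 + i + 1]) ∨
    (∃ j, ∃ h' : j + 1 < B.length, j < k2 ∧ (rightPath A B k1 k2)[i] = B[j] ∧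
      (rightPath A B k1 k2)[i + 1] = B[j + 1]) := by
  have hlen := rp_length A B hk1 hk2
  by_cases h1 : k1 + i + 1 < A.length
  · refine Or.inl ⟨h1, ?_, ?_⟩
    · have := rp_get1 A B (k1 := k1) (k2 := k2) (i := i) (by omega)
      rw [List.getElem?_eq_getElem (by omega), List.getElem?_eq_getElem (by omega)] at this
      exact Option.some.inj this
    · have := rp_get1 A B (k1 := k1) (k2 := k2) (i := i + 1) (by omega)
      rw [List.getElem?_eq_getElem (by omega), List.getElem?_eq_getElem (by omega)] at this
      exact Option.some.inj this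
  · obtain ⟨j, hj⟩ : ∃ j, i = A.length - k1 - 1 + j := ⟨i - (A.length - k1 - 1), by omega⟩
    refine Or.inr ⟨j, by omega, by omega, ?_, ?_⟩
    · have := rp_get2 A B (k1 := k1) (k2 := k2) hk1 hAB (j := j) (by omega)
      rw [← hj, List.getElem?_eq_getElem (by omega), List.getElem?_eq_getElem (by omega)] at this
      exact Option.some.inj this
    · have := rp_get2 A B (k1 := k1) (k2 := k2) hk1 hAB (j := j + 1) (by omega)
      rw [← add_assoc, ← hj, List.getElem?_eq_getElem (by omega), List.getElem?_eq_getElem (by omega)] at this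
      exact Option.some.inj this

private theorem rp_consec1 (A B : List ι) {k1 k2 : ℕ} (hk1 : k1 < A.length) (hk2 : k2 < B.length) {k : ℕ}
    (hk : k + 1 < A.length) (hkk : k1 ≤ k) : Consec (rightPath A B k1 k2) A[k] A[k + 1] := by
  have hlen := rp_length A B hk1 hk2
  obtain ⟨i, rfl⟩ : ∃ i, k = k1 + i := ⟨k - k1, by omega⟩
  refine ⟨i, by omega, ?_, ?_⟩
  · have := rp_get1 A B (k1 := k1) (k2 := k2) (i := i) (by omega)
    rw [List.getElem?_eq_getElem (by omega), List.getElem?_eq_getElem (by omega)] at this
    exact (Option.some.inj this).symm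
  · have := rp_get1 A B (k1 := k1) (k2 := k2) (i := i + 1) (by omega)
    rw [List.getElem?_eq_getElem (by omega), List.getElem?_eq_getElem (by omega)] at this
    exact (Option.some.inj this).symm

private theorem rp_consec2 (A B : List ι) {k1 k2 : ℕ} (hk1 : k1 < A.length) (hk2 : k2 < B.length)
    (hAB : A.getLast? = B.head?) {j : ℕ} (hj : j + 1 < B.length) (hjk : j < k2) :
    Consec (rightPath A B k1 k2) B[j] B[j + 1] := by
  have hlen := rp_length A B hk1 hk2
  refine ⟨A.length - k1 - 1 + j, by omega, ?_, ?_⟩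
  · have := rp_get2 A B (k1 := k1) (k2 := k2) hk1 hAB (j := j) (by omega)
    rw [List.getElem?_eq_getElem (by omega), List.getElem?_eq_getElem (by omega)] at this
    exact (Option.some.inj this).symm
  · have := rp_get2 A B (k1 := k1) (k2 := k2) hk1 hAB (j := j + 1) (by omega)
    rw [← add_assoc, List.getElem?_eq_getElem (by omega), List.getElem?_eq_getElem (by omega)] at this
    exact (Option.some.inj this).symm

private theorem ends_right (hs : SrtR P l) (up lo : List ι) (hup : up = UR P l)
    (hlo : lo = UR (fun i => - P i) l.reverse) : up.getLast? = lo.head? := by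
  rw [hup, hlo, UR_getLast hs, UR_head (srt_neg hs), List.head?_reverse]

private theorem ends_left (hs : SrtR P l) (up lo : List ι) (hup : up = UR P l)
    (hlo : lo = UR (fun i => - P i) l.reverse) : lo.getLast? = up.head? := by
  rw [hup, hlo, UR_head hs, UR_getLast (srt_neg hs), List.getLast?_reverse]

private theorem lf_neg (a b : ℝ) (z : ℝ × ℝ) : lf a b (- z) = - lf a b z := by
  simp only [lf, Prod.fst_neg, Prod.snd_neg]
  ring

theorem right_facts (hs : SrtR P l) (up lo : List ι) (hup : up = UR P l) (hlo : lo = UR (fun i => - P i) l.reverse)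
    {a b : ℝ} (hb : 0 < b) {k1 k2 : ℕ} (hk1 : Peak P a b up k1) (hk2 : Peak (fun i => - P i) a b lo k2) :
    (rightPath up lo k1 k2).head? = up[k1]? ∧ (rightPath up lo k1 k2).getLast? = lo[k2]? ∧
      ∀ i, ∀ h : i + 1 < (rightPath up lo k1 k2).length,
        lf a b (P (rightPath up lo k1 k2)[i + 1]) ≤ lf a b (P (rightPath up lo k1 k2)[i]) ∧
        (0 < i → lf a b (P (rightPath up lo k1 k2)[i + 1]) < lf a b (P (rightPath up lo k1 k2)[i])) ∧
        (Consec up (rightPath up lo k1 k2)[i] (rightPath up lo k1 k2)[i + 1] ∨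
          Consec lo (rightPath up lo k1 k2)[i] (rightPath up lo k1 k2)[i + 1]) := by
  have hAB := ends_right hs up lo hup hlo
  refine ⟨?_, ?_, ?_⟩
  · rw [List.head?_eq_getElem?, rp_get1 up lo (by have := hk1.1; omega)]
    rfl
  · have hlen := rp_length up lo hk1.1 hk2.1
    have h1 := hk1.1
    rw [List.getLast?_eq_getElem?, hlen, ← rp_get2 up lo hk1.1 hAB (le_refl k2)]
    congr 1
    omega
  · intro i h
    rcases rp_cases up lo hk1.1 hk2.1 hAB i h with ⟨h', e1, e2⟩ | ⟨j, h', hj, e1, e2⟩
    · rw [e1, e2]
      refine ⟨hk1.2.2 (k1 + i) h' (by omega), fun hi => ?_, Or.inl ⟨k1 + i, h', rfl, rfl⟩⟩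
      exact peak_mono hs up hup hb (i := k1) (j := k1 + i) (by omega) h' (hk1.2.2 k1 (by omega) le_rfl)
    · rw [e1, e2]
      have h3 := hk2.2.1 j h' hj
      rw [lf_neg, lf_neg] at h3
      exact ⟨by linarith, fun _ => by linarith, Or.inr ⟨j, h', rfl, rfl⟩⟩

theorem left_facts (hs : SrtR P l) (up lo : List ι) (hup : up = UR P l) (hlo : lo = UR (fun i => - P i) l.reverse)
    {a b : ℝ} (hb : 0 < b) {k1 k2 : ℕ} (hk1 : Peak P a b up k1) (hk2 : Peak (fun i => - P i) a b lo k2) :
    (leftPath up lo k1 k2).head? = lo[k2]? ∧ (leftPath up lo k1 k2).getLast? = up[k1]? ∧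
      ∀ i, ∀ h : i + 1 < (leftPath up lo k1 k2).length,
        lf a b (P (leftPath up lo k1 k2)[i]) ≤ lf a b (P (leftPath up lo k1 k2)[i + 1]) ∧
        (0 < i → lf a b (P (leftPath up lo k1 k2)[i]) < lf a b (P (leftPath up lo k1 k2)[i + 1])) ∧
        (Consec up (leftPath up lo k1 k2)[i] (leftPath up lo k1 k2)[i + 1] ∨
          Consec lo (leftPath up lo k1 k2)[i] (leftPath up lo k1 k2)[i + 1]) := by
  have hup' : up = UR (fun i => - (fun i => - P i) i) l.reverse.reverse := by
    simp only [neg_neg, List.reverse_reverse]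
    exact hup
  have hk1' : Peak (fun i => - (fun i => - P i) i) a b up k1 := by
    simpa only [neg_neg] using hk1
  have key := right_facts (srt_neg hs) lo up hlo hup' hb hk2 hk1'
  refine ⟨key.1, key.2.1, fun i h => ?_⟩
  have h3 := key.2.2 i h
  simp only [lf_neg] at h3
  refine ⟨neg_le_neg_iff.1 h3.1, fun hi => neg_lt_neg_iff.1 (h3.2.1 hi), h3.2.2.symm⟩

theorem consec_cases (hs : SrtR P l) (up lo : List ι) (hup : up = UR P l) (hlo : lo = UR (fun i => - P i) l.reverse)
    {k1 k2 : ℕ} (hk1 : k1 < up.length) (hk2 : k2 < lo.length) {u v : ι} (h : Consec up u v ∨ Consec lo u v) :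
    Consec (rightPath up lo k1 k2) u v ∨ Consec (leftPath up lo k1 k2) u v := by
  rcases h with ⟨k, hk, rfl, rfl⟩ | ⟨k, hk, rfl, rfl⟩
  · rcases Nat.lt_or_ge k k1 with h | h
    · exact Or.inr (rp_consec2 lo up hk2 hk1 (ends_left hs up lo hup hlo) hk h)
    · exact Or.inl (rp_consec1 up lo hk1 hk2 hk h)
  · rcases Nat.lt_or_ge k k2 with h | h
    · exact Or.inl (rp_consec2 up lo hk1 hk2 (ends_right hs up lo hup hlo) hk h)
    · exact Or.inr (rp_consec1 lo up hk2 hk1 hk h)

end Pool.Agent.Helper55.DH
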