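import Pool.Agent.Helper55.DH.QFront
import Pool.Agent.Helper55.DH.QPath

/-!
# DH-Q6: the answer is correct (for `b > 0`)

Let `v z = lf a b z - c`, `M = up[k1]`, `m = lo[k2]`. `peak_max` for `P` and for `-P` (`lf a b (-z) = - lf a b z`): `v (P m) ≤ v (P z) ≤ v (P M)` for `z ∈ l`, hence for all points of the hull
(`convexHull_min`, the half planes are convex).
Case `sM = -1` (`v < 0` on the hull) or `sm = 1` (`v > 0` on the hull): the line does not meet the hull; the empty list is correct.
Case `sM = 0`: the list is `edgeAt up k1` (one member). It is an edge (`edgeAt_isEdge`), it contains `P M`, which is on the line. If `z ∈ frontier ∩ line`: `z` is in the hull, `v z = 0` is the maximum;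
the points of `S` with `v = 0` are in the segment of `edgeAt up k1` (`peak_max`, equality case: they are `M` or in the segment `up[k1] up[k1+1]`), and `z` is a convex combination of points of
`S` with `v ≤ 0`, so only those with `v = 0` occur. (As in `isEdge_of_support`: the set `{v < 0} ∪ segment` is convex and contains `S`.)
Case `sm = 0`: the same with `-P`, `l.reverse`, `lo`, `k2`.
Case `sM = 1`, `sm = -1`: `v(P M) > 0 > v(P m)`, so `2 ≤ l.length`. Right path `R` from `M` to `m`: `0 < r < R.length` (its first member has `v > 0`, its last `v < 0`), so `pairAt R r = [(R[r-1], R[r])]`,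
consecutive in `up` or `lo`, hence an edge (`up_isEdge`, `lo_isEdge`), and `v(R[r-1]) > 0 ≥ v(R[r])`: the segment meets the line (intermediate value: the explicit convex combination). Similarly
on the left path `L` (`v(L[s-1]) < 0 ≤ v(L[s])`). Let `z ∈ frontier ∩ line`; by `frontier_subset` and `consec_cases` it is in the segment of consecutive members `R[i], R[i+1]` or `L[i], L[i+1]`. On
`R`: if `i + 1 < r`: both `v > 0`, impossible; `i + 1 = r`: done; `i ≥ r`: `v(R[i]) ≤ v(R[r]) ≤ 0` and `v(R[i+1]) < v(R[i])` (`i ≥ r ≥ 1`), so `v z = 0` forces `z = R[i]` and `v(R[i]) = 0`; if `i > r` then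
`v(R[i]) < v(R[r]) ≤ 0`, so `i = r`, and `z = R[r]` is in the segment. On `L` the same with the opposite signs.
Suggestion: prove one lemma for a list `R` and an affine function with these monotonicity properties and use it for both paths (for `L` with `-v`).
-/

namespace Pool.Agent.Helper55.DH

variable {ι : Type} {P : ι → ℝ × ℝ} {l : List ι}

private lemma an_comb (a b : ℝ) (x y : ℝ × ℝ) (s t : ℝ) :
    lf a b (s • x + t • y) = s * lf a b x + t * lf a b y := by
  simp only [lf, Prod.fst_add, Prod.snd_add, Prod.smul_fst, Prod.smul_snd, smul_eq_mul]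
  ring

private lemma an_negc (a b : ℝ) (z : ℝ × ℝ) : lf (-a) (-b) z = - lf a b z := by
  simp only [lf]
  ring

private lemma an_negv (a b : ℝ) (z : ℝ × ℝ) : lf a b (-z) = - lf a b z := by
  simp only [lf, Prod.fst_neg, Prod.snd_neg]
  ring

private lemma an_hull_eq {S : Set (ℝ × ℝ)} {a b M : ℝ} {K : Set (ℝ × ℝ)} (hK : Convex ℝ K)
    (h : ∀ z ∈ S, lf a b z ≤ M ∧ (lf a b z = M → z ∈ K)) {z : ℝ × ℝ} (hz : z ∈ convexHull ℝ S) :
    lf a b z ≤ M ∧ (lf a b z = M → z ∈ K) := by
  have hsub : convexHull ℝ S ⊆ {z | lf a b z < M} ∪ {z | lf a b z = M ∧ z ∈ K} := by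
    refine convexHull_min ?_ ?_
    · intro z hz
      rcases (h z hz).1.lt_or_eq with h1 | h1
      · exact Or.inl h1
      · exact Or.inr ⟨h1, (h z hz).2 h1⟩
    · rw [convex_iff_forall_pos]
      intro x hx y hy s t hs ht hst
      have hs1 : s = 1 - t := by linarith
      rcases hx with hx | hx <;> rcases hy with hy | hy
      · left
        have hx' : lf a b x < M := hx
        have hy' : lf a b y < M := hy
        show lf a b (s • x + t • y) < M
        rw [an_comb]
        have h1 := mul_lt_mul_of_pos_left hx' hs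
        have h2 := mul_lt_mul_of_pos_left hy' ht
        have h3 : s * M + t * M = M := by rw [← add_mul, hst, one_mul]
        linarith
      · left
        have hx' : lf a b x < M := hx
        show lf a b (s • x + t • y) < M
        rw [an_comb, hy.1]
        have h1 := mul_lt_mul_of_pos_left hx' hs
        have h3 : s * M + t * M = M := by rw [← add_mul, hst, one_mul]
        linarith
      · left
        have hy' : lf a b y < M := hy
        show lf a b (s • x + t • y) < M
        rw [an_comb, hx.1]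
        have h2 := mul_lt_mul_of_pos_left hy' ht
        have h3 : s * M + t * M = M := by rw [← add_mul, hst, one_mul]
        linarith
      · right
        refine ⟨?_, hK hx.2 hy.2 hs.le ht.le hst⟩
        rw [an_comb, hx.1, hy.1, ← add_mul, hst, one_mul]
  rcases hsub hz with h1 | h1
  · have h1' : lf a b z < M := h1
    exact ⟨h1'.le, fun h2 => absurd h2 h1'.ne⟩
  · exact ⟨h1.1.le, fun _ => h1.2⟩

private lemma an_edgeAt {Q : ι → ℝ × ℝ} {L0 : List ι} (hs : SrtR Q L0) (L : List ι) (hL : L = UR Q L0)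
    {a b : ℝ} (hb : 0 < b) {k : ℕ} (hk : Peak Q a b L k) (hk' : k < L.length) :
    ∃ e, edgeAt L k = [e] ∧ Q L[k] ∈ segment ℝ (Q e.1) (Q e.2) ∧
      ∀ z ∈ L0, lf a b (Q z) ≤ lf a b (Q L[k]) ∧
        (lf a b (Q z) = lf a b (Q L[k]) → Q z ∈ segment ℝ (Q e.1) (Q e.2)) := by
  by_cases h1 : k + 1 < L.length
  · refine ⟨(L[k], L[k + 1]), by rw [edgeAt, dif_pos h1], left_mem_segment _ _ _, fun z hz => ?_⟩
    obtain ⟨h2, h3⟩ := peak_max hs L hL hb hk hk' hz
    refine ⟨h2, fun h4 => ?_⟩
    rcases h3 h4 with h5 | ⟨h5, h6⟩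
    · rw [h5]
      exact left_mem_segment _ _ _
    · exact h6
  · by_cases h2 : 0 < k
    · refine ⟨(L[k - 1], L[k]), by rw [edgeAt, dif_neg h1, dif_pos ⟨h2, hk'⟩],
        right_mem_segment _ _ _, fun z hz => ?_⟩
      obtain ⟨h3, h4⟩ := peak_max hs L hL hb hk hk' hz
      refine ⟨h3, fun h5 => ?_⟩
      rcases h4 h5 with h6 | ⟨h6, _⟩
      · rw [h6]
        exact right_mem_segment _ _ _
      · exact absurd h6 h1
    · refine ⟨(L[k], L[k]), by rw [edgeAt, dif_neg h1, dif_neg (fun h => h2 h.1), dif_pos hk'],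
        right_mem_segment _ _ _, fun z hz => ?_⟩
      obtain ⟨h3, h4⟩ := peak_max hs L hL hb hk hk' hz
      refine ⟨h3, fun h5 => ?_⟩
      rcases h4 h5 with h6 | ⟨h6, _⟩
      · rw [h6]
        exact right_mem_segment _ _ _
      · exact absurd h6 h1

private lemma an_neg_seg {p q z : ℝ × ℝ} (h : -z ∈ segment ℝ (-p) (-q)) : z ∈ segment ℝ p q := by
  obtain ⟨s, t, hs, ht, hst, h1⟩ := h
  refine ⟨s, t, hs, ht, hst, ?_⟩
  have h2 : -(s • p + t • q) = -z := by
    rw [← h1, smul_neg, smul_neg, neg_add]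
  exact neg_injective h2

/-- a segment whose end points are on different sides meets the line -/
private lemma an_meet {a b c : ℝ} {p q : ℝ × ℝ} (hp : 0 < lf a b p - c) (hq : lf a b q - c ≤ 0) :
    (segment ℝ p q ∩ line a b c).Nonempty := by
  have hd : 0 < lf a b p - lf a b q := by linarith
  refine ⟨((c - lf a b q) / (lf a b p - lf a b q)) • p +
    ((lf a b p - c) / (lf a b p - lf a b q)) • q, ⟨_, _, ?_, ?_, ?_, rfl⟩, ?_⟩
  · exact div_nonneg (by linarith) hd.le
  · exact div_nonneg (by linarith) hd.le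
  · field_simp
    ring
  · show a * _ + b * _ = c
    change lf a b _ = c
    rw [an_comb]
    field_simp
    ring

private lemma an_line_neg {a b c : ℝ} : line (-a) (-b) (-c) = line a b c := by
  ext z
  simp only [line, Set.mem_ofPred_eq]
  constructor
  · intro h
    linarith
  · intro h
    linarith

/-- the place where the sign changes on a path -/
private lemma an_path (P : ι → ℝ × ℝ) {a b c : ℝ} (R : List ι) {r : ℕ} (h0 : 0 < r) (hr : r < R.length)
    (hmono : ∀ i, ∀ h : i + 1 < R.length, lf a b (P R[i + 1]) ≤ lf a b (P R[i]) ∧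
      (0 < i → lf a b (P R[i + 1]) < lf a b (P R[i])))
    (h1 : ∀ i, ∀ h : i < R.length, i < r → 0 < lf a b (P R[i]) - c) (h2 : lf a b (P R[r]) - c ≤ 0)
    {i : ℕ} (hi : i + 1 < R.length) {z : ℝ × ℝ} (hz : z ∈ segment ℝ (P R[i]) (P R[i + 1]))
    (hz0 : lf a b z = c) : z ∈ segment ℝ (P R[r - 1]) (P R[r]) := by
  obtain ⟨s, t, hs, ht, hst, rfl⟩ := hz
  rw [an_comb] at hz0
  have hs1 : s = 1 - t := by linarith
  rcases lt_trichotomy (i + 1) r with h | h | h
  · exfalso
    have e1 := h1 i (by omega) (by omega)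
    have e2 := h1 (i + 1) hi h
    have e3 : s * (lf a b (P R[i]) - c) + t * (lf a b (P R[i + 1]) - c) = 0 := by
      have : s * c + t * c = c := by rw [← add_mul, hst, one_mul]
      linarith
    rcases hs.lt_or_eq with h5 | h5
    · have := mul_pos h5 e1
      have := mul_nonneg ht e2.le
      linarith
    · have h6 : t = 1 := by linarith
      rw [← h5, h6] at e3
      linarith
  · subst h
    exact ⟨s, t, hs, ht, hst, rfl⟩
  · have hle : ∀ j, ∀ hj : r + j < R.length, lf a b (P R[r + j]) ≤ lf a b (P R[r]) ∧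
        (0 < j → lf a b (P R[r + j]) < lf a b (P R[r])) := by
      intro j
      induction j with
      | zero => exact fun hj => ⟨le_refl _, fun h => absurd h (lt_irrefl 0)⟩
      | succ j ih =>
        intro hj
        have e1 := ih (by omega)
        have e2 := (hmono (r + j) (by omega)).2 (by omega)
        exact ⟨(e2.le.trans e1.1), fun _ => lt_of_lt_of_le e2 e1.1⟩
    obtain ⟨j, rfl⟩ : ∃ j, i = r + j := ⟨i - r, by omega⟩
    have e1 := hle j (by omega)
    have e2 := (hmono (r + j) hi).2 (by omega)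
    have e3 : s * (lf a b (P R[r + j]) - c) + t * (lf a b (P R[r + j + 1]) - c) = 0 := by
      have : s * c + t * c = c := by rw [← add_mul, hst, one_mul]
      linarith
    have e4 : lf a b (P R[r + j]) - c ≤ 0 := by linarith [e1.1]
    have e5 : lf a b (P R[r + j + 1]) - c < 0 := by linarith
    have ht0 : t = 0 := by
      by_contra hne
      have htp : 0 < t := lt_of_le_of_ne ht (Ne.symm hne)
      have := mul_neg_of_pos_of_neg htp e5
      have := mul_nonpos_of_nonneg_of_nonpos hs e4
      linarith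
    have hs0 : s = 1 := by linarith
    rw [ht0, hs0] at e3
    have e6 : lf a b (P R[r + j]) - c = 0 := by linarith
    have hj0 : j = 0 := by
      by_contra hne
      have := e1.2 (Nat.pos_of_ne_zero hne)
      linarith
    subst hj0
    rw [ht0, hs0, one_smul, zero_smul]
    show P R[r] + (0 : ℝ × ℝ) ∈ segment ℝ (P R[r - 1]) (P R[r])
    rw [add_zero]
    exact right_mem_segment _ _ _

theorem answer_pos (hs : SrtR P l) (hl : l ≠ []) (up lo : List ι) (hup : up = UR P l)
    (hlo : lo = UR (fun i => - P i) l.reverse) {a b c : ℝ} (hb : 0 < b) {k1 k2 : ℕ} (hk1 : Peak P a b up k1)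
    (hk2 : Peak (fun i => - P i) a b lo k2) (h1 : k1 < up.length) (h2 : k2 < lo.length) (sM sm : SignType)
    (hsM : sM = SignType.sign (lf a b (P up[k1]) - c)) (hsm : sm = SignType.sign (lf a b (P lo[k2]) - c)) (r s : ℕ)
    (hr1 : ∀ i, ∀ h : i < (rightPath up lo k1 k2).length, i < r → 0 < lf a b (P (rightPath up lo k1 k2)[i]) - c)
    (hr2 : ∀ h : r < (rightPath up lo k1 k2).length, lf a b (P (rightPath up lo k1 k2)[r]) - c ≤ 0)
    (hr3 : r ≤ (rightPath up lo k1 k2).length)
    (hs1 : ∀ i, ∀ h : i < (leftPath up lo k1 k2).length, i < s → lf a b (P (leftPath up lo k1 k2)[i]) - c < 0)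
    (hs2 : ∀ h : s < (leftPath up lo k1 k2).length, 0 ≤ lf a b (P (leftPath up lo k1 k2)[s]) - c)
    (hs3 : s ≤ (leftPath up lo k1 k2).length) :
    IsAnswer (P '' {i | i ∈ l}) a b c ((ansList up lo k1 k2 sM sm r s).map fun e => (P e.1, P e.2)) := by
  classical
  have hcl : IsClosed (convexHull ℝ (P '' {i | i ∈ l})) :=
    (Set.Finite.isCompact_convexHull (𝕜 := ℝ) ((List.finite_toSet l).image P)).isClosed
  obtain ⟨e1, he1, hM1, hM2⟩ := an_edgeAt hs up hup hb hk1 h1
  obtain ⟨e2, he2, hm1, hm2⟩ := an_edgeAt (srt_neg hs) lo hlo hb hk2 h2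
  have hm1' : P lo[k2] ∈ segment ℝ (P e2.1) (P e2.2) := an_neg_seg hm1
  have hupl : ∀ j, ∀ hj : j < up.length, up[j] ∈ l := by
    intro j hj
    subst hup
    exact UR_sublist.subset (List.getElem_mem hj)
  have hlol : ∀ j, ∀ hj : j < lo.length, lo[j] ∈ l := by
    intro j hj
    subst hlo
    have := UR_sublist.subset (List.getElem_mem hj)
    rwa [List.mem_reverse] at this
  have hMh : ∀ z ∈ convexHull ℝ (P '' {i | i ∈ l}), lf a b z ≤ lf a b (P up[k1]) ∧
      (lf a b z = lf a b (P up[k1]) → z ∈ segment ℝ (P e1.1) (P e1.2)) := by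
    intro z hz
    refine an_hull_eq (convex_segment _ _) ?_ hz
    rintro w ⟨i, hi, rfl⟩
    exact hM2 i hi
  have hmh : ∀ z ∈ convexHull ℝ (P '' {i | i ∈ l}), lf a b (P lo[k2]) ≤ lf a b z ∧
      (lf a b z = lf a b (P lo[k2]) → z ∈ segment ℝ (P e2.1) (P e2.2)) := by
    intro z hz
    have h3 : lf (-a) (-b) z ≤ lf (-a) (-b) (P lo[k2]) ∧
        (lf (-a) (-b) z = lf (-a) (-b) (P lo[k2]) → z ∈ segment ℝ (P e2.1) (P e2.2)) := by
      refine an_hull_eq (convex_segment _ _) ?_ hz
      rintro w ⟨i, hi, rfl⟩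
      obtain ⟨h4, h5⟩ := hm2 i (List.mem_reverse.2 hi)
      rw [an_negv, an_negv] at h4 h5
      rw [an_negc, an_negc]
      exact ⟨h4, fun h6 => an_neg_seg (h5 h6)⟩
    rw [an_negc, an_negc] at h3
    exact ⟨by linarith [h3.1], fun h4 => h3.2 (by rw [h4])⟩
  have hfr : ∀ z ∈ frontier (convexHull ℝ (P '' {i | i ∈ l})) ∩ line a b c,
      z ∈ convexHull ℝ (P '' {i | i ∈ l}) ∧ lf a b z = c := by
    rintro z ⟨hz1, hz2⟩
    refine ⟨?_, hz2⟩
    have h3 := frontier_subset_closure hz1
    rwa [hcl.closure_eq] at h3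
  unfold ansList
  by_cases hA : sM = -1 ∨ sm = 1
  · rw [if_pos hA]
    refine ⟨by simp, by simp, fun z hz => ?_⟩
    exfalso
    obtain ⟨hz1, hz2⟩ := hfr z hz
    rcases hA with hA | hA
    · rw [hsM] at hA
      have h3 := sign_eq_neg_one_iff.1 hA
      have h4 := (hMh z hz1).1
      linarith
    · rw [hsm] at hA
      have h3 := sign_eq_one_iff.1 hA
      have h4 := (hmh z hz1).1
      linarith
  rw [if_neg hA]
  rw [not_or] at hA
  by_cases hB : sM = 0
  · rw [if_pos hB, he1]
    rw [hsM, sign_eq_zero_iff] at hB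
    refine ⟨by simp, ?_, fun z hz => ?_⟩
    · intro e he
      simp only [List.map_cons, List.map_nil, List.mem_singleton] at he
      subst he
      refine ⟨edgeAt_isEdge hs up (Or.inl hup) k1 h1 e1 (by rw [he1]; simp), P up[k1], hM1, ?_⟩
      show lf a b (P up[k1]) = c
      linarith
    · obtain ⟨hz1, hz2⟩ := hfr z hz
      refine ⟨(P e1.1, P e1.2), by simp, (hMh z hz1).2 (by linarith)⟩
  rw [if_neg hB]
  by_cases hC : sm = 0
  · rw [if_pos hC, he2]
    rw [hsm, sign_eq_zero_iff] at hC
    refine ⟨by simp, ?_, fun z hz => ?_⟩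
    · intro e he
      simp only [List.map_cons, List.map_nil, List.mem_singleton] at he
      subst he
      refine ⟨edgeAt_isEdge hs lo (Or.inr hlo) k2 h2 e2 (by rw [he2]; simp), P lo[k2], hm1', ?_⟩
      show lf a b (P lo[k2]) = c
      linarith
    · obtain ⟨hz1, hz2⟩ := hfr z hz
      refine ⟨(P e2.1, P e2.2), by simp, (hmh z hz1).2 (by linarith)⟩
  rw [if_neg hC]
  have hpM : 0 < lf a b (P up[k1]) - c := by
    rcases lt_trichotomy (lf a b (P up[k1]) - c) 0 with h3 | h3 | h3
    · exact absurd (hsM.trans (sign_eq_neg_one_iff.2 h3)) hA.1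
    · exact absurd (hsM.trans (sign_eq_zero_iff.2 h3)) hB
    · exact h3
  have hpm : lf a b (P lo[k2]) - c < 0 := by
    rcases lt_trichotomy (lf a b (P lo[k2]) - c) 0 with h3 | h3 | h3
    · exact h3
    · exact absurd (hsm.trans (sign_eq_zero_iff.2 h3)) hC
    · exact absurd (hsm.trans (sign_eq_one_iff.2 h3)) hA.2
  have hl2 : 2 ≤ l.length := by
    by_contra hlt
    have h3 : l.length = 0 ∨ l.length = 1 := by omega
    rcases h3 with h3 | h3
    · exact hl (List.length_eq_zero_iff.1 h3)
    · obtain ⟨i, hi⟩ := List.length_eq_one_iff.1 h3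
      have h4 := hupl k1 h1
      have h5 := hlol k2 h2
      rw [hi, List.mem_singleton] at h4 h5
      rw [h4] at hpM
      rw [h5] at hpm
      linarith
  obtain ⟨hR1, hR2, hR3⟩ := right_facts hs up lo hup hlo hb hk1 hk2
  obtain ⟨hL1, hL2, hL3⟩ := left_facts hs up lo hup hlo hb hk1 hk2
  set R := rightPath up lo k1 k2 with hRe
  set L := leftPath up lo k1 k2 with hLe
  have hRpos : 0 < R.length := by
    rcases Nat.eq_zero_or_pos R.length with h3 | h3
    · rw [List.length_eq_zero_iff.1 h3, List.getElem?_eq_getElem h1] at hR1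
      simp at hR1
    · exact h3
  have hLpos : 0 < L.length := by
    rcases Nat.eq_zero_or_pos L.length with h3 | h3
    · rw [List.length_eq_zero_iff.1 h3, List.getElem?_eq_getElem h2] at hL1
      simp at hL1
    · exact h3
  have hR0 : R[0] = up[k1] := by
    rw [List.head?_eq_getElem?, List.getElem?_eq_getElem hRpos, List.getElem?_eq_getElem h1] at hR1
    exact Option.some.inj hR1
  have hL0 : L[0] = lo[k2] := by
    rw [List.head?_eq_getElem?, List.getElem?_eq_getElem hLpos, List.getElem?_eq_getElem h2] at hL1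
    exact Option.some.inj hL1
  have hRe' : R[R.length - 1] = lo[k2] := by
    rw [List.getLast?_eq_getElem?, List.getElem?_eq_getElem (by omega), List.getElem?_eq_getElem h2] at hR2
    exact Option.some.inj hR2
  have hLe' : L[L.length - 1] = up[k1] := by
    rw [List.getLast?_eq_getElem?, List.getElem?_eq_getElem (by omega), List.getElem?_eq_getElem h1] at hL2
    exact Option.some.inj hL2
  have hr0 : 0 < r := by
    rcases Nat.eq_zero_or_pos r with h3 | h3
    · subst h3
      have h4 := hr2 hRpos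
      rw [hR0] at h4
      linarith
    · exact h3
  have hrl : r < R.length := by
    by_contra h3
    have h4 := hr1 (R.length - 1) (by omega) (by omega)
    rw [hRe'] at h4
    linarith
  have hs0 : 0 < s := by
    rcases Nat.eq_zero_or_pos s with h3 | h3
    · subst h3
      have h4 := hs2 hLpos
      rw [hL0] at h4
      linarith
    · exact h3
  have hsl : s < L.length := by
    by_contra h3
    have h4 := hs1 (L.length - 1) (by omega) (by omega)
    rw [hLe'] at h4
    linarith
  have hedge : ∀ u v, Consec up u v ∨ Consec lo u v → IsEdge (P '' {i | i ∈ l}) (P u) (P v) := by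
    rintro u v (⟨k, hk, rfl, rfl⟩ | ⟨k, hk, rfl, rfl⟩)
    · exact up_isEdge hs up hup hk
    · exact lo_isEdge hs lo hlo hk
  rw [show pairAt R r = [(R[r - 1], R[r])] from dif_pos ⟨hr0, hrl⟩,
    show pairAt L s = [(L[s - 1], L[s])] from dif_pos ⟨hs0, hsl⟩]
  refine ⟨by simp, ?_, ?_⟩
  · intro e he
    simp only [List.cons_append, List.nil_append, List.map_cons, List.map_nil, List.mem_cons,
      List.not_mem_nil, or_false] at he
    rcases he with rfl | rfl
    · refine ⟨hedge _ _ ?_, ?_⟩
      · have h3 := (hR3 (r - 1) (show r - 1 + 1 < R.length by omega)).2.2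
        simpa only [Nat.sub_add_cancel hr0] using h3
      · exact an_meet (hr1 (r - 1) (show r - 1 < R.length by omega) (by omega)) (hr2 hrl)
    · refine ⟨hedge _ _ ?_, ?_⟩
      · have h3 := (hL3 (s - 1) (show s - 1 + 1 < L.length by omega)).2.2
        simpa only [Nat.sub_add_cancel hs0] using h3
      · rw [← an_line_neg]
        refine an_meet ?_ ?_
        · rw [an_negc]
          have h4 := hs1 (s - 1) (show s - 1 < L.length by omega) (by omega)
          linarith
        · rw [an_negc]
          have h4 := hs2 hsl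
          linarith
  · intro z hz
    obtain ⟨hz1, hz2⟩ := hfr z hz
    have hcs : ∃ u v, (Consec up u v ∨ Consec lo u v) ∧ z ∈ segment ℝ (P u) (P v) := by
      rcases frontier_subset hs hl2 up lo hup hlo hz.1 with ⟨k, hk, h3⟩ | ⟨k, hk, h3⟩
      · exact ⟨_, _, Or.inl ⟨k, hk, rfl, rfl⟩, h3⟩
      · exact ⟨_, _, Or.inr ⟨k, hk, rfl, rfl⟩, h3⟩
    obtain ⟨u, v, huv, hzs⟩ := hcs
    have h3 := consec_cases hs up lo hup hlo h1 h2 huv
    rw [← hRe, ← hLe] at h3
    rcases h3 with ⟨i, hi, rfl, rfl⟩ | ⟨i, hi, rfl, rfl⟩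
    · refine ⟨(P R[r - 1], P R[r]), by simp, ?_⟩
      exact an_path P (a := a) (b := b) (c := c) R hr0 hrl
        (fun i h => ⟨(hR3 i h).1, (hR3 i h).2.1⟩) hr1 (hr2 hrl) hi hzs hz2
    · refine ⟨(P L[s - 1], P L[s]), by simp, ?_⟩
      refine an_path P (a := -a) (b := -b) (c := -c) L hs0 hsl (fun i h => ?_) (fun i h h' => ?_) ?_ hi hzs ?_
      · have h4 := hL3 i h
        rw [an_negc, an_negc]
        exact ⟨neg_le_neg h4.1, fun h5 => neg_lt_neg (h4.2.1 h5)⟩
      · rw [an_negc]
        have h4 := hs1 i h h'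
        linarith
      · rw [an_negc]
        have h4 := hs2 hsl
        linarith
      · rw [an_negc, hz2]

end Pool.Agent.Helper55.DH
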