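import Pool.Agent.Helper55.DH.QDefs

/-!
# DH-Q2: chain facts

`lo = UR (fun i => - P i) l.reverse` is the lower hull from right to left. `srt_neg`: `List.pairwise_reverse`. `lo_head`, `lo_last`: `UR_head`, `UR_getLast` for `-P`, `l.reverse`.
`lo_edge`: `UR_edge` for `-P` (`cross (-u) (-v) = cross u v`).
`chain_slopes`: `A = UR P l`, `i < j`, `j + 1 < A.length`: `cross (A[i+1] - A[i]) (A[j+1] - A[j]) < 0`: from `UR_cross` for `(i, i+1, j+1)` and `(i, j, j+1)`-type triples: slopes of consecutive edges decrease,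
induction on `j - i` (first coordinates positive), or: `u = A[i+1] - A[i]`, `v = A[j] - A[i+1]`, `w = A[j+1] - A[j]`; `j = i + 1` is `UR_cross`; else `cross u v < 0` (triple `i, i+1, j`), `cross v w < 0`
(triple `i+1, j, j+1`) and `v.1 * cross u w = w.1 * cross u v + u.1 * cross v w`.
`peak_mono`: for `b > 0`: `lf (A[i+1]) - lf (A[i]) = a ΔX + b ΔY ≤ 0` implies `< 0` for `j > i` (`ΔX_j (a ΔX_i + b ΔY_i) - ΔX_i (a ΔX_j + b ΔY_j) = - b cross Δ_i Δ_j > 0`: so the second one is smaller).
`peak_max`: `k` a peak of `A`, `b > 0`, `z ∈ l`: for `z.x ≥ A[k].x`: if `k + 1 < A.length`: `lf A[k+1] ≤ lf A[k]` and `cross (A[k+1] - A[k]) (z - A[k]) ≤ 0` (`UR_edge`) give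
`ΔX (lf z - lf A[k]) = dx (a ΔX + b ΔY) + b cross Δ (z - A[k]) ≤ 0` with `dx = (z - A[k]).x ≥ 0`; if `k + 1 = A.length`: `A[k]` is the last point (`UR_getLast`), `z = A[k]`. For `z.x < A[k].x`: `k > 0`
(`A[0]` is the first point), the edge `(A[k-1], A[k])`: `lf A[k-1] < lf A[k]`, the same identity with base point `A[k]`, `dx < 0`: `lf z < lf A[k]`.
Equality: only for `z.x ≥ A[k].x`, and then `dx (a ΔX + b ΔY) = 0` and `cross = 0`: `UR_edge` gives `A[k].x ≤ z.x ≤ A[k+1].x`, so `P z` is in the segment (collinear, `x` between; parameter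
`dx / ΔX`).
-/

namespace Pool.Agent.Helper55.DH

variable {ι : Type} {P : ι → ℝ × ℝ} {l : List ι}

theorem srt_neg (hs : SrtR P l) : SrtR (fun i => - P i) l.reverse := by
  unfold SrtR at hs ⊢
  rw [List.pairwise_reverse]
  exact hs.imp fun {a b} h => by simpa using h

theorem lo_edge (hs : SrtR P l) (lo : List ι) (hlo : lo = UR (fun i => - P i) l.reverse) {k : ℕ} (hk : k + 1 < lo.length)
    {z : ι} (hz : z ∈ l) :
    cross (P lo[k + 1] - P lo[k]) (P z - P lo[k]) ≤ 0 ∧
      (cross (P lo[k + 1] - P lo[k]) (P z - P lo[k]) = 0 → (P lo[k + 1]).1 ≤ (P z).1 ∧ (P z).1 ≤ (P lo[k]).1) := by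
  subst hlo
  have h := UR_edge (srt_neg hs) hk (List.mem_reverse.2 hz)
  have e : ∀ a b : ι, cross ((fun i => - P i) a - (fun i => - P i) b) ((fun i => - P i) z - (fun i => - P i) b)
      = cross (P a - P b) (P z - P b) := by
    intro a b
    simp only [cross, Prod.fst_sub, Prod.snd_sub, Prod.fst_neg, Prod.snd_neg]
    ring
  rw [e] at h
  refine ⟨h.1, fun h0 => ?_⟩
  have h1 := h.2 h0
  simp only [Prod.fst_neg] at h1
  constructor <;> linarith [h1.1, h1.2]

theorem chain_slopes (hs : SrtR P l) (A : List ι) (hA : A = UR P l) {i j : ℕ} (hij : i < j) (hj : j + 1 < A.length) :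
    cross (P A[i + 1] - P A[i]) (P A[j + 1] - P A[j]) < 0 := by
  subst hA
  have hs' := UR_srt hs
  rcases Nat.lt_or_ge (i + 1) j with h | h
  · have h1 := UR_cross hs (Nat.lt_succ_self i) h (by omega)
    have h2 := UR_cross hs h (Nat.lt_succ_self j) hj
    have x1 := srt_lt hs' (Nat.lt_succ_self i) (by omega : i + 1 < (UR P l).length)
    have x2 := srt_lt hs' h (by omega : j < (UR P l).length)
    have x3 := srt_lt hs' (Nat.lt_succ_self j) hj
    simp only [cross, Prod.fst_sub, Prod.snd_sub] at h1 h2 ⊢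
    generalize P (UR P l)[i] = q0 at *
    generalize P (UR P l)[i + 1] = q1 at *
    generalize P (UR P l)[j] = q2 at *
    generalize P (UR P l)[j + 1] = q3 at *
    have hv : 0 < q2.1 - q1.1 := by linarith
    have hu : 0 < q1.1 - q0.1 := by linarith
    have hw : 0 < q3.1 - q2.1 := by linarith
    by_contra hcon
    have hcon' := not_lt.1 hcon
    have e : (q2.1 - q1.1) * ((q1.1 - q0.1) * (q3.2 - q2.2) - (q1.2 - q0.2) * (q3.1 - q2.1)) =
        (q3.1 - q2.1) * ((q1.1 - q0.1) * (q2.2 - q1.2) - (q1.2 - q0.2) * (q2.1 - q1.1)) +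
        (q1.1 - q0.1) * ((q2.1 - q1.1) * (q3.2 - q2.2) - (q2.2 - q1.2) * (q3.1 - q2.1)) := by ring
    have e1 := mul_nonneg hv.le hcon'
    have e2 := mul_neg_of_pos_of_neg hw h1
    have e3 := mul_neg_of_pos_of_neg hu h2
    linarith
  · have hj' : j = i + 1 := by omega
    subst hj'
    exact UR_cross hs (Nat.lt_succ_self i) (Nat.lt_succ_self (i + 1)) hj

theorem peak_mono (hs : SrtR P l) (A : List ι) (hA : A = UR P l) {a b : ℝ} (hb : 0 < b) {i j : ℕ} (hij : i < j)
    (hj : j + 1 < A.length) (h : lf a b (P A[i + 1]) ≤ lf a b (P A[i])) : lf a b (P A[j + 1]) < lf a b (P A[j]) := by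
  have hc := chain_slopes hs A hA hij hj
  subst hA
  have hs' := UR_srt hs
  have x1 := srt_lt hs' (Nat.lt_succ_self i) (by omega : i + 1 < (UR P l).length)
  have x3 := srt_lt hs' (Nat.lt_succ_self j) hj
  simp only [cross, lf, Prod.fst_sub, Prod.snd_sub] at hc h ⊢
  generalize P (UR P l)[i] = q0 at *
  generalize P (UR P l)[i + 1] = q1 at *
  generalize P (UR P l)[j] = q2 at *
  generalize P (UR P l)[j + 1] = q3 at *
  have hu : 0 < q1.1 - q0.1 := by linarith
  have hw : 0 < q3.1 - q2.1 := by linarith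
  by_contra hcon
  have hcon' : 0 ≤ a * (q3.1 - q2.1) + b * (q3.2 - q2.2) := by linarith [not_lt.1 hcon]
  have h' : a * (q1.1 - q0.1) + b * (q1.2 - q0.2) ≤ 0 := by linarith
  have e : (q1.1 - q0.1) * (a * (q3.1 - q2.1) + b * (q3.2 - q2.2)) =
      (q3.1 - q2.1) * (a * (q1.1 - q0.1) + b * (q1.2 - q0.2)) +
      b * ((q1.1 - q0.1) * (q3.2 - q2.2) - (q1.2 - q0.2) * (q3.1 - q2.1)) := by ring
  have e1 := mul_nonneg hu.le hcon'
  have e2 := mul_nonpos_of_nonneg_of_nonpos hw.le h'
  have e3 := mul_neg_of_pos_of_neg hb hc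
  linarith

theorem mem_segment_of_cross {p q z : ℝ × ℝ} (hpq : p.1 < q.1) (h : cross (q - p) (z - p) = 0) (h1 : p.1 ≤ z.1)
    (h2 : z.1 ≤ q.1) : z ∈ segment ℝ p q := by
  have hd : 0 < q.1 - p.1 := by linarith
  simp only [cross, Prod.fst_sub, Prod.snd_sub] at h
  refine ⟨1 - (z.1 - p.1) / (q.1 - p.1), (z.1 - p.1) / (q.1 - p.1), ?_, ?_, by ring, ?_⟩
  · rw [sub_nonneg, div_le_one hd]; linarith
  · exact div_nonneg (by linarith) hd.le
  · apply Prod.ext
    · simp only [Prod.fst_add, Prod.smul_fst, smul_eq_mul]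
      field_simp
      ring
    · simp only [Prod.snd_add, Prod.smul_snd, smul_eq_mul]
      field_simp
      linarith

private theorem head_le (hs : SrtR P l) {u z : ι} (hu : l.head? = some u) (hz : z ∈ l) : (P u).1 ≤ (P z).1 := by
  obtain ⟨m, hm, rfl⟩ := List.getElem_of_mem hz
  have h0 : 0 < l.length := by omega
  rw [List.head?_eq_getElem?, List.getElem?_eq_getElem h0] at hu
  have hu' : l[0] = u := Option.some.inj hu
  rw [← hu']
  rcases Nat.eq_zero_or_pos m with h | h
  · subst h; exact le_rfl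
  · exact (srt_lt hs h hm).le

private theorem le_last (hs : SrtR P l) {u z : ι} (hu : l.getLast? = some u) (hz : z ∈ l) : (P z).1 ≤ (P u).1 := by
  obtain ⟨m, hm, rfl⟩ := List.getElem_of_mem hz
  have h0 : l.length - 1 < l.length := by omega
  rw [List.getLast?_eq_getElem?, List.getElem?_eq_getElem h0] at hu
  have hu' : l[l.length - 1] = u := Option.some.inj hu
  rw [← hu']
  rcases Nat.lt_or_ge m (l.length - 1) with h | h
  · exact (srt_lt hs h h0).le
  · have : m = l.length - 1 := by omega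
    subst this; exact le_rfl

theorem peak_max (hs : SrtR P l) (A : List ι) (hA : A = UR P l) {a b : ℝ} (hb : 0 < b) {k : ℕ} (hk : Peak P a b A k)
    (hk' : k < A.length) {z : ι} (hz : z ∈ l) :
    lf a b (P z) ≤ lf a b (P A[k]) ∧ (lf a b (P z) = lf a b (P A[k]) →
      z = A[k] ∨ ∃ h : k + 1 < A.length, P z ∈ segment ℝ (P A[k]) (P A[k + 1])) := by
  subst hA
  have hs' := UR_srt hs
  have hmem : (UR P l)[k] ∈ l := UR_sublist.subset (List.getElem_mem hk')
  rcases lt_or_ge (P z).1 (P (UR P l)[k]).1 with hx | hx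
  · -- to the left of the peak
    rcases Nat.eq_zero_or_pos k with h0 | h0
    · subst h0
      exfalso
      have hh : l.head? = some (UR P l)[0] := by
        rw [← UR_head hs, List.head?_eq_getElem?, List.getElem?_eq_getElem hk']
      have := head_le hs hh hz
      linarith
    · obtain ⟨k', rfl⟩ : ∃ k', k = k' + 1 := ⟨k - 1, by omega⟩
      have h1 := hk.2.1 k' hk' (Nat.lt_succ_self k')
      have h2 := (UR_edge hs hk' hz).1
      have x1 := srt_lt hs' (Nat.lt_succ_self k') hk'
      have hlt : lf a b (P z) < lf a b (P (UR P l)[k' + 1]) := by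
        simp only [cross, lf, Prod.fst_sub, Prod.snd_sub] at h1 h2 hx x1 ⊢
        generalize P (UR P l)[k'] = q0 at *
        generalize P (UR P l)[k' + 1] = q1 at *
        generalize P z = w at *
        have hX : 0 < q1.1 - q0.1 := by linarith
        have hd : w.1 - q1.1 < 0 := by linarith
        have hl : 0 < a * (q1.1 - q0.1) + b * (q1.2 - q0.2) := by linarith
        by_contra hcon
        have hcon' : 0 ≤ a * (w.1 - q1.1) + b * (w.2 - q1.2) := by linarith [not_lt.1 hcon]
        have e : (q1.1 - q0.1) * (a * (w.1 - q1.1) + b * (w.2 - q1.2)) =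
            (w.1 - q1.1) * (a * (q1.1 - q0.1) + b * (q1.2 - q0.2)) +
            b * ((q1.1 - q0.1) * (w.2 - q0.2) - (q1.2 - q0.2) * (w.1 - q0.1)) := by ring
        have e1 := mul_nonneg hX.le hcon'
        have e2 := mul_neg_of_neg_of_pos hd hl
        have e3 := mul_nonpos_of_nonneg_of_nonpos hb.le h2
        linarith
      exact ⟨hlt.le, fun he => absurd he hlt.ne⟩
  · by_cases h : k + 1 < (UR P l).length
    · have h1 := hk.2.2 k h le_rfl
      have h2 := UR_edge hs h hz
      have x1 := srt_lt hs' (Nat.lt_succ_self k) h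
      have key : (P (UR P l)[k + 1]).1 - (P (UR P l)[k]).1 > 0 := by linarith
      have e : ((P (UR P l)[k + 1]).1 - (P (UR P l)[k]).1) * (lf a b (P z) - lf a b (P (UR P l)[k])) =
          ((P z).1 - (P (UR P l)[k]).1) * (lf a b (P (UR P l)[k + 1]) - lf a b (P (UR P l)[k])) +
          b * cross (P (UR P l)[k + 1] - P (UR P l)[k]) (P z - P (UR P l)[k]) := by
        simp only [cross, lf, Prod.fst_sub, Prod.snd_sub]
        ring
      have e2 := mul_nonpos_of_nonneg_of_nonpos (sub_nonneg.2 hx) (sub_nonpos.2 h1)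
      have e3 := mul_nonpos_of_nonneg_of_nonpos hb.le h2.1
      have hle : lf a b (P z) ≤ lf a b (P (UR P l)[k]) := by
        by_contra hcon
        have := mul_pos key (sub_pos.2 (not_le.1 hcon))
        linarith
      refine ⟨hle, fun heq => Or.inr ⟨h, ?_⟩⟩
      rw [heq, sub_self, mul_zero] at e
      have hbc : b * cross (P (UR P l)[k + 1] - P (UR P l)[k]) (P z - P (UR P l)[k]) = 0 := by linarith
      have hc0 := (mul_eq_zero.1 hbc).resolve_left hb.ne'
      have hb' := h2.2 hc0
      exact mem_segment_of_cross x1 hc0 hb'.1 hb'.2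
    · have hlast : l.getLast? = some (UR P l)[k] := by
        rw [← UR_getLast hs, List.getLast?_eq_getElem?]
        have hk1 : (UR P l).length - 1 = k := by omega
        rw [hk1, List.getElem?_eq_getElem hk']
      have h1 := le_last hs hlast hz
      have h2 : z = (UR P l)[k] := srt_inj hs hz hmem (le_antisymm h1 hx)
      rw [← h2]
      exact ⟨le_rfl, fun _ => Or.inl rfl⟩

end Pool.Agent.Helper55.DH
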