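import Pool.Agent.Helper55.DH.GEdge

/-!
# DH: definitions for the line-stabbing query
-/

open Classical

namespace Pool.Agent.Helper55.DH

/-- Questions of a query: sign of `a`, sign of `b`, side of a point, sign of the difference of two points in the direction `(a, b)`. -/
abbrev QT (ι : Type) : Type := Fin 4 × ι × ι

/-- The true answers. -/
noncomputable def qs {ι : Type} (p : ι → ℝ × ℝ) (a b c : ℝ) : QT ι → SignType := fun q =>
  match q.1 with
  | 0 => SignType.sign a
  | 1 => SignType.sign b
  | 2 => SignType.sign (a * (p q.2.1).1 + b * (p q.2.1).2 - c)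
  | 3 => SignType.sign (a * ((p q.2.2).1 - (p q.2.1).1) + b * ((p q.2.2).2 - (p q.2.1).2))

/-- The linear form. -/
def lf (a b : ℝ) (z : ℝ × ℝ) : ℝ := a * z.1 + b * z.2

/-- An edge of the chain `L` at its member number `k`. -/
def edgeAt {ι : Type} (L : List ι) (k : ℕ) : List (ι × ι) :=
  if h : k + 1 < L.length then [(L[k], L[k + 1])]
  else if h' : 0 < k ∧ k < L.length then [(L[k - 1], L[k])] else if h'' : k < L.length then [(L[k], L[k])] else []

/-- `k` is the place where the values of the linear form stop to increase along the chain `L`. -/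
def Peak {ι : Type} (P : ι → ℝ × ℝ) (a b : ℝ) (L : List ι) (k : ℕ) : Prop :=
  k < L.length ∧ (∀ i, ∀ h : i + 1 < L.length, i < k → lf a b (P L[i]) < lf a b (P L[i + 1])) ∧
    ∀ i, ∀ h : i + 1 < L.length, k ≤ i → lf a b (P L[i + 1]) ≤ lf a b (P L[i])

/-- The two paths on the boundary between the maximum and the minimum of the form. -/
def rightPath {ι : Type} (up lo : List ι) (k1 k2 : ℕ) : List ι := up.drop k1 ++ (lo.take (k2 + 1)).tail

def leftPath {ι : Type} (up lo : List ι) (k1 k2 : ℕ) : List ι := lo.drop k2 ++ (up.take (k1 + 1)).tail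

/-- `u`, `v` are consecutive members of the list. -/
def Consec {ι : Type} (L : List ι) (u v : ι) : Prop := ∃ k, ∃ h : k + 1 < L.length, u = L[k] ∧ v = L[k + 1]

def pairAt {ι : Type} (L : List ι) (r : ℕ) : List (ι × ι) := if h : 0 < r ∧ r < L.length then [(L[r - 1], L[r])] else []

/-- The answer to a query: `k1`, `k2` = places of the maximum and of the minimum of the form, `sM`, `sm` = signs of the values there, `r`, `s` = places where the sign changes
on the two paths. -/
def ansList {ι : Type} (up lo : List ι) (k1 k2 : ℕ) (sM sm : SignType) (r s : ℕ) : List (ι × ι) :=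
  if sM = -1 ∨ sm = 1 then [] else if sM = 0 then edgeAt up k1 else if sm = 0 then edgeAt lo k2
  else pairAt (rightPath up lo k1 k2) r ++ pairAt (leftPath up lo k1 k2) s

end Pool.Agent.Helper55.DH
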