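import Pool.Agent.Helper55.DH.QChain

/-!
# DH-Q3: the members of the chains are edges

`isEdge_of_support`: `u = -(q - p).2`, `v = (q - p).1`, so `u z.1 + v z.2 - (u p.1 + v p.2) = cross (q - p) (z - p)`. The set `C = {z | cross (q - p) (z - p) < 0} ∪ segment p q` is convex (a
proper convex combination of two points of `C` of which one is in the open half plane is in the open half plane; the segment is convex and has `cross = 0`) and contains `S`, so
`convexHull S ⊆ C`. Hence for `z ∈ convexHull S`: `cross ≤ 0`, with equality iff `z ∈ segment p q`; and `segment p q ⊆ convexHull S`. So the set of maximisers is the segment.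
`up_isEdge`: `UR_edge` and `mem_segment_of_cross`. `lo_isEdge`: `lo_edge` and `mem_segment_of_cross` with `p`, `q` exchanged (`segment_symm`; `cross (q - p) (z - p) = 0` implies `cross (p - q) (z - q) = 0`).
`single_isEdge`: `S = {p}`: `u = 0`, `v = 1`, `convexHull_singleton`, `segment_same`.
`edgeAt_isEdge`: cases of the definition of `edgeAt` (`L.length = 1` means `l` has one element, because the first and the last element of `l` are in `UR`).
-/

namespace Pool.Agent.Helper55.DH

variable {ι : Type} {P : ι → ℝ × ℝ} {l : List ι}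

private lemma cross_seg {p q z : ℝ × ℝ} (h : z ∈ segment ℝ p q) : cross (q - p) (z - p) = 0 := by
  obtain ⟨a, b, _, _, hab, rfl⟩ := h
  simp only [cross, Prod.fst_sub, Prod.snd_sub, Prod.fst_add, Prod.snd_add, Prod.smul_fst,
    Prod.smul_snd, smul_eq_mul]
  have h1 : a = 1 - b := by linarith
  subst h1
  ring

private lemma cross_comb {p q x y : ℝ × ℝ} {a b : ℝ} (hab : a + b = 1) :
    cross (q - p) (a • x + b • y - p) = a * cross (q - p) (x - p) + b * cross (q - p) (y - p) := by
  simp only [cross, Prod.fst_sub, Prod.snd_sub, Prod.fst_add, Prod.snd_add, Prod.smul_fst,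
    Prod.smul_snd, smul_eq_mul]
  have h1 : a = 1 - b := by linarith
  subst h1
  ring

private lemma cross_val (p q z : ℝ × ℝ) :
    cross (q - p) (z - p) = (-(q - p).2 * z.1 + (q - p).1 * z.2) - (-(q - p).2 * p.1 + (q - p).1 * p.2) := by
  simp only [cross, Prod.fst_sub, Prod.snd_sub]
  ring

theorem isEdge_of_support {S : Set (ℝ × ℝ)} {p q : ℝ × ℝ} (hp : p ∈ S) (hq : q ∈ S) (hne : p ≠ q)
    (h : ∀ z ∈ S, cross (q - p) (z - p) ≤ 0 ∧ (cross (q - p) (z - p) = 0 → z ∈ segment ℝ p q)) : IsEdge S p q := by
  have hsub : convexHull ℝ S ⊆ {z | cross (q - p) (z - p) < 0} ∪ segment ℝ p q := by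
    refine convexHull_min ?_ ?_
    · intro z hz
      rcases (h z hz).1.lt_or_eq with h1 | h1
      · exact Or.inl h1
      · exact Or.inr ((h z hz).2 h1)
    · rw [convex_iff_forall_pos]
      intro x hx y hy a b ha hb hab
      have key := cross_comb (p := p) (q := q) (x := x) (y := y) hab
      rcases hx with hx | hx <;> rcases hy with hy | hy
      · left
        have hx' : cross (q - p) (x - p) < 0 := hx
        have hy' : cross (q - p) (y - p) < 0 := hy
        show cross (q - p) (a • x + b • y - p) < 0
        rw [key]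
        have h1 := mul_neg_of_pos_of_neg ha hx'
        have h2 := mul_neg_of_pos_of_neg hb hy'
        linarith
      · left
        have hx' : cross (q - p) (x - p) < 0 := hx
        show cross (q - p) (a • x + b • y - p) < 0
        rw [key, cross_seg hy, mul_zero, add_zero]
        exact mul_neg_of_pos_of_neg ha hx'
      · left
        have hy' : cross (q - p) (y - p) < 0 := hy
        show cross (q - p) (a • x + b • y - p) < 0
        rw [key, cross_seg hx, mul_zero, zero_add]
        exact mul_neg_of_pos_of_neg hb hy'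
      · right
        exact convex_segment p q hx hy ha.le hb.le hab
  have hle : ∀ z ∈ convexHull ℝ S, cross (q - p) (z - p) ≤ 0 := by
    intro z hz
    rcases hsub hz with h1 | h1
    · exact le_of_lt h1
    · exact (cross_seg h1).le
  refine ⟨hp, hq, fun e => absurd e hne, -(q - p).2, (q - p).1, ?_, ?_⟩
  · intro e
    apply hne
    have e1 : -(q - p).2 = 0 := congrArg Prod.fst e
    have e2 : (q - p).1 = 0 := congrArg Prod.snd e
    simp only [Prod.fst_sub, Prod.snd_sub] at e1 e2
    ext
    · linarith
    · linarith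
  · ext z
    constructor
    · intro hz
      refine ⟨(convex_convexHull ℝ S).segment_subset (subset_convexHull ℝ S hp)
        (subset_convexHull ℝ S hq) hz, fun w hw => ?_⟩
      have h1 := cross_seg hz
      have h2 := hle w hw
      rw [cross_val] at h1 h2
      linarith
    · rintro ⟨hz, hmax⟩
      have h1 := hmax p (subset_convexHull ℝ S hp)
      have h2 := cross_val p q z
      rcases hsub hz with h3 | h3
      · exfalso
        have h3' : cross (q - p) (z - p) < 0 := h3
        linarith
      · exact h3

theorem up_isEdge (hs : SrtR P l) (up : List ι) (hup : up = UR P l) {k : ℕ} (hk : k + 1 < up.length) :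
    IsEdge (P '' {i | i ∈ l}) (P up[k]) (P up[k + 1]) := by
  subst hup
  have hlt := srt_lt (UR_srt hs) (Nat.lt_succ_self k) hk
  refine isEdge_of_support ?_ ?_ ?_ ?_
  · exact ⟨_, UR_sublist.subset (List.getElem_mem _), rfl⟩
  · exact ⟨_, UR_sublist.subset (List.getElem_mem _), rfl⟩
  · intro e
    rw [e] at hlt
    exact lt_irrefl _ hlt
  · rintro _ ⟨i, hi, rfl⟩
    obtain ⟨h1, h2⟩ := UR_edge hs hk (z := i) hi
    refine ⟨h1, fun h0 => ?_⟩
    obtain ⟨h3, h4⟩ := h2 h0
    exact mem_segment_of_cross hlt h0 h3 h4

theorem lo_isEdge (hs : SrtR P l) (lo : List ι) (hlo : lo = UR (fun i => - P i) l.reverse) {k : ℕ}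
    (hk : k + 1 < lo.length) : IsEdge (P '' {i | i ∈ l}) (P lo[k]) (P lo[k + 1]) := by
  have hmem : ∀ j, (hj : j < lo.length) → lo[j] ∈ l := by
    intro j hj
    subst hlo
    have := UR_sublist.subset (List.getElem_mem hj)
    rwa [List.mem_reverse] at this
  have hlt : (P lo[k + 1]).1 < (P lo[k]).1 := by
    have hsl : SrtR (fun i => - P i) lo := by
      rw [hlo]
      exact UR_srt (srt_neg hs)
    have h1 := srt_lt hsl (Nat.lt_succ_self k) hk
    simp only [Prod.fst_neg] at h1
    linarith
  refine isEdge_of_support ?_ ?_ ?_ ?_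
  · exact ⟨_, hmem _ _, rfl⟩
  · exact ⟨_, hmem _ _, rfl⟩
  · intro e
    rw [e] at hlt
    exact lt_irrefl _ hlt
  · rintro _ ⟨i, hi, rfl⟩
    obtain ⟨h1, h2⟩ := lo_edge hs lo hlo hk (z := i) hi
    refine ⟨h1, fun h0 => ?_⟩
    obtain ⟨h3, h4⟩ := h2 h0
    rw [segment_symm]
    refine mem_segment_of_cross hlt ?_ h3 h4
    simp only [cross, Prod.fst_sub, Prod.snd_sub] at h0 ⊢
    linarith

theorem single_isEdge (_hs : SrtR P l) {i : ι} (h : l = [i]) : IsEdge (P '' {i | i ∈ l}) (P i) (P i) := by
  have hS : P '' {j | j ∈ l} = {P i} := by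
    subst h
    ext z
    simp [eq_comm]
  rw [hS]
  refine ⟨rfl, rfl, fun _ => rfl, 0, 1, ?_, ?_⟩
  · intro e
    have := congrArg Prod.snd e
    simp at this
  · rw [segment_same, convexHull_singleton]
    ext z
    constructor
    · intro hz
      refine ⟨hz, fun w hw => ?_⟩
      rw [Set.mem_singleton_iff] at hz hw
      rw [hz, hw]
    · rintro ⟨hz, -⟩
      exact hz

private lemma srt_single (hs : SrtR P l) {i : ι} (h1 : l.head? = some i) (h2 : l.getLast? = some i) :
    l = [i] := by
  cases l with
  | nil => simp at h1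
  | cons a t =>
    have ha : a = i := by simpa using h1
    cases t with
    | nil => rw [ha]
    | cons b t' =>
      exfalso
      have hmem : i ∈ b :: t' := by
        rw [List.getLast?_cons_cons] at h2
        exact List.mem_of_getLast? h2
      have h3 := (List.pairwise_cons.1 hs).1 i hmem
      rw [ha] at h3
      exact lt_irrefl _ h3

private lemma UR_single (hs : SrtR P l) {i : ι} (h : UR P l = [i]) : l = [i] := by
  apply srt_single hs
  · rw [← UR_head hs, h]
    rfl
  · rw [← UR_getLast hs, h]
    rfl

theorem edgeAt_isEdge (hs : SrtR P l) (L : List ι) (hL : L = UR P l ∨ L = UR (fun i => - P i) l.reverse) (k : ℕ)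
    (hk : k < L.length) : ∀ e ∈ edgeAt L k, IsEdge (P '' {i | i ∈ l}) (P e.1) (P e.2) := by
  have hE : ∀ k, (h : k + 1 < L.length) → IsEdge (P '' {i | i ∈ l}) (P L[k]) (P L[k + 1]) := by
    intro k h
    rcases hL with hL | hL
    · exact up_isEdge hs L hL h
    · exact lo_isEdge hs L hL h
  intro e he
  unfold edgeAt at he
  split_ifs at he with h h'
  · rw [List.mem_singleton] at he
    rw [he]
    exact hE k h
  · rw [List.mem_singleton] at he
    rw [he]
    obtain ⟨k', rfl⟩ : ∃ k', k = k' + 1 := ⟨k - 1, by omega⟩
    exact hE k' hk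
  · rw [List.mem_singleton] at he
    rw [he]
    have h0 : k = 0 := by omega
    subst h0
    have h1 : L.length = 1 := by omega
    obtain ⟨i, hi⟩ := List.length_eq_one_iff.1 h1
    have hl : l = [i] := by
      rcases hL with hL | hL
      · exact UR_single hs (hL.symm.trans hi)
      · have h2 := UR_single (srt_neg hs) (hL.symm.trans hi)
        rw [List.reverse_eq_iff] at h2
        simpa using h2
    subst hi
    exact single_isEdge hs hl

end Pool.Agent.Helper55.DH
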