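import Pool.Agent.Helper55.DH.QEdge

/-!
# DH-Q4: the boundary of the hull consists of the edges

Let `S = P '' l`, `2 ≤ l.length`, so `up` and `lo` have at least two members. Let `O` = the set of `z` with `cross (v - u) (z - u) < 0` for all consecutive pairs `(u, v)` of `up` and of
`lo`; it is open (finite intersection). Claim: `O ⊆ convexHull S`. Then `O ⊆ interior (convexHull S)`, so `z ∈ frontier (convexHull S)` (note `convexHull S` is closed, being compact:
`Set.Finite.isCompact_convexHull`, so `z ∈ convexHull S`) is not in `O`: for some pair `cross (v - u) (z - u) ≥ 0`; by `up_isEdge`/`lo_isEdge` (or directly: `cross ≤ 0` on `convexHull S`, with equality only on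
the segment; this is what the proof of `isEdge_of_support` shows - state it as a lemma `support_convexHull` if convenient) `z` is in the segment `u v`.
Proof of the claim: `z ∈ O`. (a) `x_0 < z.x` (`x_0` = first coordinate of the first point `f` of `l`, `f = up[0] = ` last member of `lo`): let `e = up[1] - f`, `g = f - lo[last-1]`, so `e.1 > 0`, `g.1 < 0`,
`cross e (z - f) < 0` and `cross g (z - lo[last-1]) < 0`, i.e. `cross g (z - f) < 0`. Moreover `cross e (lo[last-1] - f) ≤ 0`, i.e. `cross e g ≥ 0` (`UR_edge`). If `z.x ≤ f.x`: from `e.1 * cross g d = g.1 * cross e d + d.1 * cross g e`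
with `d = z - f`, `d.1 ≤ 0`, `g.1 < 0`: the right side: `g.1 * cross e d > 0`, `d.1 * cross g e ≥ 0` (`cross g e ≤ 0`), so `cross g d > 0`: contradiction.
(b) similarly `z.x < x_last`. (c) there are `k` with `up[k].x ≤ z.x ≤ up[k+1].x` and `k'` with `lo[k'+1].x ≤ z.x ≤ lo[k'].x`. Let `z1` = the point of the segment `up[k] up[k+1]` over `z.x`, `z2` = the point of the
segment `lo[k'] lo[k'+1]` over `z.x`. `cross < 0` gives `z.y < z1.y` and `z2.y < z.y`. So `z` is in the segment `z1 z2 ⊆ convexHull S`.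
-/

namespace Pool.Agent.Helper55.DH

variable {ι : Type} {P : ι → ℝ × ℝ} {l : List ι}

private lemma fr_cross_seg {p q z : ℝ × ℝ} (h : z ∈ segment ℝ p q) : cross (q - p) (z - p) = 0 := by
  obtain ⟨a, b, _, _, hab, rfl⟩ := h
  simp only [cross, Prod.fst_sub, Prod.snd_sub, Prod.fst_add, Prod.snd_add, Prod.smul_fst,
    Prod.smul_snd, smul_eq_mul]
  have h1 : a = 1 - b := by linarith
  subst h1
  ring

private lemma fr_cross_comb {p q x y : ℝ × ℝ} {a b : ℝ} (hab : a + b = 1) :
    cross (q - p) (a • x + b • y - p) = a * cross (q - p) (x - p) + b * cross (q - p) (y - p) := by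
  simp only [cross, Prod.fst_sub, Prod.snd_sub, Prod.fst_add, Prod.snd_add, Prod.smul_fst,
    Prod.smul_snd, smul_eq_mul]
  have h1 : a = 1 - b := by linarith
  subst h1
  ring

/-- Points of the hull are below a supporting line or in the segment. -/
private lemma fr_supp {S : Set (ℝ × ℝ)} {p q : ℝ × ℝ}
    (h : ∀ z ∈ S, cross (q - p) (z - p) ≤ 0 ∧ (cross (q - p) (z - p) = 0 → z ∈ segment ℝ p q))
    {z : ℝ × ℝ} (hz : z ∈ convexHull ℝ S) : cross (q - p) (z - p) < 0 ∨ z ∈ segment ℝ p q := by
  have hsub : convexHull ℝ S ⊆ {z | cross (q - p) (z - p) < 0} ∪ segment ℝ p q := by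
    refine convexHull_min ?_ ?_
    · intro z hz
      rcases (h z hz).1.lt_or_eq with h1 | h1
      · exact Or.inl h1
      · exact Or.inr ((h z hz).2 h1)
    · rw [convex_iff_forall_pos]
      intro x hx y hy a b ha hb hab
      have key := fr_cross_comb (p := p) (q := q) (x := x) (y := y) hab
      rcases hx with hx | hx <;> rcases hy with hy | hy
      · left
        have hx' : cross (q - p) (x - p) < 0 := hx
        have hy' : cross (q - p) (y - p) < 0 := hy
        show cross (q - p) (a • x + b • y - p) < 0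
        rw [key]
        have h1 := mul_neg_of_pos_of_neg ha hx'
        have h2 := mul_neg_of_pos_of_neg hb hy'
        linarith
      · left
        have hx' : cross (q - p) (x - p) < 0 := hx
        show cross (q - p) (a • x + b • y - p) < 0
        rw [key, fr_cross_seg hy, mul_zero, add_zero]
        exact mul_neg_of_pos_of_neg ha hx'
      · left
        have hy' : cross (q - p) (y - p) < 0 := hy
        show cross (q - p) (a • x + b • y - p) < 0
        rw [key, fr_cross_seg hx, mul_zero, zero_add]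
        exact mul_neg_of_pos_of_neg hb hy'
      · right
        exact convex_segment p q hx hy ha.le hb.le hab
  exact hsub hz

/-- The points strictly below all lines of a chain. -/
private def OO (P : ι → ℝ × ℝ) (L : List ι) : Set (ℝ × ℝ) :=
  {w | ∀ k, ∀ h : k + 1 < L.length, cross (P L[k + 1] - P L[k]) (w - P L[k]) < 0}

private lemma isOpen_OO (P : ι → ℝ × ℝ) (L : List ι) : IsOpen (OO P L) := by
  have h : OO P L = ⋂ k : Fin L.length, ⋂ h : k.1 + 1 < L.length,
      {w : ℝ × ℝ | cross (P L[k.1 + 1] - P L[k.1]) (w - P L[k.1]) < 0} := by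
    ext w
    simp only [OO, Set.mem_ofPred_eq, Set.mem_iInter]
    exact ⟨fun h k hk => h k hk, fun h k hk => h ⟨k, by omega⟩ hk⟩
  rw [h]
  refine isOpen_iInter_of_finite fun k => isOpen_iInter_of_finite fun h => ?_
  refine isOpen_lt ?_ continuous_const
  unfold cross
  fun_prop

private lemma OO_neg {L : List ι} {z : ℝ × ℝ} (h : z ∈ OO P L) : -z ∈ OO (fun i => - P i) L := by
  intro k hk
  have h1 := h k hk
  simp only [cross, Prod.fst_sub, Prod.snd_sub, Prod.fst_neg, Prod.snd_neg] at h1 ⊢
  linarith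

private lemma fr_srt_single (hs : SrtR P l) {i : ι} (h1 : l.head? = some i) (h2 : l.getLast? = some i) :
    l = [i] := by
  cases l with
  | nil => simp at h1
  | cons a t =>
    have ha : a = i := by simpa using h1
    cases t with
    | nil => rw [ha]
    | cons b t' =>
      exfalso
      have hmem : i ∈ b :: t' := by
        rw [List.getLast?_cons_cons] at h2
        exact List.mem_of_getLast? h2
      have h3 := (List.pairwise_cons.1 hs).1 i hmem
      rw [ha] at h3
      exact lt_irrefl _ h3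

private lemma two_le_UR (hs : SrtR P l) (hl : 2 ≤ l.length) : 2 ≤ (UR P l).length := by
  by_contra hc
  have h1 : (UR P l).length = 0 ∨ (UR P l).length = 1 := by omega
  rcases h1 with h1 | h1
  · have h2 := List.length_eq_zero_iff.1 h1
    have h3 : l ≠ [] := by
      rintro rfl
      simp at hl
    exact UR_ne_nil hs h3 h2
  · obtain ⟨i, hi⟩ := List.length_eq_one_iff.1 h1
    have h2 : l = [i] := by
      apply fr_srt_single hs
      · rw [← UR_head hs, hi]
        rfl
      · rw [← UR_getLast hs, hi]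
        rfl
    rw [h2] at hl
    simp at hl

private lemma left_bound (hs : SrtR P l) (hl : 2 ≤ l.length) {f : ι} (hf : l.head? = some f) {z : ℝ × ℝ}
    (h1 : z ∈ OO P (UR P l)) (h2 : z ∈ OO P (UR (fun i => - P i) l.reverse)) : (P f).1 < z.1 := by
  have hu := two_le_UR hs hl
  have hl2 := two_le_UR (srt_neg hs) (by simpa using hl)
  obtain ⟨m, hm⟩ : ∃ m, (UR (fun i => - P i) l.reverse).length = m + 2 := ⟨_, (Nat.sub_add_cancel hl2).symm⟩
  have e0 : (UR P l)[0] = f := by
    have h3 := UR_head hs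
    rw [hf, List.head?_eq_getElem?, List.getElem?_eq_getElem (by omega)] at h3
    exact Option.some.inj h3
  have e1 : (UR (fun i => - P i) l.reverse)[m + 1] = f := by
    have h3 := UR_getLast (srt_neg hs)
    rw [List.getLast?_reverse, hf, List.getLast?_eq_getElem?, List.getElem?_eq_getElem (by omega)] at h3
    have h4 := Option.some.inj h3
    simpa [hm] using h4
  have hwl : (UR (fun i => - P i) l.reverse)[m] ∈ l := by
    have h3 := (UR_sublist (P := fun i => - P i) (l := l.reverse)).subset
      (List.getElem_mem (by omega : m < (UR (fun i => - P i) l.reverse).length))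
    rwa [List.mem_reverse] at h3
  have c1 := h1 0 (by omega)
  have c2 := h2 m (by omega)
  have c3 := (UR_edge hs (k := 0) (by omega) hwl).1
  have x1 := srt_lt (UR_srt hs) (Nat.lt_succ_self 0) (by omega : 0 + 1 < (UR P l).length)
  have x2 := srt_lt (UR_srt (srt_neg hs)) (Nat.lt_succ_self m) (by omega : m + 1 < _)
  simp only [Prod.fst_neg] at x2
  simp only [zero_add] at c1 c3 x1
  rw [e0] at c1 c3 x1
  rw [e1] at c2 x2
  generalize (UR (fun i => - P i) l.reverse)[m] = w at *
  generalize (UR P l)[1] = u at *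
  simp only [cross, Prod.fst_sub, Prod.snd_sub] at c1 c2 c3
  generalize P f = pf at *
  generalize P w = pw at *
  generalize P u = pu at *
  by_contra hc
  rw [not_lt] at hc
  have ee : 0 < pu.1 - pf.1 := by linarith
  have eg : pf.1 - pw.1 < 0 := by linarith
  have ed : z.1 - pf.1 ≤ 0 := by linarith
  have c2' : (pf.1 - pw.1) * (z.2 - pf.2) - (pf.2 - pw.2) * (z.1 - pf.1) < 0 := by linarith
  have c3' : (pf.1 - pw.1) * (pu.2 - pf.2) - (pf.2 - pw.2) * (pu.1 - pf.1) ≤ 0 := by linarith
  have k1 := mul_neg_of_pos_of_neg ee c2'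
  have k2 := mul_pos_of_neg_of_neg eg c1
  have k3 := mul_nonneg_of_nonpos_of_nonpos ed c3'
  have key : (pu.1 - pf.1) * ((pf.1 - pw.1) * (z.2 - pf.2) - (pf.2 - pw.2) * (z.1 - pf.1)) =
      (pf.1 - pw.1) * ((pu.1 - pf.1) * (z.2 - pf.2) - (pu.2 - pf.2) * (z.1 - pf.1)) +
      (z.1 - pf.1) * ((pf.1 - pw.1) * (pu.2 - pf.2) - (pf.2 - pw.2) * (pu.1 - pf.1)) := by ring
  linarith

private lemma find_edge (A : List ι) (g : ι → ℝ) {t : ℝ} : ∀ n, ∀ hn : n < A.length, g (A[0]'(by omega)) < t → t ≤ g A[n] →
    ∃ k, ∃ h : k + 1 < A.length, g A[k] ≤ t ∧ t ≤ g A[k + 1] := by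
  intro n
  induction n with
  | zero =>
    intro hn h1 h2
    exact absurd h1 (not_lt.2 h2)
  | succ n ih =>
    intro hn h1 h2
    rcases le_or_gt t (g A[n]) with h | h
    · exact ih (by omega) h1 h
    · exact ⟨n, hn, h.le, h2⟩

private lemma above {p q z : ℝ × ℝ} (hpq : p.1 < q.1) (h1 : p.1 ≤ z.1) (h2 : z.1 ≤ q.1) (h : cross (q - p) (z - p) < 0) :
    ∃ y, z.2 < y ∧ (z.1, y) ∈ segment ℝ p q := by
  have hd : 0 < q.1 - p.1 := by linarith
  simp only [cross, Prod.fst_sub, Prod.snd_sub] at h
  refine ⟨p.2 + (q.2 - p.2) * (z.1 - p.1) / (q.1 - p.1), ?_, ?_⟩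
  · have h3 : z.2 - p.2 < (q.2 - p.2) * (z.1 - p.1) / (q.1 - p.1) := by
      rw [lt_div_iff₀ hd]
      linarith
    linarith
  · refine mem_segment_of_cross hpq ?_ h1 h2
    simp only [cross, Prod.fst_sub, Prod.snd_sub]
    field_simp
    ring

private lemma below {p q z : ℝ × ℝ} (hpq : q.1 < p.1) (h1 : q.1 ≤ z.1) (h2 : z.1 ≤ p.1) (h : cross (q - p) (z - p) < 0) :
    ∃ y, y < z.2 ∧ (z.1, y) ∈ segment ℝ p q := by
  have hd : 0 < p.1 - q.1 := by linarith
  simp only [cross, Prod.fst_sub, Prod.snd_sub] at h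
  refine ⟨q.2 + (p.2 - q.2) * (z.1 - q.1) / (p.1 - q.1), ?_, ?_⟩
  · have h3 : (p.2 - q.2) * (z.1 - q.1) / (p.1 - q.1) < z.2 - q.2 := by
      rw [div_lt_iff₀ hd]
      linarith
    linarith
  · rw [segment_symm]
    refine mem_segment_of_cross hpq ?_ h1 h2
    simp only [cross, Prod.fst_sub, Prod.snd_sub]
    field_simp
    ring

private lemma OO_subset (hs : SrtR P l) (hl : 2 ≤ l.length) {z : ℝ × ℝ}
    (h1 : z ∈ OO P (UR P l)) (h2 : z ∈ OO P (UR (fun i => - P i) l.reverse)) :
    z ∈ convexHull ℝ (P '' {i | i ∈ l}) := by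
  have hu := two_le_UR hs hl
  have hlr : 2 ≤ l.reverse.length := by simpa using hl
  have hl2 := two_le_UR (srt_neg hs) hlr
  obtain ⟨f, hf⟩ : ∃ f, l.head? = some f := by
    cases l with
    | nil => simp at hl
    | cons a t => exact ⟨a, rfl⟩
  obtain ⟨g, hg⟩ : ∃ g, l.reverse.head? = some g := by
    cases hr : l.reverse with
    | nil =>
      rw [hr] at hlr
      simp at hlr
    | cons a t => exact ⟨a, rfl⟩
  have b1 : (P f).1 < z.1 := left_bound hs hl hf h1 h2
  have b2 : z.1 < (P g).1 := by
    have h3 : -z ∈ OO (fun i => - P i) (UR (fun i => - (fun i => - P i) i) l.reverse.reverse) := by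
      simp only [neg_neg, List.reverse_reverse]
      exact OO_neg h1
    have h4 := left_bound (srt_neg hs) hlr hg (OO_neg h2) h3
    simp only [Prod.fst_neg] at h4
    linarith
  have hg' : l.getLast? = some g := by rw [← hg, List.head?_reverse]
  have e0 : (UR P l)[0] = f := by
    have h3 := UR_head hs
    rw [hf, List.head?_eq_getElem?, List.getElem?_eq_getElem (by omega)] at h3
    exact Option.some.inj h3
  have e1 : (UR P l)[(UR P l).length - 1] = g := by
    have h3 := UR_getLast hs
    rw [hg', List.getLast?_eq_getElem?, List.getElem?_eq_getElem (by omega)] at h3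
    exact Option.some.inj h3
  have d0 : (UR (fun i => - P i) l.reverse)[0] = g := by
    have h3 := UR_head (srt_neg hs)
    rw [hg, List.head?_eq_getElem?, List.getElem?_eq_getElem (by omega)] at h3
    exact Option.some.inj h3
  have d1 : (UR (fun i => - P i) l.reverse)[(UR (fun i => - P i) l.reverse).length - 1] = f := by
    have h3 := UR_getLast (srt_neg hs)
    rw [List.getLast?_reverse, hf, List.getLast?_eq_getElem?, List.getElem?_eq_getElem (by omega)] at h3
    exact Option.some.inj h3
  obtain ⟨k, hk, k1, k2⟩ := find_edge (UR P l) (fun i => (P i).1) (t := z.1) ((UR P l).length - 1) (by omega)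
    (by simp only [e0]; exact b1) (by simp only [e1]; exact b2.le)
  obtain ⟨m, hm, m1, m2⟩ := find_edge (UR (fun i => - P i) l.reverse) (fun i => - (P i).1) (t := - z.1)
    ((UR (fun i => - P i) l.reverse).length - 1) (by omega)
    (by simp only [d0]; linarith) (by simp only [d1]; linarith)
  have x1 := srt_lt (UR_srt hs) (Nat.lt_succ_self k) hk
  have x2 := srt_lt (UR_srt (srt_neg hs)) (Nat.lt_succ_self m) hm
  simp only [Prod.fst_neg] at x2
  obtain ⟨y1, hy1, s1⟩ := above x1 k1 k2 (h1 k hk)
  obtain ⟨y2, hy2, s2⟩ := below (by linarith) (by linarith) (by linarith) (h2 m hm)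
  have memu : ∀ j, (hj : j < (UR P l).length) → P (UR P l)[j] ∈ convexHull ℝ (P '' {i | i ∈ l}) := fun j hj =>
    subset_convexHull ℝ _ ⟨_, UR_sublist.subset (List.getElem_mem hj), rfl⟩
  have meml : ∀ j, (hj : j < (UR (fun i => - P i) l.reverse).length) →
      P (UR (fun i => - P i) l.reverse)[j] ∈ convexHull ℝ (P '' {i | i ∈ l}) := fun j hj =>
    subset_convexHull ℝ _ ⟨_, by
      have h3 := (UR_sublist (P := fun i => - P i) (l := l.reverse)).subset (List.getElem_mem hj)
      rwa [List.mem_reverse] at h3, rfl⟩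
  have t1 := (convex_convexHull ℝ (P '' {i | i ∈ l})).segment_subset (memu k (by omega)) (memu (k + 1) hk) s1
  have t2 := (convex_convexHull ℝ (P '' {i | i ∈ l})).segment_subset (meml m (by omega)) (meml (m + 1) hm) s2
  refine (convex_convexHull ℝ (P '' {i | i ∈ l})).segment_subset t2 t1 ?_
  have hy : 0 < y1 - y2 := by linarith
  refine ⟨(y1 - z.2) / (y1 - y2), (z.2 - y2) / (y1 - y2), ?_, ?_, ?_, ?_⟩
  · exact div_nonneg (by linarith) hy.le
  · exact div_nonneg (by linarith) hy.le
  · field_simp
    ring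
  · apply Prod.ext
    · simp only [Prod.fst_add, Prod.smul_fst, smul_eq_mul]
      field_simp
      ring
    · simp only [Prod.snd_add, Prod.smul_snd, smul_eq_mul]
      field_simp
      ring

theorem frontier_subset (hs : SrtR P l) (hl : 2 ≤ l.length) (up lo : List ι) (hup : up = UR P l)
    (hlo : lo = UR (fun i => - P i) l.reverse) {z : ℝ × ℝ} (hz : z ∈ frontier (convexHull ℝ (P '' {i | i ∈ l}))) :
    (∃ k, ∃ h : k + 1 < up.length, z ∈ segment ℝ (P up[k]) (P up[k + 1])) ∨
      ∃ k, ∃ h : k + 1 < lo.length, z ∈ segment ℝ (P lo[k]) (P lo[k + 1]) := by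
  subst hup hlo
  by_contra hc
  rw [not_or] at hc
  obtain ⟨hc1, hc2⟩ := hc
  have hcl : IsClosed (convexHull ℝ (P '' {i | i ∈ l})) :=
    (Set.Finite.isCompact_convexHull (𝕜 := ℝ) ((List.finite_toSet l).image P)).isClosed
  have hzh : z ∈ convexHull ℝ (P '' {i | i ∈ l}) := by
    have h1 := frontier_subset_closure hz
    rwa [hcl.closure_eq] at h1
  have h1 : z ∈ OO P (UR P l) := by
    intro k hk
    have hlt := srt_lt (UR_srt hs) (Nat.lt_succ_self k) hk
    have hsup : ∀ w ∈ P '' {i | i ∈ l}, cross (P (UR P l)[k + 1] - P (UR P l)[k]) (w - P (UR P l)[k]) ≤ 0 ∧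
        (cross (P (UR P l)[k + 1] - P (UR P l)[k]) (w - P (UR P l)[k]) = 0 →
          w ∈ segment ℝ (P (UR P l)[k]) (P (UR P l)[k + 1])) := by
      rintro _ ⟨i, hi, rfl⟩
      obtain ⟨h1, h2⟩ := UR_edge hs hk (z := i) hi
      refine ⟨h1, fun h0 => ?_⟩
      obtain ⟨h3, h4⟩ := h2 h0
      exact mem_segment_of_cross hlt h0 h3 h4
    rcases fr_supp hsup hzh with h | h
    · exact h
    · exact absurd ⟨k, hk, h⟩ hc1
  have h2 : z ∈ OO P (UR (fun i => - P i) l.reverse) := by
    intro k hk
    have hlt := srt_lt (UR_srt (srt_neg hs)) (Nat.lt_succ_self k) hk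
    simp only [Prod.fst_neg] at hlt
    have hsup : ∀ w ∈ P '' {i | i ∈ l}, cross (P (UR (fun i => - P i) l.reverse)[k + 1] -
          P (UR (fun i => - P i) l.reverse)[k]) (w - P (UR (fun i => - P i) l.reverse)[k]) ≤ 0 ∧
        (cross (P (UR (fun i => - P i) l.reverse)[k + 1] - P (UR (fun i => - P i) l.reverse)[k])
          (w - P (UR (fun i => - P i) l.reverse)[k]) = 0 →
          w ∈ segment ℝ (P (UR (fun i => - P i) l.reverse)[k]) (P (UR (fun i => - P i) l.reverse)[k + 1])) := by
      rintro _ ⟨i, hi, rfl⟩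
      obtain ⟨h1, h2⟩ := lo_edge hs _ rfl hk (z := i) hi
      refine ⟨h1, fun h0 => ?_⟩
      obtain ⟨h3, h4⟩ := h2 h0
      rw [segment_symm]
      refine mem_segment_of_cross (by linarith) ?_ h3 h4
      simp only [cross, Prod.fst_sub, Prod.snd_sub] at h0 ⊢
      linarith
    rcases fr_supp hsup hzh with h | h
    · exact h
    · exact absurd ⟨k, hk, h⟩ hc2
  have hint : z ∈ interior (convexHull ℝ (P '' {i | i ∈ l})) :=
    mem_interior.2 ⟨OO P (UR P l) ∩ OO P (UR (fun i => - P i) l.reverse), fun w hw => OO_subset hs hl hw.1 hw.2,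
      (isOpen_OO _ _).inter (isOpen_OO _ _), h1, h2⟩
  exact hz.2 hint

end Pool.Agent.Helper55.DH
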