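import Pool.Agent.Helper55.DH.Core

/-!
# DH-Q1: binary search

Strong induction on `n`, for intervals: auxiliary statement for `lo + d ≤ n`: a tree which finds the first true position in `[lo, lo + d]`, cost `≤ B * (Nat.log 2 d + 1)` for `d ≥ 1`, 0
for `d = 0`: ask `q (lo + d / 2)`; if `true` continue with `(lo, d / 2)`, otherwise with `(lo + d / 2 + 1, d - d / 2 - 1)`. (`Nat.log 2 (d / 2) + 1 = Nat.log 2 d` for `d ≥ 2`.)
Composition of trees: `DTree.bindK` with `K = ∅` (`eval_bindK`, `cost_bindK`, `all_bindK`).
-/

namespace Pool.Agent.Helper55.DH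

theorem bsearch {τ : Type} (S : Set τ) (B n : ℕ) (q : ℕ → DTree τ Bool)
    (hq : ∀ k < n, (q k).All S ∧ ∀ o, (q k).cost o ≤ B) :
    ∃ p : DTree τ ℕ, p.All S ∧ (∀ o, p.cost o ≤ B * (Nat.log 2 n + 1)) ∧
      ∀ o, (∀ i j, i ≤ j → j < n → (q i).eval o = true → (q j).eval o = true) →
        p.eval o ≤ n ∧ (∀ k < p.eval o, (q k).eval o = false) ∧ ∀ k, p.eval o ≤ k → k < n → (q k).eval o = true := by
  classical
  have hL : ∀ d : ℕ, 1 ≤ d → (if d / 2 = 0 then 0 else Nat.log 2 (d / 2) + 1) + 1 ≤ Nat.log 2 d + 1 := by
    intro d hd
    split_ifs with h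
    · omega
    · have h2 : 2 ≤ d := by omega
      have h3 : Nat.log 2 (d / 2) = Nat.log 2 d - 1 := Nat.log_div_base 2 d
      have h4 : 0 < Nat.log 2 d := Nat.log_pos (by norm_num) h2
      omega
  have key : ∀ d lo : ℕ, lo + d ≤ n → ∃ p : DTree τ ℕ, p.All S ∧
      (∀ o, p.cost o ≤ B * (if d = 0 then 0 else Nat.log 2 d + 1)) ∧
      ∀ o, (∀ i j, i ≤ j → j < n → (q i).eval o = true → (q j).eval o = true) →
        lo ≤ p.eval o ∧ p.eval o ≤ lo + d ∧ (∀ k, lo ≤ k → k < p.eval o → (q k).eval o = false) ∧
          ∀ k, p.eval o ≤ k → k < lo + d → (q k).eval o = true := by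
    intro d
    induction d using Nat.strong_induction_on with
    | _ d ih =>
      intro lo hlo
      by_cases hd : d = 0
      · subst hd
        refine ⟨.done lo, trivial, fun o => by simp [DTree.cost], fun o _ => ?_⟩
        simp only [DTree.eval]
        exact ⟨le_rfl, by omega, fun k h1 h2 => by omega, fun k h1 h2 => by omega⟩
      · have hd1 : 1 ≤ d := by omega
        obtain ⟨p1, a1, c1, e1⟩ := ih (d / 2) (by omega) lo (by omega)
        obtain ⟨p2, a2, c2, e2⟩ := ih (d - d / 2 - 1) (by omega) (lo + d / 2 + 1) (by omega)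
        obtain ⟨qa, qc⟩ := hq (lo + d / 2) (by omega)
        have hc2 : ∀ o, p2.cost o ≤ B * (if d / 2 = 0 then 0 else Nat.log 2 (d / 2) + 1) := by
          intro o
          refine (c2 o).trans (Nat.mul_le_mul_left B ?_)
          by_cases h1 : d - d / 2 - 1 = 0
          · simp [h1]
          · have h2 : ¬ d / 2 = 0 := by omega
            rw [if_neg h1, if_neg h2]
            have : Nat.log 2 (d - d / 2 - 1) ≤ Nat.log 2 (d / 2) := Nat.log_mono_right (by omega)
            omega
        refine ⟨(q (lo + d / 2)).bindK ∅ (fun b _ => if b = true then p1 else p2),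
          DTree.all_bindK qa ∅ (fun b K' => ?_), fun o => ?_, fun o hmono => ?_⟩
        · cases b
          · simpa using a2
          · simpa using a1
        · rw [DTree.cost_bindK, if_neg hd]
          have h1 := qc o
          have h2 : ((if (q (lo + d / 2)).eval o = true then p1 else p2)).cost o ≤
              B * (if d / 2 = 0 then 0 else Nat.log 2 (d / 2) + 1) := by
            split_ifs with hb h0 h0
            · simpa [h0] using c1 o
            · simpa [h0] using c1 o
            · simpa [h0] using hc2 o
            · simpa [h0] using hc2 o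
          calc _ ≤ B + B * (if d / 2 = 0 then 0 else Nat.log 2 (d / 2) + 1) := Nat.add_le_add h1 h2
            _ = B * ((if d / 2 = 0 then 0 else Nat.log 2 (d / 2) + 1) + 1) := by ring
            _ ≤ _ := Nat.mul_le_mul_left B (hL d hd1)
        · rw [DTree.eval_bindK]
          cases hb : (q (lo + d / 2)).eval o with
          | true =>
            obtain ⟨f1, f2, f3, f4⟩ := e1 o hmono
            simp only [if_true]
            refine ⟨f1, by omega, f3, fun k h1 h2 => ?_⟩
            by_cases h3 : k < lo + d / 2
            · exact f4 k h1 h3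
            · exact hmono (lo + d / 2) k (by omega) (by omega) hb
          | false =>
            obtain ⟨f1, f2, f3, f4⟩ := e2 o hmono
            have e0 : (if (false = true) then p1 else p2) = p2 := by simp
            simp only [e0]
            refine ⟨by omega, by omega, fun k h1 h2 => ?_, fun k h1 h2 => f4 k h1 (by omega)⟩
            by_cases h3 : lo + d / 2 + 1 ≤ k
            · exact f3 k h3 h2
            · by_contra hk
              have hk' : (q k).eval o = true := by
                cases h : (q k).eval o
                · exact absurd h hk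
                · rfl
              have := hmono k (lo + d / 2) (by omega) (by omega) hk'
              rw [hb] at this
              exact absurd this (by decide)
  obtain ⟨p, a, c, e⟩ := key n 0 (by omega)
  refine ⟨p, a, fun o => (c o).trans (Nat.mul_le_mul_left B ?_), fun o hm => ?_⟩
  · split_ifs <;> omega
  · obtain ⟨f1, f2, f3, f4⟩ := e o hm
    exact ⟨by omega, fun k hk => f3 k (by omega) hk, fun k h1 h2 => f4 k h1 (by omega)⟩

end Pool.Agent.Helper55.DH
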