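import Pool.Agent.Helper55.DH.QAnswer
import Pool.Agent.Helper55.DH.QSearch

/-!
# DH-Q7: the decision tree of a query, for `b > 0`

If `up = []` or `lo = []`: `done []` (cannot happen in the correctness part, `UR_ne_nil`). Otherwise:
1. `k1` := `bsearch` with `n = up.length - 1`, `q i` = ask `(3, up[i], up[i+1])`, true iff the answer is not `1` (i.e. `lf up[i+1] ≤ lf up[i]`). By `peak_mono` monotone for the true answers; the result is `Peak`.
2. `k2` := `bsearch` with `n = lo.length - 1`, `q i` = ask `(3, lo[i], lo[i+1])`, true iff the answer is not `-1` (`lf (-P lo[i+1]) ≤ lf (-P lo[i])`).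
3. `sM` := answer to `(2, up[k1], up[k1])`, `sm` := answer to `(2, lo[k2], lo[k2])`.
4. `r` := `bsearch` on the right path `R` (`n = R.length`), `q i` = ask `(2, R[i], R[i])`, true iff the answer is not `1` (monotone, because the form decreases along `R`, `right_facts`);
   `s` := `bsearch` on the left path, true iff the answer is not `-1`.
5. `done (ansList up lo k1 k2 sM sm r s)`.
Indices out of range: use `if h : _ then .ask … else .done false`; everything composed with `DTree.bindK` for `K = ∅` (a nonempty index type is available from `up[0]`). Cost: four searches with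
`B = 1`, `n ≤ up.length + lo.length`, plus 2: at most `4 (Nat.log 2 (up.length + lo.length) + 1) + 2 ≤ 10 (…)`. `Nat.log_mono_right`. `answer_pos`.
-/

namespace Pool.Agent.Helper55.DH

private def askB {ι : Type} (t : QT ι) (s0 : SignType) : DTree (QT ι) Bool := .ask t fun s => .done (decide (s ≠ s0))

private def askS {ι : Type} (t : QT ι) : DTree (QT ι) SignType := .ask t fun s => .done s

private theorem getD_mem {ι : Type} {L M : List ι} {i0 : ι} (h0 : i0 ∈ M) (h : ∀ x ∈ L, x ∈ M) (i : ℕ) :
    L.getD i i0 ∈ M := by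
  by_cases hi : i < L.length
  · have e : L.getD i i0 = L[i] := by simp [List.getD_eq_getElem?_getD, List.getElem?_eq_getElem hi]
    rw [e]
    exact h _ (List.getElem_mem hi)
  · have e : L.getD i i0 = i0 := by
      rw [List.getD_eq_getElem?_getD, List.getElem?_eq_none (by omega)]
      rfl
    rw [e]
    exact h0

private theorem getD_lt {ι : Type} {L : List ι} {i0 : ι} {i : ℕ} (hi : i < L.length) : L.getD i i0 = L[i] := by
  simp [List.getD_eq_getElem?_getD, List.getElem?_eq_getElem hi]

/-- Search along a list `L` with the questions `t i`, `i < n`. -/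
private theorem srch {ι : Type} (S : Set (QT ι)) (n T : ℕ) (hn : n ≤ T) (t : ℕ → QT ι) (s0 : SignType) (ht : ∀ i, t i ∈ S) :
    ∃ p : DTree (QT ι) ℕ, p.All S ∧ (∀ o, p.cost o ≤ Nat.log 2 T + 1) ∧
      ∀ o : QT ι → SignType, (∀ i j, i ≤ j → j < n → o (t i) ≠ s0 → o (t j) ≠ s0) →
        p.eval o ≤ n ∧ (∀ k < p.eval o, o (t k) = s0) ∧ ∀ k, p.eval o ≤ k → k < n → o (t k) ≠ s0 := by
  obtain ⟨p, h1, h2, h3⟩ := bsearch S 1 n (fun i => askB (t i) s0) fun k _ => ⟨⟨ht k, fun _ => trivial⟩, fun o => by
    simp [askB, DTree.cost]⟩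
  refine ⟨p, h1, fun o => ?_, fun o hm => ?_⟩
  · have := h2 o
    have h4 : Nat.log 2 n ≤ Nat.log 2 T := Nat.log_mono_right hn
    omega
  · have := h3 o (by simpa [askB, DTree.eval] using hm)
    simpa [askB, DTree.eval] using this

private theorem sign_ne_one {x : ℝ} : SignType.sign x ≠ 1 ↔ x ≤ 0 := by
  rw [Ne, sign_eq_one_iff, not_lt]

private theorem sign_ne_neg_one {x : ℝ} : SignType.sign x ≠ -1 ↔ 0 ≤ x := by
  rw [Ne, sign_eq_neg_one_iff, not_lt]

private theorem anti_of_step {R : ℕ → ℝ} {n : ℕ} (h : ∀ i, i + 1 < n → R (i + 1) ≤ R i) {i j : ℕ} (hij : i ≤ j) (hj : j < n) :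
    R j ≤ R i := by
  induction j, hij using Nat.le_induction with
  | base => exact le_rfl
  | succ j _ ih => exact (h j hj).trans (ih (by omega))

private theorem tail_sub {ι : Type} {up lo : List ι} {k1 k2 : ℕ} :
    (∀ x ∈ rightPath up lo k1 k2, x ∈ up ++ lo) ∧ (rightPath up lo k1 k2).length ≤ up.length + lo.length := by
  constructor
  · intro x hx
    rw [rightPath, List.mem_append] at hx
    rw [List.mem_append]
    rcases hx with h | h
    · exact Or.inl (List.mem_of_mem_drop h)
    · exact Or.inr (List.mem_of_mem_take (List.mem_of_mem_tail h))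
  · simp only [rightPath, List.length_append, List.length_drop, List.length_tail, List.length_take]
    omega

theorem stab_pos {ι : Type} (up lo : List ι) :
    ∃ prog : DTree (QT ι) (List (ι × ι)), prog.All {q | q.2.1 ∈ up ++ lo ∧ q.2.2 ∈ up ++ lo} ∧
      (∀ o, prog.cost o ≤ 10 * (Nat.log 2 (up.length + lo.length) + 1)) ∧
      ∀ (P : ι → ℝ × ℝ) (l : List ι) (a b c : ℝ) (o : QT ι → SignType), SrtR P l → l ≠ [] → up = UR P l →
        lo = UR (fun i => - P i) l.reverse → 0 < b →
        (∀ q : QT ι, q.1 = 2 ∨ q.1 = 3 → o q = qs P a b c q) →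
        IsAnswer (P '' {i | i ∈ l}) a b c ((prog.eval o).map fun e => (P e.1, P e.2)) := by
  classical
  by_cases hne : up = [] ∨ lo = []
  · refine ⟨.done [], trivial, fun o => by simp [DTree.cost], ?_⟩
    intro P l a b c o hs hl hup hlo hb ho
    exfalso
    rcases hne with h | h
    · exact UR_ne_nil hs hl (hup.symm.trans h)
    · exact UR_ne_nil (srt_neg hs) (by simpa using hl) (hlo.symm.trans h)
  have hu : up ≠ [] := fun h => hne (Or.inl h)
  have hlo0 : lo ≠ [] := fun h => hne (Or.inr h)
  have hul : 0 < up.length := List.length_pos_iff.2 hu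
  have hll : 0 < lo.length := List.length_pos_iff.2 hlo0
  let i0 : ι := up[0]
  have hi0 : i0 ∈ up ++ lo := List.mem_append_left _ (List.getElem_mem hul)
  let S : Set (QT ι) := {q | q.2.1 ∈ up ++ lo ∧ q.2.2 ∈ up ++ lo}
  let T : ℕ := up.length + lo.length
  have mu : ∀ i, up.getD i i0 ∈ up ++ lo := getD_mem hi0 fun x hx => List.mem_append_left _ hx
  have ml : ∀ i, lo.getD i i0 ∈ up ++ lo := getD_mem hi0 fun x hx => List.mem_append_right _ hx
  have mR : ∀ k1 k2 i, (rightPath up lo k1 k2).getD i i0 ∈ up ++ lo := fun k1 k2 => getD_mem hi0 tail_sub.1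
  have mL : ∀ k1 k2 i, (leftPath up lo k1 k2).getD i i0 ∈ up ++ lo := fun k1 k2 => getD_mem hi0 fun x hx => by
    have := (tail_sub (up := lo) (lo := up) (k1 := k2) (k2 := k1)).1 x hx
    simpa [or_comm] using this
  obtain ⟨p1, a1, c1, e1⟩ := srch S (up.length - 1) T (by omega) (fun i => (3, up.getD i i0, up.getD (i + 1) i0)) 1
    fun i => ⟨mu i, mu (i + 1)⟩
  obtain ⟨p2, a2, c2, e2⟩ := srch S (lo.length - 1) T (by omega) (fun i => (3, lo.getD i i0, lo.getD (i + 1) i0)) (-1)
    fun i => ⟨ml i, ml (i + 1)⟩
  have h3 := fun k1 k2 : ℕ => srch S (rightPath up lo k1 k2).length T tail_sub.2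
    (fun i => (2, (rightPath up lo k1 k2).getD i i0, (rightPath up lo k1 k2).getD i i0)) 1
    fun i => ⟨mR k1 k2 i, mR k1 k2 i⟩
  have h4 := fun k1 k2 : ℕ => srch S (leftPath up lo k1 k2).length T
    ((tail_sub (up := lo) (lo := up) (k1 := k2) (k2 := k1)).2.trans (by omega))
    (fun i => (2, (leftPath up lo k1 k2).getD i i0, (leftPath up lo k1 k2).getD i i0)) (-1)
    fun i => ⟨mL k1 k2 i, mL k1 k2 i⟩
  choose p3 a3 c3 e3 using h3
  choose p4 a4 c4 e4 using h4
  refine ⟨p1.bindK ∅ fun k1 _ => p2.bindK ∅ fun k2 _ => (askS (2, up.getD k1 i0, up.getD k1 i0)).bindK ∅ fun sM _ =>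
    (askS (2, lo.getD k2 i0, lo.getD k2 i0)).bindK ∅ fun sm _ => (p3 k1 k2).bindK ∅ fun r _ =>
      (p4 k1 k2).bindK ∅ fun s _ => .done (ansList up lo k1 k2 sM sm r s), ?_, fun o => ?_, ?_⟩
  · refine DTree.all_bindK a1 _ fun k1 _ => DTree.all_bindK a2 _ fun k2 _ => DTree.all_bindK ?_ _ fun sM _ =>
      DTree.all_bindK ?_ _ fun sm _ => DTree.all_bindK (a3 k1 k2) _ fun r _ => DTree.all_bindK (a4 k1 k2) _ fun s _ => trivial
    · exact ⟨⟨mu k1, mu k1⟩, fun _ => trivial⟩
    · exact ⟨⟨ml k2, ml k2⟩, fun _ => trivial⟩
  · simp only [DTree.cost_bindK, askS, DTree.cost, DTree.eval]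
    have x1 := c1 o
    have x2 := c2 o
    have x3 := c3 (p1.eval o) (p2.eval o) o
    have x4 := c4 (p1.eval o) (p2.eval o) o
    have hT : T = up.length + lo.length := rfl
    rw [hT] at x1 x2 x3 x4
    omega
  · intro P l a b c o hs hl hup hlo hb ho
    simp only [DTree.eval_bindK, askS, DTree.eval]
    have o3 : ∀ u v : ι, o (3, u, v) = SignType.sign (lf a b (P v) - lf a b (P u)) := by
      intro u v
      rw [ho _ (Or.inr rfl)]
      simp only [qs, lf]
      congr 1
      ring
    have o2 : ∀ u : ι, o (2, u, u) = SignType.sign (lf a b (P u) - c) := by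
      intro u
      rw [ho _ (Or.inl rfl)]
      rfl
    have lfn : ∀ z : ℝ × ℝ, lf a b (-z) = - lf a b z := by
      intro z
      simp only [lf, Prod.fst_neg, Prod.snd_neg]
      ring
    -- the first search
    obtain ⟨f1, f2, f3⟩ := e1 o (by
      intro i j hij hj h
      have hj' : j + 1 < up.length := by omega
      have hi' : i + 1 < up.length := by omega
      simp only [o3] at h ⊢
      rw [getD_lt (by omega : i < up.length), getD_lt hi'] at h
      rw [getD_lt (by omega : j < up.length), getD_lt hj']
      rw [sign_ne_one, sub_nonpos] at h ⊢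
      rcases Nat.eq_or_lt_of_le hij with h0 | h0
      · subst h0; exact h
      · exact (peak_mono hs up hup hb h0 hj' h).le)
    have hk1 : Peak P a b up (p1.eval o) := by
      refine ⟨by omega, fun i h hi => ?_, fun i h hi => ?_⟩
      · have := f2 i hi
        simp only [o3] at this
        rw [getD_lt (by omega : i < up.length), getD_lt h, sign_eq_one_iff, sub_pos] at this
        exact this
      · have := f3 i hi (by omega)
        simp only [o3] at this
        rw [getD_lt (by omega : i < up.length), getD_lt h, sign_ne_one, sub_nonpos] at this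
        exact this
    -- the second search
    obtain ⟨g1, g2, g3⟩ := e2 o (by
      intro i j hij hj h
      have hj' : j + 1 < lo.length := by omega
      have hi' : i + 1 < lo.length := by omega
      simp only [o3] at h ⊢
      rw [getD_lt (by omega : i < lo.length), getD_lt hi'] at h
      rw [getD_lt (by omega : j < lo.length), getD_lt hj']
      rw [sign_ne_neg_one, sub_nonneg] at h ⊢
      rcases Nat.eq_or_lt_of_le hij with h0 | h0
      · subst h0; exact h
      · have := peak_mono (a := a) (srt_neg hs) lo hlo hb h0 hj' (by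
          simp only [lfn]
          linarith)
        simp only [lfn] at this
        linarith)
    have hk2 : Peak (fun i => - P i) a b lo (p2.eval o) := by
      refine ⟨by omega, fun i h hi => ?_, fun i h hi => ?_⟩
      · have := g2 i hi
        simp only [o3] at this
        rw [getD_lt (by omega : i < lo.length), getD_lt h, sign_eq_neg_one_iff, sub_neg] at this
        simp only [lfn]
        linarith
      · have := g3 i hi (by omega)
        simp only [o3] at this
        rw [getD_lt (by omega : i < lo.length), getD_lt h, sign_ne_neg_one, sub_nonneg] at this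
        simp only [lfn]
        linarith
    have h1 : p1.eval o < up.length := hk1.1
    have h2 : p2.eval o < lo.length := hk2.1
    generalize p1.eval o = k1 at *
    generalize p2.eval o = k2 at *
    -- the right path
    obtain ⟨r1, r2, r3⟩ := e3 k1 k2 o (by
      intro i j hij hj h
      simp only [o2] at h ⊢
      rw [getD_lt (by omega : i < (rightPath up lo k1 k2).length)] at h
      rw [getD_lt hj]
      rw [sign_ne_one, sub_nonpos] at h ⊢
      have := anti_of_step (R := fun m => lf a b (P ((rightPath up lo k1 k2).getD m i0)))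
        (n := (rightPath up lo k1 k2).length) (fun m hm => by
          rw [getD_lt (by omega : m < (rightPath up lo k1 k2).length), getD_lt hm]
          exact ((right_facts hs up lo hup hlo hb hk1 hk2).2.2 m hm).1) hij hj
      rw [getD_lt (by omega : i < (rightPath up lo k1 k2).length), getD_lt hj] at this
      exact this.trans h)
    obtain ⟨s1, s2, s3⟩ := e4 k1 k2 o (by
      intro i j hij hj h
      simp only [o2] at h ⊢
      rw [getD_lt (by omega : i < (leftPath up lo k1 k2).length)] at h
      rw [getD_lt hj]
      rw [sign_ne_neg_one, sub_nonneg] at h ⊢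
      have := anti_of_step (R := fun m => - lf a b (P ((leftPath up lo k1 k2).getD m i0)))
        (n := (leftPath up lo k1 k2).length) (fun m hm => by
          rw [getD_lt (by omega : m < (leftPath up lo k1 k2).length), getD_lt hm]
          exact neg_le_neg ((left_facts hs up lo hup hlo hb hk1 hk2).2.2 m hm).1) hij hj
      rw [getD_lt (by omega : i < (leftPath up lo k1 k2).length), getD_lt hj] at this
      exact h.trans (neg_le_neg_iff.1 this))
    refine answer_pos hs hl up lo hup hlo hb hk1 hk2 h1 h2 _ _ ?_ ?_ _ _ ?_ ?_ r1 ?_ ?_ s1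
    · rw [o2, getD_lt h1]
    · rw [o2, getD_lt h2]
    · intro i h hi
      have := r2 i hi
      rw [o2, getD_lt h, sign_eq_one_iff] at this
      exact this
    · intro h
      have := r3 _ le_rfl h
      rw [o2, getD_lt h, sign_ne_one] at this
      exact this
    · intro i h hi
      have := s2 i hi
      rw [o2, getD_lt h, sign_eq_neg_one_iff] at this
      exact this
    · intro h
      have := s3 _ le_rfl h
      rw [o2, getD_lt h, sign_ne_neg_one] at this
      exact this

end Pool.Agent.Helper55.DH
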