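import Pool.Agent.Helper55.DH.Core

/-!
# DH-S0: medians

`exists_median`: let `m` be the least number with `2 * #{x ∈ K | J x > m} ≤ #K` (exists, since for large `m` the set is empty). If `m = 0`:
`#{J < 0} = 0`. If `m > 0`: by minimality `2 * #{J > m - 1} > #K`, so `2 * #{J < m} = 2 * #K - 2 * #{J ≥ m} < #K`. Some `x ∈ K` has `J x = m`: otherwise
`#{J < m} + #{J > m} = #K`, so both are exactly half, `#{J > m-1} = #{J > m}` (no `J x = m`) contradicts minimality when `m > 0`; when `m = 0` all have `J > 0`
and `2 #K ≤ #K`, impossible for `K` nonempty.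

-/

open Classical

namespace Pool.Agent.Helper55.DH

theorem exists_median {X : Type} (K : Finset X) (hK : K.Nonempty) (J : X → ℕ) :
    ∃ m, 2 * (K.filter fun x => J x < m).card ≤ K.card ∧ 2 * (K.filter fun x => m < J x).card ≤ K.card ∧
      ∃ x ∈ K, J x = m := by
  have hex : ∃ m, 2 * (K.filter fun x => m < J x).card ≤ K.card := by
    refine ⟨K.sup J, ?_⟩
    have h : (K.filter fun x => K.sup J < J x) = ∅ := by
      apply Finset.filter_false_of_mem
      intro x hx
      exact not_lt.mpr (Finset.le_sup hx)
    rw [h]
    simp
  have hspec := Nat.find_spec hex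
  have hmin := fun k (hk : k < Nat.find hex) => Nat.find_min hex hk
  generalize Nat.find hex = m at hspec hmin
  have hpos : 0 < K.card := Finset.card_pos.mpr hK
  rcases Nat.eq_zero_or_pos m with hm | hm
  · subst hm
    refine ⟨0, by simp, hspec, ?_⟩
    by_contra hne
    push Not at hne
    have h : (K.filter fun x => 0 < J x) = K := by
      apply Finset.filter_true_of_mem
      intro x hx
      exact Nat.pos_of_ne_zero (hne x hx)
    rw [h] at hspec
    omega
  · obtain ⟨k, rfl⟩ : ∃ k, m = k + 1 := ⟨m - 1, by omega⟩
    have h1 := hmin k (Nat.lt_succ_self k)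
    push Not at h1
    have h2 : (K.filter fun x => J x < k + 1).card + (K.filter fun x => k < J x).card =
        K.card := by
      rw [← Finset.card_filter_add_card_filter_not (s := K) (fun x => J x < k + 1)]
      congr 2
      apply Finset.filter_congr
      intro x _
      constructor
      · intro h
        omega
      · intro h
        omega
    refine ⟨k + 1, by omega, hspec, ?_⟩
    by_contra hne
    push Not at hne
    have h : (K.filter fun x => k < J x) = K.filter fun x => k + 1 < J x := by
      apply Finset.filter_congr
      intro x hx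
      have := hne x hx
      constructor
      · intro h
        omega
      · intro h
        omega
    rw [h] at h1
    omega

/-- If the number of worlds is at least halved, then the logarithm decreases by one. -/
theorem logb_half {a b : ℕ} (ha : 0 < a) (h : 2 * a ≤ b) : Real.logb 2 a + 1 ≤ Real.logb 2 b := by
  have ha' : (0 : ℝ) < a := by exact_mod_cast ha
  have h2 : (2 : ℝ) * a ≤ b := by exact_mod_cast h
  have e : Real.logb 2 ((2 : ℝ) * a) = 1 + Real.logb 2 a := by
    rw [Real.logb_mul (by norm_num) ha'.ne', Real.logb_self_eq_one (by norm_num)]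
  calc Real.logb 2 a + 1 = Real.logb 2 ((2 : ℝ) * a) := by rw [e]; ring
    _ ≤ Real.logb 2 b := Real.logb_le_logb_of_le (by norm_num) (by positivity) h2

end Pool.Agent.Helper55.DH
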