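import Pool.Agent.Helper55.DH.Search1

/-!
# DH-S1: the two-dimensional search

Strong induction on `#K`. If `(I, J)` is constant on `K`: `done ()`. Otherwise let `m`, `n` be medians of `I`, `J` (`exists_median`; `m < p`, `n < q`). Run one
after the other (with `bindK`) the blocks `blk (m-1) (n-1)`, `blk (m-1) n`, `blk m (n-1)`, `blk m n`, omitting those which do not exist (`m = 0` for `m-1`; `m + 1 = p` for `m`;
the same for `n`, `q`). At most 12 questions. Let `K'` be the set of the remaining worlds (all give the same answers). For each corner one of the following holds: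
either `#K' ≤ #K / 2`, or a non-strict inequality on all of `K'`:
 corner `(m-1, n-1)`: result 0 gives `I ≤ m-1`, result 2 gives `J ≤ n-1` (halved, by the median property); result 1: `m ≤ I`; result 3: `n ≤ J`;
 corner `(m-1, n)`: 0: `I ≤ m-1` halved; 3: `n+1 ≤ J` halved; 1: `m ≤ I`; 2: `J ≤ n`;
 corner `(m, n-1)`: 1: halved; 2: halved; 0: `I ≤ m`; 3: `n ≤ J`;   corner `(m, n)`: 1, 3: halved; 0: `I ≤ m`; 2: `J ≤ n`.
If a corner does not exist, the corresponding inequality is trivial: `m = 0`: `m ≤ I`; `m + 1 = p`: `I ≤ m`; `n = 0`: `n ≤ J`; `n + 1 = q`: `J ≤ n`.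
So if `K'` is not halved, then `(m ≤ I or n ≤ J)`, `(m ≤ I or J ≤ n)`, `(I ≤ m or n ≤ J)`, `(I ≤ m or J ≤ n)` (each on all of `K'`), hence `I = m` on all of `K'` or
`J = n` on all of `K'` (if not both `m ≤ I` and `I ≤ m`, then `n ≤ J` and `J ≤ n`). In this case continue with `search1` for `J` with `one := oneI m`, or for `I`
with `one := fun k => not (oneJ n k)` (`DTree.map`): at most `12 + 2 ≤ 18`. If halved, continue with the induction hypothesis: `12 + 18 - 12 = 18`.
It is convenient to prove first a lemma for one round: `∃ r : DTree τ Unit, r.All S ∧ cost ≤ 12 ∧ ∀ ω ∈ K, (2 * #(r.refine ω K) ≤ #K) ∨ (∀ w ∈ r.refine ω K, I w = m) ∨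
(∀ w ∈ r.refine ω K, J w = n)`, and to continue with `bindK` and the remaining set. `J` constant on the rest and `I = m` constant give the claim.
-/

open Classical

namespace Pool.Agent.Helper55.DH

/-- There is a program for the set `K` of worlds with potential at most `b` after which `R` holds between the remaining worlds. -/
private def S2Good {τ : Type} (S : Set τ) (R : (τ → SignType) → (τ → SignType) → Prop) (K : Finset (τ → SignType))
    (b : ℝ) : Prop :=
  ∃ prog : DTree τ Unit, prog.All S ∧
    (∀ ω ∈ K, (prog.cost ω : ℝ) + 12 * Real.logb 2 (prog.refine ω K).card ≤ b) ∧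
    ∀ ω ∈ K, ∀ w ∈ prog.refine ω K, R w ω

private theorem s2_mono {τ : Type} {S : Set τ} {R : (τ → SignType) → (τ → SignType) → Prop}
    {K : Finset (τ → SignType)} {b b' : ℝ} (hb : b ≤ b') (h : S2Good S R K b) : S2Good S R K b' := by
  obtain ⟨prog, h1, h2, h3⟩ := h
  exact ⟨prog, h1, fun ω hω => (h2 ω hω).trans hb, h3⟩

private theorem s2_bind {τ α : Type} {S : Set τ} {R : (τ → SignType) → (τ → SignType) → Prop}
    {K : Finset (τ → SignType)} {b : ℝ} {c : ℕ} {p : DTree τ α} (hp : p.All S) (hc : ∀ ω ∈ K, p.cost ω ≤ c)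
    (h : ∀ ω ∈ K, S2Good S R (p.refine ω K) (b - c)) : S2Good S R K b := by
  let F : α → Finset (τ → SignType) → DTree τ Unit := fun _ K' =>
    if h : S2Good S R K' (b - c) then Classical.choose h else .done ()
  have hF : ∀ a K', (hK : S2Good S R K' (b - c)) → F a K' = Classical.choose hK := by
    intro a K' hK
    exact dif_pos hK
  refine ⟨p.bindK K F, DTree.all_bindK hp K ?_, ?_, ?_⟩
  · intro a K'
    by_cases hK : S2Good S R K' (b - c)
    · rw [hF a K' hK]
      exact (Classical.choose_spec hK).1
    · have : F a K' = .done () := dif_neg hK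
      rw [this]
      trivial
  · intro ω hω
    have hK := h ω hω
    have h1 := (Classical.choose_spec hK).2.1 ω (DTree.mem_refine_self p hω)
    rw [DTree.cost_bindK, DTree.refine_bindK, hF (p.eval ω) _ hK]
    have h2 : (p.cost ω : ℝ) ≤ c := by exact_mod_cast hc ω hω
    push_cast
    linarith
  · intro ω hω w hw
    have hK := h ω hω
    rw [DTree.refine_bindK, hF (p.eval ω) _ hK] at hw
    exact (Classical.choose_spec hK).2.2 ω (DTree.mem_refine_self p hω) w hw

/-- One block: `C` is what is known after it. -/
private theorem s2_corner {τ : Type} {S : Set τ} {R : (τ → SignType) → (τ → SignType) → Prop}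
    {L : Finset (τ → SignType)} {C : Finset (τ → SignType) → Prop} {ex : Prop} (blk : DTree τ (Fin 4))
    (hex : ex → blk.All S ∧ ∀ ω ∈ L, blk.cost ω ≤ 3)
    (hC : ex → ∀ K', K' ⊆ L → ∀ a, (∀ w ∈ K', blk.eval w = a) → C K')
    (hC' : ¬ex → ∀ K', K' ⊆ L → C K')
    (K' : Finset (τ → SignType)) (hK' : K' ⊆ L) (hne : K'.Nonempty) (b : ℝ)
    (cont : ∀ K'' : Finset (τ → SignType), K'' ⊆ K' → K''.Nonempty → C K'' → S2Good S R K'' (b - 3)) :
    S2Good S R K' b := by
  by_cases h : ex
  · obtain ⟨h1, h2⟩ := hex h
    refine s2_bind (c := 3) h1 (fun ω hω => h2 ω (hK' hω)) ?_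
    intro ω hω
    have hsub : blk.refine ω K' ⊆ K' := DTree.refine_subset ω blk K'
    have hmem : ω ∈ blk.refine ω K' := DTree.mem_refine_self blk hω
    have := cont _ hsub ⟨ω, hmem⟩ (hC h _ (hsub.trans hK') (blk.eval ω) fun w hw =>
      DTree.eval_of_mem_refine blk hw)
    exact s2_mono (by push_cast; linarith) this
  · exact s2_mono (by linarith) (cont K' subset_rfl hne (hC' h K' hK'))

theorem search {τ : Type} (S : Set τ) (I J : (τ → SignType) → ℕ) (p q : ℕ) (blk : ℕ → ℕ → DTree τ (Fin 4))
    (oneI oneJ : ℕ → ℕ → DTree τ Bool) (K : Finset (τ → SignType)) (hI : ∀ ω ∈ K, I ω < p) (hJ : ∀ ω ∈ K, J ω < q)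
    (hb : ∀ k t, k + 1 < p → t + 1 < q → (blk k t).All S ∧ ∀ ω ∈ K, (blk k t).cost ω ≤ 3 ∧
      ((blk k t).eval ω = 0 → I ω ≤ k) ∧ ((blk k t).eval ω = 1 → k + 1 ≤ I ω) ∧
      ((blk k t).eval ω = 2 → J ω ≤ t) ∧ ((blk k t).eval ω = 3 → t + 1 ≤ J ω))
    (h1 : ∀ i t, i < p → t + 1 < q → (oneI i t).All S ∧ ∀ ω ∈ K, (oneI i t).cost ω ≤ 1 ∧
      (I ω = i → ((oneI i t).eval ω = true ↔ J ω ≤ t)))
    (h2 : ∀ j k, j < q → k + 1 < p → (oneJ j k).All S ∧ ∀ ω ∈ K, (oneJ j k).cost ω ≤ 1 ∧
      (J ω = j → ((oneJ j k).eval ω = true ↔ k + 1 ≤ I ω))) :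
    ∃ prog : DTree τ Unit, prog.All S ∧ DTree.Eff 12 18 K prog ∧
      ∀ ω ∈ K, ∀ w ∈ prog.refine ω K, I w = I ω ∧ J w = J ω := by
  have main : ∀ K' : Finset (τ → SignType), K' ⊆ K →
      S2Good S (fun w ω => I w = I ω ∧ J w = J ω) K' (18 + 12 * Real.logb 2 K'.card) := by
    intro K'
    induction K' using Finset.strongInduction with
    | H L ih =>
      intro hL
      rcases L.eq_empty_or_nonempty with hLe | hLne
      · subst hLe
        exact ⟨.done (), trivial, by simp, by simp⟩
      obtain ⟨m, hm1, hm2, x, hxL, hx⟩ := exists_median L hLne I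
      obtain ⟨n, hn1, hn2, y, hyL, hy⟩ := exists_median L hLne J
      have hmp : m < p := hx ▸ hI x (hL hxL)
      have hnq : n < q := hy ▸ hJ y (hL hyL)
      set b : ℝ := 18 + 12 * Real.logb 2 L.card with hbd
      -- the end of a round
      have fin : ∀ K' : Finset (τ → SignType), K' ⊆ L → K'.Nonempty →
          (2 * K'.card ≤ L.card ∨ (∀ w ∈ K', I w = m) ∨ (∀ w ∈ K', J w = n)) →
          S2Good S (fun w ω => I w = I ω ∧ J w = J ω) K' (b - 12) := by
        intro K' hK' hne hcase
        have hpos : 0 < K'.card := Finset.card_pos.mpr hne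
        have hlog : Real.logb 2 K'.card ≤ Real.logb 2 L.card := by
          apply Real.logb_le_logb_of_le (by norm_num) (by exact_mod_cast hpos)
          exact_mod_cast Finset.card_le_card hK'
        rcases hcase with hhalf | hc | hc
        · have hss : K' ⊂ L := by
            refine Finset.ssubset_iff_subset_ne.mpr ⟨hK', ?_⟩
            rintro rfl
            omega
          have h1 := ih K' hss (hK'.trans hL)
          have h2 := logb_half hpos hhalf
          refine s2_mono ?_ h1
          rw [hbd]
          linarith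
        · obtain ⟨prog, g1, g2, g3⟩ := search1 S J q (oneI m) K' (fun ω hω => hJ ω (hL (hK' hω))) (by
            intro t ht
            obtain ⟨f1, f2⟩ := h1 m t hmp ht
            exact ⟨f1, fun ω hω => ⟨(f2 ω (hL (hK' hω))).1, (f2 ω (hL (hK' hω))).2 (hc ω hω)⟩⟩)
          refine ⟨prog, g1, fun ω hω => ?_, fun ω hω w hw => ⟨?_, g3 ω hω w hw⟩⟩
          · have := g2 ω hω
            rw [hbd]
            linarith
          · show I w = I ω
            rw [hc ω hω, hc w (DTree.refine_subset ω prog K' hw)]
        · obtain ⟨prog, g1, g2, g3⟩ := search1 S I p (fun k => (oneJ n k).map fun c => !c) K'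
            (fun ω hω => hI ω (hL (hK' hω))) (by
              intro t ht
              obtain ⟨f1, f2⟩ := h2 n t hnq ht
              refine ⟨DTree.all_map f1 _, fun ω hω => ⟨?_, ?_⟩⟩
              · rw [DTree.cost_map]
                exact (f2 ω (hL (hK' hω))).1
              · rw [DTree.eval_map]
                have h3 := (f2 ω (hL (hK' hω))).2 (hc ω hω)
                rcases hev : (oneJ n t).eval ω with _ | _
                · rw [hev] at h3
                  simp only [Bool.false_eq_true, false_iff, not_le] at h3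
                  simp only [Bool.not_false, true_iff]
                  omega
                · rw [hev] at h3
                  simp only [true_iff] at h3
                  simp only [Bool.not_true, Bool.false_eq_true, false_iff, not_le]
                  omega)
          refine ⟨prog, g1, fun ω hω => ?_, fun ω hω w hw => ⟨g3 ω hω w hw, ?_⟩⟩
          · have := g2 ω hω
            rw [hbd]
            linarith
          · show J w = J ω
            rw [hc ω hω, hc w (DTree.refine_subset ω prog K' hw)]
      -- halving
      have hIlt : ∀ K' : Finset (τ → SignType), K' ⊆ L → (∀ w ∈ K', I w < m) → 2 * K'.card ≤ L.card := by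
        intro K' hK' h
        refine le_trans (Nat.mul_le_mul_left 2 (Finset.card_le_card ?_)) hm1
        intro w hw
        exact Finset.mem_filter.mpr ⟨hK' hw, h w hw⟩
      have hIgt : ∀ K' : Finset (τ → SignType), K' ⊆ L → (∀ w ∈ K', m < I w) → 2 * K'.card ≤ L.card := by
        intro K' hK' h
        refine le_trans (Nat.mul_le_mul_left 2 (Finset.card_le_card ?_)) hm2
        intro w hw
        exact Finset.mem_filter.mpr ⟨hK' hw, h w hw⟩
      have hJlt : ∀ K' : Finset (τ → SignType), K' ⊆ L → (∀ w ∈ K', J w < n) → 2 * K'.card ≤ L.card := by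
        intro K' hK' h
        refine le_trans (Nat.mul_le_mul_left 2 (Finset.card_le_card ?_)) hn1
        intro w hw
        exact Finset.mem_filter.mpr ⟨hK' hw, h w hw⟩
      have hJgt : ∀ K' : Finset (τ → SignType), K' ⊆ L → (∀ w ∈ K', n < J w) → 2 * K'.card ≤ L.card := by
        intro K' hK' h
        refine le_trans (Nat.mul_le_mul_left 2 (Finset.card_le_card ?_)) hn2
        intro w hw
        exact Finset.mem_filter.mpr ⟨hK' hw, h w hw⟩
      -- the four corners
      refine s2_corner (L := L) (C := fun K' => 2 * K'.card ≤ L.card ∨ (∀ w ∈ K', m ≤ I w) ∨ (∀ w ∈ K', n ≤ J w))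
        (ex := 0 < m ∧ 0 < n) (blk (m - 1) (n - 1)) ?_ ?_ ?_ L subset_rfl hLne b ?_
      · rintro ⟨hm0, hn0⟩
        obtain ⟨f1, f2⟩ := hb (m - 1) (n - 1) (by omega) (by omega)
        exact ⟨f1, fun ω hω => (f2 ω (hL hω)).1⟩
      · rintro ⟨hm0, hn0⟩ K' hK' a ha
        obtain ⟨f1, f2⟩ := hb (m - 1) (n - 1) (by omega) (by omega)
        have hcases : a = 0 ∨ a = 1 ∨ a = 2 ∨ a = 3 := by
          fin_cases a <;> simp
        rcases hcases with rfl | rfl | rfl | rfl
        · left
          refine hIlt K' hK' fun w hw => ?_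
          have := (f2 w (hL (hK' hw))).2.1 (ha w hw)
          omega
        · right; left
          intro w hw
          have := (f2 w (hL (hK' hw))).2.2.1 (ha w hw)
          omega
        · left
          refine hJlt K' hK' fun w hw => ?_
          have := (f2 w (hL (hK' hw))).2.2.2.1 (ha w hw)
          omega
        · right; right
          intro w hw
          have := (f2 w (hL (hK' hw))).2.2.2.2 (ha w hw)
          omega
      · intro hex K' hK'
        by_cases hm0 : 0 < m
        · right; right
          intro w _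
          have : n = 0 := by
            by_contra h
            exact hex ⟨hm0, Nat.pos_of_ne_zero h⟩
          omega
        · right; left
          intro w _
          omega
      intro K1 hK1 hne1 hC1
      refine s2_corner (L := L) (C := fun K' => 2 * K'.card ≤ L.card ∨ (∀ w ∈ K', m ≤ I w) ∨ (∀ w ∈ K', J w ≤ n))
        (ex := 0 < m ∧ n + 1 < q) (blk (m - 1) n) ?_ ?_ ?_ K1 hK1 hne1 (b - 3) ?_
      · rintro ⟨hm0, hn0⟩
        obtain ⟨f1, f2⟩ := hb (m - 1) n (by omega) (by omega)
        exact ⟨f1, fun ω hω => (f2 ω (hL hω)).1⟩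
      · rintro ⟨hm0, hn0⟩ K' hK' a ha
        obtain ⟨f1, f2⟩ := hb (m - 1) n (by omega) (by omega)
        have hcases : a = 0 ∨ a = 1 ∨ a = 2 ∨ a = 3 := by
          fin_cases a <;> simp
        rcases hcases with rfl | rfl | rfl | rfl
        · left
          refine hIlt K' hK' fun w hw => ?_
          have := (f2 w (hL (hK' hw))).2.1 (ha w hw)
          omega
        · right; left
          intro w hw
          have := (f2 w (hL (hK' hw))).2.2.1 (ha w hw)
          omega
        · right; right
          intro w hw
          have := (f2 w (hL (hK' hw))).2.2.2.1 (ha w hw)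
          omega
        · left
          refine hJgt K' hK' fun w hw => ?_
          have := (f2 w (hL (hK' hw))).2.2.2.2 (ha w hw)
          omega
      · intro hex K' hK'
        by_cases hm0 : 0 < m
        · right; right
          intro w hw
          have h3 : ¬ (n + 1 < q) := fun h => hex ⟨hm0, h⟩
          have h4 := hJ w (hL (hK' hw))
          omega
        · right; left
          intro w _
          omega
      intro K2 hK2 hne2 hC2
      refine s2_corner (L := L) (C := fun K' => 2 * K'.card ≤ L.card ∨ (∀ w ∈ K', I w ≤ m) ∨ (∀ w ∈ K', n ≤ J w))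
        (ex := m + 1 < p ∧ 0 < n) (blk m (n - 1)) ?_ ?_ ?_ K2 (hK2.trans hK1) hne2 (b - 3 - 3) ?_
      · rintro ⟨hm0, hn0⟩
        obtain ⟨f1, f2⟩ := hb m (n - 1) (by omega) (by omega)
        exact ⟨f1, fun ω hω => (f2 ω (hL hω)).1⟩
      · rintro ⟨hm0, hn0⟩ K' hK' a ha
        obtain ⟨f1, f2⟩ := hb m (n - 1) (by omega) (by omega)
        have hcases : a = 0 ∨ a = 1 ∨ a = 2 ∨ a = 3 := by
          fin_cases a <;> simp
        rcases hcases with rfl | rfl | rfl | rfl
        · right; left
          intro w hw
          have := (f2 w (hL (hK' hw))).2.1 (ha w hw)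
          omega
        · left
          refine hIgt K' hK' fun w hw => ?_
          have := (f2 w (hL (hK' hw))).2.2.1 (ha w hw)
          omega
        · left
          refine hJlt K' hK' fun w hw => ?_
          have := (f2 w (hL (hK' hw))).2.2.2.1 (ha w hw)
          omega
        · right; right
          intro w hw
          have := (f2 w (hL (hK' hw))).2.2.2.2 (ha w hw)
          omega
      · intro hex K' hK'
        by_cases hn0 : 0 < n
        · right; left
          intro w hw
          have h3 : ¬ (m + 1 < p) := fun h => hex ⟨h, hn0⟩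
          have h4 := hI w (hL (hK' hw))
          omega
        · right; right
          intro w _
          omega
      intro K3 hK3 hne3 hC3
      refine s2_corner (L := L) (C := fun K' => 2 * K'.card ≤ L.card ∨ (∀ w ∈ K', I w ≤ m) ∨ (∀ w ∈ K', J w ≤ n))
        (ex := m + 1 < p ∧ n + 1 < q) (blk m n) ?_ ?_ ?_ K3 (hK3.trans (hK2.trans hK1)) hne3 (b - 3 - 3 - 3) ?_
      · rintro ⟨hm0, hn0⟩
        obtain ⟨f1, f2⟩ := hb m n (by omega) (by omega)
        exact ⟨f1, fun ω hω => (f2 ω (hL hω)).1⟩
      · rintro ⟨hm0, hn0⟩ K' hK' a ha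
        obtain ⟨f1, f2⟩ := hb m n (by omega) (by omega)
        have hcases : a = 0 ∨ a = 1 ∨ a = 2 ∨ a = 3 := by
          fin_cases a <;> simp
        rcases hcases with rfl | rfl | rfl | rfl
        · right; left
          intro w hw
          have := (f2 w (hL (hK' hw))).2.1 (ha w hw)
          omega
        · left
          refine hIgt K' hK' fun w hw => ?_
          have := (f2 w (hL (hK' hw))).2.2.1 (ha w hw)
          omega
        · right; right
          intro w hw
          have := (f2 w (hL (hK' hw))).2.2.2.1 (ha w hw)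
          omega
        · left
          refine hJgt K' hK' fun w hw => ?_
          have := (f2 w (hL (hK' hw))).2.2.2.2 (ha w hw)
          omega
      · intro hex K' hK'
        by_cases hn0 : n + 1 < q
        · right; left
          intro w hw
          have h3 : ¬ (m + 1 < p) := fun h => hex ⟨h, hn0⟩
          have h4 := hI w (hL (hK' hw))
          omega
        · right; right
          intro w hw
          have h4 := hJ w (hL (hK' hw))
          omega
      intro K4 hK4 hne4 hC4
      have s43 := hK4
      have s42 := s43.trans hK3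
      have s41 := s42.trans hK2
      have s4L := s41.trans hK1
      refine s2_mono (by linarith) (fin K4 s4L hne4 ?_)
      by_cases hA : 2 * K4.card ≤ L.card
      · exact Or.inl hA
      right
      have nA : ∀ K' : Finset (τ → SignType), K4 ⊆ K' → ¬ 2 * K'.card ≤ L.card := by
        intro K' h h'
        exact hA (le_trans (Nat.mul_le_mul_left 2 (Finset.card_le_card h)) h')
      have c1 : (∀ w ∈ K4, m ≤ I w) ∨ (∀ w ∈ K4, n ≤ J w) := by
        rcases hC1 with h | h | h
        · exact absurd h (nA K1 s41)
        · exact Or.inl fun w hw => h w (s41 hw)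
        · exact Or.inr fun w hw => h w (s41 hw)
      have c2 : (∀ w ∈ K4, m ≤ I w) ∨ (∀ w ∈ K4, J w ≤ n) := by
        rcases hC2 with h | h | h
        · exact absurd h (nA K2 s42)
        · exact Or.inl fun w hw => h w (s42 hw)
        · exact Or.inr fun w hw => h w (s42 hw)
      have c3 : (∀ w ∈ K4, I w ≤ m) ∨ (∀ w ∈ K4, n ≤ J w) := by
        rcases hC3 with h | h | h
        · exact absurd h (nA K3 s43)
        · exact Or.inl fun w hw => h w (s43 hw)
        · exact Or.inr fun w hw => h w (s43 hw)
      have c4 : (∀ w ∈ K4, I w ≤ m) ∨ (∀ w ∈ K4, J w ≤ n) := by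
        rcases hC4 with h | h | h
        · exact absurd h hA
        · exact Or.inl h
        · exact Or.inr h
      by_cases hge : ∀ w ∈ K4, m ≤ I w
      · by_cases hle : ∀ w ∈ K4, I w ≤ m
        · exact Or.inl fun w hw => le_antisymm (hle w hw) (hge w hw)
        · have d1 := c3.resolve_left hle
          have d2 := c4.resolve_left hle
          exact Or.inr fun w hw => le_antisymm (d2 w hw) (d1 w hw)
      · have d1 := c1.resolve_left hge
        have d2 := c2.resolve_left hge
        exact Or.inr fun w hw => le_antisymm (d2 w hw) (d1 w hw)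
  obtain ⟨prog, g1, g2, g3⟩ := main K subset_rfl
  exact ⟨prog, g1, g2, g3⟩

end Pool.Agent.Helper55.DH
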