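import Pool.Agent.Helper55.DH.SMedian

/-!
# DH-S0b: the one-dimensional search

`search1`: strong induction on `#K`. If `J` is constant on `K` (e.g. `K = ∅`): `done ()`. Otherwise take a median `m` (`m < q`). Ask `one (m - 1)` (if `m ≥ 1`), with
`bindK`. If the answer is `true`: all remaining worlds have `J ≤ m - 1`: at most half (and the induction hypothesis applies: fewer worlds). If the answer
is `false` (or `m = 0`): all remaining have `m ≤ J`. Then ask `one m` (if `m + 1 < q`): `true`: all have `J = m`, done. `false`: all have `J ≥ m + 1`: at most half.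
(if `m + 1 = q`: `J ≤ m` for all, done). Potential: one round has at most 2 questions; when the number of worlds is halved then
`12 * logb 2 #K' ≤ 12 * logb 2 #K - 12`, so `Eff 12 2` for the rest gives `Eff 12 2` for the whole: `2 + 2 - 12 ≤ 2`; when the search ends: `2 ≤ 2`.
The program after a question depends on the result and on the remaining set `K'` (second argument of the continuation in `bindK`); use
`fun a K' => if h : K'.card < K.card ∧ (hypotheses for K') then Classical.choose (ih K' …) else .done ()`. All facts on the remaining worlds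
come from `DTree.eval_of_mem_refine` (they give the same answer) and `DTree.refine_subset`.
-/

open Classical

namespace Pool.Agent.Helper55.DH

/-- There is a program for the set `K` of worlds with potential at most `b` which finds `J`. -/
private def S1Good {τ : Type} (S : Set τ) (J : (τ → SignType) → ℕ) (K : Finset (τ → SignType)) (b : ℝ) : Prop :=
  ∃ prog : DTree τ Unit, prog.All S ∧
    (∀ ω ∈ K, (prog.cost ω : ℝ) + 12 * Real.logb 2 (prog.refine ω K).card ≤ b) ∧
    ∀ ω ∈ K, ∀ w ∈ prog.refine ω K, J w = J ω

private theorem s1_mono {τ : Type} {S : Set τ} {J : (τ → SignType) → ℕ} {K : Finset (τ → SignType)} {b b' : ℝ}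
    (hb : b ≤ b') (h : S1Good S J K b) : S1Good S J K b' := by
  obtain ⟨prog, h1, h2, h3⟩ := h
  exact ⟨prog, h1, fun ω hω => (h2 ω hω).trans hb, h3⟩

private theorem s1_const {τ : Type} (S : Set τ) {J : (τ → SignType) → ℕ} {K : Finset (τ → SignType)}
    (h : ∀ ω ∈ K, ∀ w ∈ K, J w = J ω) : S1Good S J K (12 * Real.logb 2 K.card) := by
  refine ⟨.done (), trivial, fun ω _ => ?_, fun ω hω w hw => h ω hω w hw⟩
  simp [DTree.cost, DTree.refine]

private theorem s1_bind {τ α : Type} {S : Set τ} {J : (τ → SignType) → ℕ} {K : Finset (τ → SignType)} {b : ℝ} {c : ℕ}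
    {p : DTree τ α} (hp : p.All S) (hc : ∀ ω ∈ K, p.cost ω ≤ c)
    (h : ∀ ω ∈ K, S1Good S J (p.refine ω K) (b - c)) : S1Good S J K b := by
  let F : α → Finset (τ → SignType) → DTree τ Unit := fun _ K' =>
    if h : S1Good S J K' (b - c) then Classical.choose h else .done ()
  have hF : ∀ a K', (hK : S1Good S J K' (b - c)) → F a K' = Classical.choose hK := by
    intro a K' hK
    exact dif_pos hK
  refine ⟨p.bindK K F, DTree.all_bindK hp K ?_, ?_, ?_⟩
  · intro a K'
    by_cases hK : S1Good S J K' (b - c)
    · rw [hF a K' hK]
      exact (Classical.choose_spec hK).1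
    · have : F a K' = .done () := dif_neg hK
      rw [this]
      trivial
  · intro ω hω
    have hK := h ω hω
    have h1 := (Classical.choose_spec hK).2.1 ω (DTree.mem_refine_self p hω)
    rw [DTree.cost_bindK, DTree.refine_bindK, hF (p.eval ω) _ hK]
    have h2 : (p.cost ω : ℝ) ≤ c := by exact_mod_cast hc ω hω
    push_cast
    linarith
  · intro ω hω w hw
    have hK := h ω hω
    rw [DTree.refine_bindK, hF (p.eval ω) _ hK] at hw
    exact (Classical.choose_spec hK).2.2 ω (DTree.mem_refine_self p hω) w hw

theorem search1 {τ : Type} (S : Set τ) (J : (τ → SignType) → ℕ) (q : ℕ) (one : ℕ → DTree τ Bool)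
    (K : Finset (τ → SignType)) (hJ : ∀ ω ∈ K, J ω < q)
    (h : ∀ t, t + 1 < q → (one t).All S ∧ ∀ ω ∈ K, (one t).cost ω ≤ 1 ∧ ((one t).eval ω = true ↔ J ω ≤ t)) :
    ∃ prog : DTree τ Unit, prog.All S ∧ DTree.Eff 12 2 K prog ∧ ∀ ω ∈ K, ∀ w ∈ prog.refine ω K, J w = J ω := by
  have main : ∀ K' : Finset (τ → SignType), K' ⊆ K → S1Good S J K' (2 + 12 * Real.logb 2 K'.card) := by
    intro K'
    induction K' using Finset.strongInduction with
    | H L ih =>
      intro hL
      by_cases hconst : ∀ ω ∈ L, ∀ w ∈ L, J w = J ω
      · exact s1_mono (by linarith) (s1_const S hconst)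
      have hLne : L.Nonempty := by
        rw [Finset.nonempty_iff_ne_empty]
        rintro rfl
        exact hconst (by simp)
      obtain ⟨m, hm1, hm2, x, hxL, hx⟩ := exists_median L hLne J
      have hmq : m < q := hx ▸ hJ x (hL hxL)
      set b : ℝ := 2 + 12 * Real.logb 2 L.card with hb
      -- at most half of the worlds, or `J` constant
      have claim2 : ∀ K' : Finset (τ → SignType), K' ⊆ L → K'.Nonempty →
          (2 * K'.card ≤ L.card ∨ ∀ ω ∈ K', ∀ w ∈ K', J w = J ω) → S1Good S J K' (b - 2) := by
        intro K' hK' hne hcase
        have hpos : 0 < K'.card := Finset.card_pos.mpr hne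
        rcases hcase with hhalf | hc
        · have hss : K' ⊂ L := by
            refine Finset.ssubset_iff_subset_ne.mpr ⟨hK', ?_⟩
            rintro rfl
            omega
          have h1 := ih K' hss (hK'.trans hL)
          have h2 := logb_half hpos hhalf
          refine s1_mono ?_ h1
          rw [hb]
          linarith
        · have h2 : Real.logb 2 K'.card ≤ Real.logb 2 L.card := by
            apply Real.logb_le_logb_of_le (by norm_num) (by exact_mod_cast hpos)
            exact_mod_cast Finset.card_le_card hK'
          refine s1_mono ?_ (s1_const S hc)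
          rw [hb]
          linarith
      have claim1 : ∀ K' : Finset (τ → SignType), K' ⊆ L → K'.Nonempty → (∀ ω ∈ K', m ≤ J ω) →
          S1Good S J K' (b - 1) := by
        intro K' hK' hne hmJ
        by_cases hmq' : m + 1 < q
        · obtain ⟨h1, h2⟩ := h m hmq'
          refine s1_bind (c := 1) h1 (fun ω hω => (h2 ω (hL (hK' hω))).1) ?_
          intro ω hω
          have hsub : (one m).refine ω K' ⊆ K' := DTree.refine_subset ω (one m) K'
          have hmem : ω ∈ (one m).refine ω K' := DTree.mem_refine_self (one m) hω
          refine s1_mono (b := b - 2) (by push_cast; linarith) (claim2 _ (hsub.trans hK') ⟨ω, hmem⟩ ?_)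
          have hev : ∀ w ∈ (one m).refine ω K', ((one m).eval ω = true ↔ J w ≤ m) := by
            intro w hw
            rw [← DTree.eval_of_mem_refine (one m) hw]
            exact (h2 w (hL (hK' (hsub hw)))).2
          by_cases he : (one m).eval ω = true
          · right
            have hJm : ∀ w ∈ (one m).refine ω K', J w = m := fun w hw =>
              le_antisymm ((hev w hw).1 he) (hmJ w (hsub hw))
            intro w hw w' hw'
            rw [hJm w hw, hJm w' hw']
          · left
            refine le_trans (Nat.mul_le_mul_left 2 (Finset.card_le_card ?_)) hm2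
            intro w hw
            rw [Finset.mem_filter]
            refine ⟨hK' (hsub hw), ?_⟩
            by_contra hlt
            exact he ((hev w hw).2 (not_lt.mp hlt))
        · refine s1_mono (b := b - 2) (by linarith) (claim2 K' hK' hne (Or.inr ?_))
          have hJm : ∀ w ∈ K', J w = m := fun w hw => by
            have h3 := hJ w (hL (hK' hw))
            have h4 := hmJ w hw
            omega
          intro w hw w' hw'
          rw [hJm w hw, hJm w' hw']
      rcases Nat.eq_zero_or_pos m with hm0 | hmpos
      · refine s1_mono (b := b - 1) (by linarith) (claim1 L subset_rfl hLne ?_)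
        intro ω _
        omega
      · obtain ⟨h1, h2⟩ := h (m - 1) (by omega)
        refine s1_bind (c := 1) h1 (fun ω hω => (h2 ω (hL hω)).1) ?_
        intro ω hω
        have hsub : (one (m - 1)).refine ω L ⊆ L := DTree.refine_subset ω (one (m - 1)) L
        have hmem : ω ∈ (one (m - 1)).refine ω L := DTree.mem_refine_self (one (m - 1)) hω
        have hev : ∀ w ∈ (one (m - 1)).refine ω L, ((one (m - 1)).eval ω = true ↔ J w ≤ m - 1) := by
          intro w hw
          rw [← DTree.eval_of_mem_refine (one (m - 1)) hw]
          exact (h2 w (hL (hsub hw))).2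
        by_cases he : (one (m - 1)).eval ω = true
        · refine s1_mono (b := b - 2) (by push_cast; linarith) (claim2 _ hsub ⟨ω, hmem⟩ (Or.inl ?_))
          refine le_trans (Nat.mul_le_mul_left 2 (Finset.card_le_card ?_)) hm1
          intro w hw
          rw [Finset.mem_filter]
          refine ⟨hsub hw, ?_⟩
          have := (hev w hw).1 he
          omega
        · have h5 := claim1 _ hsub ⟨ω, hmem⟩ (fun w hw => by
            by_contra hlt
            exact he ((hev w hw).2 (by omega)))
          exact s1_mono (by push_cast; linarith) h5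
  obtain ⟨prog, h1, h2, h3⟩ := main K subset_rfl
  exact ⟨prog, h1, h2, h3⟩

end Pool.Agent.Helper55.DH
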