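import Pool.Agent.Helper55.DH.GSign

/-!
# DH-S5b: checking that a list is sorted

`sort_check`: for `l = a :: b :: l'`: ask `lx a b` (one or two tests: test 0 with `![a, b, b, b, b]`, if the answer is 0 test 1), then continue with `b :: l'` (ignore the answers, result `()`).
If all answers are `lx = 1` in the world `ω`, then the same in every remaining world (they give the same answers: e.g. let the program return the list of all answers and use
`DTree.eval_of_mem_refine`, then `DTree.map`), and consecutive `lx = 1` gives sorted by transitivity (`List.IsChain`/`List.pairwise`; `exists_rep`, `Rep`: `lx w i j` is the sign of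
`(P j).1 - (P i).1`).
`lx_ne_zero`: from `Rep`: all members of `take` are before, all of `drop` after `x`.
-/

open Classical

namespace Pool.Agent.Helper55.DH

variable {N : ℕ}

private theorem sc_aux (l : List (Fin N)) :
    ∃ p : DTree (Tst N) Unit, p.All {q | ∀ k, q.2 k ∈ l} ∧ (∀ ω, p.cost ω ≤ 2 * l.length) ∧
      ∀ (ω : Tst N → SignType) (K : Finset (Tst N → SignType)),
        l.IsChain (fun i j => lx ω i j = 1) → ∀ w ∈ p.refine ω K, l.IsChain (fun i j => lx w i j = 1) := by
  induction l with
  | nil => exact ⟨.done (), trivial, fun _ => by simp [DTree.cost], fun _ _ _ _ _ => List.IsChain.nil⟩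
  | cons a l ih =>
    obtain ⟨p, h1, h2, h3⟩ := ih
    have h1' : p.All {q | ∀ k, q.2 k ∈ a :: l} := by
      refine DTree.All.mono ?_ h1
      intro q hq k
      exact List.mem_cons_of_mem _ (hq k)
    cases l with
    | nil =>
      exact ⟨p, h1', fun ω => (h2 ω).trans (by simp), fun _ _ _ _ _ => List.IsChain.singleton _⟩
    | cons b l =>
      have hm : ∀ k, (![a, b, b, b, b] : Fin 5 → Fin N) k ∈ a :: b :: l := by
        intro k
        fin_cases k <;> simp
      refine ⟨.ask (0, ![a, b, b, b, b]) fun s => if s ≠ 0 then p else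
        .ask (1, ![a, b, b, b, b]) fun _ => p, ⟨hm, fun s => ?_⟩, fun ω => ?_, ?_⟩
      · change DTree.All _ (if s ≠ 0 then p else DTree.ask (1, ![a, b, b, b, b]) fun _ => p)
        by_cases hs : s = 0
        · rw [if_neg (not_not.2 hs)]
          exact ⟨hm, fun _ => h1'⟩
        · rw [if_pos hs]
          exact h1'
      · have h4 := h2 ω
        simp only [DTree.cost, List.length_cons] at h4 ⊢
        by_cases hs : ω (0, ![a, b, b, b, b]) = 0
        · rw [if_neg (not_not.2 hs)]
          simp only [DTree.cost]
          omega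
        · rw [if_pos hs]
          omega
      · intro ω K hc w hw
        rw [List.isChain_cons_cons] at hc ⊢
        simp only [DTree.refine] at hw
        by_cases hs : ω (0, ![a, b, b, b, b]) = 0
        · rw [if_neg (not_not.2 hs)] at hw
          simp only [DTree.refine] at hw
          have h5 := DTree.refine_subset _ _ _ hw
          have h6 := (Finset.mem_filter.1 h5).2
          have h7 := (Finset.mem_filter.1 (Finset.mem_filter.1 h5).1).2
          refine ⟨?_, h3 ω _ hc.2 w hw⟩
          have h8 := hc.1
          unfold lx at h8 ⊢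
          rw [h6, h7]
          exact h8
        · rw [if_pos hs] at hw
          have h5 := DTree.refine_subset _ _ _ hw
          have h7 := (Finset.mem_filter.1 h5).2
          refine ⟨?_, h3 ω _ hc.2 w hw⟩
          have h8 := hc.1
          unfold lx at h8 ⊢
          rw [h7, if_pos hs]
          rw [if_pos hs] at h8
          exact h8

theorem sort_check (l : List (Fin N)) (K : Finset (Tst N → SignType)) (hK : K ⊆ Om N) :
    ∃ p : DTree (Tst N) Unit, p.All {q | ∀ k, q.2 k ∈ l} ∧ (∀ ω, p.cost ω ≤ 2 * l.length) ∧
      ∀ ω ∈ K, Srt ω l → ∀ w ∈ p.refine ω K, Srt w l := by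
  obtain ⟨p, h1, h2, h3⟩ := sc_aux l
  refine ⟨p, h1, h2, fun ω _ hs w hw => ?_⟩
  have h4 := h3 ω K (List.Pairwise.isChain hs) w hw
  obtain ⟨P, h⟩ := exists_rep (hK (DTree.refine_subset _ _ _ hw))
  rw [srt_iff h]
  simp only [lx_eq_one_iff h] at h4
  have : IsTrans (Fin N) (fun i j => (P i).1 < (P j).1) := ⟨fun _ _ _ => lt_trans⟩
  exact List.isChain_iff_pairwise.1 h4

theorem lx_ne_zero {ω : Tst N → SignType} (hω : ω ∈ Om N) {l : List (Fin N)} {k : ℕ} {x : Fin N}
    (h : Srt ω (l.take k ++ x :: l.drop k)) : ∀ i ∈ l, lx ω i x ≠ 0 := by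
  obtain ⟨P, hP⟩ := exists_rep hω
  rw [srt_iff hP] at h
  unfold SrtR at h
  rw [List.pairwise_append, List.pairwise_cons] at h
  intro i hi
  rw [← List.take_append_drop k l, List.mem_append] at hi
  rw [hP.lx]
  intro h0
  rw [sign_eq_zero_iff] at h0
  rcases hi with hi | hi
  · have := h.2.2 i hi x (List.mem_cons_self)
    linarith
  · have := h.2.1.1 i hi
    linarith

end Pool.Agent.Helper55.DH
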