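import Pool.Agent.Helper55.DH.Core
import Mathlib.Tactic

/-!
# The sign tests on the points of an epoch

`Tst N`: tests on configurations `c : Fin N → ℝ × ℝ`. The worlds are the sign patterns `ω : Tst N → SignType`; `Om N` = the set of the
sign patterns of configurations.
-/

open Classical

namespace Pool.Agent.Helper55.DH

/-- The cross product. -/
def cross (u v : ℝ × ℝ) : ℝ := u.1 * v.2 - u.2 * v.1

/-- The value of test number `k` at five points. -/
def val (k : Fin 5) (p : Fin 5 → ℝ × ℝ) : ℝ :=
  match k with
  | 0 => (p 1).1 - (p 0).1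
  | 1 => (p 1).2 - (p 0).2
  | 2 => cross (p 1 - p 0) (p 3 - p 2)
  | 3 => cross (p 0 - p 4) (p 1 - p 4) * ((p 3).1 - (p 2).1) - cross (p 2 - p 4) (p 3 - p 4) * ((p 1).1 - (p 0).1)
  | 4 => cross (p 0 - p 4) (p 1 - p 4) * ((p 3).2 - (p 2).2) - cross (p 2 - p 4) (p 3 - p 4) * ((p 1).2 - (p 0).2)

/-- Tests on configurations of `N` points. -/
abbrev Tst (N : ℕ) : Type := Fin 5 × (Fin 5 → Fin N)

/-- The sign pattern of a configuration. -/
noncomputable def sgn {N : ℕ} (c : Fin N → ℝ × ℝ) : Tst N → SignType :=
  fun q => SignType.sign (val q.1 fun i => c (q.2 i))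

/-- The realised sign patterns. -/
noncomputable def Om (N : ℕ) : Finset (Tst N → SignType) := Finset.univ.filter fun ω => ∃ c, sgn c = ω

/-- The lexicographic sign of a vector. -/
noncomputable def lexs (v : ℝ × ℝ) : SignType := if v.1 ≠ 0 then SignType.sign v.1 else SignType.sign v.2

section
variable {N : ℕ} (ω : Tst N → SignType)

/-- Lexicographic comparison of the points `i` and `j` (`1` iff `i` is before `j`). -/
def lx (i j : Fin N) : SignType := if ω (0, ![i, j, j, j, j]) ≠ 0 then ω (0, ![i, j, j, j, j]) else ω (1, ![i, j, j, j, j])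

/-- The sign of the cross product of the vectors from `i` to `j` and from `k` to `l`. -/
def cr (i j k l : Fin N) : SignType := ω (2, ![i, j, k, l, l])

/-- Comparison of the heights of the lines `i j` and `k l` over `m` (`1` or `0`: the line `i j` is at most as high as the line `k l`). -/
def hg (i j k l m : Fin N) : SignType :=
  if ω (3, ![i, j, k, l, m]) ≠ 0 then ω (3, ![i, j, k, l, m]) else ω (4, ![i, j, k, l, m])

/-- The list is sorted (strictly, lexicographically) in the world `ω`. -/
def Srt (l : List (Fin N)) : Prop := l.Pairwise fun i j => lx ω i j = 1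

/-- The upper hull (vertices only) in the world `ω` of a sorted list. -/
noncomputable def U (l : List (Fin N)) : List (Fin N) :=
  l.filter fun z => decide (∀ a ∈ l, ∀ b ∈ l, lx ω a z = 1 → lx ω z b = 1 → cr ω a z a b = -1)

/-- The world in which all points are replaced by their negatives. -/
def neg : Tst N → SignType := fun q => if q.1 = 2 then ω q else - ω q

/-- The upper and the lower hull of the points of the list `b` are known, if the possible worlds are those of `K`. -/
def Known (K : Finset (Tst N → SignType)) (b : List (Fin N)) : Prop :=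
  ∀ ω ∈ K, ∀ w ∈ K, U w b = U ω b ∧ U (neg w) b.reverse = U (neg ω) b.reverse

end

/-- Real points `P` (in general the sheared points of a configuration) which have the sign pattern `ω`; different `x`-coordinates. -/
structure Rep {N : ℕ} (ω : Tst N → SignType) (P : Fin N → ℝ × ℝ) : Prop where
  lx : ∀ i j, lx ω i j = SignType.sign ((P j).1 - (P i).1)
  eq : ∀ i j, DH.lx ω i j = 0 → P i = P j
  cr : ∀ i j k l, cr ω i j k l = SignType.sign (cross (P j - P i) (P l - P k))
  hg : ∀ i j k l m, hg ω i j k l m = SignType.sign
    (cross (P i - P m) (P j - P m) * ((P l).1 - (P k).1) - cross (P k - P m) (P l - P m) * ((P j).1 - (P i).1))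

/-- The shear. -/
def shear (ε : ℝ) (z : ℝ × ℝ) : ℝ × ℝ := (z.1 + ε * z.2, z.2)

section
variable {ι : Type} (P : ι → ℝ × ℝ)

/-- Strictly increasing `x`-coordinates. -/
def SrtR (l : List ι) : Prop := l.Pairwise fun i j => (P i).1 < (P j).1

/-- The upper hull (vertices only) of a list of points. -/
noncomputable def UR (l : List ι) : List ι :=
  l.filter fun z => decide (∀ a ∈ l, ∀ b ∈ l, (P a).1 < (P z).1 → (P z).1 < (P b).1 → cross (P z - P a) (P b - P a) < 0)

end

end Pool.Agent.Helper55.DH
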