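import Mathlib.Tactic

/-!
# DH: leaf trees with the AVL condition (definitions)
-/

open Classical

namespace Pool.Agent.Helper55.DH

/-- Binary trees with data in the leaves. -/
inductive Tre (α : Type) : Type
  | nil : Tre α
  | leaf (a : α) : Tre α
  | node (l r : Tre α) : Tre α

namespace Tre

variable {α : Type}

def toList : Tre α → List α
  | nil => []
  | leaf a => [a]
  | node l r => l.toList ++ r.toList

def height : Tre α → ℕ
  | nil => 0
  | leaf _ => 0
  | node l r => max l.height r.height + 1

/-- The lists of leaves of all subtrees. -/
def blocks : Tre α → List (List α)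
  | nil => []
  | leaf a => [[a]]
  | node l r => (l.toList ++ r.toList) :: (l.blocks ++ r.blocks)

/-- The AVL condition; `nil` occurs only as the whole tree. -/
def Good : Tre α → Prop
  | nil => True
  | leaf _ => True
  | node l r => l ≠ nil ∧ r ≠ nil ∧ l.Good ∧ r.Good ∧ l.height ≤ r.height + 1 ∧ r.height ≤ l.height + 1

/-- The number of blocks of `t` which are not in `B`. -/
noncomputable def newBlocks (t : Tre α) (B : List (List α)) : ℕ := (t.blocks.filter fun b => decide (b ∉ B)).length

end Tre

end Pool.Agent.Helper55.DH
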