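import Pool.Agent.Helper55.DH.Tree

/-!
# DH-V2: the balancing lemma of AVL trees

`balance`: `l`, `r` good, not `nil`, heights differ by at most 2. If they differ by at most 1: `node l r`, `X = [whole list]`. If `l.height = r.height + 2`: `l = node a b`
(height at least 2). If `b.height ≤ a.height`: `node a (node b r)`: heights: `a = r.h + 1`, `b ∈ {r.h, r.h + 1}`, `node b r ∈ {r.h + 1, r.h + 2}`, total height
`∈ {r.h + 2, r.h + 3}`; `X` = the whole list and `b.toList ++ r.toList`. Otherwise `b.height = a.height + 1 = r.h + 1`, so `b = node b1 b2` (its height is at
least 1), and `node (node a b1) (node b2 r)` is good of height `r.h + 2`; `X` has 3 members. (`a.height = r.h`, `b1, b2 ∈ {r.h - 1, r.h}`.) The children of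
a good `node` are not `nil`. Symmetrically for `r.height = l.height + 2`. `Subperm`: rearrange with `List.Perm` lemmas (`List.subperm_iff`, or count: prove
`∀ b, t.blocks.count b ≤ (X ++ …).count b` via `List.subperm_ext_iff`/`simp [List.count_cons, List.count_append]; omega`).
`nb_le`: `List.Subperm.filter`, `List.Subperm.length_le`, `List.filter_append`, `List.length_filter_le`.
-/

open Classical

namespace Pool.Agent.Helper55.DH

namespace Tre

variable {α : Type}

private theorem ne_nil_of_height {t : Tre α} (h : 1 ≤ t.height) : ∃ a b : Tre α, t = node a b := by
  cases t with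
  | nil => simp [height] at h
  | leaf a => simp [height] at h
  | node a b => exact ⟨a, b, rfl⟩

private theorem sub_of_count {A B : List (List α)} (h : ∀ x, A.count x ≤ B.count x) : A.Subperm B :=
  List.subperm_ext_iff.mpr fun x _ => h x

theorem balance {l r : Tre α} (hl : l.Good) (hr : r.Good) (hl0 : l ≠ nil) (hr0 : r ≠ nil)
    (h1 : l.height ≤ r.height + 2) (h2 : r.height ≤ l.height + 2) :
    ∃ t : Tre α, t.Good ∧ t ≠ nil ∧ t.toList = l.toList ++ r.toList ∧
      max l.height r.height ≤ t.height ∧ t.height ≤ max l.height r.height + 1 ∧
      (l.height ≤ r.height + 1 → r.height ≤ l.height + 1 → t.height = max l.height r.height + 1) ∧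
      ∃ X : List (List α), X.length ≤ 3 ∧ t.blocks.Subperm (X ++ (l.blocks ++ r.blocks)) := by
  by_cases c1 : l.height ≤ r.height + 1
  · by_cases c2 : r.height ≤ l.height + 1
    · refine ⟨node l r, ⟨hl0, hr0, hl, hr, c1, c2⟩, by simp, rfl, ?_, ?_, ?_, [l.toList ++ r.toList], by simp, ?_⟩
      · simp only [height]; omega
      · simp only [height]; omega
      · intro _ _; rfl
      · refine sub_of_count fun x => ?_
        simp only [blocks, List.count_cons, List.count_append, List.count_nil]
        omega
    · have h3 : r.height = l.height + 2 := by omega
      obtain ⟨a, b, rfl⟩ := ne_nil_of_height (t := r) (by omega)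
      obtain ⟨ha0, hb0, ha, hb, hab1, hab2⟩ := hr
      simp only [height] at h3 h1 h2 c1 c2
      by_cases c3 : a.height ≤ b.height
      · refine ⟨node (node l a) b, ⟨by simp, hb0, ⟨hl0, ha0, hl, ha, by omega, by omega⟩, hb, ?_, ?_⟩, by simp, ?_, ?_, ?_, ?_,
          [(l.toList ++ a.toList) ++ b.toList, l.toList ++ a.toList], by simp, ?_⟩
        · simp only [height]; omega
        · simp only [height]; omega
        · simp only [toList, List.append_assoc]
        · simp only [height]; omega
        · simp only [height]; omega
        · intro h4 h5
          simp only [height] at h4 h5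
          omega
        · refine sub_of_count fun x => ?_
          simp only [blocks, toList, List.count_cons, List.count_append, List.count_nil]
          omega
      · obtain ⟨a1, a2, rfl⟩ := ne_nil_of_height (t := a) (by omega)
        obtain ⟨ha10, ha20, ha1, ha2, ha12, ha21⟩ := ha
        simp only [height] at h3 h1 h2 c1 c2 c3 hab1 hab2
        refine ⟨node (node l a1) (node a2 b), ⟨by simp, by simp, ⟨hl0, ha10, hl, ha1, by omega, by omega⟩,
          ⟨ha20, hb0, ha2, hb, by omega, by omega⟩, ?_, ?_⟩, by simp, ?_, ?_, ?_, ?_,
          [(l.toList ++ a1.toList) ++ (a2.toList ++ b.toList), l.toList ++ a1.toList, a2.toList ++ b.toList], by simp, ?_⟩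
        · simp only [height]; omega
        · simp only [height]; omega
        · simp only [toList, List.append_assoc]
        · simp only [height]; omega
        · simp only [height]; omega
        · intro h4 h5
          simp only [height] at h4 h5
          omega
        · refine sub_of_count fun x => ?_
          simp only [blocks, toList, List.count_cons, List.count_append, List.count_nil]
          omega
  · have h3 : l.height = r.height + 2 := by omega
    obtain ⟨a, b, rfl⟩ := ne_nil_of_height (t := l) (by omega)
    obtain ⟨ha0, hb0, ha, hb, hab1, hab2⟩ := hl
    simp only [height] at h3 h1 h2 c1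
    by_cases c3 : b.height ≤ a.height
    · refine ⟨node a (node b r), ⟨ha0, by simp, ha, ⟨hb0, hr0, hb, hr, by omega, by omega⟩, ?_, ?_⟩, by simp, ?_, ?_, ?_, ?_,
        [a.toList ++ (b.toList ++ r.toList), b.toList ++ r.toList], by simp, ?_⟩
      · simp only [height]; omega
      · simp only [height]; omega
      · simp only [toList, List.append_assoc]
      · simp only [height]; omega
      · simp only [height]; omega
      · intro h4 h5
        simp only [height] at h4 h5
        omega
      · refine sub_of_count fun x => ?_
        simp only [blocks, toList, List.count_cons, List.count_append, List.count_nil]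
        omega
    · obtain ⟨b1, b2, rfl⟩ := ne_nil_of_height (t := b) (by omega)
      obtain ⟨hb10, hb20, hb1, hb2, hb12, hb21⟩ := hb
      simp only [height] at h3 h1 h2 c1 c3 hab1 hab2
      refine ⟨node (node a b1) (node b2 r), ⟨by simp, by simp, ⟨ha0, hb10, ha, hb1, by omega, by omega⟩,
        ⟨hb20, hr0, hb2, hr, by omega, by omega⟩, ?_, ?_⟩, by simp, ?_, ?_, ?_, ?_,
        [(a.toList ++ b1.toList) ++ (b2.toList ++ r.toList), a.toList ++ b1.toList, b2.toList ++ r.toList], by simp, ?_⟩
      · simp only [height]; omega
      · simp only [height]; omega
      · simp only [toList, List.append_assoc]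
      · simp only [height]; omega
      · simp only [height]; omega
      · intro h4 h5
        simp only [height] at h4 h5
        omega
      · refine sub_of_count fun x => ?_
        simp only [blocks, toList, List.count_cons, List.count_append, List.count_nil]
        omega

theorem nb_le {X Y Z B : List (List α)} (h : Z.Subperm (X ++ Y)) :
    (Z.filter fun b => decide (b ∉ B)).length ≤ X.length + (Y.filter fun b => decide (b ∉ B)).length := by
  have h1 := (h.filter (fun b => decide (b ∉ B))).length_le
  rw [List.filter_append, List.length_append] at h1
  have h2 := List.length_filter_le (fun b => decide (b ∉ B)) X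
  omega

end Tre

end Pool.Agent.Helper55.DH
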