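import Pool.Agent.Helper55.DH.TreeBal

/-!
# DH-V4: deletion

`erase_good`: for `t = leaf a` (`k = 0`) the result is `nil`. For `t = node l r` the auxiliary statement: the result is not `nil`, its height is `t.height - 1` or `t.height`,
and the number of new blocks is at most `3 * t.height`. Induction: if `k < l.toList.length`: if `l = leaf a`: the result is `r` (no new block; `t.height = r.height + 1`).
Otherwise erase in `l` (a node), get `l' ≠ nil` with `l'.height ∈ {l.height - 1, l.height}`, and `balance l' r`. Symmetrically for `r`.
Heights: if `l'`, `r` differ by at most one, the new height is `max l'.height r.height + 1`, which is `t.height` or `t.height - 1`; if they differ by two, then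
`r.height = l.height + 1 = l'.height + 2`, `t.height = r.height + 1`, and the new height is in `{r.height, r.height + 1}`. Counting of blocks as in V3 (with `nb_le`).
-/

open Classical

namespace Pool.Agent.Helper55.DH

namespace Tre

variable {α : Type}

private theorem ers_sub {B C : List (List α)} (h : ∀ b, b ∈ B → b ∈ C) (Y : List (List α)) :
    (Y.filter fun b => decide (b ∉ C)).length ≤ (Y.filter fun b => decide (b ∉ B)).length := by
  induction Y with
  | nil => simp
  | cons a Y ih =>
    by_cases ha : a ∈ C
    · by_cases hb : a ∈ B
      · simpa [List.filter_cons, ha, hb] using ih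
      · simp only [List.filter_cons, ha, hb, not_true_eq_false, not_false_eq_true, decide_true,
          decide_false, if_true, List.length_cons]
        simp only [Bool.false_eq_true, if_false]
        omega
    · have hb : a ∉ B := fun hh => ha (h a hh)
      simpa [List.filter_cons, ha, hb] using ih

private theorem ers_zero {B : List (List α)} {Y : List (List α)} (h : ∀ b, b ∈ Y → b ∈ B) :
    (Y.filter fun b => decide (b ∉ B)).length = 0 := by
  rw [List.length_eq_zero_iff, List.filter_eq_nil_iff]
  intro a ha
  simp [h a ha]

private theorem ers_aux (t : Tre α) (h : t.Good) (h0 : t ≠ nil) (h1 : ∀ a, t ≠ leaf a) (k : ℕ)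
    (hk : k < t.toList.length) :
    ∃ t' : Tre α, t'.Good ∧ t' ≠ nil ∧ t'.toList = t.toList.take k ++ t.toList.drop (k + 1) ∧
      t.height ≤ t'.height + 1 ∧ t'.height ≤ t.height ∧ t'.newBlocks t.blocks ≤ 3 * t.height := by
  induction t generalizing k with
  | nil => exact absurd rfl h0
  | leaf a => exact absurd rfl (h1 a)
  | node l r ihl ihr =>
    obtain ⟨hl0, hr0, hl, hr, hh1, hh2⟩ := h
    have e1 : (node l r).toList = l.toList ++ r.toList := rfl
    have hlen : (node l r).toList.length = l.toList.length + r.toList.length := by
      simp [toList]
    have sl : ∀ b, b ∈ l.blocks → b ∈ (node l r).blocks := by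
      intro b hb
      simp [blocks, hb]
    have sr : ∀ b, b ∈ r.blocks → b ∈ (node l r).blocks := by
      intro b hb
      simp [blocks, hb]
    have eht : (node l r).height = max l.height r.height + 1 := rfl
    by_cases hkl : k < l.toList.length
    · by_cases hleaf : ∃ a, l = leaf a
      · obtain ⟨a, rfl⟩ := hleaf
        have hk0 : k = 0 := by simpa [toList] using hkl
        subst hk0
        refine ⟨r, hr, hr0, ?_, ?_, ?_, ?_⟩
        · rw [e1]
          simp [toList]
        · rw [eht]
          simp [height]
        · rw [eht]
          simp [height]
        · unfold newBlocks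
          rw [ers_zero sr]
          exact Nat.zero_le _
      · obtain ⟨l', g1, g2, g3, g4, g5, g6⟩ := ihl hl hl0 (fun a ha => hleaf ⟨a, ha⟩) k hkl
        obtain ⟨t', b1, b2, b3, b4, b5, b6, X, hX, hS⟩ := balance g1 hr g2 hr0 (by omega) (by omega)
        refine ⟨t', b1, b2, ?_, ?_, ?_, ?_⟩
        · rw [b3, g3, e1, List.take_append_of_le_length hkl.le,
            List.drop_append_of_le_length (by omega : k + 1 ≤ l.toList.length)]
          simp
        · rw [eht]
          by_cases hc : r.height ≤ l'.height + 1
          · rw [b6 (by omega) hc]
            omega
          · omega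
        · rw [eht]
          by_cases hc : r.height ≤ l'.height + 1
          · rw [b6 (by omega) hc]
            omega
          · omega
        · unfold newBlocks
          refine (nb_le hS).trans ?_
          rw [List.filter_append, List.length_append, ers_zero sr]
          have q := ers_sub sl l'.blocks
          unfold newBlocks at g6
          rw [eht]
          omega
    · have hkr : k - l.toList.length < r.toList.length := by omega
      by_cases hleaf : ∃ a, r = leaf a
      · obtain ⟨a, rfl⟩ := hleaf
        have hk0 : k = l.toList.length := by
          have : k - l.toList.length < 1 := by simpa [toList] using hkr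
          omega
        refine ⟨l, hl, hl0, ?_, ?_, ?_, ?_⟩
        · rw [e1, hk0, List.take_left, List.drop_eq_nil_of_le (by simp [toList])]
          simp
        · rw [eht]
          simp [height]
        · rw [eht]
          simp [height]
        · unfold newBlocks
          rw [ers_zero sl]
          exact Nat.zero_le _
      · obtain ⟨r', g1, g2, g3, g4, g5, g6⟩ :=
          ihr hr hr0 (fun a ha => hleaf ⟨a, ha⟩) (k - l.toList.length) hkr
        obtain ⟨t', b1, b2, b3, b4, b5, b6, X, hX, hS⟩ := balance hl g1 hl0 g2 (by omega) (by omega)
        refine ⟨t', b1, b2, ?_, ?_, ?_, ?_⟩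
        · rw [b3, g3, e1, List.take_append, List.drop_append]
          rw [List.take_of_length_le (by omega : l.toList.length ≤ k),
            List.drop_eq_nil_of_le (by omega : l.toList.length ≤ k + 1)]
          have e2 : k + 1 - l.toList.length = k - l.toList.length + 1 := by omega
          rw [e2]
          simp
        · rw [eht]
          by_cases hc : l.height ≤ r'.height + 1
          · rw [b6 hc (by omega)]
            omega
          · omega
        · rw [eht]
          by_cases hc : l.height ≤ r'.height + 1
          · rw [b6 hc (by omega)]
            omega
          · omega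
        · unfold newBlocks
          refine (nb_le hS).trans ?_
          rw [List.filter_append, List.length_append, ers_zero sl]
          have q := ers_sub sr r'.blocks
          unfold newBlocks at g6
          rw [eht]
          omega

theorem erase_good (t : Tre α) (h : t.Good) (k : ℕ) (hk : k < t.toList.length) :
    ∃ t' : Tre α, t'.Good ∧ t'.toList = t.toList.take k ++ t.toList.drop (k + 1) ∧
      t'.newBlocks t.blocks ≤ 3 * t.height + 2 := by
  by_cases h0 : t = nil
  · subst h0
    simp [toList] at hk
  by_cases hleaf : ∃ a, t = leaf a
  · obtain ⟨a, rfl⟩ := hleaf
    have hk0 : k = 0 := by simpa [toList] using hk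
    subst hk0
    refine ⟨nil, trivial, ?_, ?_⟩
    · simp [toList]
    · simp [newBlocks, blocks]
  · obtain ⟨t', g1, _, g3, _, _, g6⟩ := ers_aux t h h0 (fun a ha => hleaf ⟨a, ha⟩) k hk
    exact ⟨t', g1, g3, by omega⟩

end Tre

end Pool.Agent.Helper55.DH
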