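import Pool.Agent.Helper55.DH.TreeBal

/-!
# DH-V3: insertion

Auxiliary statement for `t ≠ nil` (induction on `t`): as below with `t'.newBlocks t.blocks ≤ 3 * t.height + 2`; for `t = nil`: `leaf x` (one new block).
`leaf a`: `k = 0`: `node (leaf x) (leaf a)`; `k = 1`: `node (leaf a) (leaf x)`: new blocks at most 2 (the whole and `[x]`).
`node l r`: if `k ≤ l.toList.length`: insert into `l`, get `l'`; the heights of `l'` and `r` differ by at most 2; `balance l' r`. Otherwise insert into `r` at
`k - l.toList.length`. `List.take_append`, `List.drop_append`. Heights: if the heights of `l'`, `r` differ by at most one, the new height is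
`max l'.height r.height + 1 ∈ {t.height, t.height + 1}`; if `l'.height = r.height + 2` then `l.height = r.height + 1`, `t.height = r.height + 2 = max l'.height r.height`.
New blocks: `nb_le` with `Y = l'.blocks ++ r.blocks`, `B = t.blocks`: no block of `r` is new, a block of `l'` which is new with respect to `t.blocks` is new with respect to
`l.blocks ⊆ t.blocks` (`List.filter` monotone in the predicate: `List.monotone_filter_right`/`Sublist`, lengths), so at most `3 + (3 * l.height + 2) ≤ 3 * t.height + 2`.
-/

open Classical

namespace Pool.Agent.Helper55.DH

namespace Tre

variable {α : Type}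

theorem nb_sub {B C : List (List α)} (h : ∀ b, b ∈ B → b ∈ C) (Y : List (List α)) :
    (Y.filter fun b => decide (b ∉ C)).length ≤ (Y.filter fun b => decide (b ∉ B)).length := by
  induction Y with
  | nil => simp
  | cons a Y ih =>
    by_cases ha : a ∈ C
    · by_cases hb : a ∈ B
      · simpa [List.filter_cons, ha, hb] using ih
      · simp only [List.filter_cons, ha, hb, not_true_eq_false, not_false_eq_true, decide_true,
          decide_false, if_true, List.length_cons]
        simp only [Bool.false_eq_true, if_false]
        omega
    · have hb : a ∉ B := fun hh => ha (h a hh)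
      simpa [List.filter_cons, ha, hb] using ih

theorem nb_zero {B : List (List α)} {Y : List (List α)} (h : ∀ b, b ∈ Y → b ∈ B) :
    (Y.filter fun b => decide (b ∉ B)).length = 0 := by
  rw [List.length_eq_zero_iff, List.filter_eq_nil_iff]
  intro a ha
  simp [h a ha]

theorem insert_aux (t : Tre α) (h : t.Good) (h0 : t ≠ nil) (k : ℕ) (hk : k ≤ t.toList.length) (x : α) :
    ∃ t' : Tre α, t'.Good ∧ t' ≠ nil ∧ t'.toList = t.toList.take k ++ x :: t.toList.drop k ∧
      t.height ≤ t'.height ∧ t'.height ≤ t.height + 1 ∧ t'.newBlocks t.blocks ≤ 3 * t.height + 2 := by
  induction t generalizing k with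
  | nil => exact absurd rfl h0
  | leaf a =>
    have hk' : k = 0 ∨ k = 1 := by
      simp only [toList, List.length_cons, List.length_nil] at hk
      omega
    rcases hk' with rfl | rfl
    · refine ⟨node (leaf x) (leaf a), ?_, ?_, ?_, ?_, ?_, ?_⟩
      · simp [Good, height]
      · simp
      · simp [toList]
      · simp [height]
      · simp [height]
      · unfold newBlocks
        have e : (node (leaf x) (leaf a) : Tre α).blocks = [[x, a], [x]] ++ [[a]] := by
          simp [blocks, toList]
        rw [e, List.filter_append, List.length_append]
        have h1 : (([[a]] : List (List α)).filter fun b => decide (b ∉ (leaf a : Tre α).blocks)).length = 0 := by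
          apply nb_zero
          intro b hb
          simpa [blocks] using hb
        have h2 := List.length_filter_le (fun b => decide (b ∉ (leaf a : Tre α).blocks)) [[x, a], [x]]
        simp only [List.length_cons, List.length_nil] at h2
        omega
    · refine ⟨node (leaf a) (leaf x), ?_, ?_, ?_, ?_, ?_, ?_⟩
      · simp [Good, height]
      · simp
      · simp [toList]
      · simp [height]
      · simp [height]
      · unfold newBlocks
        have e : (node (leaf a) (leaf x) : Tre α).blocks = [[a, x]] ++ ([[a]] ++ [[x]]) := by
          simp [blocks, toList]
        rw [e, List.filter_append, List.filter_append, List.length_append, List.length_append]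
        have h1 : (([[a]] : List (List α)).filter fun b => decide (b ∉ (leaf a : Tre α).blocks)).length = 0 := by
          apply nb_zero
          intro b hb
          simpa [blocks] using hb
        have h2 := List.length_filter_le (fun b => decide (b ∉ (leaf a : Tre α).blocks)) [[a, x]]
        have h3 := List.length_filter_le (fun b => decide (b ∉ (leaf a : Tre α).blocks)) [[x]]
        simp only [List.length_cons, List.length_nil] at h2 h3
        omega
  | node l r ihl ihr =>
    obtain ⟨hl0, hr0, hl, hr, hh1, hh2⟩ := h
    have hlen : (node l r).toList.length = l.toList.length + r.toList.length := by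
      simp [toList]
    have sl : ∀ b, b ∈ l.blocks → b ∈ (node l r).blocks := by
      intro b hb
      simp [blocks, hb]
    have sr : ∀ b, b ∈ r.blocks → b ∈ (node l r).blocks := by
      intro b hb
      simp [blocks, hb]
    have eht : (node l r).height = max l.height r.height + 1 := rfl
    by_cases hkl : k ≤ l.toList.length
    · obtain ⟨l', g1, g2, g3, g4, g5, g6⟩ := ihl hl hl0 k hkl
      obtain ⟨t', b1, b2, b3, b4, b5, b6, X, hX, hS⟩ := balance g1 hr g2 hr0 (by omega) (by omega)
      refine ⟨t', b1, b2, ?_, ?_, ?_, ?_⟩
      · rw [b3, g3]
        have e1 : (node l r).toList = l.toList ++ r.toList := rfl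
        rw [e1, List.take_append_of_le_length hkl, List.drop_append_of_le_length hkl]
        simp
      · rw [eht]
        by_cases hc : l'.height ≤ r.height + 1
        · rw [b6 hc (by omega)]
          omega
        · omega
      · rw [eht]
        by_cases hc : l'.height ≤ r.height + 1
        · rw [b6 hc (by omega)]
          omega
        · omega
      · unfold newBlocks
        refine (nb_le hS).trans ?_
        rw [List.filter_append, List.length_append, nb_zero sr]
        have q := nb_sub sl l'.blocks
        unfold newBlocks at g6
        rw [eht]
        omega
    · have hkr : k - l.toList.length ≤ r.toList.length := by omega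
      obtain ⟨r', g1, g2, g3, g4, g5, g6⟩ := ihr hr hr0 (k - l.toList.length) hkr
      obtain ⟨t', b1, b2, b3, b4, b5, b6, X, hX, hS⟩ := balance hl g1 hl0 g2 (by omega) (by omega)
      refine ⟨t', b1, b2, ?_, ?_, ?_, ?_⟩
      · rw [b3, g3]
        have e1 : (node l r).toList = l.toList ++ r.toList := rfl
        rw [e1, List.take_append, List.drop_append]
        rw [List.take_of_length_le (by omega : l.toList.length ≤ k),
          List.drop_eq_nil_of_le (by omega : l.toList.length ≤ k)]
        simp
      · rw [eht]
        by_cases hc : r'.height ≤ l.height + 1
        · rw [b6 (by omega) hc]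
          omega
        · omega
      · rw [eht]
        by_cases hc : r'.height ≤ l.height + 1
        · rw [b6 (by omega) hc]
          omega
        · omega
      · unfold newBlocks
        refine (nb_le hS).trans ?_
        rw [List.filter_append, List.length_append, nb_zero sl]
        have q := nb_sub sr r'.blocks
        unfold newBlocks at g6
        rw [eht]
        omega

theorem insert_good (t : Tre α) (h : t.Good) (k : ℕ) (hk : k ≤ t.toList.length) (x : α) :
    ∃ t' : Tre α, t'.Good ∧ t' ≠ nil ∧ t'.toList = t.toList.take k ++ x :: t.toList.drop k ∧
      t.height ≤ t'.height ∧ t'.height ≤ t.height + 1 ∧ t'.newBlocks t.blocks ≤ 3 * t.height + 2 := by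
  by_cases h0 : t = nil
  · subst h0
    refine ⟨leaf x, trivial, ?_, ?_, ?_, ?_, ?_⟩
    · simp
    · simp [toList]
    · simp [height]
    · simp [height]
    · unfold newBlocks
      refine (List.length_filter_le _ _).trans ?_
      simp [blocks]
  · exact insert_aux t h h0 k hk x

end Tre

end Pool.Agent.Helper55.DH
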