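import Pool.Agent.Helper55.DH.Locate
import Pool.Agent.Helper55.DH.SortCheck
import Pool.Agent.Helper55.DH.LearnTree
import Pool.Agent.Helper55.DH.TreeInsert
import Pool.Agent.Helper55.DH.TreeErase

/-! # DH: definitions for the updates inside an epoch -/

open Classical

namespace Pool.Agent.Helper55.DH

/-- The invariant of the knowledge `K` and the tree `t`; the slots `< n` are used. -/
def GoodK {N : ℕ} (n : ℕ) (K : Finset (Tst N → SignType)) (t : Tre (Fin N)) : Prop :=
  K ⊆ Om N ∧ (∀ i ∈ t.toList, i.val < n) ∧ t.Good ∧ (∀ ω ∈ K, Srt ω t.toList) ∧ ∀ b ∈ t.blocks, Known K b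

/-- The effect of an update with the point number `x` on the list of present points. -/
def Upd {N : ℕ} (ω : Tst N → SignType) (x : Fin N) (ins : Bool) (l l' : List (Fin N)) : Prop :=
  if ins = true then ((∃ i ∈ l, lx ω i x = 0) ∧ l' = l) ∨ ((∀ i ∈ l, lx ω i x ≠ 0) ∧ l'.Perm (x :: l))
  else (∃ i ∈ l, lx ω i x = 0 ∧ l.Perm (i :: l')) ∨ ((∀ i ∈ l, lx ω i x ≠ 0) ∧ l' = l)

/-- The list of the first `n` indices. -/
def frst (N n : ℕ) : List (Fin N) := (List.finRange N).filter fun i => decide (i.val < n)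

end Pool.Agent.Helper55.DH
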