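import Pool.Agent.Helper55.DH.WDeriv
import Mathlib.Analysis.Calculus.FDeriv.Pow
import Mathlib.Analysis.Calculus.FDeriv.Prod
import Mathlib.Analysis.Calculus.FDeriv.Mul
import Mathlib.LinearAlgebra.Matrix.NonsingularInverse
import Mathlib.LinearAlgebra.Matrix.ToLinearEquiv

/-!
# DH-W2: nondegenerate zeros persist

`Ψ : ℝ × (ν → ℝ) → ℝ × (ν → ℝ)`, `Ψ (t, z) = (t, fun j => eval z (F j) + t * z j ^ (E + 1))` is smooth (polynomial), so strictly differentiable; at `(0, z0)` its derivative is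
`(s, v) ↦ (s, fun j => (dF_j)(v) + s * z0 j ^ (E+1))`, which is injective for a nondegenerate zero `z0` (`s = 0`, then the Jacobian matrix times `v` is 0), so it is a
continuous linear equivalence (finite dimension, `LinearEquiv.ofInjectiveEndo`, `toContinuousLinearEquiv`). `HasStrictFDerivAt.map_nhds_eq_of_equiv`: the image of a
neighbourhood of `(0, z0)` is a neighbourhood of `(0, 0)`. For every `z0 ∈ Z` let `V z0` be the open ball around `z0` of radius `r` = half of the minimal distance (so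
these balls are disjoint). For all small `t` there is `z' ∈ V z0` with `Ψ (t, z') = (t, 0)`. Take one small `t ≠ 0` for all `z0 ∈ Z` (finite intersection of neighbourhoods
of `0` in `ℝ`), and `Z'` = the image of `Z` under a choice function `z0 ↦ z' ∈ V z0` (injective).
The derivative of `z ↦ eval z p` is in `WDeriv`.
-/

set_option autoImplicit false

namespace Pool.Agent.Helper55.DH

open MvPolynomial

private theorem persist_one {ν : Type} [Fintype ν] [DecidableEq ν] (F : ν → MvPolynomial ν ℝ) (E : ℕ)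
    (z : ν → ℝ) (h0 : ∀ j, eval z (F j) = 0)
    (hdet : (Matrix.of fun i j => eval z (pderiv j (F i))).det ≠ 0) (U : Set (ν → ℝ)) (hU : U ∈ nhds z) :
    ∀ᶠ t : ℝ in nhds 0, ∃ z' ∈ U, ∀ j, eval z' (F j) + t * z' j ^ (E + 1) = 0 := by
  classical
  let Psi : ℝ × (ν → ℝ) → ℝ × (ν → ℝ) := fun q =>
    (q.1, fun j => eval q.2 (F j) + q.1 * q.2 j ^ (E + 1))
  have hd : ∀ j : ν, ∃ d' : (ℝ × (ν → ℝ)) →L[ℝ] ℝ,
      HasStrictFDerivAt (fun q : ℝ × (ν → ℝ) => q.2 j ^ (E + 1)) d' ((0 : ℝ), z) := by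
    intro j
    have h1 := ((ContinuousLinearMap.proj (R := ℝ) (φ := fun _ : ν => ℝ) j).comp
      (ContinuousLinearMap.snd ℝ ℝ (ν → ℝ))).hasStrictFDerivAt (x := ((0 : ℝ), z))
    exact ⟨_, h1.pow (E + 1)⟩
  choose d' hd' using hd
  let L : ν → ((ℝ × (ν → ℝ)) →L[ℝ] ℝ) := fun j =>
    (∑ i, eval z (pderiv i (F j)) •
      (ContinuousLinearMap.proj i : (ν → ℝ) →L[ℝ] ℝ)).comp (ContinuousLinearMap.snd ℝ ℝ (ν → ℝ)) +
    ((0 : ℝ) • d' j + (z j ^ (E + 1)) • ContinuousLinearMap.fst ℝ ℝ (ν → ℝ))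
  have hL : ∀ j, HasStrictFDerivAt (fun q : ℝ × (ν → ℝ) => eval q.2 (F j) + q.1 * q.2 j ^ (E + 1))
      (L j) ((0 : ℝ), z) := by
    intro j
    have h1 : HasStrictFDerivAt (fun q : ℝ × (ν → ℝ) => eval q.2 (F j))
        ((∑ i, eval z (pderiv i (F j)) •
          (ContinuousLinearMap.proj i : (ν → ℝ) →L[ℝ] ℝ)).comp
          (ContinuousLinearMap.snd ℝ ℝ (ν → ℝ))) ((0 : ℝ), z) := by
      have h3 : HasStrictFDerivAt (fun q : ℝ × (ν → ℝ) => q.2)
        (ContinuousLinearMap.snd ℝ ℝ (ν → ℝ)) ((0 : ℝ), z) := hasStrictFDerivAt_snd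
      have h4 := hasStrictFDerivAt_eval (F j) z
      exact HasStrictFDerivAt.comp (f := fun q : ℝ × (ν → ℝ) => q.2)
        (g := fun x : ν → ℝ => eval x (F j)) ((0 : ℝ), z) h4 h3
    have h2 : HasStrictFDerivAt (fun q : ℝ × (ν → ℝ) => q.1)
        (ContinuousLinearMap.fst ℝ ℝ (ν → ℝ)) ((0 : ℝ), z) := hasStrictFDerivAt_fst
    exact h1.add (h2.mul (hd' j))
  let A : (ℝ × (ν → ℝ)) →L[ℝ] (ℝ × (ν → ℝ)) :=
    (ContinuousLinearMap.fst ℝ ℝ (ν → ℝ)).prod (ContinuousLinearMap.pi L)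
  have hA : HasStrictFDerivAt Psi A ((0 : ℝ), z) :=
    HasStrictFDerivAt.prodMk hasStrictFDerivAt_fst (hasStrictFDerivAt_pi.2 hL)
  have hinj : Function.Injective (A : (ℝ × (ν → ℝ)) →ₗ[ℝ] (ℝ × (ν → ℝ))) := by
    rw [injective_iff_map_eq_zero]
    rintro ⟨s, v⟩ h
    have h1 : A (s, v) = 0 := h
    have hs : s = 0 := congrArg Prod.fst h1
    have h2 : ∀ j, L j (s, v) = 0 := fun j => congrFun (congrArg Prod.snd h1) j
    have h3 : (Matrix.of fun i j => eval z (pderiv j (F i))).mulVec v = 0 := by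
      funext j
      have h4 := h2 j
      simp only [L, hs, add_apply, ContinuousLinearMap.comp_apply,
        sum_apply, smul_apply,
        ContinuousLinearMap.proj_apply, ContinuousLinearMap.coe_snd',
        ContinuousLinearMap.coe_fst', smul_eq_mul, mul_zero, zero_mul, add_zero] at h4
      simpa [Matrix.mulVec, dotProduct] using h4
    have h5 := Matrix.eq_zero_of_mulVec_eq_zero hdet h3
    rw [hs, h5]
    rfl
  have hsurj : (A : (ℝ × (ν → ℝ)) →ₗ[ℝ] (ℝ × (ν → ℝ))).range = ⊤ :=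
    LinearMap.range_eq_top.2 (LinearMap.injective_iff_surjective.1 hinj)
  have hmap := hA.map_nhds_eq_of_surj hsurj
  have hPsi0 : Psi ((0 : ℝ), z) = ((0 : ℝ), (0 : ν → ℝ)) := by
    refine Prod.ext rfl ?_
    funext j
    change eval z (F j) + 0 * z j ^ (E + 1) = 0
    rw [h0 j, zero_mul, add_zero]
  rw [hPsi0] at hmap
  have hV : {q : ℝ × (ν → ℝ) | q.2 ∈ U} ∈ nhds ((0 : ℝ), z) :=
    continuous_snd.continuousAt.preimage_mem_nhds hU
  have hW : Psi '' {q : ℝ × (ν → ℝ) | q.2 ∈ U} ∈ nhds ((0 : ℝ), (0 : ν → ℝ)) := by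
    rw [← hmap]
    exact Filter.image_mem_map hV
  have hcont : Continuous (fun t : ℝ => ((t, (0 : ν → ℝ)) : ℝ × (ν → ℝ))) := by fun_prop
  have hev := hcont.continuousAt.preimage_mem_nhds (x := (0 : ℝ)) hW
  filter_upwards [hev] with t ht
  obtain ⟨q, hq, hq2⟩ := ht
  have e1 : q.1 = t := congrArg Prod.fst hq2
  refine ⟨q.2, hq, fun j => ?_⟩
  have e2 : eval q.2 (F j) + q.1 * q.2 j ^ (E + 1) = 0 := congrFun (congrArg Prod.snd hq2) j
  rw [e1] at e2
  exact e2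

theorem persist {ν : Type} [Fintype ν] [DecidableEq ν] (F : ν → MvPolynomial ν ℝ) (E : ℕ) (Z : Finset (ν → ℝ))
    (hZ : ∀ z ∈ Z, (∀ j, eval z (F j) = 0) ∧ (Matrix.of fun i j => eval z (pderiv j (F i))).det ≠ 0) :
    ∃ t : ℝ, t ≠ 0 ∧ ∃ Z' : Finset (ν → ℝ), Z'.card = Z.card ∧ ∀ z ∈ Z', ∀ j, eval z (F j) + t * z j ^ (E + 1) = 0 := by
  classical
  obtain ⟨U, hU, hdis⟩ := Set.Finite.t2_separation (Finset.finite_toSet Z)
  have hall : ∀ᶠ t : ℝ in nhds 0, ∀ z ∈ Z, ∃ z' ∈ U z, ∀ j, eval z' (F j) + t * z' j ^ (E + 1) = 0 := by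
    rw [Finset.eventually_all]
    intro z hz
    exact persist_one F E z (hZ z hz).1 (hZ z hz).2 (U z) ((hU z).2.mem_nhds (hU z).1)
  have hne : ∃ t : ℝ, t ≠ 0 ∧ ∀ z ∈ Z, ∃ z' ∈ U z, ∀ j, eval z' (F j) + t * z' j ^ (E + 1) = 0 := by
    have h1 : ∀ᶠ t : ℝ in nhdsWithin 0 {0}ᶜ, ∀ z ∈ Z, ∃ z' ∈ U z,
        ∀ j, eval z' (F j) + t * z' j ^ (E + 1) = 0 := hall.filter_mono nhdsWithin_le_nhds
    obtain ⟨t, ht1, ht2⟩ := (h1.and self_mem_nhdsWithin).exists
    exact ⟨t, ht2, ht1⟩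
  obtain ⟨t, ht0, ht⟩ := hne
  refine ⟨t, ht0, ?_⟩
  choose! g hg using ht
  refine ⟨Z.image g, ?_, ?_⟩
  · apply Finset.card_image_of_injOn
    intro a ha b hb hab
    by_contra hne
    have h1 := hdis ha hb hne
    exact Set.disjoint_left.1 h1 (hg a ha).1 (by rw [hab]; exact (hg b hb).1)
  · intro z hz j
    obtain ⟨a, ha, rfl⟩ := Finset.mem_image.1 hz
    exact (hg a ha).2 j

end Pool.Agent.Helper55.DH
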