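import Pool.Agent.Helper55.DH.WDim
import Pool.Agent.Helper55.DH.WPersist

/-!
# DH-W3: a weak Bezout theorem

Immediate from `persist` and `zeros_card_le`.
-/

namespace Pool.Agent.Helper55.DH

open MvPolynomial

theorem weak_bezout {ν : Type} [Fintype ν] [DecidableEq ν] (F : ν → MvPolynomial ν ℝ) (E : ℕ)
    (hF : ∀ j, (F j).totalDegree ≤ E) (Z : Finset (ν → ℝ))
    (hZ : ∀ z ∈ Z, (∀ j, eval z (F j) = 0) ∧ (Matrix.of fun i j => eval z (pderiv j (F i))).det ≠ 0) :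
    Z.card ≤ (E + 1) ^ Fintype.card ν := by
  obtain ⟨t, ht, Z', h1, h2⟩ := persist F E Z hZ
  rw [← h1]
  exact zeros_card_le F E hF t ht Z' h2

end Pool.Agent.Helper55.DH
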