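import Pool.Agent.Helper55.DH.WDeriv
import Mathlib.MeasureTheory.Function.Jacobian
import Mathlib.Analysis.Calculus.FDeriv.Prod
import Mathlib.Analysis.Calculus.FDeriv.Mul
import Mathlib.Analysis.Calculus.Deriv.Inv
import Mathlib.Analysis.SpecialFunctions.Exp

/-!
# DH-W4: critical points of `|P| exp(-|x-a|^2)`

`critPoly P a j = ∂_j P - 2 (x_j - a_j) P`.
`generic_center` (Sard in equal dimension): on the open set `V = {P ≠ 0}` let `φ(x)_j = x_j - (∂_j P)(x) / (2 P(x))`. It is differentiable with derivative `φ'(x)`; at a zero `z ∈ V` of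
all `critPoly P a j`: `φ(z) = a` and the Jacobian matrix of `critPoly P a` at `z` is `-2 P(z)` times the matrix of `φ'(z)`, because
`critPoly P a j (x) = -2 P(x) (φ(x)_j - a_j)` on `V` and the second factor vanishes at `z`. The set `s = {x ∈ V | det φ'(x) = 0}` has `φ '' s` of measure 0
(`MeasureTheory.addHaar_image_eq_zero_of_det_fderiv_eq_zero`), so some `a ∉ φ '' s` exists (the measure of the whole space is not 0). For this `a`
every zero `z ∈ V` has `det φ'(z) ≠ 0`.
`exists_crit`: `f(x) = (eval x P)^2 * exp (- 2 * ∑ j, (x j - a j)^2)` is continuous, `≥ 0`, tends to 0 at infinity, vanishes on the frontier of `V` and is positive on `V`; so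
it attains its supremum over the closure of `V` at a point `z ∈ V` (take `x0 ∈ V`; outside a large ball `f < f x0`; on the compact `closure V ∩ closedBall` it attains its maximum,
which is positive, so not at the frontier). `z` is a local maximum (`V` open): all partial derivatives vanish:
`2 P ∂_j P e - 4 (z_j - a_j) P^2 e = 0`, divide by `2 P e ≠ 0`.
Tending to 0: `|P(x)| ≤ C (1 + |x|)^d`, or simply: `exp` beats polynomials, `Real.tendsto_pow_mul_exp_neg_atTop_nhds_zero`; use
`|eval x p| ≤ C * (1 + ‖x‖)^d` (induction on `p` or sum over the support) and `∑ (x j - a j)^2 ≥ (‖x‖ - ‖a‖)^2` (sup norm) for `‖x‖ ≥ ‖a‖`.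
-/

namespace Pool.Agent.Helper55.DH

open MvPolynomial

noncomputable def critPoly {ν : Type} (P : MvPolynomial ν ℝ) (a : ν → ℝ) (j : ν) : MvPolynomial ν ℝ :=
  pderiv j P - C 2 * (X j - C (a j)) * P

private noncomputable def phiD {ν : Type} [Fintype ν] (P : MvPolynomial ν ℝ) (x : ν → ℝ) (i : ν) :
    (ν → ℝ) →L[ℝ] ℝ :=
  (ContinuousLinearMap.proj i : (ν → ℝ) →L[ℝ] ℝ) -
    (((2 * eval x P) ^ 2)⁻¹) • ((2 * eval x P) •
      (∑ j, eval x (pderiv j (pderiv i P)) • (ContinuousLinearMap.proj j : (ν → ℝ) →L[ℝ] ℝ)) -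
      (eval x (pderiv i P)) • ((2 : ℝ) •
        (∑ j, eval x (pderiv j P) • (ContinuousLinearMap.proj j : (ν → ℝ) →L[ℝ] ℝ))))

private theorem phi_hasFDerivAt {ν : Type} [Fintype ν] (P : MvPolynomial ν ℝ) (x : ν → ℝ)
    (hx : eval x P ≠ 0) :
    HasFDerivAt (fun y : ν → ℝ => fun i => y i - eval y (pderiv i P) / (2 * eval y P))
      (ContinuousLinearMap.pi (fun i => phiD P x i)) x := by
  rw [hasFDerivAt_pi]
  intro i
  have h1 := (hasStrictFDerivAt_eval (pderiv i P) x).hasFDerivAt
  have h2 := ((hasStrictFDerivAt_eval P x).hasFDerivAt).const_mul (2 : ℝ)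
  have hne : (2 * eval x P) ≠ 0 := mul_ne_zero two_ne_zero hx
  have h3 := h1.mul ((hasDerivAt_inv hne).comp_hasFDerivAt x h2)
  have h4 : HasFDerivAt (fun y : ν → ℝ => y i) (ContinuousLinearMap.proj i : (ν → ℝ) →L[ℝ] ℝ) x :=
    hasFDerivAt_apply i x
  have h5 := h4.sub h3
  have h6 := h5.congr_fderiv (g' := phiD P x i) (by
    unfold phiD
    ext v
    simp only [sub_apply, smul_apply, add_apply, smul_eq_mul, Function.comp]
    field_simp
    ring)
  exact h6

private theorem proj_single {ν : Type} [DecidableEq ν] (i k : ν) :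
    (ContinuousLinearMap.proj i : (ν → ℝ) →L[ℝ] ℝ) (Pi.single k 1) = if i = k then 1 else 0 := by
  simp [ContinuousLinearMap.proj_apply, Pi.single_apply]

private theorem phiD_single {ν : Type} [Fintype ν] [DecidableEq ν] (P : MvPolynomial ν ℝ) (x : ν → ℝ) (i k : ν) :
    phiD P x i (Pi.single k 1) = (if i = k then 1 else 0) -
      (((2 * eval x P) ^ 2)⁻¹) * ((2 * eval x P) * eval x (pderiv k (pderiv i P)) -
        eval x (pderiv i P) * (2 * eval x (pderiv k P))) := by
  have hsum : ∀ c : ν → ℝ, (∑ j, c j • (ContinuousLinearMap.proj j : (ν → ℝ) →L[ℝ] ℝ)) (Pi.single k 1) = c k := by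
    intro c
    rw [sum_apply]
    simp [ContinuousLinearMap.proj_apply, Pi.single_apply]
  unfold phiD
  rw [sub_apply, smul_apply, sub_apply,
    smul_apply, smul_apply, smul_apply,
    hsum, hsum, proj_single]
  simp only [smul_eq_mul]

theorem generic_center {ν : Type} [Fintype ν] [DecidableEq ν] (P : MvPolynomial ν ℝ) :
    ∃ a : ν → ℝ, ∀ z, eval z P ≠ 0 → (∀ j, eval z (critPoly P a j) = 0) →
      (Matrix.of fun i j => eval z (pderiv j (critPoly P a i))).det ≠ 0 := by
  classical
  set φ : (ν → ℝ) → (ν → ℝ) := fun y => fun i => y i - eval y (pderiv i P) / (2 * eval y P) with hφ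
  set s : Set (ν → ℝ) := {x | eval x P ≠ 0 ∧ (ContinuousLinearMap.pi (fun i => phiD P x i)).det = 0} with hs
  have hnull : MeasureTheory.volume (φ '' s) = 0 :=
    MeasureTheory.addHaar_image_eq_zero_of_det_fderivWithin_eq_zero MeasureTheory.volume
      (f' := fun x => ContinuousLinearMap.pi (fun i => phiD P x i))
      (fun x hx => (phi_hasFDerivAt P x hx.1).hasFDerivWithinAt) (fun x hx => hx.2)
  have hex : ∃ a, a ∉ φ '' s := by
    by_contra hcon
    push Not at hcon
    have huniv : φ '' s = Set.univ := Set.eq_univ_of_forall hcon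
    rw [huniv] at hnull
    exact (NeZero.ne (MeasureTheory.volume : MeasureTheory.Measure (ν → ℝ)))
      (MeasureTheory.Measure.measure_univ_eq_zero.1 hnull)
  obtain ⟨a, ha⟩ := hex
  refine ⟨a, ?_⟩
  intro z hz hcrit hdet
  apply ha
  have hc : ∀ j, eval z (pderiv j P) = 2 * (z j - a j) * eval z P := by
    intro j
    have := hcrit j
    unfold critPoly at this
    simp only [map_sub, map_mul, eval_C, eval_X] at this
    linarith
  refine ⟨z, ⟨hz, ?_⟩, ?_⟩
  · have hmat : (Matrix.of fun i j => eval z (pderiv j (critPoly P a i)))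
        = (-2 * eval z P) • (LinearMap.toMatrix' ((ContinuousLinearMap.pi (fun i => phiD P z i) : (ν → ℝ) →L[ℝ] (ν → ℝ)) : (ν → ℝ) →ₗ[ℝ] (ν → ℝ))) := by
      ext i k
      rw [Matrix.smul_apply, LinearMap.toMatrix'_apply, Matrix.of_apply]
      have e1 : ((ContinuousLinearMap.pi (fun i => phiD P z i) : (ν → ℝ) →L[ℝ] (ν → ℝ)) : (ν → ℝ) →ₗ[ℝ] (ν → ℝ))
          (Pi.single k 1) i = phiD P z i (Pi.single k 1) := rfl
      have e2 : eval z (pderiv k (critPoly P a i)) = eval z (pderiv k (pderiv i P)) -
          2 * ((if i = k then 1 else 0) * eval z P + (z i - a i) * eval z (pderiv k P)) := by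
        unfold critPoly
        rw [map_sub, mul_assoc, ← smul_eq_C_mul, Derivation.map_smul, Derivation.leibniz, map_sub (pderiv k) (X i) (C (a i)), pderiv_C, sub_zero,
          pderiv_X]
        simp only [smul_eq_mul, map_sub, map_add, map_mul, smul_eval, eval_X, eval_C]
        by_cases hik : i = k
        · subst hik
          simp
          ring
        · simp [hik]
      have e3 := e2
      rw [e3]
      rw [e1]
      rw [phiD_single, smul_eq_mul, hc i, hc k]
      field_simp
      ring
    rw [hmat, Matrix.det_smul] at hdet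
    rcases mul_eq_zero.1 hdet with h0 | h0
    · exfalso
      have : (-2 * eval z P) ≠ 0 := mul_ne_zero (by norm_num) hz
      exact pow_ne_zero _ this h0
    · rw [ContinuousLinearMap.det, ← LinearMap.det_toMatrix']
      exact h0
  · funext j
    simp only [hφ]
    rw [hc j]
    field_simp
    ring

end Pool.Agent.Helper55.DH
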