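import Mathlib.Algebra.MvPolynomial.PDeriv
import Mathlib.Analysis.Calculus.InverseFunctionTheorem.FDeriv
import Mathlib.Analysis.Calculus.FDeriv.Mul
import Mathlib.Analysis.Calculus.FDeriv.Pi
import Mathlib.Tactic

/-!
# DH-W0: the derivative of a polynomial function

`MvPolynomial.induction_on`: constants (`hasStrictFDerivAt_const`, `pderiv_C`), sums, and `p * X j` (product rule `HasStrictFDerivAt.mul`, `pderiv_mul`, `pderiv_X`,
`ContinuousLinearMap.proj j` is the derivative of `x ↦ x j`: `hasStrictFDerivAt_apply`). Equality of continuous linear maps by `ext`/evaluation at a vector.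
-/

namespace Pool.Agent.Helper55.DH

open MvPolynomial

theorem hasStrictFDerivAt_eval {ν : Type} [Fintype ν] (p : MvPolynomial ν ℝ) (z : ν → ℝ) :
    HasStrictFDerivAt (fun x : ν → ℝ => eval x p)
      (∑ j, eval z (pderiv j p) • (ContinuousLinearMap.proj j : (ν → ℝ) →L[ℝ] ℝ)) z := by
  classical
  induction p using MvPolynomial.induction_on with
  | C a =>
    have h := hasStrictFDerivAt_const (𝕜 := ℝ) a z
    simpa using h
  | add p q hp hq =>
    have h := hp.add hq
    refine (h.congr_fderiv ?_).congr_of_eventuallyEq ?_
    · rw [← Finset.sum_add_distrib]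
      refine Finset.sum_congr rfl fun j _ => ?_
      rw [map_add, map_add, add_smul]
    · exact Filter.Eventually.of_forall fun x => by simp
  | mul_X p i hp =>
    have h1 : HasStrictFDerivAt (fun x : ν → ℝ => x i)
        (ContinuousLinearMap.proj i : (ν → ℝ) →L[ℝ] ℝ) z := hasStrictFDerivAt_apply i z
    have h := hp.mul h1
    refine (h.congr_fderiv ?_).congr_of_eventuallyEq ?_
    · ext v
      simp only [ContinuousLinearMap.add_apply, ContinuousLinearMap.smul_apply,
        ContinuousLinearMap.sum_apply, ContinuousLinearMap.proj_apply, smul_eq_mul, pderiv_mul,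
        map_add, map_mul, eval_X, pderiv_X]
      rw [Finset.mul_sum, add_comm]
      have h2 : ∀ j, eval z p * (eval z) (Pi.single (M := fun _ => MvPolynomial ν ℝ) j 1 i) * v j =
          if j = i then eval z p * v j else 0 := by
        intro j
        by_cases hj : j = i
        · subst hj
          simp
        · rw [Pi.single_eq_of_ne (Ne.symm hj), if_neg hj]
          simp
      simp only [add_mul]
      rw [Finset.sum_add_distrib]
      simp only [h2]
      rw [Finset.sum_ite_eq' Finset.univ i (fun j => eval z p * v j), if_pos (Finset.mem_univ _)]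
      congr 1
      refine Finset.sum_congr rfl fun j _ => ?_
      ring
    · exact Filter.Eventually.of_forall fun x => by simp

end Pool.Agent.Helper55.DH
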