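import Mathlib.Algebra.MvPolynomial.PDeriv
import Mathlib.LinearAlgebra.Dimension.Constructions
import Mathlib.Analysis.Calculus.InverseFunctionTheorem.FDeriv
import Mathlib.Tactic

/-!
# DH-W1: a system `F_j + t x_j^(E+1)` with `deg F_j ≤ E` has at most `(E+1)^n` zeros

Let `W` be the real span of the monomials `x^a` with all `a_j ≤ E` in the space of functions on the finite set `Z` of common zeros (restrictions to `Z`). Its dimension is at
most `(E+1)^n` (number of the exponent vectors `ν → Fin (E+1)`). Claim: the restriction of every monomial `x^a` is in `W`. Strong induction on the degree `|a|`: if some `a_j ≥ E + 1`,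
then on `Z`: `x_j^(E+1) = - t⁻¹ F_j`, so `x^a = - t⁻¹ x^(a - (E+1) e_j) F_j` on `Z`, a combination of monomials of degree `≤ |a| - (E+1) + E < |a|`. So the restrictions of all
polynomials are in `W`. But every function on the finite set `Z` is the restriction of a polynomial: for `z ∈ Z` the polynomial
`∏_{w ∈ Z, w ≠ z} (x_{j(w)} - w_{j(w)}) / (z_{j(w)} - w_{j(w)})` with `j(w)` a coordinate where `z, w` differ. So `#Z = dim (Z → ℝ) ≤ dim W ≤ (E+1)^n`.
(`Module.finrank_fintype_fun_eq_card`, `finrank_span_le_card`/`finrank_range_le`; alternatively: the linear map from `((ν → Fin (E+1)) → ℝ)` to `(Z → ℝ)` is surjective.)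
-/

namespace Pool.Agent.Helper55.DH

open MvPolynomial

private noncomputable def res {ν : Type} (Z : Finset (ν → ℝ)) : MvPolynomial ν ℝ →ₗ[ℝ] (Z → ℝ) :=
  LinearMap.pi fun z => (aeval (z : ν → ℝ) : MvPolynomial ν ℝ →ₐ[ℝ] ℝ).toLinearMap

private theorem res_apply {ν : Type} (Z : Finset (ν → ℝ)) (p : MvPolynomial ν ℝ) (z : Z) :
    res Z p z = eval (z : ν → ℝ) p := by
  simp [res]

private noncomputable def gen {ν : Type} [Fintype ν] (E : ℕ) (Z : Finset (ν → ℝ))
    (a : ν → Fin (E + 1)) : Z → ℝ :=
  res Z (monomial (Finsupp.equivFunOnFinite.symm fun j => (a j : ℕ)) 1)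

private theorem mem_of_monomials {ν : Type} (Z : Finset (ν → ℝ)) (W : Submodule ℝ (Z → ℝ))
    (d : ℕ) (h : ∀ s : ν →₀ ℕ, s.degree ≤ d → res Z (monomial s 1) ∈ W)
    (p : MvPolynomial ν ℝ) (hp : p.totalDegree ≤ d) : res Z p ∈ W := by
  rw [p.as_sum, map_sum]
  refine Submodule.sum_mem _ fun s hs => ?_
  have h1 : monomial s (coeff s p) = coeff s p • monomial s (1 : ℝ) := by
    rw [smul_monomial, smul_eq_mul, mul_one]
  rw [h1, map_smul]
  refine Submodule.smul_mem _ _ (h s ?_)
  have h2 := le_totalDegree hs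
  rw [Finsupp.degree]
  exact le_trans h2 hp

private theorem monomials_mem {ν : Type} [Fintype ν] (F : ν → MvPolynomial ν ℝ) (E : ℕ)
    (hF : ∀ j, (F j).totalDegree ≤ E)
    (t : ℝ) (ht : t ≠ 0) (Z : Finset (ν → ℝ)) (hZ : ∀ z ∈ Z, ∀ j, eval z (F j) + t * z j ^ (E + 1) = 0)
    (d : ℕ) : ∀ s : ν →₀ ℕ, s.degree ≤ d →
      res Z (monomial s 1) ∈ Submodule.span ℝ (Set.range (gen E Z)) := by
  classical
  induction d with
  | zero =>
    intro s hs
    have h0 : s = 0 := by
      rw [← Finsupp.degree_eq_zero_iff]; omega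
    subst h0
    refine Submodule.subset_span ⟨fun _ => 0, ?_⟩
    unfold gen
    congr 2
    congr 1
    ext j
    simp
  | succ d ih =>
    intro s hs
    by_cases hall : ∀ j, s j ≤ E
    · refine Submodule.subset_span ⟨fun j => ⟨s j, Nat.lt_succ_of_le (hall j)⟩, ?_⟩
      unfold gen
      congr 2
      ext j
      simp
    · push Not at hall
      obtain ⟨j, hj⟩ := hall
      have hle : Finsupp.single j (E + 1) ≤ s := by
        rw [Finsupp.single_le_iff]; omega
      set s' : ν →₀ ℕ := s - Finsupp.single j (E + 1) with hs'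
      have hsum : s' + Finsupp.single j (E + 1) = s := tsub_add_cancel_of_le hle
      have hdeg : s'.degree + (E + 1) = s.degree := by
        rw [← hsum, map_add, Finsupp.degree_single]
      have hres : res Z (monomial s 1) = (-t⁻¹) • res Z (monomial s' 1 * F j) := by
        funext z
        have hz := hZ z z.2 j
        have hz' : (z : ν → ℝ) j ^ (E + 1) = -t⁻¹ * eval (z : ν → ℝ) (F j) := by
          have : t * (z : ν → ℝ) j ^ (E + 1) = - eval (z : ν → ℝ) (F j) := by linarith
          field_simp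
          linarith
        have hm : monomial s (1 : ℝ) = monomial s' 1 * X j ^ (E + 1) := by
          rw [X_pow_eq_monomial, monomial_mul, hsum, one_mul]
        rw [res_apply, Pi.smul_apply, res_apply, hm, map_mul, map_mul, map_pow, eval_X, hz',
          smul_eq_mul]
        ring
      rw [hres]
      refine Submodule.smul_mem _ _ (mem_of_monomials Z _ d ih _ ?_)
      have h1 := totalDegree_mul (monomial s' (1 : ℝ)) (F j)
      have h2 : (monomial s' (1 : ℝ)).totalDegree ≤ s'.degree := by
        rw [totalDegree_monomial _ one_ne_zero]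
        rfl
      have h3 := hF j
      omega

private theorem single_mem {ν : Type} (Z : Finset (ν → ℝ)) (W : Submodule ℝ (Z → ℝ))
    (h : ∀ p : MvPolynomial ν ℝ, res Z p ∈ W) : W = ⊤ := by
  classical
  have hs : ∀ z : Z, (Pi.single z (1 : ℝ) : Z → ℝ) ∈ W := by
    intro z
    have hex : ∀ w : Z, ∃ l : MvPolynomial ν ℝ, w ≠ z →
        eval (w : ν → ℝ) l = 0 ∧ eval (z : ν → ℝ) l ≠ 0 := by
      intro w
      by_cases hw : w = z
      · exact ⟨0, fun h => absurd hw h⟩
      · have hne : (z : ν → ℝ) ≠ (w : ν → ℝ) := fun h => hw (Subtype.ext h.symm)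
        obtain ⟨j, hj⟩ := Function.ne_iff.1 hne
        refine ⟨X j - C ((w : ν → ℝ) j), fun _ => ⟨by simp, ?_⟩⟩
        simpa [sub_eq_zero] using hj
    choose l hl using hex
    have hz : eval (z : ν → ℝ) (∏ w ∈ Finset.univ.erase z, l w) ≠ 0 := by
      rw [map_prod]
      exact Finset.prod_ne_zero_iff.2 fun w hw => (hl w (Finset.ne_of_mem_erase hw)).2
    have hq : (Pi.single z (1 : ℝ) : Z → ℝ) =
        (eval (z : ν → ℝ) (∏ w ∈ Finset.univ.erase z, l w))⁻¹ •
          res Z (∏ w ∈ Finset.univ.erase z, l w) := by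
      funext w
      rw [Pi.smul_apply, res_apply, smul_eq_mul]
      by_cases hw : w = z
      · subst hw
        rw [Pi.single_eq_same, inv_mul_cancel₀ hz]
      · rw [Pi.single_eq_of_ne hw]
        have h0 : eval (w : ν → ℝ) (∏ w ∈ Finset.univ.erase z, l w) = 0 := by
          rw [map_prod]
          exact Finset.prod_eq_zero (Finset.mem_erase.2 ⟨hw, Finset.mem_univ w⟩) (hl w hw).1
        rw [h0, mul_zero]
    rw [hq]
    exact Submodule.smul_mem _ _ (h _)
  rw [eq_top_iff]
  intro f _
  have hf : f = ∑ z : Z, f z • (Pi.single z (1 : ℝ) : Z → ℝ) := by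
    funext w
    rw [Finset.sum_apply, Finset.sum_eq_single w]
    · simp
    · intro b _ hb
      rw [Pi.smul_apply, Pi.single_eq_of_ne (Ne.symm hb), smul_zero]
    · intro hw
      exact absurd (Finset.mem_univ w) hw
  rw [hf]
  exact Submodule.sum_mem _ fun z _ => Submodule.smul_mem _ _ (hs z)

theorem zeros_card_le {ν : Type} [Fintype ν] (F : ν → MvPolynomial ν ℝ) (E : ℕ) (hF : ∀ j, (F j).totalDegree ≤ E)
    (t : ℝ) (ht : t ≠ 0) (Z : Finset (ν → ℝ)) (hZ : ∀ z ∈ Z, ∀ j, eval z (F j) + t * z j ^ (E + 1) = 0) :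
    Z.card ≤ (E + 1) ^ Fintype.card ν := by
  classical
  have hW : Submodule.span ℝ (Set.range (gen E Z)) = ⊤ :=
    single_mem Z _ fun p => mem_of_monomials Z _ p.totalDegree
      (monomials_mem F E hF t ht Z hZ p.totalDegree) p le_rfl
  have h1 := finrank_range_le_card (R := ℝ) (gen E Z)
  rw [Set.finrank, hW, finrank_top, Module.finrank_fintype_fun_eq_card, Fintype.card_coe,
    Fintype.card_fun, Fintype.card_fin] at h1
  exact h1

end Pool.Agent.Helper55.DH
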