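import Pool.Agent.Helper55.DH.WCrit
import Mathlib.Analysis.Calculus.FDeriv.Mul
import Mathlib.Analysis.Calculus.LocalExtr.Basic
import Mathlib.Analysis.SpecialFunctions.ExpDeriv

/-!
# DH-W5: existence of critical points

See the header of `WCrit` (`exists_crit`).
-/

namespace Pool.Agent.Helper55.DH

open MvPolynomial

/-- exponential growth bound -/
private theorem WMax_growth {ν : Type} [Fintype ν] (a : ν → ℝ) (p : MvPolynomial ν ℝ) :
    ∃ (C : ℝ) (d : ℕ), 0 ≤ C ∧ ∀ x, |eval x p| ≤ C * Real.exp (d * ‖x - a‖) := by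
  induction p using MvPolynomial.induction_on with
  | C c =>
    refine ⟨|c|, 0, abs_nonneg c, fun x => ?_⟩
    rw [eval_C, Nat.cast_zero, zero_mul, Real.exp_zero, mul_one]
  | add p q hp hq =>
    obtain ⟨C1, d1, h1, h1'⟩ := hp
    obtain ⟨C2, d2, h2, h2'⟩ := hq
    refine ⟨C1 + C2, d1 + d2, by positivity, fun x => ?_⟩
    rw [map_add]
    have h0 : 0 ≤ ‖x - a‖ := norm_nonneg _
    have e1 : Real.exp (d1 * ‖x - a‖) ≤ Real.exp ((d1 + d2 : ℕ) * ‖x - a‖) := by
      apply Real.exp_le_exp.2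
      push_cast
      nlinarith [mul_nonneg (Nat.cast_nonneg (α := ℝ) d2) h0]
    have e2 : Real.exp (d2 * ‖x - a‖) ≤ Real.exp ((d1 + d2 : ℕ) * ‖x - a‖) := by
      apply Real.exp_le_exp.2
      push_cast
      nlinarith [mul_nonneg (Nat.cast_nonneg (α := ℝ) d1) h0]
    calc |eval x p + eval x q| ≤ |eval x p| + |eval x q| := abs_add_le _ _
      _ ≤ C1 * Real.exp (d1 * ‖x - a‖) + C2 * Real.exp (d2 * ‖x - a‖) := add_le_add (h1' x) (h2' x)
      _ ≤ C1 * Real.exp ((d1 + d2 : ℕ) * ‖x - a‖) + C2 * Real.exp ((d1 + d2 : ℕ) * ‖x - a‖) :=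
        add_le_add (mul_le_mul_of_nonneg_left e1 h1) (mul_le_mul_of_nonneg_left e2 h2)
      _ = (C1 + C2) * Real.exp ((d1 + d2 : ℕ) * ‖x - a‖) := by ring
  | mul_X p j hp =>
    obtain ⟨C1, d1, h1, h1'⟩ := hp
    refine ⟨C1 * (|a j| + 1), d1 + 1, by positivity, fun x => ?_⟩
    rw [map_mul, eval_X, abs_mul]
    have h0 : 0 ≤ ‖x - a‖ := norm_nonneg _
    have e1 : |x j| ≤ (|a j| + 1) * Real.exp ‖x - a‖ := by
      have h3 : |x j - a j| ≤ ‖x - a‖ := norm_le_pi_norm (x - a) j
      have h4 : |x j| ≤ |a j| + |x j - a j| := by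
        have := abs_add_le (a j) (x j - a j)
        rwa [add_sub_cancel] at this
      have h5 : ‖x - a‖ + 1 ≤ Real.exp ‖x - a‖ := Real.add_one_le_exp _
      nlinarith [mul_nonneg (abs_nonneg (a j)) (sub_nonneg.2 h5), mul_nonneg (abs_nonneg (a j)) h0]
    calc |eval x p| * |x j| ≤ (C1 * Real.exp (d1 * ‖x - a‖)) * ((|a j| + 1) * Real.exp ‖x - a‖) :=
          mul_le_mul (h1' x) e1 (abs_nonneg _) (by positivity)
      _ = C1 * (|a j| + 1) * Real.exp ((d1 + 1 : ℕ) * ‖x - a‖) := by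
        rw [show (((d1 + 1 : ℕ) : ℝ) * ‖x - a‖) = d1 * ‖x - a‖ + ‖x - a‖ by push_cast; ring,
          Real.exp_add]
        ring

private theorem WMax_norm {ν : Type} [Fintype ν] (y : ν → ℝ) : ‖y‖ ^ 2 ≤ ∑ j, y j ^ 2 := by
  have h0 : 0 ≤ ∑ j, y j ^ 2 := Finset.sum_nonneg fun j _ => sq_nonneg _
  have h1 : ‖y‖ ≤ √(∑ j, y j ^ 2) := by
    rw [pi_norm_le_iff_of_nonneg (Real.sqrt_nonneg _)]
    intro j
    rw [Real.norm_eq_abs]
    apply Real.abs_le_sqrt
    exact Finset.single_le_sum (f := fun j => y j ^ 2) (fun j _ => sq_nonneg _) (Finset.mem_univ j)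
  calc ‖y‖ ^ 2 ≤ √(∑ j, y j ^ 2) ^ 2 := pow_le_pow_left₀ (norm_nonneg _) h1 2
    _ = ∑ j, y j ^ 2 := Real.sq_sqrt h0

private noncomputable def WMax_Q {ν : Type} [Fintype ν] (a : ν → ℝ) : MvPolynomial ν ℝ :=
  C (-2) * ∑ j, (X j - C (a j)) ^ 2

private theorem WMax_evalQ {ν : Type} [Fintype ν] (a x : ν → ℝ) :
    eval x (WMax_Q a) = -2 * ∑ j, (x j - a j) ^ 2 := by
  simp [WMax_Q]

private theorem WMax_derivQ {ν : Type} [Fintype ν] [DecidableEq ν] (a z : ν → ℝ) (j : ν) :
    eval z (pderiv j (WMax_Q a)) = -4 * (z j - a j) := by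
  have h1 : pderiv j (WMax_Q a) = C (-2) * ∑ i, C 2 * (X i - C (a i)) * pderiv j (X i) := by
    rw [WMax_Q, pderiv_C_mul, map_sum]
    congr 1
    refine Finset.sum_congr rfl fun i _ => ?_
    rw [pderiv_pow, map_sub, pderiv_C, sub_zero, map_ofNat (C : ℝ →+* MvPolynomial ν ℝ) 2]
    simp
  rw [h1, map_mul, map_sum, eval_C]
  have h2 : ∀ i, eval z (C 2 * (X i - C (a i)) * pderiv j (X i)) =
      if i = j then 2 * (z j - a j) else 0 := by
    intro i
    rw [pderiv_X]
    by_cases h : i = j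
    · subst h
      simp
    · rw [if_neg h, Pi.single_eq_of_ne h]
      simp
  rw [Finset.sum_congr rfl fun i _ => h2 i, Finset.sum_ite_eq' Finset.univ j,
    if_pos (Finset.mem_univ _)]
  ring

theorem exists_crit {ν : Type} [Fintype ν] (P : MvPolynomial ν ℝ) (a : ν → ℝ) (V : Set (ν → ℝ)) (hV : IsOpen V)
    (hne : V.Nonempty) (hpos : ∀ x ∈ V, eval x P ≠ 0) (hbd : ∀ x ∈ frontier V, eval x P = 0) :
    ∃ z ∈ V, ∀ j, eval z (critPoly P a j) = 0 := by
  classical
  obtain ⟨x0, hx0⟩ := hne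
  set f : (ν → ℝ) → ℝ := fun x => eval x P ^ 2 * Real.exp (eval x (WMax_Q a)) with hf
  have hf0 : 0 < f x0 := by
    have h1 := hpos x0 hx0
    have h2 : 0 < eval x0 P ^ 2 := by positivity
    exact mul_pos h2 (Real.exp_pos _)
  have hce : ∀ p : MvPolynomial ν ℝ, Continuous fun x : ν → ℝ => eval x p := fun p =>
    continuous_iff_continuousAt.2 fun x => (hasStrictFDerivAt_eval p x).continuousAt
  obtain ⟨C1, d, hC, hg⟩ := WMax_growth a P
  have hcont : Continuous f :=
    ((hce P).pow 2).mul (Real.continuous_exp.comp (hce (WMax_Q a)))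
  set L : ℝ := (C1 ^ 2 + 1) / f x0 with hL
  have hLpos : 0 < L := by positivity
  have hfar : ∀ x, d + 1 + L ≤ ‖x - a‖ → f x < f x0 := by
    intro x hx
    set t := ‖x - a‖ with ht
    have h1 : f x ≤ C1 ^ 2 * Real.exp (-2 * L) := by
      have h2 : eval x P ^ 2 ≤ (C1 * Real.exp (d * t)) ^ 2 := by
        rw [← sq_abs]
        exact pow_le_pow_left₀ (abs_nonneg _) (hg x) 2
      have h3 : eval x (WMax_Q a) ≤ -2 * t ^ 2 := by
        rw [WMax_evalQ]
        have h4 := WMax_norm (x - a)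
        simp only [Pi.sub_apply] at h4
        rw [← ht] at h4
        linarith
      have hd : (0 : ℝ) ≤ d := Nat.cast_nonneg _
      calc f x ≤ (C1 * Real.exp (d * t)) ^ 2 * Real.exp (-2 * t ^ 2) :=
            mul_le_mul h2 (Real.exp_le_exp.2 h3) (Real.exp_pos _).le (by positivity)
        _ = C1 ^ 2 * Real.exp (2 * (d * t) + -2 * t ^ 2) := by
          rw [mul_pow, ← Real.exp_nat_mul, mul_assoc, ← Real.exp_add]
          norm_num
        _ ≤ C1 ^ 2 * Real.exp (-2 * L) := by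
          apply mul_le_mul_of_nonneg_left _ (sq_nonneg _)
          apply Real.exp_le_exp.2
          nlinarith [mul_nonneg (show (0 : ℝ) ≤ t - 1 by linarith) (show (0 : ℝ) ≤ t - d by linarith)]
    have h5 : Real.exp (-2 * L) * L < 1 := by
      have h6 : 2 * L + 1 ≤ Real.exp (2 * L) := Real.add_one_le_exp _
      have h7 : Real.exp (-2 * L) * Real.exp (2 * L) = 1 := by
        rw [← Real.exp_add]
        simp
      have h8 : 0 < Real.exp (-2 * L) := Real.exp_pos _
      nlinarith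
    have h6 : L * f x0 = C1 ^ 2 + 1 := by
      rw [hL]
      field_simp
    have h8 : 0 < Real.exp (-2 * L) := Real.exp_pos _
    have h9 : Real.exp (-2 * L) * (C1 ^ 2 + 1) < f x0 := by
      rw [← h6]
      nlinarith
    nlinarith
  set R : ℝ := max (d + 1 + L) ‖x0 - a‖ with hR
  have hcomp : IsCompact (closure V ∩ Metric.closedBall a R) :=
    (isCompact_closedBall a R).inter_left isClosed_closure
  have hx0K : x0 ∈ closure V ∩ Metric.closedBall a R := by
    refine ⟨subset_closure hx0, ?_⟩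
    rw [Metric.mem_closedBall, dist_eq_norm]
    exact le_max_right _ _
  obtain ⟨z, hzK, hz⟩ := hcomp.exists_isMaxOn ⟨x0, hx0K⟩ hcont.continuousOn
  have hz0 : f x0 ≤ f z := hz hx0K
  have hzV : z ∈ V := by
    by_contra h
    have h1 : z ∈ frontier V := by
      rw [hV.frontier_eq]
      exact ⟨hzK.1, h⟩
    have h2 : f z = 0 := by
      rw [hf]
      simp only
      rw [hbd z h1]
      ring
    linarith
  have hmax : IsLocalMax f z := by
    filter_upwards [hV.mem_nhds hzV] with y hy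
    by_cases h : y ∈ Metric.closedBall a R
    · exact hz ⟨subset_closure hy, h⟩
    · rw [Metric.mem_closedBall, dist_eq_norm, not_le] at h
      exact ((hfar y ((le_max_left _ _).trans h.le)).trans_le hz0).le
  refine ⟨z, hzV, fun j => ?_⟩
  have h1 := (hasStrictFDerivAt_eval P z).hasFDerivAt
  have h2 := (hasStrictFDerivAt_eval (WMax_Q a) z).hasFDerivAt
  have h3 := HasFDerivAt.mul (HasFDerivAt.mul h1 h1) (HasFDerivAt.exp h2)
  have hf' : f = fun x => (eval x P * eval x P) * Real.exp (eval x (WMax_Q a)) := by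
    funext x
    rw [hf]
    simp only
    ring
  rw [hf'] at hmax
  have h4 := hmax.hasFDerivAt_eq_zero h3
  have h5 := congrArg (fun l : (ν → ℝ) →L[ℝ] ℝ => l (Pi.single j 1)) h4
  have h6 : ∀ p : MvPolynomial ν ℝ, (∑ i, eval z (pderiv i p) •
      (ContinuousLinearMap.proj i : (ν → ℝ) →L[ℝ] ℝ)) (Pi.single j 1) = eval z (pderiv j p) := by
    intro p
    rw [ContinuousLinearMap.sum_apply, Finset.sum_eq_single j]
    · simp
    · intro i _ hi
      simp [Pi.single_eq_of_ne hi]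
    · intro h
      exact absurd (Finset.mem_univ j) h
  simp only [ContinuousLinearMap.add_apply, ContinuousLinearMap.smul_apply, h6,
    ContinuousLinearMap.zero_apply, smul_eq_mul, Pi.mul_apply] at h5
  rw [WMax_derivQ] at h5
  have h7 := hpos z hzV
  have h8 := (Real.exp_pos (eval z (WMax_Q a))).ne'
  have h9 : 2 * eval z P * Real.exp (eval z (WMax_Q a)) * (eval z (pderiv j P) - 2 * (z j - a j) * eval z P) = 0 := by
    linear_combination h5
  rcases mul_eq_zero.1 h9 with h10 | h10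
  · exfalso
    rcases mul_eq_zero.1 h10 with h11 | h11
    · exact h7 (by linarith)
    · exact h8 h11
  · rw [critPoly]
    simp only [map_sub, map_mul, eval_C, eval_X]
    exact h10

end Pool.Agent.Helper55.DH
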