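import Pool.Agent.Helper55.DH.WPatterns
import Pool.Agent.Helper55.DH.Tests

/-!
# DH-W8: the number of worlds

`Om N` is the set of the sign patterns of the `5 * N ^ 5` polynomials (index `q : Tst N`) in the `2 * N` variables `(i, b) : Fin N × Fin 2` (first and second
coordinate of point number `i`) given by `val` (degree at most 3), so `patterns_card` with `ν = Fin N × Fin 2`, `ι = Tst N`, `D = 3` gives
`#(Om N) ≤ (30 * N ^ 5 + 2) ^ (2 * N)`. Define the polynomial `vp q : MvPolynomial (Fin N × Fin 2) ℝ` by the same formulas with `X (q.2 k, 0)`, `X (q.2 k, 1)`; degree: `totalDegree_sub`,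
`totalDegree_mul`, `totalDegree_X`. Then `Real.logb 2 #(Om N) ≤ 2 N logb 2 (30 N^5 + 2)`.
`Om_nonempty`: the pattern of any configuration, e.g. `sgn (fun _ => 0)`.
-/

open Classical

namespace Pool.Agent.Helper55.DH

section

open MvPolynomial

private noncomputable def crossP {σ : Type} (u v : MvPolynomial σ ℝ × MvPolynomial σ ℝ) :
    MvPolynomial σ ℝ := u.1 * v.2 - u.2 * v.1

private noncomputable def vpk {σ : Type} (k : Fin 5)
    (p : Fin 5 → MvPolynomial σ ℝ × MvPolynomial σ ℝ) : MvPolynomial σ ℝ :=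
  match k with
  | 0 => (p 1).1 - (p 0).1
  | 1 => (p 1).2 - (p 0).2
  | 2 => crossP (p 1 - p 0) (p 3 - p 2)
  | 3 => crossP (p 0 - p 4) (p 1 - p 4) * ((p 3).1 - (p 2).1) -
      crossP (p 2 - p 4) (p 3 - p 4) * ((p 1).1 - (p 0).1)
  | 4 => crossP (p 0 - p 4) (p 1 - p 4) * ((p 3).2 - (p 2).2) -
      crossP (p 2 - p 4) (p 3 - p 4) * ((p 1).2 - (p 0).2)

private theorem eval_vpk {σ : Type} (x : σ → ℝ) (k : Fin 5)
    (p : Fin 5 → MvPolynomial σ ℝ × MvPolynomial σ ℝ) :
    eval x (vpk k p) = val k fun i => (eval x (p i).1, eval x (p i).2) := by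
  fin_cases k <;> simp [vpk, val, crossP, cross]

private theorem deg_sub {σ : Type} {a b : MvPolynomial σ ℝ} {n : ℕ} (ha : a.totalDegree ≤ n)
    (hb : b.totalDegree ≤ n) : (a - b).totalDegree ≤ n :=
  (totalDegree_sub a b).trans (max_le ha hb)

private theorem deg_mul {σ : Type} {a b : MvPolynomial σ ℝ} {n m : ℕ} (ha : a.totalDegree ≤ n)
    (hb : b.totalDegree ≤ m) : (a * b).totalDegree ≤ n + m :=
  (totalDegree_mul a b).trans (add_le_add ha hb)

private theorem deg_vpk {σ : Type} (k : Fin 5)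
    (p : Fin 5 → MvPolynomial σ ℝ × MvPolynomial σ ℝ)
    (h : ∀ i, (p i).1.totalDegree ≤ 1 ∧ (p i).2.totalDegree ≤ 1) : (vpk k p).totalDegree ≤ 3 := by
  have hc : ∀ i j l m, (crossP (p i - p j) (p l - p m)).totalDegree ≤ 1 + 1 := fun i j l m =>
    deg_sub (deg_mul (deg_sub (h i).1 (h j).1) (deg_sub (h l).2 (h m).2))
      (deg_mul (deg_sub (h i).2 (h j).2) (deg_sub (h l).1 (h m).1))
  have h0 : (vpk 0 p).totalDegree ≤ 3 := (deg_sub (h 1).1 (h 0).1).trans (by norm_num)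
  have h1 : (vpk 1 p).totalDegree ≤ 3 := (deg_sub (h 1).2 (h 0).2).trans (by norm_num)
  have h2 : (vpk 2 p).totalDegree ≤ 3 := (hc 1 0 3 2).trans (by norm_num)
  have h3 : (vpk 3 p).totalDegree ≤ 3 :=
    deg_sub (deg_mul (hc 0 4 1 4) (deg_sub (h 3).1 (h 2).1))
      (deg_mul (hc 2 4 3 4) (deg_sub (h 1).1 (h 0).1))
  have h4 : (vpk 4 p).totalDegree ≤ 3 :=
    deg_sub (deg_mul (hc 0 4 1 4) (deg_sub (h 3).2 (h 2).2))
      (deg_mul (hc 2 4 3 4) (deg_sub (h 1).2 (h 0).2))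
  fin_cases k
  exacts [h0, h1, h2, h3, h4]

private noncomputable def vp {N : ℕ} (q : Tst N) : MvPolynomial (Fin N × Fin 2) ℝ :=
  vpk q.1 fun k => (X (q.2 k, 0), X (q.2 k, 1))

private theorem eval_vp {N : ℕ} (x : Fin N × Fin 2 → ℝ) (q : Tst N) :
    eval x (vp q) = val q.1 fun i => (x (q.2 i, 0), x (q.2 i, 1)) := by
  rw [vp, eval_vpk]
  simp only [eval_X]

private theorem range_eq (N : ℕ) : ((Om N : Finset (Tst N → SignType)) : Set (Tst N → SignType)) =
    Set.range fun (x : Fin N × Fin 2 → ℝ) (q : Tst N) => SignType.sign (eval x (vp q)) := by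
  ext ω
  rw [Finset.mem_coe, Om, Finset.mem_filter, Set.mem_range]
  constructor
  · rintro ⟨_, c, rfl⟩
    refine ⟨fun z => if z.2 = 0 then (c z.1).1 else (c z.1).2, ?_⟩
    funext q
    simp only [eval_vp, sgn]
    simp
  · rintro ⟨x, rfl⟩
    refine ⟨Finset.mem_univ _, fun i => (x (i, 0), x (i, 1)), ?_⟩
    funext q
    rw [eval_vp]
    rfl

end

theorem card_Om (N : ℕ) : (Om N).card ≤ (30 * N ^ 5 + 2) ^ (2 * N) := by
  have h := patterns_card (ν := Fin N × Fin 2) (ι := Tst N) vp 3 fun q =>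
    deg_vpk _ _ fun i => ⟨(MvPolynomial.totalDegree_X _).le, (MvPolynomial.totalDegree_X _).le⟩
  rw [← range_eq, Set.ncard_coe_finset] at h
  refine h.trans (le_of_eq ?_)
  simp only [Fintype.card_prod, Fintype.card_fin, Fintype.card_fun]
  rw [mul_comm N 2]
  congr 1
  ring

theorem Om_nonempty (N : ℕ) : (Om N).Nonempty := by
  exact ⟨sgn fun _ => 0, Finset.mem_filter.2 ⟨Finset.mem_univ _, _, rfl⟩⟩

end Pool.Agent.Helper55.DH
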