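import Pool.Agent.Helper55.DH.WStrict

/-!
# DH-W7: the number of all sign patterns (weak form of Warren's theorem)

For each realised pattern `σ` choose a point `x σ`. Let `δ > 0` be smaller than all nonzero `|f i (x σ)|` (finitely many numbers). The family `g : ι × Bool → _`,
`g (i, true) = f i - C δ`, `g (i, false) = f i + C δ` has degree `≤ D` (`totalDegree_sub`, `totalDegree_C`), does not vanish at the points `x σ`, and the strict pattern of
`g` at `x σ` determines `σ`: `f i (x σ) = 0` iff `g (i, true) < 0 < g (i, false)`; `f i (x σ) > 0` iff both `> 0`; `< 0` iff both `< 0`. So the number of patterns is at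
most the number of strict patterns of `g`, `#(ι × Bool) = 2 * #ι`.
-/

namespace Pool.Agent.Helper55.DH

open MvPolynomial

private theorem WPatterns_key {v δ : ℝ} (hδ : 0 < δ) (h : v ≠ 0 → δ < |v|) :
    v - δ ≠ 0 ∧ v + δ ≠ 0 ∧ SignType.sign v =
      if SignType.sign (v - δ) = SignType.sign (v + δ) then SignType.sign (v - δ) else 0 := by
  rcases lt_trichotomy v 0 with hv | hv | hv
  · have h1 := h hv.ne
    rw [abs_of_neg hv] at h1
    have h2 : v - δ < 0 := by linarith
    have h3 : v + δ < 0 := by linarith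
    refine ⟨h2.ne, h3.ne, ?_⟩
    rw [sign_neg hv, sign_neg h2, sign_neg h3]
    simp
  · subst hv
    have h2 : (0 : ℝ) - δ < 0 := by linarith
    have h3 : (0 : ℝ) < 0 + δ := by linarith
    refine ⟨h2.ne, h3.ne', ?_⟩
    rw [sign_neg h2, sign_pos h3, sign_zero]
    simp
  · have h1 := h hv.ne'
    rw [abs_of_pos hv] at h1
    have h2 : 0 < v - δ := by linarith
    have h3 : 0 < v + δ := by linarith
    refine ⟨h2.ne', h3.ne', ?_⟩
    rw [sign_pos hv, sign_pos h2, sign_pos h3]
    simp

theorem patterns_card {ν ι : Type} [Fintype ν] [Fintype ι] (f : ι → MvPolynomial ν ℝ) (D : ℕ)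
    (hD : ∀ i, (f i).totalDegree ≤ D) :
    (Set.range fun (x : ν → ℝ) (i : ι) => SignType.sign (eval x (f i))).ncard ≤
      (2 * Fintype.card ι * D + 2) ^ Fintype.card ν := by
  classical
  set S : Set (ι → SignType) := Set.range fun (x : ν → ℝ) (i : ι) => SignType.sign (eval x (f i)) with hS
  have hch : ∀ σ : ι → SignType, ∃ x : ν → ℝ, σ ∈ S → ∀ i, SignType.sign (eval x (f i)) = σ i := by
    intro σ
    by_cases hσ : σ ∈ S
    · obtain ⟨x, hx⟩ := hσ
      exact ⟨x, fun _ i => congrFun hx i⟩
    · exact ⟨0, fun h => absurd h hσ⟩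
  choose x hx using hch
  obtain ⟨δ, hδ, hδ0⟩ : ∃ δ : ℝ, (∀ (σ : ι → SignType) (i : ι), eval (x σ) (f i) ≠ 0 →
      δ < |eval (x σ) (f i)|) ∧ 0 < δ := by
    have h1 : ∀ᶠ δ in nhdsWithin (0 : ℝ) (Set.Ioi 0), ∀ (σ : ι → SignType) (i : ι),
        eval (x σ) (f i) ≠ 0 → δ < |eval (x σ) (f i)| := by
      rw [Filter.eventually_all]
      intro σ
      rw [Filter.eventually_all]
      intro i
      by_cases h : eval (x σ) (f i) = 0
      · exact Filter.Eventually.of_forall fun δ h' => absurd h h'
      · have h2 : (0 : ℝ) < |eval (x σ) (f i)| := abs_pos.2 h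
        filter_upwards [nhdsWithin_le_nhds (gt_mem_nhds h2)] with δ hδ _ using hδ
    have h2 : ∀ᶠ δ in nhdsWithin (0 : ℝ) (Set.Ioi 0), (0 : ℝ) < δ := self_mem_nhdsWithin
    obtain ⟨δ, h3, h4⟩ := (h1.and h2).exists
    exact ⟨δ, h3, h4⟩
  set g : ι × Bool → MvPolynomial ν ℝ := fun p => if p.2 then f p.1 - C δ else f p.1 + C δ with hg
  have hgD : ∀ p, (g p).totalDegree ≤ D := by
    rintro ⟨i, b⟩
    cases b
    · simp only [hg, Bool.false_eq_true, if_false]
      refine (totalDegree_add _ _).trans (max_le (hD i) ?_)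
      rw [totalDegree_C]
      exact Nat.zero_le _
    · simp only [hg, if_true]
      refine (totalDegree_sub _ _).trans (max_le (hD i) ?_)
      rw [totalDegree_C]
      exact Nat.zero_le _
  have hb := strict_patterns g D hgD
  have hcard : Fintype.card (ι × Bool) = 2 * Fintype.card ι := by
    rw [Fintype.card_prod, Fintype.card_bool, mul_comm]
  rw [hcard] at hb
  refine le_trans ?_ hb
  refine Set.ncard_le_ncard_of_injOn (fun σ p => SignType.sign (eval (x σ) (g p))) ?_ ?_
    (Set.toFinite _)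
  · intro σ hσ
    refine ⟨x σ, fun p => ⟨?_, rfl⟩⟩
    obtain ⟨i, b⟩ := p
    have h1 := WPatterns_key hδ0 (hδ σ i)
    cases b
    · simpa [hg] using h1.2.1
    · simpa [hg] using h1.1
  · intro σ hσ τ hτ h
    ext1 i
    rw [← hx σ hσ i, ← hx τ hτ i, (WPatterns_key hδ0 (hδ σ i)).2.2, (WPatterns_key hδ0 (hδ τ i)).2.2]
    have h1 : SignType.sign (eval (x σ) (f i) - δ) = SignType.sign (eval (x τ) (f i) - δ) := by
      have := congrFun h (i, true)
      simpa [hg] using this
    have h2 : SignType.sign (eval (x σ) (f i) + δ) = SignType.sign (eval (x τ) (f i) + δ) := by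
      have := congrFun h (i, false)
      simpa [hg] using this
    rw [h1, h2]

end Pool.Agent.Helper55.DH
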