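import Pool.Agent.Helper55.DH.WBezout
import Pool.Agent.Helper55.DH.WMax
import Mathlib.Data.Sign.Basic

/-!
# DH-W6: the number of strict sign patterns

`P = ∏ i, f i`, `deg P ≤ #ι * D` (`MvPolynomial.totalDegree_finset_prod`), `deg (critPoly P a j) ≤ #ι * D + 1`. Choose `a` by `generic_center P`. For every realised strict pattern `σ` let
`V σ = {x | ∀ i, f i x ≠ 0 ∧ sign (f i x) = σ i}` (open: finite intersection of `{0 < f i}`, `{f i < 0}`; on its frontier some `f i` vanishes, because
the `V σ` are also closed in `{P ≠ 0}`: if `x ∈ frontier V σ` and all `f i x ≠ 0`, then `sign (f i x) = σ i` by continuity, so `x ∈ V σ`, which is open). `exists_crit` gives `z σ ∈ V σ`,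
injective in `σ`. So the finite set `Z = {z σ}` has as many elements as there are patterns (take first an arbitrary finite subset of the patterns; the type `ι → SignType` is
finite), and `weak_bezout` with `E = #ι * D + 1` bounds it by `(#ι * D + 2) ^ #ν`.
-/

namespace Pool.Agent.Helper55.DH

open MvPolynomial

private theorem WStrict_open (s : SignType) : IsOpen {t : ℝ | t ≠ 0 ∧ SignType.sign t = s} := by
  have h0 : s = 0 ∨ s = 1 ∨ s = -1 := by
    cases s <;> decide
  rcases h0 with rfl | rfl | rfl
  · have : {t : ℝ | t ≠ 0 ∧ SignType.sign t = 0} = ∅ := by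
      ext t
      simp
    rw [this]
    exact isOpen_empty
  · have : {t : ℝ | t ≠ 0 ∧ SignType.sign t = 1} = Set.Ioi 0 := by
      ext t
      simp only [Set.mem_setOf_eq, Set.mem_Ioi, sign_eq_one_iff]
      exact ⟨fun h => h.2, fun h => ⟨ne_of_gt h, h⟩⟩
    rw [this]
    exact isOpen_Ioi
  · have : {t : ℝ | t ≠ 0 ∧ SignType.sign t = -1} = Set.Iio 0 := by
      ext t
      simp only [Set.mem_setOf_eq, Set.mem_Iio, sign_eq_neg_one_iff]
      exact ⟨fun h => h.2, fun h => ⟨ne_of_lt h, h⟩⟩
    rw [this]
    exact isOpen_Iio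

private theorem WStrict_closed (s : SignType) : IsClosed {t : ℝ | t ≠ 0 → SignType.sign t = s} := by
  have h0 : s = 0 ∨ s = 1 ∨ s = -1 := by
    cases s <;> decide
  rcases h0 with rfl | rfl | rfl
  · have : {t : ℝ | t ≠ 0 → SignType.sign t = 0} = {0} := by
      ext t
      simp only [Set.mem_setOf_eq, Set.mem_singleton_iff, sign_eq_zero_iff]
      exact ⟨fun h => by_contra fun h1 => h1 (h h1), fun h h1 => h⟩
    rw [this]
    exact isClosed_singleton
  · have : {t : ℝ | t ≠ 0 → SignType.sign t = 1} = Set.Ici 0 := by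
      ext t
      simp only [Set.mem_setOf_eq, Set.mem_Ici, sign_eq_one_iff]
      constructor
      · intro h
        by_cases h1 : t = 0
        · exact h1.ge
        · exact (h h1).le
      · intro h h1
        exact lt_of_le_of_ne h (Ne.symm h1)
    rw [this]
    exact isClosed_Ici
  · have : {t : ℝ | t ≠ 0 → SignType.sign t = -1} = Set.Iic 0 := by
      ext t
      simp only [Set.mem_setOf_eq, Set.mem_Iic, sign_eq_neg_one_iff]
      constructor
      · intro h
        by_cases h1 : t = 0
        · exact h1.le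
        · exact (h h1).le
      · intro h h1
        exact lt_of_le_of_ne h h1
    rw [this]
    exact isClosed_Iic

private theorem WStrict_deg {ν : Type} (j : ν) (P : MvPolynomial ν ℝ) :
    (pderiv j P).totalDegree ≤ P.totalDegree := by
  classical
  conv_lhs => rw [P.as_sum]
  rw [map_sum]
  refine totalDegree_finsetSum_le fun s hs => ?_
  rw [pderiv_monomial]
  refine (totalDegree_monomial_le _ _).trans ?_
  refine le_trans ?_ (le_totalDegree hs)
  rw [Finsupp.sum_of_support_subset (s := s.support) (s - Finsupp.single j 1)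
    (Finsupp.support_tsub) _ (fun _ _ => rfl), Finsupp.sum]
  refine Finset.sum_le_sum fun i _ => ?_
  simp only [Finsupp.coe_tsub, Pi.sub_apply]
  exact Nat.sub_le _ _

theorem strict_patterns {ν ι : Type} [Fintype ν] [Fintype ι] (f : ι → MvPolynomial ν ℝ) (D : ℕ)
    (hD : ∀ i, (f i).totalDegree ≤ D) :
    {σ : ι → SignType | ∃ x : ν → ℝ, ∀ i, eval x (f i) ≠ 0 ∧ SignType.sign (eval x (f i)) = σ i}.ncard ≤
      (Fintype.card ι * D + 2) ^ Fintype.card ν := by
  classical
  set S : Set (ι → SignType) :=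
    {σ : ι → SignType | ∃ x : ν → ℝ, ∀ i, eval x (f i) ≠ 0 ∧ SignType.sign (eval x (f i)) = σ i} with hS
  obtain ⟨a, ha⟩ := generic_center (∏ i, f i)
  set P : MvPolynomial ν ℝ := ∏ i, f i with hP
  have hce : ∀ p : MvPolynomial ν ℝ, Continuous fun x : ν → ℝ => eval x p := fun p =>
    continuous_iff_continuousAt.2 fun x => (hasStrictFDerivAt_eval p x).continuousAt
  have hPne : ∀ x : ν → ℝ, eval x P ≠ 0 ↔ ∀ i, eval x (f i) ≠ 0 := by
    intro x
    rw [hP, map_prod, Finset.prod_ne_zero_iff]
    simp
  have hcrit : ∀ σ ∈ S, ∃ z : ν → ℝ, (∀ i, eval z (f i) ≠ 0 ∧ SignType.sign (eval z (f i)) = σ i) ∧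
      ∀ j, eval z (critPoly P a j) = 0 := by
    intro σ hσ
    have hopen : IsOpen {x : ν → ℝ | ∀ i, eval x (f i) ≠ 0 ∧ SignType.sign (eval x (f i)) = σ i} := by
      rw [Set.setOf_forall]
      exact isOpen_iInter_of_finite fun i => (WStrict_open (σ i)).preimage (hce (f i))
    have hclosed : IsClosed {x : ν → ℝ | ∀ i, eval x (f i) ≠ 0 → SignType.sign (eval x (f i)) = σ i} := by
      rw [Set.setOf_forall]
      exact isClosed_iInter fun i => (WStrict_closed (σ i)).preimage (hce (f i))
    obtain ⟨z, hz1, hz2⟩ := exists_crit P a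
      {x : ν → ℝ | ∀ i, eval x (f i) ≠ 0 ∧ SignType.sign (eval x (f i)) = σ i} hopen hσ
      (fun x hx => (hPne x).2 fun i => (hx i).1) (by
        intro x hx
        by_contra hne
        rw [hopen.frontier_eq] at hx
        have hsub : {x : ν → ℝ | ∀ i, eval x (f i) ≠ 0 ∧ SignType.sign (eval x (f i)) = σ i} ⊆
            {x : ν → ℝ | ∀ i, eval x (f i) ≠ 0 → SignType.sign (eval x (f i)) = σ i} :=
          fun y hy i _ => (hy i).2
        have h1 : x ∈ {x : ν → ℝ | ∀ i, eval x (f i) ≠ 0 → SignType.sign (eval x (f i)) = σ i} :=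
          closure_minimal hsub hclosed hx.1
        exact hx.2 fun i => ⟨(hPne x).1 hne i, h1 i ((hPne x).1 hne i)⟩)
    exact ⟨z, hz1, hz2⟩
  choose! z hz1 hz2 using hcrit
  have hfin : S.Finite := Set.toFinite S
  have hinj : Set.InjOn z S := by
    intro σ hσ τ hτ h
    ext1 i
    rw [← (hz1 σ hσ i).2, ← (hz1 τ hτ i).2, h]
  have hcard : (hfin.toFinset.image z).card = S.ncard := by
    rw [Finset.card_image_of_injOn (by rwa [hfin.coe_toFinset]), Set.ncard_eq_toFinset_card S hfin]
  have hPdeg : P.totalDegree ≤ Fintype.card ι * D := by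
    refine (totalDegree_finset_prod _ _).trans ?_
    refine (Finset.sum_le_sum fun i _ => hD i).trans ?_
    simp
  have hdeg : ∀ j, (critPoly P a j).totalDegree ≤ Fintype.card ι * D + 1 := by
    intro j
    unfold critPoly
    refine (totalDegree_sub _ _).trans (max_le ?_ ?_)
    · exact ((WStrict_deg j P).trans hPdeg).trans (Nat.le_succ _)
    · refine (totalDegree_mul _ _).trans ?_
      have h1 : (C 2 * (X j - C (a j)) : MvPolynomial ν ℝ).totalDegree ≤ 1 := by
        refine (totalDegree_mul _ _).trans ?_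
        rw [totalDegree_C, zero_add]
        refine (totalDegree_sub _ _).trans (max_le ?_ ?_)
        · rw [totalDegree_X]
        · rw [totalDegree_C]
          exact Nat.zero_le _
      omega
  have hb := weak_bezout (critPoly P a) (Fintype.card ι * D + 1) hdeg (hfin.toFinset.image z) (by
    intro y hy
    obtain ⟨σ, hσ, rfl⟩ := Finset.mem_image.1 hy
    have hσ' : σ ∈ S := hfin.mem_toFinset.1 hσ
    refine ⟨hz2 σ hσ', ha _ ((hPne _).2 fun i => (hz1 σ hσ' i).1) (hz2 σ hσ')⟩)
  rw [hcard] at hb
  exact hb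

end Pool.Agent.Helper55.DH
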